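import Pool.Agent.Lib.H59X.EP4
import Pool.Agent.Lib.H33B.SR2

/-!
# Project H59X (MP_0bf1d2_nt): Schinzel's formula for almost all constant terms. Definitions

See `PROOF.md` in this folder.
-/

open Finset Polynomial

namespace Pool.Agent.Lib.H59X

open Pool.Agent.Lib.H59 (argSet argCount Admissible primeCount omegaN seriesTrunc rootCount)
open Pool.Agent.Lib.H68T (lp)
open Pool.Agent.Lib.H33B (Lq Lw PW SieveWt)

/-- The system `P_1 + h_1, …, P_g + h_g`. -/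
noncomputable def fam {g : ℕ} (P : Fin g → ℤ[X]) (h : Fin g → ℕ) : Fin g → ℤ[X] :=
  fun i => P i + C (h i : ℤ)

/-- The box `1 ≤ h_i ≤ H_i`. -/
def Box {g : ℕ} (H : Fin g → ℕ) : Finset (Fin g → ℕ) := Fintype.piFinset fun i => Icc 1 (H i)

/-- `H_1 ⋯ H_g` -/
noncomputable def vol {g : ℕ} (H : Fin g → ℕ) : ℝ := ∏ i, (H i : ℝ)

/-- The sides `H_i` of the box have the order of magnitude `X^(deg P_i)`. -/
structure Fit (C₁ : ℝ) (X : ℕ) {g : ℕ} (P : Fin g → ℤ[X]) (H : Fin g → ℕ) : Prop where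
  lo : ∀ i, (X : ℝ) ^ (P i).natDegree ≤ C₁ * H i
  hi : ∀ i, (H i : ℝ) ≤ C₁ * (X : ℝ) ^ (P i).natDegree

/-- Degrees between `1` and `A`, leading coefficients (of any sign) at most `A` in absolute value. -/
structure Pol (A : ℕ) {g : ℕ} (P : Fin g → ℤ[X]) : Prop where
  deg : ∀ i, 1 ≤ (P i).natDegree
  degA : ∀ i, (P i).natDegree ≤ A
  lc : ∀ i, (P i).leadingCoeff.natAbs ≤ A

/-- The deterministic polynomial: none (`r = 0`) or a linear one (`r = 1`). -/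
def Bas (A r : ℕ) (B : ℤ[X]) : Prop :=
  (r = 0 ∧ B = 1) ∨ (r = 1 ∧ B.natDegree = 1 ∧ B.leadingCoeff.natAbs ≤ A)

/-- Its weight: `1`, or `log B(n)` if `B(n)` is prime and `0` otherwise. -/
noncomputable def bw (r : ℕ) (B : ℤ[X]) (n : ℕ) : ℝ := if r = 0 then 1 else lp (B.eval (n : ℤ))

/-- The local model of `bw`. -/
noncomputable def bL (r : ℕ) (B : ℤ[X]) (q v : ℕ) : ℝ := if r = 0 then 1 else Lq q (B.eval (v : ℤ))

/-- `B ∏ (P_i + h_i)` -/
noncomputable def QQ (B : ℤ[X]) {g : ℕ} (P : Fin g → ℤ[X]) (h : Fin g → ℕ) : ℤ[X] :=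
  B * ∏ i, fam P h i

/-- The product over `p < z` of the local factors of a product `Q` of `m` polynomials. -/
noncomputable def ssz (m : ℕ) (Q : ℤ[X]) (z : ℕ) : ℝ :=
  ∏ p ∈ Nat.primesBelow z, (1 - (rootCount Q p : ℝ) / p) * ((1 - 1 / (p : ℝ)) ^ m)⁻¹

/-- `⌊X^(1/M)⌋` -/
noncomputable def zz (M X : ℕ) : ℕ := ⌊(X : ℝ) ^ ((1 : ℝ) / M)⌋₊

/-- A full system of residues modulo `q`. -/
def cube (g q : ℕ) : Finset (Fin g → ℕ) := Fintype.piFinset fun _ => range q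

/-- `F(h)` depends only on `h` modulo `q`. -/
def Per (q : ℕ) {g : ℕ} (F : (Fin g → ℕ) → ℝ) : Prop :=
  ∀ h h' : Fin g → ℕ, (∀ i, h i ≡ h' i [MOD q]) → F h = F h'

/-- The mean over a full system of residues modulo `q`. -/
noncomputable def mean (q : ℕ) {g : ℕ} (F : (Fin g → ℕ) → ℝ) : ℝ :=
  (∑ h ∈ cube g q, F h) / (q : ℝ) ^ g

/-- The local factor at `p` of `B` and the `P_i + h_i`, `i ∈ I`. -/
noncomputable def af (r : ℕ) (B : ℤ[X]) {g : ℕ} (P : Fin g → ℤ[X]) (I : Finset (Fin g)) (p : ℕ)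
    (h : Fin g → ℕ) : ℝ :=
  (∑ v ∈ range p, bL r B p v * ∏ i ∈ I, Lq p ((P i).eval (v : ℤ) + h i)) / p

/-- The mean value of the model with the levels `u_i` and `U`. -/
noncomputable def mixv (r : ℕ) (B : ℤ[X]) {g : ℕ} (P : Fin g → ℤ[X]) (u : Fin g → ℕ) (U : ℕ)
    (h : Fin g → ℕ) : ℝ :=
  (∑ v ∈ range (PW U), bL r B (PW U) v * ∏ i, Lw (u i) ((P i).eval (v : ℤ) + h i)) / PW U

/-- The prime number theorem for `B` in the residue classes modulo `PW U`, on all `[1, x]`, `x ≤ X`. -/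
def BEq (r : ℕ) (B : ℤ[X]) (U X : ℕ) (η : ℝ) : Prop :=
  ∀ x ≤ X, ∀ v : ℕ, |∑ n ∈ (Icc 1 x).filter (fun n => n ≡ v [MOD PW U]), bw r B n -
    x / PW U * bL r B (PW U) v| ≤ η * X

/-- `1` if `m` is a prime and `0` otherwise. -/
noncomputable def pr (m : ℤ) : ℝ := if m.toNat.Prime then 1 else 0

/-- `1` if there is no deterministic polynomial, or `B(n)` is prime, and `0` otherwise. -/
noncomputable def pb (r : ℕ) (B : ℤ[X]) (n : ℕ) : ℝ := if r = 0 then 1 else pr (B.eval (n : ℤ))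

end Pool.Agent.Lib.H59X
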