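import Pool.Agent.Lib.H59X.Defs
import Pool.Agent.Lib.PNT.PNT

/-!
# Chunk B1: the deterministic polynomial
-/

open Finset Polynomial

namespace Pool.Agent.Lib.H59X

open Pool.Agent.Lib.H59 (argSet argCount Admissible primeCount omegaN seriesTrunc rootCount)
open Pool.Agent.Lib.H68T (lp)
open Pool.Agent.Lib.H33B (Lq Lw PW SieveWt)
open Pool.Agent.Lib.PNT (thetaP thetaAP_tendsto)

theorem B1_PW_pos (U : ℕ) : 0 < PW U := by
  unfold PW
  exact Finset.prod_pos fun p hp => (Nat.prime_of_mem_primesBelow hp).pos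

/-- Proof. The number of the `n ≤ x` in a class modulo `q = PW U` is `x/q + O(1)`; `1 ≤ η X` for large `X`. -/
theorem beq_zero (U : ℕ) (η : ℝ) (hη : 0 < η) : ∃ X₀ : ℕ, ∀ X : ℕ, X₀ ≤ X → BEq 0 1 U X η := by
  obtain ⟨X₀, hX₀⟩ := exists_nat_ge (2 / η)
  refine ⟨X₀, fun X hX x _ v => ?_⟩
  have hq : 0 < PW U := B1_PW_pos U
  have hqR : (0 : ℝ) < (PW U : ℝ) := by exact_mod_cast hq
  have h1 : ∑ n ∈ (Icc 1 x).filter (fun n => n ≡ v [MOD PW U]), bw 0 1 n
      = (#{n ∈ Ioc 0 x | n ≡ v [MOD PW U]} : ℝ) := by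
    unfold bw
    simp only [if_true, sum_const, nsmul_eq_mul, mul_one]
    rfl
  have h2 := Nat.Ioc_filter_modEq_card 0 x hq v
  have h3 : ((#{n ∈ Ioc 0 x | n ≡ v [MOD PW U]} : ℕ) : ℝ)
      = ((max (⌊((x : ℚ) - v) / (PW U : ℚ)⌋ - ⌊(((0 : ℕ) : ℚ) - v) / (PW U : ℚ)⌋) 0 : ℤ) : ℝ) := by
    rw [← h2]; push_cast; rfl
  rw [h1, h3]
  unfold bL
  rw [if_pos rfl, mul_one]
  have hqQ : (0 : ℚ) < (PW U : ℚ) := by exact_mod_cast hq
  set A := ⌊((x : ℚ) - v) / (PW U : ℚ)⌋ with hA
  set B := ⌊(((0 : ℕ) : ℚ) - v) / (PW U : ℚ)⌋ with hB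
  have a1 : (A : ℚ) ≤ ((x : ℚ) - v) / (PW U : ℚ) := Int.floor_le _
  have a2 : ((x : ℚ) - v) / (PW U : ℚ) < A + 1 := Int.lt_floor_add_one _
  have b1 : (B : ℚ) ≤ (((0 : ℕ) : ℚ) - v) / (PW U : ℚ) := Int.floor_le _
  have b2 : (((0 : ℕ) : ℚ) - v) / (PW U : ℚ) < B + 1 := Int.lt_floor_add_one _
  have e : ((x : ℚ) - v) / (PW U : ℚ) - (((0 : ℕ) : ℚ) - v) / (PW U : ℚ) = (x : ℚ) / (PW U : ℚ) := by
    push_cast; ring
  have hx0 : (0 : ℚ) ≤ (x : ℚ) / (PW U : ℚ) := by positivity
  have hm : ((max (A - B) 0 : ℤ) : ℚ) - (x : ℚ) / (PW U : ℚ) ≤ 1 ∧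
      -1 ≤ ((max (A - B) 0 : ℤ) : ℚ) - (x : ℚ) / (PW U : ℚ) := by
    rcases le_total (A - B) 0 with h | h
    · rw [max_eq_right h]
      have h' : (A : ℚ) - B ≤ 0 := by exact_mod_cast h
      constructor
      · push_cast; linarith
      · push_cast; linarith
    · rw [max_eq_left h]
      constructor
      · push_cast; linarith
      · push_cast; linarith
  have hm' : ((max (A - B) 0 : ℤ) : ℝ) - (x : ℝ) / (PW U : ℝ) ≤ 1 ∧
      -1 ≤ ((max (A - B) 0 : ℤ) : ℝ) - (x : ℝ) / (PW U : ℝ) := by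
    have c1 := (Rat.cast_le (K := ℝ)).2 hm.1
    have c2 := (Rat.cast_le (K := ℝ)).2 hm.2
    push_cast at c1 c2
    push_cast
    exact ⟨c1, c2⟩
  rw [abs_le]
  have hbig : 2 ≤ η * X := by
    have h4 : 2 / η ≤ (X : ℝ) := hX₀.trans (by exact_mod_cast hX)
    rw [div_le_iff₀ hη] at h4
    linarith
  constructor <;> linarith [hm'.1, hm'.2]

/-- The uniform prime number theorem for a fixed modulus. -/
theorem B1_theta (m : ℕ) [NeZero m] (ε : ℝ) (hε : 0 < ε) (R : ℝ) (hR : 0 ≤ R) :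
    ∃ T₀ : ℝ, 0 < T₀ ∧ ∀ T : ℝ, T₀ ≤ T → ∀ t : ℝ, -R ≤ t → t ≤ T → ∀ c : ZMod m,
      |thetaP (fun p => (p : ZMod m) = c) t - (if IsUnit c then t / m.totient else 0)| ≤ ε * T := by
  classical
  have hφ : (0 : ℝ) < (m.totient : ℝ) := by exact_mod_cast m.totient.pos_of_neZero
  have hφ1 : (1 : ℝ) ≤ (m.totient : ℝ) := by exact_mod_cast m.totient.pos_of_neZero
  have key : ∀ c : ZMod m, ∃ T₀ : ℝ, 0 < T₀ ∧ ∀ T : ℝ, T₀ ≤ T → ∀ t : ℝ, -R ≤ t → t ≤ T →
      |thetaP (fun p => (p : ZMod m) = c) t - (if IsUnit c then t / m.totient else 0)|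
        ≤ ε * T := by
    intro c
    have hneg : ∀ t : ℝ, t < 0 → thetaP (fun p => (p : ZMod m) = c) t = 0 := by
      intro t ht
      unfold thetaP
      rw [Nat.floor_of_nonpos ht.le]
      simp
    by_cases hc : IsUnit c
    · simp only [if_pos hc]
      have h1 := thetaAP_tendsto hc
      have h2 := (Metric.tendsto_atTop.1 h1) ε hε
      obtain ⟨T1, hT1⟩ := h2
      set C := thetaP (fun p => (p : ZMod m) = c) (max T1 1) + max T1 1 + R with hC
      have hC0 : 0 ≤ thetaP (fun p => (p : ZMod m) = c) (max T1 1) := PNT.thetaP_nonneg _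
      have hm1 : 1 ≤ max T1 1 := le_max_right _ _
      refine ⟨max 1 (C / ε), by positivity, fun T hT t ht1 ht2 => ?_⟩
      have hT1' : 1 ≤ T := (le_max_left _ _).trans hT
      have hCT : C ≤ ε * T := by
        have := (le_max_right _ _).trans hT
        rw [div_le_iff₀ hε] at this
        linarith
      rcases lt_or_ge t 0 with h0 | h0
      · rw [hneg t h0, zero_sub, abs_neg, abs_div, abs_of_neg h0, abs_of_pos hφ,
          div_le_iff₀ hφ]
        have : -t ≤ ε * T := by linarith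
        nlinarith
      · rcases le_total t (max T1 1) with h | h
        · have ha : thetaP (fun p => (p : ZMod m) = c) t
              ≤ thetaP (fun p => (p : ZMod m) = c) (max T1 1) := PNT.thetaP_mono h
          have hb : 0 ≤ thetaP (fun p => (p : ZMod m) = c) t := PNT.thetaP_nonneg _
          have hd : t / (m.totient : ℝ) ≤ t := div_le_self h0 hφ1
          have hd0 : 0 ≤ t / (m.totient : ℝ) := by positivity
          rw [abs_le]
          constructor <;> linarith
        · have h3 := hT1 t ((le_max_left _ _).trans h)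
          rw [Real.dist_eq] at h3
          have ht0 : 0 < t := by linarith
          have e : thetaP (fun p => (p : ZMod m) = c) t - t / (m.totient : ℝ)
              = t * (thetaP (fun p => (p : ZMod m) = c) t / t - (m.totient : ℝ)⁻¹) := by
            field_simp
          rw [e, abs_mul, abs_of_pos ht0]
          calc t * _ ≤ t * ε := mul_le_mul_of_nonneg_left h3.le ht0.le
            _ ≤ ε * T := by nlinarith
    · simp only [if_neg hc, sub_zero]
      set C := ∑ p ∈ m.primeFactors, Real.log p with hC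
      refine ⟨max 1 (C / ε), by positivity, fun T hT t ht1 ht2 => ?_⟩
      have hCT : C ≤ ε * T := by
        have := (le_max_right _ _).trans hT
        rw [div_le_iff₀ hε] at this
        linarith
      rw [abs_of_nonneg (PNT.thetaP_nonneg _)]
      refine le_trans ?_ hCT
      unfold thetaP
      apply Finset.sum_le_sum_of_subset_of_nonneg
      · intro p hp
        rw [mem_filter] at hp
        obtain ⟨_, hp1, hp2⟩ := hp
        rw [Nat.mem_primeFactors]
        refine ⟨hp1, ?_, NeZero.ne m⟩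
        by_contra hd
        apply hc
        rw [← hp2]
        exact (ZMod.isUnit_iff_coprime p m).2 ((Nat.Prime.coprime_iff_not_dvd hp1).2 hd)
      · intro i _ _
        exact Real.log_natCast_nonneg i
  choose T₀ h0 h using key
  refine ⟨∑ c, T₀ c, Finset.sum_pos (fun c _ => h0 c) Finset.univ_nonempty,
    fun T hT t ht1 ht2 c => h c T ?_ t ht1 ht2⟩
  exact (Finset.single_le_sum (f := T₀) (fun c _ => (h0 c).le) (Finset.mem_univ c)).trans hT

theorem B1_floor (z : ℤ) : ⌊(z : ℝ)⌋₊ = z.toNat := by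
  rw [← Int.floor_toNat, Int.floor_intCast]

theorem B1_theta_sub (P : ℕ → Prop) [DecidablePred P] (z₁ z₂ : ℤ) (h : z₁ ≤ z₂) :
    thetaP P (z₂ : ℝ) - thetaP P (z₁ : ℝ) =
      ∑ p ∈ (Ioc z₁.toNat z₂.toNat).filter (fun p => p.Prime ∧ P p), Real.log p := by
  unfold thetaP
  rw [B1_floor, B1_floor, sub_eq_iff_eq_add, ← Finset.sum_union]
  · congr 1
    rw [← Finset.filter_union]
    congr 1
    ext p
    simp only [mem_Ioc, mem_union]
    have : z₁.toNat ≤ z₂.toNat := Int.toNat_le_toNat h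
    omega
  · rw [Finset.disjoint_left]
    intro p hp1 hp2
    simp only [mem_filter, mem_Ioc] at hp1 hp2
    omega

theorem B1_sum (a : ℤ) (ha : 0 < a) (b : ℤ) (q : ℕ) (hq : 0 < q) (x v : ℕ) :
    ∑ n ∈ (Icc 1 x).filter (fun n => n ≡ v [MOD q]), lp (a * n + b) =
      thetaP (fun p => (p : ZMod (a.toNat * q)) = ((a * v + b : ℤ) : ZMod (a.toNat * q)))
        ((a * x + b : ℤ) : ℝ) -
      thetaP (fun p => (p : ZMod (a.toNat * q)) = ((a * v + b : ℤ) : ZMod (a.toNat * q)))
        ((b : ℤ) : ℝ) := by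
  classical
  have haN : ((a.toNat : ℕ) : ℤ) = a := Int.toNat_of_nonneg ha.le
  rw [B1_theta_sub _ _ _ (by nlinarith [Nat.cast_nonneg (α := ℤ) x])]
  unfold H68T.lp
  rw [← Finset.sum_filter, Finset.filter_filter]
  refine Finset.sum_nbij (fun n : ℕ => (a * n + b).toNat) ?_ ?_ ?_ ?_
  · intro n hn
    simp only [mem_filter, mem_Icc, mem_Ioc] at hn ⊢
    obtain ⟨⟨h1, h2⟩, h3, h4⟩ := hn
    have h5 : 0 < (a * n + b).toNat := h4.pos
    have h6 : 0 < a * n + b := by omega
    have h7 : a * n ≤ a * x := by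
      apply mul_le_mul_of_nonneg_left _ ha.le
      exact_mod_cast h2
    have h8 : a * 1 ≤ a * n := by
      apply mul_le_mul_of_nonneg_left _ ha.le
      exact_mod_cast h1
    refine ⟨⟨by omega, by omega⟩, h4, ?_⟩
    have h9 : (((a * n + b).toNat : ℕ) : ZMod (a.toNat * q)) = ((a * n + b : ℤ) : ZMod (a.toNat * q)) := by
      rw [← Int.cast_natCast, Int.toNat_of_nonneg h6.le]
    rw [h9, ZMod.intCast_eq_intCast_iff]
    push_cast
    rw [haN]
    apply Int.ModEq.add_right
    apply Int.ModEq.mul_left'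
    exact_mod_cast h3
  · intro n hn n' hn' hnn
    simp only [coe_filter, Set.mem_ofPred_eq, mem_Icc] at hn hn'
    have h1 := hn.2.2.pos
    have h2 := hn'.2.2.pos
    have h3 : a * n + b = a * n' + b := by
      simp only at hnn
      omega
    have h4 : a * (n : ℤ) = a * (n' : ℤ) := by linarith
    have h5 := mul_left_cancel₀ ha.ne' h4
    exact_mod_cast h5
  · intro p hp
    simp only [coe_filter, Set.mem_ofPred_eq, mem_Ioc] at hp
    obtain ⟨⟨h1, h2⟩, h3, h4⟩ := hp
    rw [← Int.cast_natCast, ZMod.intCast_eq_intCast_iff] at h4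
    push_cast at h4
    rw [haN] at h4
    obtain ⟨k, hk⟩ := h4.symm.dvd
    -- p - (a v + b) = a q k
    have hp : (p : ℤ) = a * (v + q * k) + b := by linarith
    have hpb : b < (p : ℤ) := by omega
    have hpx : (p : ℤ) ≤ a * x + b := by
      have := h3.pos
      omega
    have h5 : 0 < (v : ℤ) + q * k := by
      by_contra hcon
      push Not at hcon
      have := mul_nonpos_of_nonneg_of_nonpos ha.le hcon
      linarith
    have h6 : (v : ℤ) + q * k ≤ x := by
      have : a * ((v : ℤ) + q * k) ≤ a * x := by linarith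
      exact le_of_mul_le_mul_left this ha
    obtain ⟨n, hn⟩ := Int.eq_ofNat_of_zero_le h5.le
    rw [hn] at hp h5 h6
    refine ⟨n, ?_, ?_⟩
    · simp only [coe_filter, Set.mem_ofPred_eq, mem_Icc]
      refine ⟨⟨by omega, by omega⟩, ?_, ?_⟩
      · have : (n : ℤ) ≡ v [ZMOD q] := by
          rw [← hn]
          exact Int.ModEq.symm (Int.modEq_iff_dvd.2 ⟨k, by ring⟩)
        exact_mod_cast this
      · rw [← hp]; simpa using h3
    · simp only
      rw [← hp]; simp
  · intro n hn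
    simp only [mem_filter, mem_Icc] at hn
    have h1 := hn.2.2.pos
    have h2 : 0 < a * n + b := by omega
    have h3 : (((a * n + b).toNat : ℕ) : ℝ) = ((a * n + b : ℤ) : ℝ) := by
      rw [← Int.cast_natCast, Int.toNat_of_nonneg h2.le]
    simp only [h3]

theorem B1_sum_sub (a : ℤ) (ha : 0 < a) (M : ℤ) (q : ℕ) (hq : 0 < q) (x v : ℕ) :
    ∑ n ∈ (Icc 1 x).filter (fun n => n ≡ v [MOD q]), lp (M - a * n) =
      thetaP (fun p => (p : ZMod (a.toNat * q)) = ((M - a * v : ℤ) : ZMod (a.toNat * q)))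
        ((M - 1 : ℤ) : ℝ) -
      thetaP (fun p => (p : ZMod (a.toNat * q)) = ((M - a * v : ℤ) : ZMod (a.toNat * q)))
        ((M - a * x - 1 : ℤ) : ℝ) := by
  classical
  have haN : ((a.toNat : ℕ) : ℤ) = a := Int.toNat_of_nonneg ha.le
  rw [B1_theta_sub _ _ _ (by nlinarith [Nat.cast_nonneg (α := ℤ) x])]
  unfold H68T.lp
  rw [← Finset.sum_filter, Finset.filter_filter]
  refine Finset.sum_nbij (fun n : ℕ => (M - a * n).toNat) ?_ ?_ ?_ ?_
  · intro n hn
    simp only [mem_filter, mem_Icc, mem_Ioc] at hn ⊢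
    obtain ⟨⟨h1, h2⟩, h3, h4⟩ := hn
    have h5 : 0 < (M - a * n).toNat := h4.pos
    have h6 : 0 < M - a * n := by omega
    have h7 : a * n ≤ a * x := by
      apply mul_le_mul_of_nonneg_left _ ha.le
      exact_mod_cast h2
    have h8 : a * 1 ≤ a * n := by
      apply mul_le_mul_of_nonneg_left _ ha.le
      exact_mod_cast h1
    refine ⟨⟨by omega, by omega⟩, h4, ?_⟩
    have h9 : (((M - a * n).toNat : ℕ) : ZMod (a.toNat * q)) = ((M - a * n : ℤ) : ZMod (a.toNat * q)) := by
      rw [← Int.cast_natCast, Int.toNat_of_nonneg h6.le]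
    rw [h9, ZMod.intCast_eq_intCast_iff]
    push_cast
    rw [haN]
    apply Int.ModEq.sub_left
    apply Int.ModEq.mul_left'
    exact_mod_cast h3
  · intro n hn n' hn' hnn
    simp only [coe_filter, Set.mem_ofPred_eq, mem_Icc] at hn hn'
    have h1 := hn.2.2.pos
    have h2 := hn'.2.2.pos
    have h3 : M - a * n = M - a * n' := by
      simp only at hnn
      omega
    have h4 : a * (n : ℤ) = a * (n' : ℤ) := by linarith
    have h5 := mul_left_cancel₀ ha.ne' h4
    exact_mod_cast h5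
  · intro p hp
    simp only [coe_filter, Set.mem_ofPred_eq, mem_Ioc] at hp
    obtain ⟨⟨h1, h2⟩, h3, h4⟩ := hp
    rw [← Int.cast_natCast, ZMod.intCast_eq_intCast_iff] at h4
    push_cast at h4
    rw [haN] at h4
    obtain ⟨k, hk⟩ := h4.dvd
    -- (M - a v) - p = a q k
    have hp : (p : ℤ) = M - a * (v + q * k) := by linarith
    have hpb : (p : ℤ) ≤ M - 1 := by
      have := h3.pos
      omega
    have hpx : M - a * x - 1 < (p : ℤ) := by omega
    have h5 : 0 < (v : ℤ) + q * k := by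
      by_contra hcon
      push Not at hcon
      have := mul_nonpos_of_nonneg_of_nonpos ha.le hcon
      linarith
    have h6 : (v : ℤ) + q * k ≤ x := by
      have : a * ((v : ℤ) + q * k) ≤ a * x := by linarith
      exact le_of_mul_le_mul_left this ha
    obtain ⟨n, hn⟩ := Int.eq_ofNat_of_zero_le h5.le
    rw [hn] at hp h5 h6
    refine ⟨n, ?_, ?_⟩
    · simp only [coe_filter, Set.mem_ofPred_eq, mem_Icc]
      refine ⟨⟨by omega, by omega⟩, ?_, ?_⟩
      · have : (n : ℤ) ≡ v [ZMOD q] := by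
          rw [← hn]
          exact Int.ModEq.symm (Int.modEq_iff_dvd.2 ⟨k, by ring⟩)
        exact_mod_cast this
      · rw [← hp]; simpa using h3
    · simp only
      rw [← hp]; simp
  · intro n hn
    simp only [mem_filter, mem_Icc] at hn
    have h1 := hn.2.2.pos
    have h2 : 0 < M - a * n := by omega
    have h3 : (((M - a * n).toNat : ℕ) : ℝ) = ((M - a * n : ℤ) : ℝ) := by
      rw [← Int.cast_natCast, Int.toNat_of_nonneg h2.le]
    simp only [h3]

/-- Coprimality and the totient for a modulus `a q` with `a < U`, `q = PW U`. -/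
theorem B1_primeFactors (a U : ℕ) (ha : 0 < a) (haU : a < U) :
    (a * PW U).primeFactors = (PW U).primeFactors := by
  have hq := B1_PW_pos U
  rw [Nat.primeFactors_mul ha.ne' hq.ne', Finset.union_eq_right]
  intro p hp
  have hp' := Nat.prime_of_mem_primeFactors hp
  have hle : p ≤ a := Nat.le_of_mem_primeFactors hp
  rw [Nat.mem_primeFactors]
  refine ⟨hp', ?_, hq.ne'⟩
  unfold PW
  exact Finset.dvd_prod_of_mem _ (Nat.mem_primesBelow.2 ⟨by omega, hp'⟩)

theorem B1_totient (a U : ℕ) (ha : 0 < a) (haU : a < U) :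
    (a * PW U).totient = a * (PW U).totient := by
  have h1 := Nat.totient_mul_prod_primeFactors (a * PW U)
  have h2 := Nat.totient_mul_prod_primeFactors (PW U)
  rw [B1_primeFactors a U ha haU] at h1
  have hpos : 0 < ∏ p ∈ (PW U).primeFactors, p :=
    Finset.prod_pos fun p hp => (Nat.prime_of_mem_primeFactors hp).pos
  apply Nat.eq_of_mul_eq_mul_right hpos
  rw [h1, mul_assoc, mul_assoc, h2]

theorem B1_coprime (a U : ℕ) (ha : 0 < a) (haU : a < U) (m : ℤ) :
    IsUnit ((m : ℤ) : ZMod (a * PW U)) ↔ IsCoprime m (PW U : ℤ) := by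
  rw [ZMod.coe_int_isUnit_iff_isCoprime, Int.isCoprime_iff_gcd_eq_one, Int.isCoprime_iff_gcd_eq_one,
    Int.gcd_comm, Int.gcd_eq_natAbs, Int.gcd_eq_natAbs, Int.natAbs_natCast, Int.natAbs_natCast]
  have hq := B1_PW_pos U
  have hb : (0 : ℕ) < a * PW U := Nat.mul_pos ha hq
  constructor
  · intro h
    exact Nat.Coprime.coprime_mul_left_right h
  · intro h
    by_contra hcon
    obtain ⟨p, hp, h1, h2⟩ := Nat.Prime.not_coprime_iff_dvd.1 hcon
    have h3 : p ∈ (a * PW U).primeFactors := Nat.mem_primeFactors.2 ⟨hp, h2, hb.ne'⟩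
    rw [B1_primeFactors a U ha haU] at h3
    have h4 := Nat.dvd_of_mem_primeFactors h3
    exact Nat.Prime.not_coprime_iff_dvd.2 ⟨p, hp, h1, h4⟩ h

/-- A linear polynomial. -/
theorem B1_eval (B : ℤ[X]) (hB : B.natDegree = 1) (n : ℤ) :
    B.eval n = B.leadingCoeff * n + B.coeff 0 := by
  conv_lhs => rw [Polynomial.eq_X_add_C_of_natDegree_le_one hB.le]
  simp [Polynomial.leadingCoeff, hB]

open Classical in
/-- The main term. -/
theorem B1_main (a U : ℕ) (ha : 0 < a) (haU : a < U) (m : ℤ) (x : ℝ) :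
    x / PW U * Lq (PW U) m
      = if IsUnit ((m : ℤ) : ZMod (a * PW U)) then a * x / (a * PW U).totient else 0 := by
  classical
  unfold Lq
  by_cases h : IsCoprime m (PW U : ℤ)
  · rw [if_pos h, if_pos ((B1_coprime a U ha haU m).2 h), B1_totient a U ha haU]
    have hq : (PW U : ℝ) ≠ 0 := by exact_mod_cast (B1_PW_pos U).ne'
    have hφ : ((PW U).totient : ℝ) ≠ 0 := by
      exact_mod_cast (Nat.totient_pos.2 (B1_PW_pos U)).ne'
    have ha' : (a : ℝ) ≠ 0 := by exact_mod_cast ha.ne'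
    push_cast
    field_simp
  · rw [if_neg h, if_neg (fun h' => h ((B1_coprime a U ha haU m).1 h')), mul_zero]

/-- Proof. `B = a x + b`, `a > 0`, `q = PW U`, all prime factors of `a` divide `q` (`a ≤ U`, `a < U`). The `n ≤ x`, `n ≡ v [MOD q]`, with `B(n) = m` prime: `m` runs through the primes
`≡ a v + b` modulo `a q` in `(b, a x + b]` (up to finitely many). If `gcd(a v + b, a q) ≠ 1`, equivalently `gcd(B(v), q) ≠ 1`, then `bL = 0` and only a bounded number of
primes (divisors of `a q`) occurs; otherwise by the prime number theorem in progressions (`Pool.Agent.Lib.PNT.thetaAP_tendsto`, the fixed modulus `a q`) the sum is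
`a x/φ(a q) + o(X) = (x/q)(q/φ(q)) + o(X)` (`φ(a q) = a φ(q)`), uniformly for `x ≤ X` (for `x ≤ η' X` both terms are small). -/
theorem beq_one (B : ℤ[X]) (hB : B.natDegree = 1) (hl : 0 < B.leadingCoeff) (U : ℕ)
    (hU : B.leadingCoeff < U) (η : ℝ) (hη : 0 < η) : ∃ X₀ : ℕ, ∀ X : ℕ, X₀ ≤ X → BEq 1 B U X η := by
  classical
  set a := B.leadingCoeff with ha
  set b := B.coeff 0 with hb
  have haN : ((a.toNat : ℕ) : ℤ) = a := Int.toNat_of_nonneg hl.le
  have haR : ((a.toNat : ℕ) : ℝ) = (a : ℝ) := by exact_mod_cast congrArg (fun z : ℤ => (z : ℝ)) haN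
  have hapos : 0 < a.toNat := by omega
  have haU : a.toNat < U := by omega
  have hq : 0 < PW U := B1_PW_pos U
  have : NeZero (a.toNat * PW U) := ⟨(Nat.mul_pos hapos hq).ne'⟩
  have haR0 : (0 : ℝ) < (a : ℝ) := by exact_mod_cast hl
  set ε := η / (2 * (a + 1)) with hε
  have hεpos : 0 < ε := by positivity
  obtain ⟨T₀, hT₀, hT⟩ := B1_theta (a.toNat * PW U) ε hεpos (|b| : ℤ) (by positivity)
  obtain ⟨X₀, hX₀⟩ := exists_nat_ge (T₀ + |b| : ℝ)
  refine ⟨max X₀ 1, fun X hX x hx v => ?_⟩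
  have hXX : (T₀ + |b| : ℝ) ≤ X := hX₀.trans (by exact_mod_cast (le_max_left _ _).trans hX)
  have h1X : (1 : ℝ) ≤ X := by exact_mod_cast (le_max_right _ _).trans hX
  have e1 : ∑ n ∈ (Icc 1 x).filter (fun n => n ≡ v [MOD PW U]), bw 1 B n
      = ∑ n ∈ (Icc 1 x).filter (fun n => n ≡ v [MOD PW U]), lp (a * n + b) := by
    apply Finset.sum_congr rfl
    intro n _
    unfold bw
    rw [if_neg one_ne_zero, B1_eval B hB]
  have e2 : bL 1 B (PW U) v = Lq (PW U) (a * v + b) := by
    unfold bL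
    rw [if_neg one_ne_zero, B1_eval B hB]
  rw [e1, e2, B1_sum a hl b (PW U) hq x v, B1_main a.toNat U hapos haU]
  set T := (a + 1 : ℝ) * X with hTdef
  have habs : ((|b| : ℤ) : ℝ) = |(b : ℝ)| := by push_cast; rfl
  have hbl := neg_abs_le (b : ℝ)
  have hbu := le_abs_self (b : ℝ)
  have hab0 := abs_nonneg (b : ℝ)
  have hTT : T₀ ≤ T := by nlinarith
  have hxX : (x : ℝ) ≤ X := by exact_mod_cast hx
  have hx0 : (0 : ℝ) ≤ x := Nat.cast_nonneg x
  have hax : (a : ℝ) * x ≤ a * X := mul_le_mul_of_nonneg_left hxX haR0.le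
  have hax0 : 0 ≤ (a : ℝ) * x := by positivity
  have g1 := hT T hTT ((a * x + b : ℤ) : ℝ) (by push_cast; linarith) (by push_cast; nlinarith)
    ((a * v + b : ℤ) : ZMod (a.toNat * PW U))
  have g2 := hT T hTT ((b : ℤ) : ℝ) (by push_cast; linarith) (by nlinarith)
    ((a * v + b : ℤ) : ZMod (a.toNat * PW U))
  have hfin : 2 * (ε * T) ≤ η * X := by
    rw [hε, hTdef]
    have : (a + 1 : ℝ) ≠ 0 := by positivity
    apply le_of_eq
    field_simp
  rw [abs_le] at g1 g2 ⊢
  by_cases hu : IsUnit ((a * v + b : ℤ) : ZMod (a.toNat * PW U))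
  · rw [if_pos hu] at g1 g2 ⊢
    have e3 : (a.toNat : ℝ) * x / ((a.toNat * PW U).totient : ℝ)
        = ((a * x + b : ℤ) : ℝ) / ((a.toNat * PW U).totient : ℝ)
          - ((b : ℤ) : ℝ) / ((a.toNat * PW U).totient : ℝ) := by
      rw [haR]; push_cast; ring
    rw [e3]
    constructor <;> linarith [g1.1, g1.2, g2.1, g2.2]
  · rw [if_neg hu] at g1 g2 ⊢
    constructor <;> linarith [g1.1, g1.2, g2.1, g2.2]

end Pool.Agent.Lib.H59X
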