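import Pool.Agent.Lib.H59X.B1

/-!
# Chunk B2: the deterministic polynomial `N - G`, `G` linear
-/

open Finset Polynomial

namespace Pool.Agent.Lib.H59X

open Pool.Agent.Lib.H59 (argSet argCount Admissible primeCount omegaN seriesTrunc rootCount)
open Pool.Agent.Lib.H68T (lp)
open Pool.Agent.Lib.H33B (Lq Lw PW SieveWt)

/-- Proof. `G = a x + b`, `a > 0`; `X = argCount G N`, for large `N` the largest integer with `a X + b < N` (`H57M.argSet_eq`), so `|N - a X| ≤ |b| + a + 1`. `q = PW U`. For `x ≤ X` the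
`n ≤ x`, `n ≡ v [MOD q]`, with `m = N - G(n)` prime correspond to the primes `m ≡ N - b - a v` modulo `a q` with `N - b - a x ≤ m < N - b` (`m > 0`). If `gcd(N - b - a v, q) ≠ 1` then `bL = 0`,
and `m` is one of the prime factors of `a q` (at most `a q` primes, each `log m ≤ log(a q)`). Otherwise the sum of `log m` is
`θ(N - b - 1; a q, c) - θ(N - b - a x - 1; a q, c) = a x/φ(a q) + o(N)` by the prime number theorem in progressions (`Pool.Agent.Lib.PNT.thetaAP_tendsto`, fixed modulus `a q`, all residues `c`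
coprime to `a q` — finitely many, so uniformly; `θ(t) = t/φ + o(N)` uniformly for `t ≤ N`), and `φ(a q) = a φ(q)` as all prime factors of `a` divide `q` (`a < U`). `N ≤ 2 a X`. -/
theorem beq_two (G : ℤ[X]) (hG : G.natDegree = 1) (hl : 0 < G.leadingCoeff) (U : ℕ)
    (hU : G.leadingCoeff < U) (η : ℝ) (hη : 0 < η) :
    ∃ N₀ : ℕ, ∀ N : ℕ, N₀ ≤ N → BEq 1 (C (N : ℤ) - G) U (argCount G N) η := by
  classical
  set a := G.leadingCoeff with ha
  set b := G.coeff 0 with hb
  have haN : ((a.toNat : ℕ) : ℤ) = a := Int.toNat_of_nonneg hl.le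
  have haR : ((a.toNat : ℕ) : ℝ) = (a : ℝ) := by exact_mod_cast congrArg (fun z : ℤ => (z : ℝ)) haN
  have hapos : 0 < a.toNat := by omega
  have haU : a.toNat < U := by omega
  have hq : 0 < PW U := B1_PW_pos U
  have : NeZero (a.toNat * PW U) := ⟨(Nat.mul_pos hapos hq).ne'⟩
  have haR0 : (0 : ℝ) < (a : ℝ) := by exact_mod_cast hl
  have haR1 : (1 : ℝ) ≤ (a : ℝ) := by exact_mod_cast hl
  set ε := η / (16 * (a + 1)) with hε
  have hεpos : 0 < ε := by positivity
  obtain ⟨T₀, hT₀, hT⟩ := B1_theta (a.toNat * PW U) ε hεpos 1 zero_le_one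
  obtain ⟨N₁, hN₁⟩ := Filter.eventually_atTop.1 (Pool.Agent.Lib.H59.argSet_eq (G := G) (by omega) hl)
  obtain ⟨N₂, hN₂⟩ := exists_nat_ge (T₀ + 2 * |b| + 2 * a + 2 : ℝ)
  refine ⟨max N₁ N₂, fun N hN x hx v => ?_⟩
  have hNN : (T₀ + 2 * |b| + 2 * a + 2 : ℝ) ≤ N :=
    hN₂.trans (by exact_mod_cast (le_max_right _ _).trans hN)
  rw [Int.cast_abs] at hNN
  have hset := hN₁ N ((le_max_left _ _).trans hN)
  set X := argCount G N with hX
  have hbl := neg_abs_le (b : ℝ)
  have hbu := le_abs_self (b : ℝ)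
  have hab0 := abs_nonneg (b : ℝ)
  -- `X + 1` is not an argument
  have hX1 : (N : ℝ) - b ≤ a * (X + 1) := by
    have h1 : X + 1 ∉ argSet G N := by
      rw [hset]
      simp
    unfold Pool.Agent.Lib.H59.argSet at h1
    simp only [Set.mem_ofPred_eq, not_and, not_lt] at h1
    have h2 := h1 (by omega)
    rw [B1_eval G hG] at h2
    have h3 : ((N : ℤ) : ℝ) - ((a * ((X + 1 : ℕ) : ℤ) + b : ℤ) : ℝ) ≤ 0 := by exact_mod_cast h2
    push_cast at h3
    linarith
  have hXpos : 1 ≤ X := by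
    by_contra hcon
    have : X = 0 := by omega
    rw [this] at hX1
    push_cast at hX1
    linarith
  -- `X` is an argument
  have hX2 : (a : ℝ) * X + b < N := by
    have h1 : X ∈ argSet G N := by
      rw [hset]
      simp [hXpos]
    unfold Pool.Agent.Lib.H59.argSet at h1
    simp only [Set.mem_ofPred_eq] at h1
    have h2 := h1.2
    rw [B1_eval G hG] at h2
    have h3 : (0 : ℝ) < ((N : ℤ) : ℝ) - ((a * (X : ℤ) + b : ℤ) : ℝ) := by exact_mod_cast h2
    push_cast at h3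
    linarith
  have hev : ∀ n : ℤ, (C (N : ℤ) - G).eval n = (N - b) - a * n := by
    intro n
    rw [Polynomial.eval_sub, B1_eval G hG, Polynomial.eval_C]
    ring
  have e1 : ∑ n ∈ (Icc 1 x).filter (fun n => n ≡ v [MOD PW U]), bw 1 (C (N : ℤ) - G) n
      = ∑ n ∈ (Icc 1 x).filter (fun n => n ≡ v [MOD PW U]), H68T.lp ((N - b) - a * n) := by
    apply Finset.sum_congr rfl
    intro n _
    unfold bw
    rw [if_neg one_ne_zero, hev]
  have e2 : bL 1 (C (N : ℤ) - G) (PW U) v = Lq (PW U) ((N - b) - a * v) := by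
    unfold bL
    rw [if_neg one_ne_zero, hev]
  rw [e1, e2, B1_sum_sub a hl ((N : ℤ) - b) (PW U) hq x v, B1_main a.toNat U hapos haU]
  set T := (2 * N : ℝ) with hTdef
  have hN0 : (0 : ℝ) ≤ N := Nat.cast_nonneg N
  have hTT : T₀ ≤ T := by linarith
  have hxX : (x : ℝ) ≤ X := by exact_mod_cast hx
  have hx0 : (0 : ℝ) ≤ x := Nat.cast_nonneg x
  have hax : (a : ℝ) * x ≤ a * X := mul_le_mul_of_nonneg_left hxX haR0.le
  have hax0 : 0 ≤ (a : ℝ) * x := by positivity
  have g1 := hT T hTT (((N - b) - 1 : ℤ) : ℝ) (by push_cast; linarith) (by push_cast; linarith)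
    (((N - b) - a * v : ℤ) : ZMod (a.toNat * PW U))
  have g2 := hT T hTT (((N - b) - a * x - 1 : ℤ) : ℝ) (by push_cast; linarith)
    (by push_cast; linarith) (((N - b) - a * v : ℤ) : ZMod (a.toNat * PW U))
  have hNX : (N : ℝ) ≤ 4 * (a + 1) * X := by
    have h1 : (1 : ℝ) ≤ X := by exact_mod_cast hXpos
    nlinarith
  have hfin : 2 * (ε * T) ≤ η * X := by
    have h2 : ε * N ≤ ε * (4 * (a + 1) * X) := mul_le_mul_of_nonneg_left hNX hεpos.le
    have h3 : ε * (4 * (a + 1) * X) = η * X / 4 := by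
      rw [hε]
      have : (a + 1 : ℝ) ≠ 0 := by positivity
      field_simp
      norm_num
    rw [hTdef]
    linarith
  rw [abs_le] at g1 g2 ⊢
  by_cases hu : IsUnit (((N - b) - a * v : ℤ) : ZMod (a.toNat * PW U))
  · rw [if_pos hu] at g1 g2 ⊢
    have e3 : (a.toNat : ℝ) * x / ((a.toNat * PW U).totient : ℝ)
        = (((N - b) - 1 : ℤ) : ℝ) / ((a.toNat * PW U).totient : ℝ)
          - (((N - b) - a * x - 1 : ℤ) : ℝ) / ((a.toNat * PW U).totient : ℝ) := by
      rw [haR]; push_cast; ring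
    rw [e3]
    constructor <;> linarith [g1.1, g1.2, g2.1, g2.2]
  · rw [if_neg hu] at g1 g2 ⊢
    constructor <;> linarith [g1.1, g1.2, g2.1, g2.2]

end Pool.Agent.Lib.H59X
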