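import Pool.Agent.Lib.H59X.Defs

/-!
# Chunk C1: means over full systems of residues
-/

open Finset

namespace Pool.Agent.Lib.H59X

/-- Proof. `#cube g q = q^g`. -/
theorem mean_const (g q : ℕ) (hq : 0 < q) (c : ℝ) : mean q (fun _ : Fin g → ℕ => c) = c := by
  have hc : (cube g q).card = q ^ g := by simp [cube]
  rw [mean, sum_const, hc, nsmul_eq_mul]
  push_cast
  have hq' : (q : ℝ) ^ g ≠ 0 := by positivity
  field_simp

/-- Proof. Chinese remainder theorem: `h ↦ (h mod q₁, h mod q₂)` (coordinatewise) is a bijection of `cube g (q₁ q₂)` onto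
`cube g q₁ × cube g q₂`. (Compare `H33B.SR2_crt2`, the case `g = 1`.) -/
theorem mean_mul {g : ℕ} (q₁ q₂ : ℕ) (hc : Nat.Coprime q₁ q₂) (h₁ : 0 < q₁) (h₂ : 0 < q₂)
    (F₁ F₂ : (Fin g → ℕ) → ℝ) (hF₁ : Per q₁ F₁) (hF₂ : Per q₂ F₂) :
    mean (q₁ * q₂) (fun h => F₁ h * F₂ h) = mean q₁ F₁ * mean q₂ F₂ := by
  have key : ∑ h ∈ cube g (q₁ * q₂), F₁ h * F₂ h =
      (∑ h ∈ cube g q₁, F₁ h) * ∑ h ∈ cube g q₂, F₂ h := by
    rw [sum_mul_sum, ← sum_product']
    refine sum_bij (fun h _ => ((fun i => h i % q₁), (fun i => h i % q₂))) ?_ ?_ ?_ ?_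
    · intro h _
      rw [mem_product]
      simp only [cube, Fintype.mem_piFinset, mem_range]
      exact ⟨fun i => Nat.mod_lt _ h₁, fun i => Nat.mod_lt _ h₂⟩
    · intro a ha b hb hab
      simp only [cube, Fintype.mem_piFinset, mem_range] at ha hb
      rw [Prod.mk.injEq] at hab
      funext i
      have e1 : a i ≡ b i [MOD q₁] := congrFun hab.1 i
      have e2 : a i ≡ b i [MOD q₂] := congrFun hab.2 i
      have e3 : a i ≡ b i [MOD q₁ * q₂] := (Nat.modEq_and_modEq_iff_modEq_mul hc).mp ⟨e1, e2⟩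
      have e4 : a i % (q₁ * q₂) = b i % (q₁ * q₂) := e3
      rwa [Nat.mod_eq_of_lt (ha i), Nat.mod_eq_of_lt (hb i)] at e4
    · intro b hb
      rw [mem_product] at hb
      simp only [cube, Fintype.mem_piFinset, mem_range] at hb
      have hex : ∀ i, ∃ c, c < q₁ * q₂ ∧ c % q₁ = b.1 i ∧ c % q₂ = b.2 i := by
        intro i
        obtain ⟨c, hc1, hc2⟩ := Nat.chineseRemainder hc (b.1 i) (b.2 i)
        refine ⟨c % (q₁ * q₂), Nat.mod_lt _ (Nat.mul_pos h₁ h₂), ?_, ?_⟩
        · rw [Nat.mod_mul_right_mod]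
          have : c % q₁ = b.1 i % q₁ := hc1
          rw [this, Nat.mod_eq_of_lt (hb.1 i)]
        · rw [Nat.mod_mul_left_mod]
          have : c % q₂ = b.2 i % q₂ := hc2
          rw [this, Nat.mod_eq_of_lt (hb.2 i)]
      choose c hc1 hc2 hc3 using hex
      refine ⟨c, ?_, ?_⟩
      · simp only [cube, Fintype.mem_piFinset, mem_range]
        exact hc1
      · refine Prod.ext ?_ ?_
        · funext i; exact hc2 i
        · funext i; exact hc3 i
    · intro a _
      simp only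
      rw [hF₁ a (fun i => a i % q₁) (fun i => (Nat.mod_modEq _ _).symm),
        hF₂ a (fun i => a i % q₂) (fun i => (Nat.mod_modEq _ _).symm)]
  rw [mean, mean, mean, key, Nat.cast_mul, mul_pow, div_mul_div_comm]

/-- Proof. Induction on `T` with `mean_mul` (`∏_{p ∈ T} f p` is periodic modulo `∏_{p ∈ T} p`); `mean 1` of a constant for `T = ∅`. -/
theorem mean_prod {g : ℕ} (T : Finset ℕ) (hT : ∀ p ∈ T, p.Prime) (f : ℕ → (Fin g → ℕ) → ℝ)
    (hf : ∀ p ∈ T, Per p (f p)) :
    mean (∏ p ∈ T, p) (fun h => ∏ p ∈ T, f p h) = ∏ p ∈ T, mean p (f p) := by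
  classical
  induction T using Finset.induction_on with
  | empty =>
    simp only [prod_empty]
    exact mean_const g 1 one_pos 1
  | insert p T hp ih =>
    have hpp : p.Prime := hT p (mem_insert_self _ _)
    have hT' : ∀ q ∈ T, q.Prime := fun q hq => hT q (mem_insert_of_mem hq)
    have hf' : ∀ q ∈ T, Per q (f q) := fun q hq => hf q (mem_insert_of_mem hq)
    simp only [prod_insert hp]
    have hcop : Nat.Coprime p (∏ q ∈ T, q) := by
      refine Nat.Coprime.prod_right fun q hq => ?_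
      rw [Nat.coprime_primes hpp (hT' q hq)]
      rintro rfl
      exact hp hq
    rw [mean_mul p (∏ q ∈ T, q) hcop hpp.pos (prod_pos fun q hq => (hT' q hq).pos) (f p)
      (fun h => ∏ q ∈ T, f q h) (hf p (mem_insert_self _ _)) ?_, ih hT' hf']
    intro h h' hh
    refine prod_congr rfl fun q hq => ?_
    exact hf' q hq h h' fun i => (hh i).of_dvd (dvd_prod_of_mem _ hq)

end Pool.Agent.Lib.H59X
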