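import Pool.Agent.Lib.H59X.Defs

/-!
# Chunk C2: sums over boxes
-/

open Finset

namespace Pool.Agent.Lib.H59X

/-- Proof. `h ↦ (h 0, fun i => h i.succ)`, inverse `Fin.cons`. -/
theorem box_succ {g : ℕ} (H : Fin (g + 1) → ℕ) (F : (Fin (g + 1) → ℕ) → ℝ) :
    ∑ h ∈ Box H, F h = ∑ a ∈ Icc 1 (H 0), ∑ h ∈ Box (fun i : Fin g => H i.succ), F (Fin.cons a h) := by
  rw [← sum_product']
  refine sum_bij' (fun h _ => (h 0, fun i : Fin g => h i.succ)) (fun p _ => Fin.cons p.1 p.2)
    ?_ ?_ ?_ ?_ ?_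
  · intro h hh
    simp only [Box, Fintype.mem_piFinset] at hh
    rw [mem_product]
    exact ⟨hh 0, by simp only [Box, Fintype.mem_piFinset]; exact fun i => hh i.succ⟩
  · intro p hp
    rw [mem_product] at hp
    have hp2 := hp.2
    simp only [Box, Fintype.mem_piFinset] at hp2 ⊢
    intro i
    refine Fin.cases ?_ (fun j => ?_) i
    · simpa using hp.1
    · simpa using hp2 j
  · intro h _
    funext i
    refine Fin.cases ?_ (fun j => ?_) i
    · simp
    · simp
  · intro p _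
    simp
  · intro h _
    congr 1
    funext i
    refine Fin.cases ?_ (fun j => ?_) i
    · simp
    · simp

/-- Proof. Group the `h ∈ Box H` by their residues (`h i % q`): a class of `[1, H_i]` modulo `q` has at most `H_i/q + 1 = (H_i + q)/q` elements, so the
sum is at most `∏ ((H_i + q)/q) ∑_{c ∈ cube} F c`. -/
theorem box_le {g : ℕ} (q : ℕ) (hq : 0 < q) (H : Fin g → ℕ) (F : (Fin g → ℕ) → ℝ) (hF : Per q F)
    (h0 : ∀ h, 0 ≤ F h) : ∑ h ∈ Box H, F h ≤ (∏ i, ((H i : ℝ) + q)) * mean q F := by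
  classical
  have hmaps : ∀ h ∈ Box H, (fun i => h i % q) ∈ cube g q := by
    intro h _
    simp only [cube, Fintype.mem_piFinset, mem_range]
    exact fun i => Nat.mod_lt _ hq
  rw [← sum_fiberwise_of_maps_to hmaps]
  have hq0 : (0 : ℝ) < q := by exact_mod_cast hq
  have hcount : ∀ c ∈ cube g q, (((Box H).filter fun h => (fun i => h i % q) = c).card : ℝ) ≤
      ∏ i, ((H i : ℝ) + q) / q := by
    intro c _
    have e1 : (Box H).filter (fun h => (fun i => h i % q) = c) =
        Fintype.piFinset fun i => (Icc 1 (H i)).filter fun a => a % q = c i := by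
      ext h
      simp only [Box, mem_filter, Fintype.mem_piFinset]
      constructor
      · rintro ⟨h1, h2⟩ i
        exact ⟨h1 i, congrFun h2 i⟩
      · intro h1
        exact ⟨fun i => (h1 i).1, funext fun i => (h1 i).2⟩
    rw [e1, Fintype.card_piFinset]
    push_cast
    refine prod_le_prod (fun i _ => Nat.cast_nonneg _) fun i _ => ?_
    have e2 : ((Icc 1 (H i)).filter fun a => a % q = c i).card ≤ H i / q + 1 := by
      rw [← card_range (H i / q + 1)]
      refine card_le_card_of_injOn (fun a => a / q) ?_ ?_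
      · intro a ha
        have ha' := (mem_Icc.1 (mem_filter.1 ha).1).2
        simp only [coe_range, Set.mem_Iio]
        exact Nat.lt_succ_of_le (Nat.div_le_div_right ha')
      · intro a ha b hb hab
        have ha' := (mem_filter.1 ha).2
        have hb' := (mem_filter.1 hb).2
        have hab' : a / q = b / q := hab
        rw [← Nat.div_add_mod a q, ← Nat.div_add_mod b q, hab', ha', hb']
    calc (((Icc 1 (H i)).filter fun a => a % q = c i).card : ℝ) ≤ ((H i / q + 1 : ℕ) : ℝ) := by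
          exact_mod_cast e2
      _ = ((H i / q : ℕ) : ℝ) + 1 := by push_cast; ring
      _ ≤ (H i : ℝ) / q + 1 := by linarith [Nat.cast_div_le (α := ℝ) (m := H i) (n := q)]
      _ = ((H i : ℝ) + q) / q := by field_simp
  have hinner : ∀ c ∈ cube g q, ∑ h ∈ (Box H).filter (fun h => (fun i => h i % q) = c), F h ≤
      F c * ∏ i, ((H i : ℝ) + q) / q := by
    intro c hc
    have e1 : ∑ h ∈ (Box H).filter (fun h => (fun i => h i % q) = c), F h =
        ∑ _h ∈ (Box H).filter (fun h => (fun i => h i % q) = c), F c := by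
      refine sum_congr rfl fun h hh => ?_
      rw [← (mem_filter.1 hh).2]
      exact hF _ _ fun i => (Nat.mod_modEq _ _).symm
    rw [e1, sum_const, nsmul_eq_mul, mul_comm]
    exact mul_le_mul_of_nonneg_left (hcount c hc) (h0 c)
  refine (sum_le_sum hinner).trans (le_of_eq ?_)
  rw [← sum_mul, mean, prod_div_distrib, prod_const, card_univ, Fintype.card_fin]
  ring

/-- Proof. `box_le` for `F + M ≥ 0`: `∑ (F + M) ≤ Π (mean F + M)`, `Π = ∏ (H_i + q) ≥ vol H = #Box H`, hence
`∑ F ≤ Π (mean F + M) - M vol = vol · mean F + (Π - vol)(mean F + M) ≤ vol · mean F + 2 M (Π - vol)`. -/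
theorem box_signed {g : ℕ} (q : ℕ) (hq : 0 < q) (H : Fin g → ℕ) (F : (Fin g → ℕ) → ℝ) (hF : Per q F)
    (M : ℝ) (hM : ∀ h, |F h| ≤ M) :
    ∑ h ∈ Box H, F h ≤ vol H * mean q F + 2 * M * ((∏ i, ((H i : ℝ) + q)) - vol H) := by
  have hq0 : (0 : ℝ) < q := by exact_mod_cast hq
  have hM0 : 0 ≤ M := (abs_nonneg _).trans (hM 0)
  have hcard : ((Box H).card : ℝ) = vol H := by
    simp [Box, vol]
  have hPv : vol H ≤ ∏ i, ((H i : ℝ) + q) := by
    rw [vol]
    exact prod_le_prod (fun i _ => Nat.cast_nonneg _) fun i _ => by linarith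
  have h1 := box_le q hq H (fun h => F h + M) (fun h h' hh => by
    simp only
    rw [hF h h' hh]) (fun h => by linarith [(abs_le.1 (hM h)).1])
  have h2 : mean q (fun h => F h + M) = mean q F + M := by
    have hc : (cube g q).card = q ^ g := by simp [cube]
    rw [mean, sum_add_distrib, sum_const, hc, nsmul_eq_mul, mean, add_div]
    push_cast
    have : (q : ℝ) ^ g ≠ 0 := by positivity
    field_simp
  rw [sum_add_distrib, sum_const, nsmul_eq_mul, hcard, h2] at h1
  have h3 : mean q F ≤ M := by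
    have hc : (cube g q).card = q ^ g := by simp [cube]
    rw [mean, div_le_iff₀ (by positivity)]
    calc ∑ h ∈ cube g q, F h ≤ ∑ _h ∈ cube g q, M :=
          sum_le_sum fun h _ => (abs_le.1 (hM h)).2
      _ = M * (q : ℝ) ^ g := by
          rw [sum_const, hc, nsmul_eq_mul]; push_cast; ring
  nlinarith [mul_nonneg (sub_nonneg.2 hPv) (sub_nonneg.2 h3)]

/-- Proof. `H_i + q ≤ (1 + t) H_i`, and `(1 + t)^g ≤ 1 + 2^g t` for `0 ≤ t ≤ 1` (induction on `g`:
`(1 + 2^g t)(1 + t) = 1 + 2^g t + t + 2^g t² ≤ 1 + 2^(g+1) t` fails in general, so prove `(1 + t)^g ≤ 1 + (2^g - 1) t` by induction: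
`(1 + (2^g - 1) t)(1 + t) ≤ 1 + (2^g - 1) t + t + (2^g - 1) t = 1 + (2^(g+1) - 1) t`). -/
theorem box_diff {g : ℕ} (H : Fin g → ℕ) (q t : ℝ) (hq : 0 ≤ q) (ht : 0 ≤ t) (ht1 : t ≤ 1)
    (h : ∀ i, q ≤ t * H i) : (∏ i, ((H i : ℝ) + q)) ≤ (1 + 2 ^ g * t) * vol H := by
  have h1 : (∏ i, ((H i : ℝ) + q)) ≤ ∏ i, ((1 + t) * (H i : ℝ)) := by
    refine prod_le_prod (fun i _ => by positivity) fun i _ => ?_
    have := h i
    linarith
  have h2 : ∀ n : ℕ, (1 + t) ^ n ≤ 1 + (2 ^ n - 1) * t := by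
    intro n
    induction n with
    | zero => simp
    | succ n ih =>
      have h3 : (0 : ℝ) ≤ 2 ^ n - 1 := by
        have : (1 : ℝ) ≤ 2 ^ n := one_le_pow₀ (by norm_num)
        linarith
      have h4 : (2 ^ n - 1) * t * t ≤ (2 ^ n - 1) * t * 1 :=
        mul_le_mul_of_nonneg_left ht1 (mul_nonneg h3 ht)
      calc (1 + t) ^ (n + 1) = (1 + t) ^ n * (1 + t) := pow_succ _ _
        _ ≤ (1 + (2 ^ n - 1) * t) * (1 + t) := mul_le_mul_of_nonneg_right ih (by linarith)
        _ ≤ 1 + (2 ^ (n + 1) - 1) * t := by rw [pow_succ]; nlinarith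
  have hv : 0 ≤ vol H := prod_nonneg fun i _ => Nat.cast_nonneg _
  calc (∏ i, ((H i : ℝ) + q)) ≤ ∏ i, ((1 + t) * (H i : ℝ)) := h1
    _ = (1 + t) ^ g * vol H := by
        rw [prod_mul_distrib, prod_const, card_univ, Fintype.card_fin, vol]
    _ ≤ (1 + (2 ^ g - 1) * t) * vol H := mul_le_mul_of_nonneg_right (h2 g) hv
    _ ≤ (1 + 2 ^ g * t) * vol H := mul_le_mul_of_nonneg_right (by linarith) hv

end Pool.Agent.Lib.H59X
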