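import Mathlib

/-! The Lorentz cone inequalities for the logarithmic derivative (Step 1) and the final inequality of the maximum
principle (Step 3), for an abstract real-linear map `Φ`. -/

namespace Pool.Agent.Lib.H59X

variable {E : Type*} [NormedAddCommGroup E] [NormedSpace ℝ E]

/-- What Step 1 gives for `Φ w = D_w Q (z) / Q (z)`, `Im z = (y, 0)`. -/
structure ConeMap (Φ : ℝ × E →ₗ[ℝ] ℂ) (y N : ℝ) : Prop where
  pos : 0 < y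
  nonneg : 0 ≤ N
  im : ∀ w0 : ℝ, ∀ w' : E, ‖w'‖ ≤ w0 → 0 ≤ -(Φ (w0, w')).im
  sq : ∀ w0 : ℝ, ∀ w' : E, ‖w'‖ ≤ w0 → y * ‖Φ (w0, w')‖ ^ 2 ≤ 2 * w0 * N * -(Φ (w0, w')).im

variable {Φ : ℝ × E →ₗ[ℝ] ℂ} {y N : ℝ}

/-- `G = - Im Φ(e0)`. -/
noncomputable def G (Φ : ℝ × E →ₗ[ℝ] ℂ) : ℝ := -(Φ (1, 0)).im

theorem ConeMap.G_nonneg (h : ConeMap Φ y N) : 0 ≤ G Φ := h.im 1 0 (by simp)

theorem map_smul_e0 (t : ℝ) : Φ (t, 0) = t • Φ (1, 0) := by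
  rw [← map_smul]
  simp

theorem im_smul_e0 (t : ℝ) : -(Φ (t, 0)).im = t * G Φ := by
  rw [map_smul_e0, Complex.smul_im, G, smul_eq_mul]
  ring

theorem ConeMap.im_le (h : ConeMap Φ y N) {w0 : ℝ} {w' : E} (hw : ‖w'‖ ≤ w0) :
    -(Φ (w0, w')).im ≤ 2 * w0 * G Φ := by
  have h1 := h.im w0 (-w') (by rwa [norm_neg])
  have h2 : Φ (2 * w0, 0) = Φ (w0, w') + Φ (w0, -w') := by
    rw [← map_add]
    congr 1
    ext <;> simp
    ring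
  have h3 := im_smul_e0 (Φ := Φ) (2 * w0)
  rw [h2, Complex.add_im] at h3
  linarith

theorem ConeMap.im_ge (h : ConeMap Φ y N) {w0 : ℝ} {w' : E} :
    (w0 - ‖w'‖) * G Φ ≤ -(Φ (w0, w')).im := by
  have h1 := h.im ‖w'‖ w' le_rfl
  have h2 : Φ (w0, w') = Φ (‖w'‖, w') + Φ (w0 - ‖w'‖, 0) := by
    rw [← map_add]
    congr 1
    ext <;> simp
  have h3 := im_smul_e0 (Φ := Φ) (w0 - ‖w'‖)
  rw [h2, Complex.add_im]
  linarith

theorem ConeMap.norm_le (h : ConeMap Φ y N) {w0 : ℝ} {w' : E} (hw : ‖w'‖ ≤ w0) :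
    ‖Φ (w0, w')‖ ≤ 2 * w0 * Real.sqrt (N * G Φ / y) := by
  have hw0 : 0 ≤ w0 := (norm_nonneg _).trans hw
  have h1 := h.sq w0 w' hw
  have h2 := h.im_le hw
  have hy := h.pos
  have hN := h.nonneg
  have h3 : y * ‖Φ (w0, w')‖ ^ 2 ≤ (2 * w0) ^ 2 * (N * G Φ) := by
    have : 2 * w0 * N * -(Φ (w0, w')).im ≤ 2 * w0 * N * (2 * w0 * G Φ) :=
      mul_le_mul_of_nonneg_left h2 (by positivity)
    linarith
  have h4 : ‖Φ (w0, w')‖ ^ 2 ≤ (2 * w0) ^ 2 * (N * G Φ / y) := by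
    rw [mul_div_assoc', le_div_iff₀ hy]
    linarith
  calc ‖Φ (w0, w')‖ = Real.sqrt (‖Φ (w0, w')‖ ^ 2) := (Real.sqrt_sq (norm_nonneg _)).symm
    _ ≤ Real.sqrt ((2 * w0) ^ 2 * (N * G Φ / y)) := Real.sqrt_le_sqrt h4
    _ = 2 * w0 * Real.sqrt (N * G Φ / y) := by
      rw [Real.sqrt_mul (by positivity), Real.sqrt_sq (by positivity)]

theorem ConeMap.norm_le_all (h : ConeMap Φ y N) (u0 : ℝ) (u' : E) :
    ‖Φ (u0, u')‖ ≤ 2 * (|u0| + ‖u'‖) * Real.sqrt (N * G Φ / y) := by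
  set s := Real.sqrt (N * G Φ / y)
  have hs : 0 ≤ s := Real.sqrt_nonneg _
  have h1 : Φ (u0, u') = u0 • Φ (1, 0) + (1 / 2 : ℝ) • (Φ (‖u'‖, u') - Φ (‖u'‖, -u')) := by
    rw [← map_sub, ← map_smul, ← map_smul, ← map_add]
    congr 1
    ext
    · simp
    · simp [← two_smul ℝ u', smul_smul]
  have h2 : ‖Φ (1, 0)‖ ≤ 2 * 1 * s := h.norm_le (by simp)
  have h3 : ‖Φ (‖u'‖, u')‖ ≤ 2 * ‖u'‖ * s := h.norm_le le_rfl
  have h4 : ‖Φ (‖u'‖, -u')‖ ≤ 2 * ‖u'‖ * s := h.norm_le (by rw [norm_neg])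
  calc ‖Φ (u0, u')‖ ≤ ‖u0 • Φ (1, 0)‖ + ‖(1 / 2 : ℝ) • (Φ (‖u'‖, u') - Φ (‖u'‖, -u'))‖ := by
        rw [h1]; exact norm_add_le _ _
    _ = |u0| * ‖Φ (1, 0)‖ + 1 / 2 * ‖Φ (‖u'‖, u') - Φ (‖u'‖, -u')‖ := by
        rw [norm_smul, norm_smul, Real.norm_eq_abs, Real.norm_eq_abs, abs_of_pos (by norm_num : (0 : ℝ) < 1 / 2)]
    _ ≤ |u0| * (2 * 1 * s) + 1 / 2 * (2 * ‖u'‖ * s + 2 * ‖u'‖ * s) := by
        have := norm_sub_le (Φ (‖u'‖, u')) (Φ (‖u'‖, -u'))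
        have := mul_le_mul_of_nonneg_left h2 (abs_nonneg u0)
        linarith
    _ = 2 * (|u0| + ‖u'‖) * s := by ring

/-- The final inequality: `Im (D_a P_0 / P_0) ≤ 4 ε N (2 + 16 / δ)`. -/
theorem ConeMap.main (h : ConeMap Φ y N) {ε δ : ℝ} (hε : 0 < ε) (hδ : 0 < δ) (hεδ : ε ^ 2 ≤ δ / 2) (hy : ε ≤ y)
    {ν β : E} {p q : ℝ} (hp : |p| ≤ ‖ν‖) (hq1 : q ≤ 1) (hβ : ‖β‖ ≤ 1) :
    (Φ (1 + δ + ‖ν‖ ^ 2 - ε ^ 2 * q, (2 : ℝ) • ν)).im + (Φ (2 * ε * p, (2 * ε) • β)).re ≤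
      4 * ε * N * (2 + 16 / δ) := by
  have hy0 := h.pos
  have hN := h.nonneg
  have hG := h.G_nonneg
  set g := G Φ
  have h1 := h.im_ge (w0 := 1 + δ + ‖ν‖ ^ 2 - ε ^ 2 * q) (w' := (2 : ℝ) • ν)
  have h2 := h.norm_le_all (2 * ε * p) ((2 * ε) • β)
  rw [norm_smul, Real.norm_eq_abs, abs_of_pos (by norm_num : (0 : ℝ) < 2)] at h1
  rw [norm_smul, Real.norm_eq_abs, abs_of_pos (by positivity : (0 : ℝ) < 2 * ε), abs_mul,
    abs_of_pos (by positivity : (0 : ℝ) < 2 * ε)] at h2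
  set r := ‖ν‖
  have hr : 0 ≤ r := norm_nonneg _
  set M := (1 - r) ^ 2 + δ / 2 with hM
  have hM0 : 0 < M := by positivity
  have hMle : M ≤ 1 + δ + r ^ 2 - ε ^ 2 * q - 2 * r := by
    have : ε ^ 2 * q ≤ ε ^ 2 * 1 := mul_le_mul_of_nonneg_left hq1 (by positivity)
    rw [hM]
    nlinarith
  have h3 : M * g ≤ -(Φ (1 + δ + r ^ 2 - ε ^ 2 * q, (2 : ℝ) • ν)).im :=
    (mul_le_mul_of_nonneg_right hMle hG).trans h1
  set s := Real.sqrt (N * g / y) with hs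
  have hs0 : 0 ≤ s := Real.sqrt_nonneg _
  have hs2 : ε * s ^ 2 ≤ N * g := by
    rw [hs, Real.sq_sqrt (by positivity), mul_div_assoc', div_le_iff₀ hy0]
    have : 0 ≤ N * g := by positivity
    nlinarith
  have h4 : (Φ (2 * ε * p, (2 * ε) • β)).re ≤ 4 * ε * (1 + r) * s := by
    refine (Complex.re_le_norm _).trans (h2.trans ?_)
    refine mul_le_mul_of_nonneg_right ?_ hs0
    nlinarith
  -- maximise over `g`: `4 ε (1 + r) s ≤ M ε s ^ 2 / N + ...`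
  have h5 : (1 + r) ^ 2 ≤ (2 + 16 / δ) * M := by
    have h6 : (16 / δ) * (δ / 2) = 8 := by field_simp; norm_num
    have h7 : 0 ≤ (16 / δ) * (1 - r) ^ 2 := by positivity
    rw [hM]
    nlinarith [sq_nonneg (1 - r), sq_nonneg (3 - r)]
  have h8 : 4 * ε * (1 + r) * s - M * g ≤ 4 * ε * N * (2 + 16 / δ) := by
    have h9 : N * (4 * ε * (1 + r) * s - M * g) ≤ N * (4 * ε * N * (2 + 16 / δ)) := by
      have h10 : 4 * ε * (1 + r) * s * N ≤ M * (ε * s ^ 2) + 4 * ε * N ^ 2 * ((2 + 16 / δ)) := by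
        have h11 : M * (4 * ε * (1 + r) * s * N) ≤
            M * (M * (ε * s ^ 2) + 4 * ε * N ^ 2 * ((2 + 16 / δ))) := by
          have h12 : 0 ≤ ε * (M * s - 2 * (1 + r) * N) ^ 2 := by positivity
          have h13 : 4 * ε * N ^ 2 * (1 + r) ^ 2 ≤ 4 * ε * N ^ 2 * ((2 + 16 / δ) * M) :=
            mul_le_mul_of_nonneg_left h5 (by positivity)
          nlinarith
        exact le_of_mul_le_mul_left h11 hM0
      have h14 : M * (ε * s ^ 2) ≤ M * (N * g) := mul_le_mul_of_nonneg_left hs2 hM0.le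
      nlinarith
    rcases hN.eq_or_lt with hN0 | hN0
    · -- `N = 0`: then `s = 0`
      have : s = 0 := by rw [hs, ← hN0]; simp
      rw [this, ← hN0]
      have : 0 ≤ M * g := by positivity
      nlinarith
    · exact le_of_mul_le_mul_left h9 hN0
  linarith

end Pool.Agent.Lib.H59X
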