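import Pool.Agent.Lib.H33B.DE2

/-!
# Chunk EP1: the Fourier-uniform part of the primes at the values `N + P(n)`
-/

open Finset Polynomial

namespace Pool.Agent.Lib.H59X

open Pool.Agent.Lib.H68T (lp Lk Reg Good)
open Pool.Agent.Lib.H33B

theorem EP1_cs (u : ℤ → ℝ) (M : ℕ) (hu : ∀ m, m ∉ Icc (1 : ℤ) M → u m = 0) (X Y : ℕ)
    (A : Finset ℕ) (hA : A ⊆ Icc 1 X) (f : ℕ → ℝ) (hf : ∀ n, |f n| ≤ 1) (v : ℕ → ℤ) :
    (∑ N ∈ Icc 1 Y, |∑ n ∈ A, f n * u ((N : ℤ) + v n)|) ^ 2 ≤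
      Y * ∑ n ∈ Icc 1 X, ∑ n' ∈ Icc 1 X, |cor u M (v n - v n')| := by
  have h := DE1_cs u M hu X Y A hA f hf (fun n => - v n)
  simp only [sub_neg_eq_add] at h
  refine h.trans (mul_le_mul_of_nonneg_left (le_of_eq ?_) (by positivity))
  rw [sum_comm]
  refine sum_congr rfl fun n _ => sum_congr rfl fun n' _ => ?_
  congr 2
  ring

theorem EP1_filter (P : ℤ[X]) (Q X₀ : ℕ) (b : ℤ) (A : Finset ℕ) (f : ℕ → ℝ) (N : ℕ) :
    ∑ n ∈ A.filter (fun n : ℕ => (X₀ : ℤ) ≤ (N : ℤ) + P.eval (n : ℤ) ∧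
      (N : ℤ) + P.eval (n : ℤ) < b), f n * (lp ((N : ℤ) + P.eval (n : ℤ)) -
        Lk Q (X₀ / Q ^ 2) ((N : ℤ) + P.eval (n : ℤ))) =
      ∑ n ∈ A, f n * DE1_u Q X₀ b ((N : ℤ) + P.eval (n : ℤ)) := by
  rw [sum_filter]
  refine sum_congr rfl fun n _ => ?_
  unfold DE1_u
  split_ifs <;> simp

/-- The analogue of `H33B.dec_u2` for the values `N + P(n)`, `N ≤ Y`, `n ≤ X`, `c₁ Y ≤ X^k`, `X ≤ 2 Y`. -/
theorem dec_u2 (G : ℤ[X]) (hk : 1 ≤ G.natDegree) (hl : 0 < G.leadingCoeff) (c : ℝ) (hc : 0 < c)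
    (B δ c₁ : ℝ) (hδ : 0 < δ) (hc₁ : 0 < c₁) : ∃ K : ℝ, ∀ Y Q X₀ X : ℕ, Reg K Q X₀ → Good c Q →
    δ * Y ≤ X₀ → (X₀ : ℝ) ≤ 2 * Y → 1 ≤ X → c₁ * Y ≤ (X : ℝ) ^ G.natDegree → (X : ℝ) ≤ 2 * Y →
    ∀ b : ℤ, b ≤ 4 * X₀ → ∀ f : ℕ → ℝ, (∀ n, |f n| ≤ 1) → ∀ A ⊆ Icc 1 X,
    ∑ N ∈ Icc 1 Y, |∑ n ∈ A.filter (fun n : ℕ => (X₀ : ℤ) ≤ (N : ℤ) + G.eval (n : ℤ) ∧
      (N : ℤ) + G.eval (n : ℤ) < b), f n * (lp ((N : ℤ) + G.eval (n : ℤ)) -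
        Lk Q (X₀ / Q ^ 2) ((N : ℤ) + G.eval (n : ℤ)))| ≤
      Y * X / (Real.log Y) ^ B := by
  obtain ⟨Cv, hCv, hvdc⟩ := vdc G hk hl
  set Y₁ : ℕ := 3 with hY₁d
  obtain ⟨K1, hst⟩ := Pool.Agent.Lib.H68T.structured c hc 1
  obtain ⟨K2, hfs⟩ := Pool.Agent.Lib.H68T.fourier_small
  set k := G.natDegree with hkd
  set T := 2 ^ (k - 1) with hT
  have hT1 : 1 ≤ T := Nat.one_le_two_pow
  obtain ⟨K3, hK3, h3⟩ := Pool.Agent.Lib.H68T.reg_pow_le (2 / c₁) ((1 : ℝ) / 4 * k) 1 one_pos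
  obtain ⟨K4, hK4, h4⟩ := Pool.Agent.Lib.H68T.reg_log_le
    ((1 + (Real.sqrt (c₁ / 2))⁻¹) * 4 ^ Cv * (Cv * 2 * 10 ^ 6 * 2 ^ (2 * |B|)) ^ T)
    (Cv + (7 + 2 * |B|) * T) (1 / 4) (by norm_num)
  obtain ⟨K5, hK5, h5⟩ := Pool.Agent.Lib.H68T.reg_pow_le 1 2 1 one_pos
  refine ⟨|K1| + |K2| + K3 + K4 + K5 + |Real.log δ| + 2 * Y₁ + 3,
    fun Y Q X₀ X hR hG hX1 hX2 b1 b2 b3 b hb f hf A hA => ?_⟩
  set K := |K1| + |K2| + K3 + K4 + K5 + |Real.log δ| + 2 * Y₁ + 3 with hK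
  have a1 := abs_nonneg K1
  have a2 := abs_nonneg K2
  have a3 := abs_nonneg (Real.log δ)
  have a4 : (0 : ℝ) ≤ 2 * Y₁ := by positivity
  have hK0 : 0 ≤ K := by rw [hK]; linarith
  have hK1' : 1 ≤ K := by rw [hK]; linarith
  have hKpos : 0 < K := by linarith
  have r1 : Reg K1 Q X₀ := hR.mono hK0 (by rw [hK]; linarith [le_abs_self K1])
  have r2 : Reg K2 Q X₀ := hR.mono hK0 (by rw [hK]; linarith [le_abs_self K2])
  have r3 : Reg K3 Q X₀ := hR.mono hK0 (by rw [hK]; linarith)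
  have r4 : Reg K4 Q X₀ := hR.mono hK0 (by rw [hK]; linarith)
  have r5 : Reg K5 Q X₀ := hR.mono hK0 (by rw [hK]; linarith)
  have hQpos : 0 < Q := hR.Q_pos hK1'
  have hQr : (0 : ℝ) < Q := by exact_mod_cast hQpos
  have hX0pos : 0 < X₀ := hR.X_pos hKpos
  have hX0r : (1 : ℝ) ≤ X₀ := by exact_mod_cast hX0pos
  set ℓ := Real.log X₀ with hℓd
  have hℓK : K ≤ ℓ := by
    have := hR.logX_ge hKpos
    have h' : K + 1 ≤ Real.exp K := Real.add_one_le_exp K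
    linarith
  have hℓ1 : 1 ≤ ℓ := by linarith
  have hXK : K ≤ (X₀ : ℝ) := hR.X_ge hKpos
  have hYY : Y₁ ≤ Y := by
    have : (Y₁ : ℝ) ≤ Y := by
      have : 2 * (Y₁ : ℝ) ≤ K := by rw [hK]; linarith
      linarith
    exact_mod_cast this
  have hY3 : (3 : ℝ) ≤ Y := by exact_mod_cast hYY
  have hYpos : (0 : ℝ) < Y := by linarith
  set L := Real.log Y with hLd
  have hL1 : 1 ≤ L := by
    rw [hLd, Real.le_log_iff_exp_le hYpos]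
    linarith [Real.exp_one_lt_d9]
  have hLℓ : L ≤ 2 * ℓ := by
    have e1 : Real.log (δ * Y) ≤ ℓ := Real.log_le_log (by positivity) hX1
    rw [Real.log_mul hδ.ne' hYpos.ne'] at e1
    have e2 : |Real.log δ| ≤ K := by rw [hK]; linarith
    have e3 := neg_abs_le (Real.log δ)
    linarith
  have hXr : (1 : ℝ) ≤ X := by exact_mod_cast b1
  have hlogX : 1 + Real.log X ≤ 4 * ℓ := by
    have e1 : Real.log X ≤ Real.log (2 * Y) := Real.log_le_log (by linarith) b3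
    rw [Real.log_mul (by norm_num) hYpos.ne'] at e1
    have e2 : Real.log 2 ≤ 1 := by linarith [Real.log_two_lt_d9]
    have e3 : 3 ≤ ℓ := by
      have : 3 ≤ K := by rw [hK]; linarith
      linarith
    linarith
  have hlogQ : Real.log Q ≤ ℓ := by
    have e1 := hR.logQ_le hK1'
    have e2 : 0 ≤ Real.log Q := Real.log_nonneg (by exact_mod_cast hQpos)
    have e3 : 1 * Real.log Q ≤ K * Real.log Q := mul_le_mul_of_nonneg_right hK1' e2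
    linarith
  have hQ2X : (Q : ℝ) ^ 2 ≤ X₀ := by
    have e1 := h5 Q X₀ r5
    rw [one_mul, Real.rpow_one] at e1
    exact_mod_cast e1
  -- the function `u`
  set u := DE1_u Q X₀ b with hu
  have husupp : ∀ m, m ∉ Icc (1 : ℤ) (4 * X₀ : ℕ) → u m = 0 := fun m hm =>
    DE1_supp Q X₀ b hb hX0pos m hm
  have hE := DE1_sq hb hX0pos hQpos hℓ1 hQ2X hlogQ (fun m hm hm4 => hst Q X₀ r1 hG m hm hm4)
  have hS0 : (0 : ℝ) ≤ X₀ * (Q : ℝ) ^ (-(1 / 4) : ℝ) := by positivity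
  have hS := DE1_four Q X₀ b hb hX0pos _ hS0 (fun θ a b ha hb => hfs Q X₀ r2 θ a b ha hb)
  have hE0 : 0 < 10 ^ 6 * (X₀ : ℝ) * ℓ ^ 7 := by positivity
  have hv := hvdc u (4 * X₀) husupp _ _ hE0 hE hS0 hS X b1
  have hcs := EP1_cs u (4 * X₀) husupp X Y A hA f hf (fun n => G.eval (n : ℤ))
  have hsum : ∑ N ∈ Icc 1 Y, |∑ n ∈ A.filter (fun n : ℕ => (X₀ : ℤ) ≤ (N : ℤ) + G.eval (n : ℤ) ∧
      (N : ℤ) + G.eval (n : ℤ) < b), f n * (lp ((N : ℤ) + G.eval (n : ℤ)) -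
        Lk Q (X₀ / Q ^ 2) ((N : ℤ) + G.eval (n : ℤ)))| =
      ∑ N ∈ Icc 1 Y, |∑ n ∈ A, f n * u ((N : ℤ) + G.eval (n : ℤ))| := by
    refine sum_congr rfl fun N _ => ?_
    rw [EP1_filter]
  rw [hsum]
  have hqq : ((Q : ℝ) ^ ((1 : ℝ) / 4))⁻¹ = (Q : ℝ) ^ (-(1 / 4) : ℝ) := by
    rw [← Real.rpow_neg hQr.le]
  have hnum := DE1_num k T hk hT1 Cv c₁ B Y X X₀ ((Q : ℝ) ^ ((1 : ℝ) / 4)) ℓ L hCv hc₁ hXr hX0r
    hX2 hℓ1 hL1 hLℓ (by positivity) hlogX b2 (by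
      have e1 := h3 Q X₀ r3
      rw [Real.rpow_one, Real.rpow_mul hQr.le, Real.rpow_natCast] at e1
      exact e1) (h4 Q X₀ r4)
  rw [hqq] at hnum
  have hTc : ((2 : ℝ) ^ (k - 1)) = ((T : ℕ) : ℝ) := by rw [hT]; push_cast; rfl
  rw [hTc] at hv
  have hLB : 0 < L ^ B := Real.rpow_pos_of_pos (by linarith) _
  rw [le_div_iff₀ hLB]
  refine le_of_sq_le_sq ?_ (by positivity)
  rw [mul_pow, ← Real.rpow_natCast (L ^ B) 2, ← Real.rpow_mul (by linarith)]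
  have hcast : B * ((2 : ℕ) : ℝ) = 2 * B := by push_cast; ring
  rw [hcast]
  have hD := hcs.trans (mul_le_mul_of_nonneg_left hv hYpos.le)
  have hL2B : 0 ≤ L ^ (2 * B) := Real.rpow_nonneg (by linarith) _
  refine (mul_le_mul_of_nonneg_right hD hL2B).trans ?_
  refine le_trans (le_of_eq ?_) (mul_le_mul_of_nonneg_left hnum
    (by positivity : (0 : ℝ) ≤ Y * X ^ 2)) |>.trans (le_of_eq ?_)
  · ring
  · ring

end Pool.Agent.Lib.H59X
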