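import Pool.Agent.Lib.H59X.EP2
import Pool.Agent.Lib.H33B.ENG
import Pool.Agent.Lib.H57M.Q1

/-!
# Chunk EP3: the Ramanujan model against the periodic model at the values `N + P(n)`
-/

open Finset Polynomial

namespace Pool.Agent.Lib.H59X

open Pool.Agent.Lib.H59 (argCount argSet)
open Pool.Agent.Lib.H68T (lp Reg Good)
open Pool.Agent.Lib.H33B

theorem EP3_Geven (Q : ℕ) (m : ℤ) : H68T.G Q (-m) = H68T.G Q m := by
  unfold H68T.G
  refine sum_congr rfl fun q _ => ?_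
  rw [H68T.cq_neg]

theorem EP3_Leven (w : ℕ) (m : ℤ) : Lw w (-m) = Lw w m := by
  unfold Lw Lq
  have h : IsCoprime (-m) ((PW w : ℕ) : ℤ) ↔ IsCoprime m ((PW w : ℕ) : ℤ) := IsCoprime.neg_left_iff _ _
  by_cases h1 : IsCoprime m ((PW w : ℕ) : ℤ)
  · rw [if_pos (h.2 h1), if_pos h1]
  · rw [if_neg (fun h2 => h1 (h.1 h2)), if_neg h1]

open Filter in
theorem EP3_ev (K : ℝ) (hK : 0 ≤ K) : ∃ Y₀ : ℕ, 3 ≤ Y₀ ∧ ∀ Y : ℕ, Y₀ ≤ Y →
    Real.log ((Y + 1 : ℕ) : ℝ) ^ K ≤ Real.log Y ^ (K + 1) ∧ 1 ≤ Real.log (Y : ℝ) := by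
  have hlog : Tendsto (fun Y : ℕ => Real.log (Y : ℝ)) atTop atTop :=
    Real.tendsto_log_atTop.comp tendsto_natCast_atTop_atTop
  obtain ⟨Y₀, hY₀⟩ := eventually_atTop.1 (hlog.eventually_ge_atTop (2 ^ K + 1))
  refine ⟨max Y₀ 3, le_max_right _ _, fun Y hY => ?_⟩
  have h1 := hY₀ Y ((le_max_left _ _).trans hY)
  have hY3 : (3 : ℝ) ≤ Y := by exact_mod_cast (le_max_right _ _).trans hY
  have h2 : (1 : ℝ) ≤ Real.log Y := by
    have : (1 : ℝ) ≤ 2 ^ K := Real.one_le_rpow (by norm_num) hK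
    linarith
  refine ⟨?_, h2⟩
  have h3 : Real.log ((Y + 1 : ℕ) : ℝ) ≤ 2 * Real.log Y := by
    have : Real.log ((Y + 1 : ℕ) : ℝ) ≤ Real.log ((Y : ℝ) ^ 2) := by
      apply Real.log_le_log (by positivity)
      push_cast
      nlinarith
    rw [Real.log_pow] at this
    exact_mod_cast this
  have h4 : 0 ≤ Real.log ((Y + 1 : ℕ) : ℝ) := Real.log_natCast_nonneg _
  calc Real.log ((Y + 1 : ℕ) : ℝ) ^ K ≤ (2 * Real.log Y) ^ K := Real.rpow_le_rpow h4 h3 hK
    _ = 2 ^ K * Real.log Y ^ K := Real.mul_rpow (by norm_num) (by linarith)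
    _ ≤ Real.log Y * Real.log Y ^ K := by
        apply mul_le_mul_of_nonneg_right _ (by positivity)
        linarith
    _ = Real.log Y ^ (K + 1) := by
        rw [Real.rpow_add_one (by linarith)]
        ring

theorem ls_plus (P : ℤ[X]) (hk : 1 ≤ P.natDegree) (hl : 0 < P.leadingCoeff) (D : ℕ) (C c₁ : ℝ)
    (hC : 0 ≤ C) (hc₁ : 0 < c₁) :
    ∃ K : ℝ, 0 ≤ K ∧ ∀ ε : ℝ, 0 < ε → ∃ w₀ : ℕ, ∀ w : ℕ, w₀ ≤ w → ∃ Y₀ : ℕ, ∀ Y Q X : ℕ, Y₀ ≤ Y →
    1 ≤ X → c₁ * Y ≤ (X : ℝ) ^ P.natDegree → (∀ n ∈ Icc 1 X, P.eval (n : ℤ) ≤ Y) →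
    PW w ≤ Q → (Q : ℝ) ≤ Real.exp (Real.sqrt (Real.log Y)) → ∀ (f : ℕ → ℝ) (S : ℝ),
    SieveWt D C K Y X S f → ∀ A ⊆ Icc 1 X, ∀ (N₀ : ℤ) (H : ℕ), Q ^ 4 ≤ H →
    ∑ N ∈ Ico N₀ (N₀ + H), |∑ n ∈ A, f n * (H68T.G Q (N + P.eval (n : ℤ)) -
      Lw w (N + P.eval (n : ℤ)))| ≤ ε * H * S := by
  obtain ⟨K, hK0, hls⟩ := ls_main P hk hl D (C + 1)
  obtain ⟨Y₁, h3, hY₁⟩ := EP3_ev K hK0
  obtain ⟨Y₂, hY₂⟩ := H57M.argSet_eq P hk hl
  have hac := argCount_pow P hk hl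
  have ha : (0 : ℝ) < (P.leadingCoeff : ℝ) := by exact_mod_cast hl
  have ha1 : (1 : ℝ) ≤ (P.leadingCoeff : ℝ) := by exact_mod_cast hl
  obtain ⟨Y₃, hY₃⟩ := Filter.eventually_atTop.1 (hac.eventually_lt_const (u := 2) (by
    have : (P.leadingCoeff : ℝ)⁻¹ ≤ 1 := inv_le_one_of_one_le₀ ha1
    linarith))
  have hlog : Filter.Tendsto (fun Y : ℕ => Real.log (Y : ℝ)) Filter.atTop Filter.atTop :=
    Real.tendsto_log_atTop.comp tendsto_natCast_atTop_atTop
  obtain ⟨Y₄, hY₄⟩ := Filter.eventually_atTop.1 (hlog.eventually_ge_atTop (4 / c₁ + 1))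
  refine ⟨K + 1, by linarith, fun ε hε => ?_⟩
  obtain ⟨w₀, hw₀⟩ := hls ε hε
  refine ⟨w₀, fun w hw => ?_⟩
  obtain ⟨Y₀, hY₀⟩ := hw₀ w hw
  refine ⟨max (max Y₀ Y₁) (max Y₂ (max Y₃ Y₄)), fun Y Q X hY hX1 hXk hPX hPW hQ f S hf A hA N₀ H hH => ?_⟩
  have hYY0 : Y₀ ≤ Y := ((le_max_left _ _).trans (le_max_left _ _)).trans hY
  have hYY1 : Y₁ ≤ Y := ((le_max_right _ _).trans (le_max_left _ _)).trans hY
  have hYY2 : Y₂ ≤ Y := ((le_max_left _ _).trans (le_max_right _ _)).trans hY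
  have hYY3 : Y₃ ≤ Y :=
    (((le_max_left _ _).trans (le_max_right _ _)).trans (le_max_right _ _)).trans hY
  have hYY4 : Y₄ ≤ Y :=
    (((le_max_right _ _).trans (le_max_right _ _)).trans (le_max_right _ _)).trans hY
  obtain ⟨l1, l2⟩ := hY₁ Y hYY1
  have l4 := hY₄ Y hYY4
  have hY3 : 3 ≤ Y := h3.trans hYY1
  have hY3r : (3 : ℝ) ≤ Y := by exact_mod_cast hY3
  have l3 : Real.log Y ≤ Real.log ((Y + 1 : ℕ) : ℝ) := by
    apply Real.log_le_log (by linarith)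
    push_cast; linarith
  have hXle : X ≤ argCount P (Y + 1) := by
    have := hY₂ (Y + 1) (by omega) X
    refine (this.1 ⟨hX1, ?_⟩).2
    have h := hPX X (mem_Icc.2 ⟨hX1, le_rfl⟩)
    push_cast
    omega
  have hX2 : (argCount P (Y + 1) : ℝ) ≤ (4 / c₁ + 1) * X := by
    have h1 := hY₃ (Y + 1) (by omega)
    have hY1pos : (0 : ℝ) < ((Y + 1 : ℕ) : ℝ) := by positivity
    rw [div_lt_iff₀ hY1pos] at h1
    have hXpos : (0 : ℝ) < X := by exact_mod_cast hX1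
    have h2 : ((argCount P (Y + 1) : ℝ) / X) ^ P.natDegree ≤ 4 / c₁ := by
      rw [div_pow, div_le_div_iff₀ (by positivity) hc₁]
      push_cast at h1
      calc (argCount P (Y + 1) : ℝ) ^ P.natDegree * c₁ ≤ (2 * (Y + 1)) * c₁ := by
            apply mul_le_mul_of_nonneg_right h1.le hc₁.le
        _ ≤ (4 * Y) * c₁ := by
            apply mul_le_mul_of_nonneg_right _ hc₁.le
            linarith
        _ = 4 * (c₁ * Y) := by ring
        _ ≤ 4 * (X : ℝ) ^ P.natDegree := by linarith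
    have h3 : 1 ≤ (argCount P (Y + 1) : ℝ) / X := by
      rw [one_le_div hXpos]; exact_mod_cast hXle
    have h4 : (argCount P (Y + 1) : ℝ) / X ≤ 4 / c₁ :=
      (le_self_pow₀ h3 (by omega)).trans h2
    rw [div_le_iff₀ hXpos] at h4
    linarith
  -- the extended weight
  classical
  set f' : ℕ → ℝ := fun n => if n ∈ Icc 1 X then f n else 0 with hf'
  have hlogpos : 0 < Real.log (Y : ℝ) := by linarith
  have hSnn : 0 ≤ S := by
    have h1 := hf.cls 1 0 squarefree_one (by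
      rw [Nat.cast_one]; exact Real.one_le_rpow l2 (by linarith))
    have h2 : 0 ≤ ∑ n ∈ (Icc 1 X).filter (fun n => n ≡ 0 [MOD 1]), f n :=
      sum_nonneg fun n hn => hf.nonneg n (mem_filter.mp hn).1
    simp only [Nat.primeFactors_one, card_empty, pow_zero, one_mul, Nat.cast_one, div_one] at h1
    linarith
  have hsub : Icc 1 X ⊆ Icc 1 (argCount P (Y + 1)) := Icc_subset_Icc le_rfl hXle
  have hsum : ∀ (p : ℕ → Prop) [DecidablePred p],
      ∑ n ∈ (Icc 1 (argCount P (Y + 1))).filter p, f' n = ∑ n ∈ (Icc 1 X).filter p, f n := by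
    intro p _
    have h1 : ∑ n ∈ (Icc 1 X).filter p, f n = ∑ n ∈ (Icc 1 X).filter p, f' n := by
      refine sum_congr rfl fun n hn => ?_
      rw [hf']
      simp only [(mem_filter.1 hn).1, if_true]
    rw [h1]
    symm
    apply sum_subset (filter_subset_filter _ hsub)
    intro n hn hn'
    rw [mem_filter] at hn hn'
    rw [hf']
    by_cases h : n ∈ Icc 1 X
    · exact absurd ⟨h, hn.2⟩ hn'
    · simp only [h, if_false]
  have hf2 : SieveWt D (C + 1) K (Y + 1) (argCount P (Y + 1)) S f' := by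
    refine ⟨?_, ?_, ?_, ?_⟩
    · intro n _
      rw [hf']
      by_cases h : n ∈ Icc 1 X
      · simp only [h, if_true]; exact hf.nonneg n h
      · simp only [h, if_false]; exact le_rfl
    · intro n _
      have hh : Real.log Y ^ C ≤ Real.log ((Y + 1 : ℕ) : ℝ) ^ (C + 1) := by
        calc Real.log Y ^ C ≤ Real.log Y ^ (C + 1) :=
              Real.rpow_le_rpow_of_exponent_le l2 (by linarith)
          _ ≤ _ := Real.rpow_le_rpow hlogpos.le l3 (by linarith)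
      rw [hf']
      by_cases h : n ∈ Icc 1 X
      · simp only [h, if_true]; exact (hf.le n h).trans hh
      · simp only [h, if_false]
        exact Real.rpow_nonneg (Real.log_natCast_nonneg _) _
    · intro q b hq hqK
      rw [hsum]
      exact hf.cls q b hq (hqK.trans l1)
    · calc (argCount P (Y + 1) : ℝ) ≤ (4 / c₁ + 1) * X := hX2
        _ ≤ Real.log Y * (S * Real.log Y ^ C) := by
            apply mul_le_mul l4 hf.large (by positivity) hlogpos.le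
        _ = S * Real.log Y ^ (C + 1) := by
            rw [Real.rpow_add_one hlogpos.ne']; ring
        _ ≤ S * Real.log ((Y + 1 : ℕ) : ℝ) ^ (C + 1) := by
            apply mul_le_mul_of_nonneg_left _ hSnn
            exact Real.rpow_le_rpow hlogpos.le l3 (by linarith)
  have hmain := hY₀ (Y + 1) Q (by omega) hPW (hQ.trans (Real.exp_le_exp.2 (Real.sqrt_le_sqrt l3))) f' S hf2
    A (hA.trans hsub) (1 - (N₀ + H)) H hH
  refine le_trans (le_of_eq ?_) hmain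
  refine sum_bij' (fun N _ => -N) (fun N _ => -N) ?_ ?_ ?_ ?_ ?_
  · intro N hN
    rw [mem_Ico] at hN ⊢
    omega
  · intro N hN
    rw [mem_Ico] at hN ⊢
    omega
  · intro N _; ring
  · intro N _; ring
  · intro N _
    congr 1
    refine sum_congr rfl fun n hn => ?_
    have h1 : f' n = f n := by
      rw [hf']; simp only [hA hn, if_true]
    rw [h1, show -N - eval (n : ℤ) P = -(N + eval (n : ℤ) P) by ring, EP3_Geven, EP3_Leven]

end Pool.Agent.Lib.H59X
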