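import Pool.Agent.Lib.H59X.EP3

/-!
# Chunk EP4: the engine for the values `N + P(n)`
-/

open Finset Polynomial

namespace Pool.Agent.Lib.H59X

open Pool.Agent.Lib.H59 (argCount)
open Pool.Agent.Lib.H68T (lp Reg Good)
open Pool.Agent.Lib.H33B

/-- the Fourier-uniform part on a block -/
theorem EP4_first (G : ℤ[X]) (cG X : ℕ) (hcG : ∀ n ∈ Icc 1 X, -(cG : ℤ) ≤ G.eval (n : ℤ)) (Y H J i : ℕ)
    (hH : 0 < H) (hJ : Y + cG < 4 ^ J * H) (f : ℕ → ℝ) (φ : ℤ → ℝ) (T : ℝ)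
    (hT : ∀ j ∈ range J, ∑ N ∈ Icc 1 Y, |∑ n ∈ ((Icc 1 X).filter
      (fun n : ℕ => G.eval (n : ℤ) + H ≤ ((i * H : ℕ) : ℤ))).filter
        (fun n : ℕ => ((4 ^ j * H : ℕ) : ℤ) ≤ (N : ℤ) - G.eval (n : ℤ) ∧
          (N : ℤ) - G.eval (n : ℤ) < ((4 ^ (j + 1) * H : ℕ) : ℤ)),
          f n * φ ((N : ℤ) - G.eval (n : ℤ))| ≤ T) :
    ∑ N ∈ (Icc 1 Y).filter (fun N => (N - 1) / H = i),
      |∑ n ∈ (Icc 1 X).filter (fun n : ℕ => G.eval (n : ℤ) + H ≤ ((i * H : ℕ) : ℤ)),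
        f n * φ ((N : ℤ) - G.eval (n : ℤ))| ≤ J * T := by
  have h1 : ∀ N ∈ (Icc 1 Y).filter (fun N => (N - 1) / H = i),
      |∑ n ∈ (Icc 1 X).filter (fun n : ℕ => G.eval (n : ℤ) + H ≤ ((i * H : ℕ) : ℤ)),
        f n * φ ((N : ℤ) - G.eval (n : ℤ))| ≤
      ∑ j ∈ range J, |∑ n ∈ ((Icc 1 X).filter
      (fun n : ℕ => G.eval (n : ℤ) + H ≤ ((i * H : ℕ) : ℤ))).filter
        (fun n : ℕ => ((4 ^ j * H : ℕ) : ℤ) ≤ (N : ℤ) - G.eval (n : ℤ) ∧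
          (N : ℤ) - G.eval (n : ℤ) < ((4 ^ (j + 1) * H : ℕ) : ℤ)),
          f n * φ ((N : ℤ) - G.eval (n : ℤ))| := by
    intro N hN
    rw [mem_filter, mem_Icc] at hN
    obtain ⟨⟨hN1, hNY⟩, hNi⟩ := hN
    have hdiv : (N - 1) / H * H + (N - 1) % H = N - 1 := Nat.div_add_mod' (N - 1) H
    rw [hNi] at hdiv
    refine le_trans (le_of_eq ?_) (abs_sum_le_sum_abs _ _)
    congr 1
    have h2 : ∀ n ∈ (Icc 1 X).filter (fun n : ℕ => G.eval (n : ℤ) + H ≤ ((i * H : ℕ) : ℤ)),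
        f n * φ ((N : ℤ) - G.eval (n : ℤ)) = ∑ j ∈ range J,
          (if ((4 ^ j * H : ℕ) : ℤ) ≤ (N : ℤ) - G.eval (n : ℤ) ∧
          (N : ℤ) - G.eval (n : ℤ) < ((4 ^ (j + 1) * H : ℕ) : ℤ) then
            f n * φ ((N : ℤ) - G.eval (n : ℤ)) else 0) := by
      intro n hn
      rw [mem_filter] at hn
      rw [ENG_pieces, if_pos]
      have h3 := hn.2
      have h4 := hcG n hn.1
      have h5 : ((Y + cG : ℕ) : ℤ) < ((4 ^ J * H : ℕ) : ℤ) := by exact_mod_cast hJ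
      constructor
      · omega
      · refine lt_of_le_of_lt ?_ h5
        push_cast
        omega
    rw [sum_congr rfl h2, sum_comm]
    refine sum_congr rfl fun j _ => ?_
    rw [sum_filter (s := (Icc 1 X).filter
      (fun n : ℕ => G.eval (n : ℤ) + H ≤ ((i * H : ℕ) : ℤ)))]
  refine (sum_le_sum h1).trans ?_
  rw [sum_comm]
  have h6 : ∀ j ∈ range J, ∑ N ∈ (Icc 1 Y).filter (fun N => (N - 1) / H = i), |∑ n ∈ ((Icc 1 X).filter
      (fun n : ℕ => G.eval (n : ℤ) + H ≤ ((i * H : ℕ) : ℤ))).filter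
        (fun n : ℕ => ((4 ^ j * H : ℕ) : ℤ) ≤ (N : ℤ) - G.eval (n : ℤ) ∧
          (N : ℤ) - G.eval (n : ℤ) < ((4 ^ (j + 1) * H : ℕ) : ℤ)),
          f n * φ ((N : ℤ) - G.eval (n : ℤ))| ≤ T := fun j hj =>
    (sum_le_sum_of_subset_of_nonneg (filter_subset _ _) (fun _ _ _ => abs_nonneg _)).trans (hT j hj)
  refine (sum_le_sum h6).trans ?_
  rw [sum_const, card_range, nsmul_eq_mul]

theorem engine_neg (P : ℤ[X]) (hk : 1 ≤ P.natDegree) (hl : 0 < P.leadingCoeff) (D : ℕ) (C c₁ : ℝ)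
    (hC : 0 ≤ C) (hc₁ : 0 < c₁) : ∀ G : ℤ[X], G = -P →
    ∃ K : ℝ, 0 ≤ K ∧ ∀ ε : ℝ, 0 < ε → ∃ w₀ : ℕ, ∀ w : ℕ, w₀ ≤ w → ∃ Y₀ : ℕ, ∀ Y X : ℕ, Y₀ ≤ Y →
    1 ≤ X → c₁ * Y ≤ (X : ℝ) ^ P.natDegree → (X : ℝ) ≤ 2 * Y → (∀ n ∈ Icc 1 X, P.eval (n : ℤ) ≤ Y) →
    ∀ (f : ℕ → ℝ) (S : ℝ), SieveWt D C K Y X S f →
    ∑ N ∈ Icc 1 Y, |∑ n ∈ (Icc 1 X).filter (fun n : ℕ => G.eval (n : ℤ) < N),
      f n * (lp ((N : ℤ) - G.eval (n : ℤ)) - Lw w ((N : ℤ) - G.eval (n : ℤ)))| ≤ ε * Y * S := by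
  intro G hGP
  have hGe : ∀ n : ℤ, G.eval n = - P.eval n := fun n => by rw [hGP, eval_neg]
  have hPG : ∀ N n : ℤ, N + P.eval n = N - G.eval n := fun N n => by rw [hGe]; ring
  obtain ⟨c, hc, hgood⟩ := Pool.Agent.Lib.H57S.good_level
  obtain ⟨K, hK0, hls⟩ := ls_plus P hk hl D C c₁ hC hc₁
  refine ⟨K, hK0, fun ε hε => ?_⟩
  obtain ⟨Cl, hCl, hlp⟩ := sum_lp_le
  set δ : ℝ := min 1 (ε / (16 * (Cl + 2))) with hδdef
  have hδ : 0 < δ := lt_min one_pos (by positivity)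
  have hδ1 : δ ≤ 1 := min_le_left _ _
  have hδ2 : δ ≤ ε / (16 * (Cl + 2)) := min_le_right _ _
  obtain ⟨w₀, hw₀⟩ := hls (ε / 16) (by positivity)
  refine ⟨w₀, fun w hw => ?_⟩
  obtain ⟨Y₁, hY₁⟩ := hw₀ w hw
  obtain ⟨Kd, hdec⟩ := dec P hk hl c hc (2 * C + 1) δ c₁ hδ hc₁
  obtain ⟨K₁, hK₁, Y₂, hreg⟩ := ENG_reg Kd δ hδ
  obtain ⟨Y₃, hgl⟩ := hgood (K₁ + 1)
  obtain ⟨J, hJ⟩ : ∃ J : ℕ, 2 / δ < (4 : ℝ) ^ J := pow_unbounded_of_one_lt _ (by norm_num)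
  obtain ⟨y₀, hy3, hev⟩ := ENG_ev2 δ (PW w : ℝ) ((1 / δ + 1) * J) (ε / 4) hδ (by positivity)
  refine ⟨max (max Y₁ Y₂) (max ⌈Y₃⌉₊ ⌈y₀⌉₊), fun Y X hY hX1' hXk hX2Y hPX f S hf => ?_⟩
  have hYY1 : Y₁ ≤ Y := ((le_max_left _ _).trans (le_max_left _ _)).trans hY
  have hYY2 : Y₂ ≤ Y := ((le_max_right _ _).trans (le_max_left _ _)).trans hY
  have hYY3 : Y₃ ≤ (Y : ℝ) := (Nat.le_ceil _).trans
    (by exact_mod_cast ((le_max_left _ _).trans (le_max_right _ _)).trans hY)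
  have hYY4 : y₀ ≤ (Y : ℝ) := (Nat.le_ceil _).trans
    (by exact_mod_cast ((le_max_right _ _).trans (le_max_right _ _)).trans hY)
  obtain ⟨v1, v2, v3, v4, v5, v6, v7⟩ := hev Y hYY4
  have hY3 : (3 : ℝ) ≤ Y := hy3.trans hYY4
  have hYpos : (0 : ℝ) < Y := by linarith
  have hPW0 : (0 : ℝ) ≤ PW w := Nat.cast_nonneg _
  obtain ⟨cG, hcGd⟩ : ∃ cG : ℕ, cG = Y := ⟨Y, rfl⟩
  have hcG : ∀ n ∈ Icc 1 X, -(cG : ℤ) ≤ G.eval (n : ℤ) := fun n hn => by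
    rw [hGe, hcGd]
    have := hPX n hn
    omega
  obtain ⟨Q, hQ1, hQ2, hQg⟩ := hgl Y hYY3
  set L := Real.log (Y : ℝ) with hL
  have hL0 : 0 < L := by linarith
  -- the total mass
  have hmass : ∑ n ∈ Icc 1 X, f n ≤ S := by
    have h := hf.cls 1 0 squarefree_one (by rw [Nat.cast_one]; exact Real.one_le_rpow v1 hK0)
    rw [filter_true_of_mem (fun n _ => Nat.modEq_one)] at h
    simpa using h
  have hS0 : 0 ≤ S := (sum_nonneg hf.nonneg).trans hmass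
  -- the length of the blocks
  set H : ℕ := ⌈δ * Y⌉₊ with hHdef
  have hH1 : δ * Y ≤ H := Nat.le_ceil _
  have hH2 : (H : ℝ) ≤ 2 * (δ * Y) := by
    have := Nat.ceil_lt_add_one (a := δ * (Y : ℝ)) (by positivity)
    linarith
  have hHpos : 0 < H := by
    have : (0 : ℝ) < H := by linarith
    exact_mod_cast this
  have hHr : (0 : ℝ) < H := by exact_mod_cast hHpos
  -- Q
  have hQK : L ^ K₁ ≤ Q := by
    refine le_trans ?_ hQ1
    exact Real.rpow_le_rpow_of_exponent_le v1 (by linarith)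
  have hPQ : PW w ≤ Q := by
    have h1 : (PW w : ℝ) ≤ Q := by
      have h2 : L ≤ L ^ (K₁ + 1) := by
        calc L = L ^ (1 : ℝ) := (Real.rpow_one L).symm
          _ ≤ _ := Real.rpow_le_rpow_of_exponent_le v1 (by linarith)
      linarith
    exact_mod_cast h1
  have hQH : Q ^ 4 ≤ H := by
    have h1 : ((Q : ℝ)) ^ 4 ≤ H := by
      calc ((Q : ℝ)) ^ 4 ≤ (Real.exp (Real.sqrt L)) ^ 4 :=
            pow_le_pow_left₀ (Nat.cast_nonneg _) hQ2 4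
        _ = Real.exp (4 * Real.sqrt L) := by rw [← Real.exp_nat_mul]; norm_num
        _ ≤ δ * Y := v6
        _ ≤ H := hH1
    exact_mod_cast h1
  have hJH : Y + cG < 4 ^ J * H := by
    have h1 : ((Y + cG : ℕ) : ℝ) < ((4 ^ J * H : ℕ) : ℝ) := by
      push_cast
      have h2 : (cG : ℝ) ≤ Y := by rw [hcGd]
      have h3 : 2 / δ * (δ * Y) = 2 * Y := by field_simp
      have h4 : 2 / δ * (δ * Y) < 4 ^ J * (δ * Y) := mul_lt_mul_of_pos_right hJ (by positivity)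
      have h5 : (4:ℝ) ^ J * (δ * Y) ≤ 4 ^ J * H := mul_le_mul_of_nonneg_left hH1 (by positivity)
      linarith
    exact_mod_cast h1
  -- number of blocks
  have hblocks : ((Y / H + 1 : ℕ) : ℝ) ≤ 1 / δ + 1 := by
    push_cast
    have h1 : ((Y / H : ℕ) : ℝ) ≤ (Y : ℝ) / H := Nat.cast_div_le
    have h2 : (Y : ℝ) / H ≤ 1 / δ := by
      rw [div_le_div_iff₀ hHr hδ]
      linarith
    linarith
  have hblocks2 : ((Y / H + 1 : ℕ) : ℝ) * H ≤ 3 * Y := by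
    have h1 : ((Y / H + 1 : ℕ) : ℝ) * H = (((Y / H) * H : ℕ) : ℝ) + H := by push_cast; ring
    have h2 : (((Y / H) * H : ℕ) : ℝ) ≤ Y := by exact_mod_cast Nat.div_mul_le_self Y H
    have h3 : δ * Y ≤ 1 * Y := mul_le_mul_of_nonneg_right hδ1 hYpos.le
    rw [h1]; linarith
  -- first part
  have hfirst : ∀ i ∈ range (Y / H + 1),
      ∑ N ∈ (Icc 1 Y).filter (fun N => (N - 1) / H = i),
      |∑ n ∈ (Icc 1 X).filter (fun n : ℕ => G.eval (n : ℤ) + H ≤ ((i * H : ℕ) : ℤ)),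
        f n * (lp ((N : ℤ) - G.eval (n : ℤ)) -
          Pool.Agent.Lib.H68T.G Q ((N : ℤ) - G.eval (n : ℤ)))| ≤ J * (Y * S / L) := by
    intro i _
    refine EP4_first G cG X hcG Y H J i hHpos hJH f
      (fun m => lp m - Pool.Agent.Lib.H68T.G Q m) (Y * S / L) ?_
    intro j _
    have hTnn : 0 ≤ Y * S / L := by positivity
    by_cases hj : ((4 ^ j * H : ℕ) : ℝ) ≤ 2 * Y
    · have hX₀ : δ * Y ≤ ((4 ^ j * H : ℕ) : ℝ) := by
        refine hH1.trans ?_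
        exact_mod_cast Nat.le_mul_of_pos_left H (by positivity)
      have hR := hreg Y Q (4 ^ j * H) hYY2 hQK hQ2 hX₀ hj
      set f' : ℕ → ℝ := fun n => if n ∈ Icc 1 X then f n / L ^ C else 0 with hf'
      have hLC : 0 < L ^ C := Real.rpow_pos_of_pos hL0 _
      have hf'1 : ∀ n, |f' n| ≤ 1 := by
        intro n
        rw [hf']
        by_cases hn : n ∈ Icc 1 X
        · simp only [hn, if_true]
          rw [abs_of_nonneg (div_nonneg (hf.nonneg n hn) hLC.le), div_le_one hLC]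
          exact hf.le n hn
        · simp only [hn, if_false, abs_zero]
          norm_num
      have hb : (((4 ^ (j + 1) * H : ℕ) : ℤ)) ≤ 4 * ((4 ^ j * H : ℕ) : ℤ) := by
        push_cast; ring_nf; exact le_rfl
      have hd := hdec Y Q (4 ^ j * H) X hR hQg hX₀ hj hX1' hXk hX2Y _ hb f' hf'1
        ((Icc 1 X).filter (fun n : ℕ => G.eval (n : ℤ) + H ≤ ((i * H : ℕ) : ℤ)))
        (filter_subset _ _)
      simp only [hPG] at hd
      have heq : ∀ N ∈ Icc 1 Y, |∑ n ∈ ((Icc 1 X).filter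
          (fun n : ℕ => G.eval (n : ℤ) + H ≤ ((i * H : ℕ) : ℤ))).filter
          (fun n : ℕ => ((4 ^ j * H : ℕ) : ℤ) ≤ (N : ℤ) - G.eval (n : ℤ) ∧
            (N : ℤ) - G.eval (n : ℤ) < ((4 ^ (j + 1) * H : ℕ) : ℤ)),
            f n * (lp ((N : ℤ) - G.eval (n : ℤ)) -
              Pool.Agent.Lib.H68T.G Q ((N : ℤ) - G.eval (n : ℤ)))| =
          L ^ C * |∑ n ∈ ((Icc 1 X).filter
          (fun n : ℕ => G.eval (n : ℤ) + H ≤ ((i * H : ℕ) : ℤ))).filter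
          (fun n : ℕ => ((4 ^ j * H : ℕ) : ℤ) ≤ (N : ℤ) - G.eval (n : ℤ) ∧
            (N : ℤ) - G.eval (n : ℤ) < ((4 ^ (j + 1) * H : ℕ) : ℤ)),
            f' n * (lp ((N : ℤ) - G.eval (n : ℤ)) -
              Pool.Agent.Lib.H68T.G Q ((N : ℤ) - G.eval (n : ℤ)))| := by
        intro N _
        have habs : ∀ x : ℝ, L ^ C * |x| = |L ^ C * x| := fun x => by
          rw [abs_mul, abs_of_pos hLC]
        rw [habs, mul_sum]
        congr 1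
        refine sum_congr rfl fun n hn => ?_
        rw [mem_filter, mem_filter] at hn
        rw [hf']
        simp only [hn.1.1, if_true]
        field_simp
      rw [sum_congr rfl heq, ← mul_sum]
      refine (mul_le_mul_of_nonneg_left hd hLC.le).trans ?_
      rw [← hL]
      have hpow : L ^ (2 * C + 1) = L ^ C * L ^ C * L := by
        rw [← Real.rpow_add hL0, Real.rpow_add_one hL0.ne']
        congr 2; ring
      rw [hpow]
      have hXS : (X : ℝ) ≤ S * L ^ C := hf.large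
      rw [← mul_div_assoc, div_le_div_iff₀ (by positivity) hL0]
      calc L ^ C * (Y * X) * L ≤ L ^ C * (Y * (S * L ^ C)) * L := by gcongr
        _ = Y * S * (L ^ C * L ^ C * L) := by ring
    · have hzero : ∀ N ∈ Icc 1 Y, |∑ n ∈ ((Icc 1 X).filter
          (fun n : ℕ => G.eval (n : ℤ) + H ≤ ((i * H : ℕ) : ℤ))).filter
          (fun n : ℕ => ((4 ^ j * H : ℕ) : ℤ) ≤ (N : ℤ) - G.eval (n : ℤ) ∧
            (N : ℤ) - G.eval (n : ℤ) < ((4 ^ (j + 1) * H : ℕ) : ℤ)),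
            f n * (lp ((N : ℤ) - G.eval (n : ℤ)) -
              Pool.Agent.Lib.H68T.G Q ((N : ℤ) - G.eval (n : ℤ)))| = 0 := by
        intro N hN
        rw [abs_eq_zero]
        apply sum_eq_zero
        intro n hn
        exfalso
        rw [mem_filter] at hn
        rw [mem_Icc] at hN
        have h1 := hn.2.1
        have h2 := hcG n (mem_filter.1 hn.1).1
        apply hj
        have h3 : ((4 ^ j * H : ℕ) : ℤ) ≤ (Y : ℤ) + cG := by omega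
        have h4 : ((4 ^ j * H : ℕ) : ℝ) ≤ (Y : ℝ) + cG := by exact_mod_cast h3
        rw [hcGd] at h4
        linarith
      rw [sum_congr rfl hzero, sum_const_zero]
      exact hTnn
  -- second part
  have hsecond : ∀ i ∈ range (Y / H + 1),
      ∑ N ∈ (Icc 1 Y).filter (fun N => (N - 1) / H = i),
      |∑ n ∈ (Icc 1 X).filter (fun n : ℕ => G.eval (n : ℤ) + H ≤ ((i * H : ℕ) : ℤ)),
        f n * (Pool.Agent.Lib.H68T.G Q ((N : ℤ) - G.eval (n : ℤ)) -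
          Lw w ((N : ℤ) - G.eval (n : ℤ)))| ≤ ε / 16 * H * S := by
    intro i _
    refine (ENG_second Y H i hHpos (fun N => |∑ n ∈ (Icc 1 X).filter
      (fun n : ℕ => G.eval (n : ℤ) + H ≤ ((i * H : ℕ) : ℤ)),
        f n * (Pool.Agent.Lib.H68T.G Q (N - G.eval (n : ℤ)) -
          Lw w (N - G.eval (n : ℤ)))|) (fun _ => abs_nonneg _)).trans ?_
    have hls := hY₁ Y Q X hYY1 hX1' hXk hPX hPQ hQ2 f S hf
      ((Icc 1 X).filter (fun n : ℕ => G.eval (n : ℤ) + H ≤ ((i * H : ℕ) : ℤ)))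
      (filter_subset _ _) (((i * H + 1 : ℕ) : ℤ)) H hQH
    simp only [hPG] at hls
    exact hls
  -- both
  have hmain : ∑ N ∈ Icc 1 Y, |∑ n ∈ (Icc 1 X).filter
      (fun n : ℕ => G.eval (n : ℤ) + H ≤ (((N - 1) / H * H : ℕ) : ℤ)),
        f n * (lp ((N : ℤ) - G.eval (n : ℤ)) - Lw w ((N : ℤ) - G.eval (n : ℤ)))| ≤
      ∑ i ∈ range (Y / H + 1), (J * (Y * S / L) + ε / 16 * H * S) := by
    refine ENG_block Y H hHpos (fun i N => |∑ n ∈ (Icc 1 X).filter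
      (fun n : ℕ => G.eval (n : ℤ) + H ≤ ((i * H : ℕ) : ℤ)),
        f n * (lp ((N : ℤ) - G.eval (n : ℤ)) - Lw w ((N : ℤ) - G.eval (n : ℤ)))|) _ ?_
    intro i hi
    refine le_trans ?_ (add_le_add (hfirst i hi) (hsecond i hi))
    rw [← sum_add_distrib]
    refine sum_le_sum fun N _ => ?_
    refine le_trans (le_of_eq ?_) (abs_add_le _ _)
    rw [← sum_add_distrib]
    congr 1
    refine sum_congr rfl fun n _ => ?_
    ring
  -- rest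
  have hψT : ∑ m ∈ Icc (1 : ℤ) (2 * H : ℕ), (lp m + Lw w m) ≤ (2 * Cl + 4) * H := by
    rw [sum_add_distrib]
    have h1 := hlp (2 * H)
    have hPH : PW w ≤ 2 * H := by
      have : (PW w : ℝ) ≤ ((2 * H : ℕ) : ℝ) := by push_cast; linarith
      exact_mod_cast this
    have h2 := sum_Lw_le w (2 * H) hPH 1
    have h3 : Icc (1 : ℤ) (2 * H : ℕ) = Ico 1 (1 + ((2 * H : ℕ) : ℤ)) := by
      ext m; rw [mem_Icc, mem_Ico]; omega
    rw [h3] at h1 ⊢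
    push_cast at h1 h2 ⊢
    linarith
  have hrest := ENG_rest G X Y H f hf.nonneg S ((2 * Cl + 4) * H) hmass (by positivity)
    (fun m => lp m + Lw w m) (fun m => add_nonneg (ENG_lp_nonneg m) (ENG_Lw_nonneg w m)) hψT
  have hsplit : ∀ N ∈ Icc 1 Y, |∑ n ∈ (Icc 1 X).filter (fun n : ℕ => G.eval (n : ℤ) < N),
      f n * (lp ((N : ℤ) - G.eval (n : ℤ)) - Lw w ((N : ℤ) - G.eval (n : ℤ)))| ≤
      |∑ n ∈ (Icc 1 X).filter (fun n : ℕ => G.eval (n : ℤ) + H ≤ (((N - 1) / H * H : ℕ) : ℤ)),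
        f n * (lp ((N : ℤ) - G.eval (n : ℤ)) - Lw w ((N : ℤ) - G.eval (n : ℤ)))| +
      ∑ n ∈ (Icc 1 X).filter (fun n : ℕ => 1 ≤ (N : ℤ) - G.eval (n : ℤ) ∧
        (N : ℤ) - G.eval (n : ℤ) ≤ (2 * H : ℕ)),
          f n * (lp ((N : ℤ) - G.eval (n : ℤ)) + Lw w ((N : ℤ) - G.eval (n : ℤ))) := by
    intro N hN
    rw [mem_Icc] at hN
    exact ENG_split G X N H hN.1 hHpos f hf.nonneg (fun m => lp m - Lw w m)
      (fun m => lp m + Lw w m) (fun m => by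
        rw [abs_le]
        have h1 := ENG_lp_nonneg m
        have h2 := ENG_Lw_nonneg w m
        constructor <;> linarith)
  refine (sum_le_sum hsplit).trans ?_
  rw [sum_add_distrib]
  refine (add_le_add hmain hrest).trans ?_
  rw [sum_const, card_range, nsmul_eq_mul]
  have t1 : ((Y / H + 1 : ℕ) : ℝ) * (J * (Y * S / L)) ≤ ε / 4 * (Y * S) := by
    calc ((Y / H + 1 : ℕ) : ℝ) * (J * (Y * S / L)) ≤ (1 / δ + 1) * (J * (Y * S / L)) := by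
          gcongr
      _ = ((1 / δ + 1) * J / L) * (Y * S) := by ring
      _ ≤ ε / 4 * (Y * S) := mul_le_mul_of_nonneg_right v7 (by positivity)
  have t2 : ((Y / H + 1 : ℕ) : ℝ) * (ε / 16 * H * S) ≤ 3 * ε / 16 * (Y * S) := by
    calc ((Y / H + 1 : ℕ) : ℝ) * (ε / 16 * H * S) = ε / 16 * S * (((Y / H + 1 : ℕ) : ℝ) * H) := by
          ring
      _ ≤ ε / 16 * S * (3 * Y) := mul_le_mul_of_nonneg_left hblocks2 (by positivity)
      _ = _ := by ring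
  have t3 : S * ((2 * Cl + 4) * H) ≤ ε / 4 * (Y * S) := by
    have h1 : (2 * Cl + 4) * (H : ℝ) ≤ (2 * Cl + 4) * (2 * (ε / (16 * (Cl + 2)) * Y)) := by
      have h2 : (H : ℝ) ≤ 2 * (ε / (16 * (Cl + 2)) * Y) := by
        refine hH2.trans ?_
        gcongr
      exact mul_le_mul_of_nonneg_left h2 (by positivity)
    have h3 : (2 * Cl + 4) * (2 * (ε / (16 * (Cl + 2)) * Y)) = ε / 4 * Y := by
      field_simp
      ring
    calc S * ((2 * Cl + 4) * H) ≤ S * (ε / 4 * Y) :=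
          mul_le_mul_of_nonneg_left (h1.trans h3.le) hS0
      _ = _ := by ring
  have hYS : 0 ≤ (Y : ℝ) * S := by positivity
  nlinarith

/-- The engine for the values `N + P(n)`. -/
theorem engine_plus0 (P : ℤ[X]) (hk : 1 ≤ P.natDegree) (hl : 0 < P.leadingCoeff) (D : ℕ) (C c₁ : ℝ)
    (hC : 0 ≤ C) (hc₁ : 0 < c₁) :
    ∃ K : ℝ, 0 ≤ K ∧ ∀ ε : ℝ, 0 < ε → ∃ w₀ : ℕ, ∀ w : ℕ, w₀ ≤ w → ∃ Y₀ : ℕ, ∀ Y X : ℕ, Y₀ ≤ Y →
    1 ≤ X → c₁ * Y ≤ (X : ℝ) ^ P.natDegree → (X : ℝ) ≤ 2 * Y → (∀ n ∈ Icc 1 X, P.eval (n : ℤ) ≤ Y) →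
    ∀ (f : ℕ → ℝ) (S : ℝ), SieveWt D C K Y X S f →
    ∑ N ∈ Icc 1 Y, |∑ n ∈ (Icc 1 X).filter (fun n : ℕ => 0 < (N : ℤ) + P.eval (n : ℤ)),
      f n * (lp ((N : ℤ) + P.eval (n : ℤ)) - Lw w ((N : ℤ) + P.eval (n : ℤ)))| ≤ ε * Y * S := by
  obtain ⟨K, hK, h⟩ := engine_neg P hk hl D C c₁ hC hc₁ (-P) rfl
  refine ⟨K, hK, fun ε hε => ?_⟩
  obtain ⟨w₀, h⟩ := h ε hε
  refine ⟨w₀, fun w hw => ?_⟩
  obtain ⟨Y₀, h⟩ := h w hw
  refine ⟨Y₀, fun Y X h1 h2 h3 h4 h5 f S hf => ?_⟩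
  have h6 := h Y X h1 h2 h3 h4 h5 f S hf
  simp only [eval_neg, sub_neg_eq_add] at h6
  have h7 : ∀ N : ℕ, (Icc 1 X).filter (fun n : ℕ => 0 < (N : ℤ) + P.eval (n : ℤ)) =
      (Icc 1 X).filter (fun n : ℕ => -P.eval (n : ℤ) < (N : ℤ)) := fun N => by
    refine filter_congr fun n _ => ?_
    constructor <;> intro h <;> omega
  simp only [h7]
  exact h6

end Pool.Agent.Lib.H59X

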