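import Pool.Agent.Lib.H59X.Defs

/-!
# Chunk EP5: the engine for `h + P(n)`, in terms of `X` only
-/

open Finset Polynomial

namespace Pool.Agent.Lib.H59X

open Pool.Agent.Lib.H59 (argSet argCount Admissible primeCount omegaN seriesTrunc rootCount)
open Pool.Agent.Lib.H68T (lp)
open Pool.Agent.Lib.H33B (Lq Lw PW SieveWt)

/-- Change of the scale.

Proof. `S ≥ 0`, because `S ≥ ∑ f` by `cls` for `q = 1` (`1 ≤ (log Z)^K'`). `le`, `large`: `(log Z)^C ≤ (log Y)^C`. `cls`: hypothesis. -/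
theorem wt_scale (D : ℕ) (C K K' : ℝ) (hC : 0 ≤ C) (hK' : 0 ≤ K') (X Y Z : ℕ) (S : ℝ) (f : ℕ → ℝ)
    (hZ : 1 ≤ Real.log Z) (hZY : Real.log Z ≤ Real.log Y) (hKK : Real.log Y ^ K ≤ Real.log Z ^ K')
    (hf : SieveWt D C K' Z X S f) : SieveWt D C K Y X S f := by
  have hlogZ : 0 < Real.log Z := by linarith
  have hS : 0 ≤ S := by
    have h1 := hf.cls 1 0 squarefree_one (by
      rw [Nat.cast_one]; exact Real.one_le_rpow hZ hK')
    have h2 : 0 ≤ ∑ n ∈ (Icc 1 X).filter (fun n => n ≡ 0 [MOD 1]), f n :=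
      sum_nonneg fun n hn => hf.nonneg n (mem_filter.mp hn).1
    simp only [Nat.primeFactors_one, card_empty, pow_zero, one_mul, Nat.cast_one, div_one] at h1
    linarith
  have hpow : Real.log Z ^ C ≤ Real.log Y ^ C := Real.rpow_le_rpow hlogZ.le hZY hC
  exact ⟨hf.nonneg, fun n hn => (hf.le n hn).trans hpow,
    fun q b hq hqK => hf.cls q b hq (hqK.trans hKK),
    hf.large.trans (mul_le_mul_of_nonneg_left hpow hS)⟩

theorem EP5_Lw_le (w : ℕ) (m : ℤ) : Lw w m ≤ PW w := by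
  unfold Pool.Agent.Lib.H33B.Lw Pool.Agent.Lib.H33B.Lq
  have hP : 0 < PW w := H33B.PW_pos w
  split_ifs
  · have h1 : (1 : ℝ) ≤ ((PW w).totient : ℝ) := by exact_mod_cast Nat.totient_pos.2 hP
    exact div_le_self (Nat.cast_nonneg _) h1
  · exact Nat.cast_nonneg _

theorem EP5_low (P : ℤ[X]) (hk : 1 ≤ P.natDegree) (hl : 0 < P.leadingCoeff) :
    ∃ c n₀ : ℕ, ∀ n h : ℕ, (h : ℤ) + P.eval (n : ℤ) ≤ 0 → h ≤ c ∧ (1 ≤ h → n < n₀) := by
  obtain ⟨c, hc⟩ := H33B.ENG_low P hk hl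
  obtain ⟨n₁, hn₁⟩ := Pool.Agent.Lib.H59.exists_strictMono hk hl
  refine ⟨c, n₁ + c + 2, fun n h hnh => ⟨by have := hc n; omega, fun h1 => ?_⟩⟩
  by_contra hcon
  push Not at hcon
  have hgrow : ∀ k : ℕ, P.eval (n₁ : ℤ) + k ≤ P.eval ((n₁ + k : ℕ) : ℤ) := by
    intro k
    induction k with
    | zero => simp
    | succ k ih =>
      have := hn₁ (n₁ + k) (n₁ + (k + 1)) (by omega) (by omega)
      push_cast at *
      omega
  obtain ⟨k, hk'⟩ : ∃ k, n = n₁ + k := ⟨n - n₁, by omega⟩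
  have h2 := hgrow k
  rw [← hk'] at h2
  have h3 := hc n₁
  omega

open Filter in
theorem EP5_ev (a b C : ℝ) (hC : 0 ≤ C) : ∃ X₀ : ℕ, 3 ≤ X₀ ∧ ∀ X : ℕ, X₀ ≤ X →
    a ≤ X ∧ b ≤ Real.log X ∧ Real.log X ^ (2 * C) ≤ X ∧ 1 ≤ Real.log X := by
  have hlog : Tendsto (fun X : ℕ => Real.log (X : ℝ)) atTop atTop :=
    Real.tendsto_log_atTop.comp tendsto_natCast_atTop_atTop
  have h1 : ∀ᶠ x : ℝ in atTop, ‖Real.log x ^ (2 * C)‖ ≤ 1 * ‖x ^ (1 : ℝ)‖ :=
    (isLittleO_log_rpow_rpow_atTop (2 * C) one_pos).bound one_pos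
  have h2 : ∀ᶠ X : ℕ in atTop, ‖Real.log (X : ℝ) ^ (2 * C)‖ ≤ 1 * ‖(X : ℝ) ^ (1 : ℝ)‖ :=
    tendsto_natCast_atTop_atTop.eventually h1
  obtain ⟨X₀, hX₀⟩ := eventually_atTop.1 (((tendsto_natCast_atTop_atTop (R := ℝ)).eventually_ge_atTop
    a).and ((hlog.eventually_ge_atTop b).and (h2.and (hlog.eventually_ge_atTop 1))))
  refine ⟨max X₀ 3, le_max_right _ _, fun X hX => ?_⟩
  obtain ⟨a1, a2, a3, a4⟩ := hX₀ X ((le_max_left _ _).trans hX)
  refine ⟨a1, a2, ?_, a4⟩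
  rw [one_mul, Real.rpow_one, Real.norm_of_nonneg (Real.rpow_nonneg (by linarith) _),
    Real.norm_of_nonneg (Nat.cast_nonneg _)] at a3
  exact a3

/-- The engine for `h + P(n)`, `h ≤ H`, `n ≤ X`, `H` of the order of `X^(deg P)`.

Proof. Put `d = deg P`. Let `B` be a natural number with `B ≥ C₁ + coeffSum P + 1` (`H59.eval_le_coeffSum`: `P(n) ≤ coeffSum P · n^d` for `n ≥ 1`),
`Y = B X^d`. Then `P(n) ≤ Y` for `1 ≤ n ≤ X`, `H ≤ Y`, `X ≤ 2 Y`, `(1/B) Y ≤ X^d`, and `log Y ≤ (d + 1) log X` for large `X`, so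
`(log Y)^K ≤ (log X)^(K+1)`. Take `K₀` from `engine_plus0 P hk hl D C (1/B)` and `K = K₀ + 1`; by `wt_scale` (`Z = X`) `f` is a
`SieveWt D C K₀ Y X S`. `engine_plus0` with `ε' = ε/(2 B C₁)` bounds
`∑_{N ≤ Y} |∑_{n ≤ X, 0 < N + P(n)} f(n)(lp - Lw)(N + P(n))|` by `ε' Y S ≤ (ε/2) H S` (`Y = B X^d ≤ B C₁ H`); drop the `N > H`. The
remaining `n`, those with `h + P(n) ≤ 0`: since `lc P > 0` there are `n₀, c₀` (depending on `P` only, `H33B.ENG_low`, `H59.exists_strictMono`) with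
`n < n₀` and `h ≤ c₀` for all such pairs `(h, n)`; there `lp = 0`, `0 ≤ Lw w m ≤ PW w` (`Lq q m ≤ q/φ(q) ≤ q`) and `f(n) ≤ (log X)^C`, so in total they
contribute at most `n₀ c₀ (log X)^C PW w`, and this is `≤ (ε/2) H S` for large `X`, because `S (log X)^C ≥ X` and `H ≥ X^d/C₁ ≥ X/C₁`. -/
theorem engine_shift (P : ℤ[X]) (hk : 1 ≤ P.natDegree) (hl : 0 < P.leadingCoeff) (D : ℕ) (C C₁ : ℝ)
    (hC : 0 ≤ C) (hC₁ : 1 ≤ C₁) :
    ∃ K : ℝ, 0 ≤ K ∧ ∀ ε : ℝ, 0 < ε → ∃ w₀ : ℕ, ∀ w : ℕ, w₀ ≤ w → ∃ X₀ : ℕ, ∀ X : ℕ, X₀ ≤ X →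
    ∀ H : ℕ, (X : ℝ) ^ P.natDegree ≤ C₁ * H → (H : ℝ) ≤ C₁ * (X : ℝ) ^ P.natDegree →
    ∀ (f : ℕ → ℝ) (S : ℝ), SieveWt D C K X X S f →
    ∑ h ∈ Icc 1 H, |∑ n ∈ Icc 1 X, f n * (lp (P.eval (n : ℤ) + h) - Lw w (P.eval (n : ℤ) + h))| ≤
      ε * H * S := by
  obtain ⟨B, hB⟩ := exists_nat_ge (C₁ + Pool.Agent.Lib.H59.coeffSum P + 1)
  have hP0 : P ≠ 0 := by rintro rfl; simp at hl
  have hcs : 1 ≤ Pool.Agent.Lib.H59.coeffSum P := Pool.Agent.Lib.H59.one_le_coeffSum hP0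
  have hB1 : (1 : ℝ) ≤ B := by linarith
  have hB0 : (0 : ℝ) < B := by linarith
  obtain ⟨K₀, hK₀, heng⟩ := engine_plus0 P hk hl D C (1 / B) hC (by positivity)
  obtain ⟨c, n₀, hlow⟩ := EP5_low P hk hl
  set d := P.natDegree with hd
  refine ⟨K₀ + 1, by linarith, fun ε hε => ?_⟩
  obtain ⟨w₀, hw₀⟩ := heng (ε / (2 * B * C₁)) (by positivity)
  refine ⟨w₀, fun w hw => ?_⟩
  obtain ⟨Y₀, hY₀⟩ := hw₀ w hw
  obtain ⟨X₀, hX₀3, hX₀⟩ := EP5_ev (max (max B Y₀) (2 * ((c : ℝ) * n₀ * PW w * C₁) / ε))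
    (((d : ℝ) + 1) ^ K₀) C hC
  refine ⟨X₀, fun X hX H hH1 hH2 f S hf => ?_⟩
  obtain ⟨e1, e2, e3, e4⟩ := hX₀ X hX
  have hX3 : 3 ≤ X := hX₀3.trans hX
  have hXpos : (0 : ℝ) < X := by
    have : (3 : ℝ) ≤ X := by exact_mod_cast hX3
    linarith
  have hX1 : (1 : ℝ) ≤ X := by
    have : (3 : ℝ) ≤ X := by exact_mod_cast hX3
    linarith
  have hBX : (B : ℝ) ≤ X := ((le_max_left _ _).trans (le_max_left _ _)).trans e1
  have hYX : (Y₀ : ℝ) ≤ X := ((le_max_right _ _).trans (le_max_left _ _)).trans e1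
  have hcX : 2 * ((c : ℝ) * n₀ * PW w * C₁) / ε ≤ X := (le_max_right _ _).trans e1
  have hXd : (X : ℝ) ≤ (X : ℝ) ^ d := le_self_pow₀ hX1 (by omega)
  have hlogpos : 0 < Real.log X := by linarith
  set Y : ℕ := B * X ^ d with hY
  have hYr : (Y : ℝ) = B * (X : ℝ) ^ d := by rw [hY]; push_cast; ring
  have hXY : (X : ℝ) ≤ Y := by
    rw [hYr]; nlinarith
  have hYpos : (0 : ℝ) < Y := by linarith
  have hlogXY : Real.log X ≤ Real.log Y := Real.log_le_log hXpos hXY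
  have hlogY : Real.log Y ≤ ((d : ℝ) + 1) * Real.log X := by
    have h1 : (Y : ℝ) ≤ (X : ℝ) ^ (d + 1) := by
      rw [hYr, pow_succ]
      calc (B : ℝ) * (X : ℝ) ^ d ≤ X * (X : ℝ) ^ d := mul_le_mul_of_nonneg_right hBX (by positivity)
        _ = _ := by ring
    calc Real.log Y ≤ Real.log ((X : ℝ) ^ (d + 1)) := Real.log_le_log hYpos h1
      _ = _ := by rw [Real.log_pow]; push_cast; ring
  have hKK : Real.log Y ^ K₀ ≤ Real.log X ^ (K₀ + 1) := by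
    calc Real.log Y ^ K₀ ≤ (((d : ℝ) + 1) * Real.log X) ^ K₀ :=
          Real.rpow_le_rpow (by linarith) hlogY hK₀
      _ = ((d : ℝ) + 1) ^ K₀ * Real.log X ^ K₀ := Real.mul_rpow (by positivity) hlogpos.le
      _ ≤ Real.log X * Real.log X ^ K₀ :=
          mul_le_mul_of_nonneg_right e2 (Real.rpow_nonneg hlogpos.le _)
      _ = _ := by rw [Real.rpow_add_one hlogpos.ne']; ring
  have hfY := wt_scale D C K₀ (K₀ + 1) hC (by linarith) X Y X S f e4 hlogXY hKK hf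
  have hPY : ∀ n ∈ Icc 1 X, P.eval (n : ℤ) ≤ Y := by
    intro n hn
    rw [mem_Icc] at hn
    have h1 := Pool.Agent.Lib.H59.eval_le_coeffSum P hn.1
    have h2 : (n : ℝ) ^ d ≤ (X : ℝ) ^ d :=
      pow_le_pow_left₀ (Nat.cast_nonneg _) (by exact_mod_cast hn.2) d
    have h3 : ((P.eval (n : ℤ) : ℤ) : ℝ) ≤ (Y : ℝ) := by
      rw [hYr]
      calc ((P.eval (n : ℤ) : ℤ) : ℝ) ≤ Pool.Agent.Lib.H59.coeffSum P * (n : ℝ) ^ d := h1
        _ ≤ Pool.Agent.Lib.H59.coeffSum P * (X : ℝ) ^ d :=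
            mul_le_mul_of_nonneg_left h2 (by linarith)
        _ ≤ B * (X : ℝ) ^ d := mul_le_mul_of_nonneg_right (by linarith) (by positivity)
    exact_mod_cast h3
  have hY0' : Y₀ ≤ Y := by
    have : (Y₀ : ℝ) ≤ Y := hYX.trans hXY
    exact_mod_cast this
  have hmain := hY₀ Y X hY0' (by omega) (by
    rw [hYr]
    have : 1 / (B : ℝ) * (B * (X : ℝ) ^ d) = (X : ℝ) ^ d := by field_simp
    rw [this]) (by linarith) hPY f S hfY
  -- `H ≤ Y`
  have hHY : H ≤ Y := by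
    have : (H : ℝ) ≤ Y := by
      rw [hYr]
      exact hH2.trans (mul_le_mul_of_nonneg_right (by linarith) (by positivity))
    exact_mod_cast this
  have hS : 0 ≤ S := by
    have h1 := hf.large
    have h2 : 0 < Real.log X ^ C := Real.rpow_pos_of_pos hlogpos _
    by_contra hc
    push Not at hc
    nlinarith
  -- the two parts
  have hsplit : ∀ h ∈ Icc 1 H, |∑ n ∈ Icc 1 X, f n * (lp (P.eval (n : ℤ) + h) -
      Lw w (P.eval (n : ℤ) + h))| ≤
      |∑ n ∈ (Icc 1 X).filter (fun n : ℕ => 0 < (h : ℤ) + P.eval (n : ℤ)),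
        f n * (lp ((h : ℤ) + P.eval (n : ℤ)) - Lw w ((h : ℤ) + P.eval (n : ℤ)))| +
      (if h ≤ c then (n₀ : ℝ) * (Real.log X ^ C * PW w) else 0) := by
    intro h hh
    rw [mem_Icc] at hh
    have h1 : ∑ n ∈ Icc 1 X, f n * (lp (P.eval (n : ℤ) + h) - Lw w (P.eval (n : ℤ) + h)) =
        ∑ n ∈ (Icc 1 X).filter (fun n : ℕ => 0 < (h : ℤ) + P.eval (n : ℤ)),
          f n * (lp ((h : ℤ) + P.eval (n : ℤ)) - Lw w ((h : ℤ) + P.eval (n : ℤ))) +
        ∑ n ∈ (Icc 1 X).filter (fun n : ℕ => ¬ 0 < (h : ℤ) + P.eval (n : ℤ)),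
          f n * (lp ((h : ℤ) + P.eval (n : ℤ)) - Lw w ((h : ℤ) + P.eval (n : ℤ))) := by
      rw [sum_filter_add_sum_filter_not]
      refine sum_congr rfl fun n _ => ?_
      rw [add_comm]
    rw [h1]
    refine (abs_add_le _ _).trans (add_le_add le_rfl ?_)
    have h2 : ∀ n ∈ (Icc 1 X).filter (fun n : ℕ => ¬ 0 < (h : ℤ) + P.eval (n : ℤ)),
        |f n * (lp ((h : ℤ) + P.eval (n : ℤ)) - Lw w ((h : ℤ) + P.eval (n : ℤ)))| ≤
          Real.log X ^ C * PW w := by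
      intro n hn
      rw [mem_filter] at hn
      have h3 : lp ((h : ℤ) + P.eval (n : ℤ)) = 0 := by
        unfold Pool.Agent.Lib.H68T.lp
        rw [if_neg]
        intro h4
        have := h4.pos
        omega
      have h5 := EP5_Lw_le w ((h : ℤ) + P.eval (n : ℤ))
      have h6 := H33B.ENG_Lw_nonneg w ((h : ℤ) + P.eval (n : ℤ))
      rw [h3, abs_mul, abs_of_nonneg (hf.nonneg n hn.1), zero_sub, abs_neg, abs_of_nonneg h6]
      exact mul_le_mul (hf.le n hn.1) h5 h6 (Real.rpow_nonneg hlogpos.le _)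
    refine (abs_sum_le_sum_abs _ _).trans ((sum_le_sum h2).trans ?_)
    rw [sum_const, nsmul_eq_mul]
    have hnn : 0 ≤ Real.log X ^ C * (PW w : ℝ) :=
      mul_nonneg (Real.rpow_nonneg hlogpos.le _) (Nat.cast_nonneg _)
    split_ifs with hc
    · refine mul_le_mul_of_nonneg_right ?_ hnn
      have h3 : (Icc 1 X).filter (fun n : ℕ => ¬ 0 < (h : ℤ) + P.eval (n : ℤ)) ⊆ range n₀ := by
        intro n hn
        rw [mem_filter] at hn
        rw [mem_range]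
        exact (hlow n h (by omega)).2 hh.1
      have h4 := card_le_card h3
      rw [card_range] at h4
      exact_mod_cast h4
    · have h3 : (Icc 1 X).filter (fun n : ℕ => ¬ 0 < (h : ℤ) + P.eval (n : ℤ)) = ∅ := by
        rw [filter_eq_empty_iff]
        intro n _ hn
        exact hc (hlow n h (by omega)).1
      rw [h3, card_empty, Nat.cast_zero, zero_mul]
  refine (sum_le_sum hsplit).trans ?_
  rw [sum_add_distrib]
  have hpart1 : ∑ h ∈ Icc 1 H, |∑ n ∈ (Icc 1 X).filter (fun n : ℕ => 0 < (h : ℤ) + P.eval (n : ℤ)),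
        f n * (lp ((h : ℤ) + P.eval (n : ℤ)) - Lw w ((h : ℤ) + P.eval (n : ℤ)))| ≤
      ε / 2 * H * S := by
    refine (sum_le_sum_of_subset_of_nonneg (Icc_subset_Icc le_rfl hHY)
      fun _ _ _ => abs_nonneg _).trans (hmain.trans ?_)
    have h1 : (Y : ℝ) ≤ B * (C₁ * H) := by
      rw [hYr]; exact mul_le_mul_of_nonneg_left hH1 hB0.le
    calc ε / (2 * B * C₁) * Y * S ≤ ε / (2 * B * C₁) * (B * (C₁ * H)) * S := by
          apply mul_le_mul_of_nonneg_right _ hS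
          exact mul_le_mul_of_nonneg_left h1 (by positivity)
      _ = ε / 2 * H * S := by
          field_simp
  have hpart2 : ∑ h ∈ Icc 1 H, (if h ≤ c then (n₀ : ℝ) * (Real.log X ^ C * PW w) else 0) ≤
      ε / 2 * H * S := by
    have hnn : 0 ≤ (n₀ : ℝ) * (Real.log X ^ C * (PW w : ℝ)) := by
      have := Real.rpow_nonneg hlogpos.le C
      positivity
    have h1 : ∑ h ∈ Icc 1 H, (if h ≤ c then (n₀ : ℝ) * (Real.log X ^ C * PW w) else 0) ≤
        c * ((n₀ : ℝ) * (Real.log X ^ C * PW w)) := by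
      rw [← sum_filter, sum_const, nsmul_eq_mul]
      refine mul_le_mul_of_nonneg_right ?_ hnn
      have h3 : (Icc 1 H).filter (fun h => h ≤ c) ⊆ Icc 1 c := by
        intro h hh
        rw [mem_filter, mem_Icc] at hh
        rw [mem_Icc]
        exact ⟨hh.1.1, hh.2⟩
      have h4 := card_le_card h3
      rw [Nat.card_Icc, Nat.add_sub_cancel] at h4
      exact_mod_cast h4
    refine h1.trans ?_
    have hLC : 0 < Real.log X ^ C := Real.rpow_pos_of_pos hlogpos _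
    have h2 : (c : ℝ) * n₀ * PW w * C₁ ≤ ε / 2 * X := by
      rw [div_le_iff₀ hε] at hcX
      linarith
    have h3 : (X : ℝ) ≤ C₁ * H := hXd.trans hH1
    have h4 : Real.log X ^ (2 * C) = Real.log X ^ C * Real.log X ^ C := by
      rw [← Real.rpow_add hlogpos]; congr 1; ring
    rw [h4] at e3
    -- multiply by `C₁ (log X)^C`
    have h5 : (c * ((n₀ : ℝ) * (Real.log X ^ C * PW w))) * (C₁ * Real.log X ^ C) ≤
        (ε / 2 * H * S) * (C₁ * Real.log X ^ C) := by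
      calc (c * ((n₀ : ℝ) * (Real.log X ^ C * PW w))) * (C₁ * Real.log X ^ C)
          = ((c : ℝ) * n₀ * PW w * C₁) * (Real.log X ^ C * Real.log X ^ C) := by ring
        _ ≤ (ε / 2 * X) * X := by
            apply mul_le_mul h2 e3 (by positivity) (by positivity)
        _ ≤ (ε / 2 * (C₁ * H)) * (S * Real.log X ^ C) := by
            apply mul_le_mul _ hf.large hXpos.le (by positivity)
            exact mul_le_mul_of_nonneg_left h3 (by positivity)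
        _ = _ := by ring
    exact le_of_mul_le_mul_right h5 (by positivity)
  linarith

end Pool.Agent.Lib.H59X
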