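import Mathlib

/-! A real even polynomial of degree `2 n` with positive leading coefficient and without zeros in the open upper half
plane satisfies `0 ≤ (-1) ^ n f(0)`. -/

namespace Pool.Agent.Lib.H59X

open Polynomial Filter

/-- Values on the imaginary axis of an even polynomial. -/
theorem eval_I_mul {f : ℂ[X]} {n : ℕ} (hdeg : f.natDegree ≤ 2 * n) (heven : ∀ k, Odd k → f.coeff k = 0) (y : ℂ) :
    f.eval (Complex.I * y) = ∑ k ∈ Finset.range (n + 1), (-1) ^ k * f.coeff (2 * k) * y ^ (2 * k) := by
  have h1 : f.eval (Complex.I * y) = ∑ k ∈ Finset.range (2 * n + 1), f.coeff k * (Complex.I * y) ^ k :=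
    eval_eq_sum_range' (by omega) _
  rw [h1]
  clear h1 hdeg
  induction n with
  | zero => simp
  | succ n ih =>
    rw [show 2 * (n + 1) + 1 = 2 * n + 1 + 1 + 1 by ring, Finset.sum_range_succ, Finset.sum_range_succ, ih,
      Finset.sum_range_succ _ (n + 1), heven (2 * n + 1) ⟨n, rfl⟩, zero_mul, add_zero]
    congr 1
    rw [show 2 * n + 1 + 1 = 2 * (n + 1) by ring, mul_pow, pow_mul Complex.I, Complex.I_sq]
    ring

/-- The sign of the value at zero. `f` is a complex polynomial with real coefficients, even, of degree at most `2 n` with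
positive coefficient of `X ^ (2 n)`, and has no zero on the open positive imaginary axis. -/
theorem even_sign {f : ℂ[X]} {n : ℕ} (hdeg : f.natDegree ≤ 2 * n) (heven : ∀ k, Odd k → f.coeff k = 0)
    (hreal : ∀ k, (f.coeff k).im = 0) (hlead : 0 < (f.coeff (2 * n)).re)
    (hroot : ∀ y : ℝ, 0 < y → f.eval (Complex.I * y) ≠ 0) : 0 ≤ (-1) ^ n * (f.eval 0).re := by
  set h : ℝ[X] := ∑ k ∈ Finset.range (n + 1), C ((-1) ^ (n + k) * (f.coeff (2 * k)).re) * X ^ (2 * k) with hh
  have hcoe : ∀ k, ((f.coeff k).re : ℂ) = f.coeff k := fun k => Complex.ext (by simp) (by simp [hreal k])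
  have hev : ∀ y : ℝ, ((h.eval y : ℝ) : ℂ) = (-1) ^ n * f.eval (Complex.I * y) := by
    intro y
    rw [eval_I_mul hdeg heven, hh, eval_finsetSum, Finset.mul_sum]
    push_cast
    refine Finset.sum_congr rfl fun k _ => ?_
    simp only [eval_mul, eval_C, eval_pow, eval_X]
    push_cast
    rw [hcoe]
    ring
  have hc : h.coeff (2 * n) = (f.coeff (2 * n)).re := by
    rw [hh, finsetSum_coeff, Finset.sum_eq_single n]
    · rw [coeff_C_mul, coeff_X_pow, if_pos rfl, mul_one, ← two_mul, pow_mul]
      simp
    · intro k _ hk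
      rw [coeff_C_mul, coeff_X_pow, if_neg (by omega), mul_zero]
    · intro hn
      exact absurd (Finset.mem_range.2 (by omega)) hn
  have hd : h.natDegree = 2 * n := by
    refine le_antisymm ?_ (le_natDegree_of_ne_zero (by rw [hc]; exact hlead.ne'))
    rw [hh]
    refine natDegree_sum_le_of_forall_le _ _ fun k hk => ?_
    refine (natDegree_C_mul_X_pow_le _ _).trans ?_
    have := Finset.mem_range.1 hk
    omega
  have hne : ∀ y : ℝ, 0 < y → h.eval y ≠ 0 := by
    intro y hy h0
    have h1 := hev y
    rw [h0] at h1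
    have h2 : (-1 : ℂ) ^ n ≠ 0 := pow_ne_zero _ (by norm_num)
    have h3 : (-1 : ℂ) ^ n * f.eval (Complex.I * y) = 0 := by rw [← h1]; simp
    exact hroot y hy ((mul_eq_zero.1 h3).resolve_left h2)
  have hval : h.eval 0 = (-1) ^ n * (f.eval 0).re := by
    have h1 := hev 0
    have h2 := congrArg Complex.re h1
    simp only [Complex.ofReal_re, Complex.ofReal_zero, mul_zero] at h2
    rw [h2]
    have h3 : ((-1 : ℂ) ^ n) = (((-1 : ℝ) ^ n : ℝ) : ℂ) := by push_cast; rfl
    rw [h3, Complex.re_ofReal_mul]
  rw [← hval]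
  -- `h` is eventually positive or constant
  rcases Nat.eq_zero_or_pos n with hn | hn
  · subst hn
    have h1 : h = C (h.coeff 0) := eq_C_of_natDegree_eq_zero (by simpa using hd)
    rw [h1, eval_C]
    rw [Nat.mul_zero] at hc
    rw [hc]
    exact hlead.le
  · have hlc : h.leadingCoeff = (f.coeff (2 * n)).re := by rw [leadingCoeff, hd, hc]
    have htend : Tendsto (fun x => h.eval x) atTop atTop := by
      refine h.tendsto_atTop_of_leadingCoeff_nonneg ?_ (by rw [hlc]; exact hlead.le)
      rw [degree_eq_natDegree (by intro h0; rw [h0] at hc; simp at hc; linarith)]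
      rw [hd]
      exact_mod_cast (by omega : 0 < 2 * n)
    have hpos : ∀ y : ℝ, 0 < y → 0 < h.eval y := by
      intro y hy
      by_contra hneg
      push Not at hneg
      obtain ⟨z, hz1, hz2⟩ := ((tendsto_atTop.1 htend 1).and (eventually_ge_atTop y)).exists
      have hcont : ContinuousOn (fun x => h.eval x) (Set.Icc y z) := h.continuous.continuousOn
      have := intermediate_value_Icc hz2 hcont
      obtain ⟨w, hw, hw0⟩ := this ⟨hneg, (zero_le_one.trans hz1)⟩
      exact hne w (lt_of_lt_of_le hy hw.1) hw0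
    have hcl : Tendsto (fun y : ℝ => h.eval y) (nhdsWithin 0 (Set.Ioi 0)) (nhds (h.eval 0)) :=
      (h.continuous.tendsto 0).mono_left nhdsWithin_le_nhds
    exact ge_of_tendsto hcl (by filter_upwards [self_mem_nhdsWithin] with y hy using (hpos y hy).le)

end Pool.Agent.Lib.H59X
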