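import Pool.Agent.Lib.H59X.F1A

/-!
# Chunk F1C: Chebyshev type bounds for the deterministic polynomial
-/

open Finset Polynomial

namespace Pool.Agent.Lib.H59X

open Pool.Agent.Lib.H59 (argSet argCount Admissible primeCount omegaN seriesTrunc rootCount)
open Pool.Agent.Lib.H68T (lp)
open Pool.Agent.Lib.H33B (Lq Lw PW SieveWt)

/-- The comparison of `log X · 1[B(n) prime]` and the weight `bw`. -/
def BCh (r : ℕ) (B : ℤ[X]) (X : ℕ) (η C₂ : ℝ) : Prop :=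
  ∑ n ∈ Icc 1 X, |Real.log X ^ r * pb r B n - bw r B n| ≤ η * X ∧
    ∑ n ∈ Icc 1 X, (Real.log X ^ r * pb r B n + bw r B n) ≤ C₂ * X

/-- Proof. Both terms of the difference are `1`. -/
theorem bch_zero (X : ℕ) (η : ℝ) (hη : 0 ≤ η) : BCh 0 1 X η 2 := by
  have e1 : ∀ n, pb 0 1 n = 1 := fun n => by simp [pb]
  have e2 : ∀ n, bw 0 1 n = 1 := fun n => by simp [bw]
  constructor
  · have h : ∑ n ∈ Icc 1 X, |Real.log X ^ 0 * pb 0 1 n - bw 0 1 n| = 0 := by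
      apply Finset.sum_eq_zero
      intro n _
      rw [e1, e2, pow_zero, one_mul, sub_self, abs_zero]
    rw [h]
    positivity
  · have h : ∑ n ∈ Icc 1 X, (Real.log X ^ 0 * pb 0 1 n + bw 0 1 n) = 2 * X := by
      rw [Finset.sum_congr rfl (fun n _ => show Real.log X ^ 0 * pb 0 1 n + bw 0 1 n = 2 by
        rw [e1, e2, pow_zero]; norm_num)]
      rw [Finset.sum_const, Nat.card_Icc, nsmul_eq_mul]
      rw [Nat.add_sub_cancel]
      ring
    rw [h]

theorem f1c_key (B : ℤ[X]) (X m₀ : ℕ)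
    (hinj : ∀ n n' : ℕ, B.eval (n : ℤ) = B.eval (n' : ℤ) → n = n')
    (hle : ∀ n ∈ Icc 1 X, B.eval (n : ℤ) ≤ m₀) (F : ℕ → ℝ)
    (hF : ∀ m ∈ (Icc 1 m₀).filter Nat.Prime, 0 ≤ F m) :
    ∑ n ∈ Icc 1 X, (if (B.eval (n : ℤ)).toNat.Prime then F (B.eval (n : ℤ)).toNat else 0) ≤
      ∑ m ∈ (Icc 1 m₀).filter Nat.Prime, F m := by
  rw [← Finset.sum_filter]
  have hinj2 : Set.InjOn (fun n : ℕ => (B.eval (n : ℤ)).toNat)
      (((Icc 1 X).filter fun n : ℕ => (B.eval (n : ℤ)).toNat.Prime : Finset ℕ) : Set ℕ) := by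
    intro n hn n' hn' h
    rw [Finset.mem_coe, Finset.mem_filter] at hn hn'
    apply hinj
    have h1 := hn.2.pos
    have h2 := hn'.2.pos
    simp only at h
    omega
  rw [← Finset.sum_image (f := F) (g := fun n : ℕ => (B.eval (n : ℤ)).toNat) hinj2]
  apply Finset.sum_le_sum_of_subset_of_nonneg
  · intro m hm
    rw [Finset.mem_image] at hm
    obtain ⟨n, hn, rfl⟩ := hm
    rw [Finset.mem_filter] at hn
    rw [Finset.mem_filter, Finset.mem_Icc]
    refine ⟨⟨hn.2.pos, ?_⟩, hn.2⟩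
    have := hle n hn.1
    omega
  · intro m hm _
    exact hF m hm

theorem f1c_bch (B : ℤ[X]) (X m₀ : ℕ) (hX : 1 ≤ X)
    (hinj : ∀ n n' : ℕ, B.eval (n : ℤ) = B.eval (n' : ℤ) → n = n')
    (hle : ∀ n ∈ Icc 1 X, B.eval (n : ℤ) ≤ m₀) (η C₂ : ℝ)
    (h1 : ∑ m ∈ (Icc 1 m₀).filter Nat.Prime, |((1 : ℕ) : ℝ) * Real.log X - Real.log m| ≤
      η * (X : ℝ) ^ 1)
    (h2 : ∑ m ∈ (Icc 1 m₀).filter Nat.Prime, (((1 : ℕ) : ℝ) * Real.log X + Real.log m) ≤
      C₂ * (X : ℝ) ^ 1) : BCh 1 B X η C₂ := by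
  rw [pow_one] at h1 h2
  have hcast : ∀ n : ℕ, (B.eval (n : ℤ)).toNat.Prime →
      ((B.eval (n : ℤ) : ℤ) : ℝ) = (((B.eval (n : ℤ)).toNat : ℕ) : ℝ) := by
    intro n hn
    have h3 := hn.pos
    have h4 : (((B.eval (n : ℤ)).toNat : ℕ) : ℤ) = B.eval (n : ℤ) := Int.toNat_of_nonneg (by omega)
    exact_mod_cast congrArg (fun t : ℤ => (t : ℝ)) h4.symm
  constructor
  · refine le_trans (le_of_eq ?_) ((f1c_key B X m₀ hinj hle
      (fun m => |((1 : ℕ) : ℝ) * Real.log X - Real.log m|) (fun m _ => abs_nonneg _)).trans h1)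
    refine Finset.sum_congr rfl fun n _ => ?_
    unfold pb pr bw Pool.Agent.Lib.H68T.lp
    rw [if_neg one_ne_zero, if_neg one_ne_zero, pow_one, Nat.cast_one, one_mul]
    split_ifs with hp
    · rw [mul_one, hcast n hp]
    · rw [mul_zero, sub_zero, abs_zero]
  · refine le_trans (le_of_eq ?_) ((f1c_key B X m₀ hinj hle
      (fun m => ((1 : ℕ) : ℝ) * Real.log X + Real.log m) (fun m hm => ?_)).trans h2)
    · refine Finset.sum_congr rfl fun n _ => ?_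
      unfold pb pr bw Pool.Agent.Lib.H68T.lp
      rw [if_neg one_ne_zero, if_neg one_ne_zero, pow_one, Nat.cast_one, one_mul]
      split_ifs with hp
      · rw [mul_one, hcast n hp]
      · rw [mul_zero, add_zero]
    · have h3 := Real.log_natCast_nonneg X
      have h4 := Real.log_natCast_nonneg m
      rw [Nat.cast_one, one_mul]
      exact add_nonneg h3 h4

/-- Proof. `m = B(n) ≤ (|a| + |b|) X`, different for different `n`; `cheb_pow` with `d = 1`. -/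
theorem bch_one (B : ℤ[X]) (hB : B.natDegree = 1) (hl : 0 < B.leadingCoeff) : ∃ C₂ : ℝ, 0 < C₂ ∧
    ∀ η : ℝ, 0 < η → ∃ X₀ : ℕ, ∀ X : ℕ, X₀ ≤ X → BCh 1 B X η C₂ := by
  obtain ⟨a, b, hab⟩ : ∃ a b : ℤ, B = C a * Polynomial.X + C b :=
    exists_eq_X_add_C_of_natDegree_le_one hB.le
  have ha : 0 < a := by
    have h1 : B.leadingCoeff = a := by
      unfold leadingCoeff
      rw [hB, hab, coeff_add, coeff_C_mul, coeff_X_one, mul_one, coeff_C_ne_zero one_ne_zero,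
        add_zero]
    rwa [h1] at hl
  have hev : ∀ n : ℕ, B.eval (n : ℤ) = a * n + b := fun n => by
    rw [hab]
    simp
  obtain ⟨C₂, hC₂, hc⟩ := cheb_pow 1 le_rfl (a.toNat + b.natAbs : ℕ) (by
    have : 1 ≤ a.toNat + b.natAbs := by omega
    exact_mod_cast this)
  refine ⟨C₂, hC₂, fun η hη => ?_⟩
  obtain ⟨X₀, hX₀⟩ := hc η hη
  refine ⟨max X₀ 1, fun X hX => ?_⟩
  have hX1 : 1 ≤ X := (le_max_right _ _).trans hX
  obtain ⟨h1, h2⟩ := hX₀ X ((le_max_left _ _).trans hX) ((a.toNat + b.natAbs) * X) (by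
    push_cast
    rw [pow_one])
  refine f1c_bch B X ((a.toNat + b.natAbs) * X) hX1 ?_ ?_ η C₂ h1 h2
  · intro n n' h
    rw [hev, hev] at h
    have h3 : a * (n : ℤ) = a * n' := by linarith
    exact_mod_cast mul_left_cancel₀ ha.ne' h3
  · intro n hn
    rw [Finset.mem_Icc] at hn
    rw [hev]
    push_cast
    rw [Int.toNat_of_nonneg ha.le]
    have h3 : a * (n : ℤ) ≤ a * X := mul_le_mul_of_nonneg_left (by exact_mod_cast hn.2) ha.le
    have h4 : b ≤ |b| := le_abs_self b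
    have h5 : |b| * 1 ≤ |b| * X := mul_le_mul_of_nonneg_left (by exact_mod_cast hX1) (abs_nonneg b)
    linarith [add_mul a |b| (X : ℤ)]

/-- Proof. `m = N - G(n) ≤ N + |b| ≤ 2 a X + ...`, different for different `n`; `cheb_pow` with `d = 1`, `X = argCount G N → ∞`. -/
theorem bch_two (G : ℤ[X]) (hG : G.natDegree = 1) (hlc : 0 < G.leadingCoeff) : ∃ C₂ : ℝ, 0 < C₂ ∧
    ∀ η : ℝ, 0 < η → ∃ N₀ : ℕ, ∀ N : ℕ, N₀ ≤ N → BCh 1 (C (N : ℤ) - G) (argCount G N) η C₂ := by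
  obtain ⟨a, b, hab⟩ : ∃ a b : ℤ, G = C a * Polynomial.X + C b :=
    exists_eq_X_add_C_of_natDegree_le_one hG.le
  have ha : 0 < a := by
    have h1 : G.leadingCoeff = a := by
      unfold leadingCoeff
      rw [hG, hab, coeff_add, coeff_C_mul, coeff_X_one, mul_one, coeff_C_ne_zero one_ne_zero,
        add_zero]
    rwa [h1] at hlc
  have hev : ∀ N n : ℕ, (C (N : ℤ) - G).eval (n : ℤ) = N - (a * n + b) := fun N n => by
    rw [hab]
    simp
  obtain ⟨K, hK⟩ : ∃ K : ℝ, K = max 1 (2 * (Pool.Agent.Lib.H59.coeffSum G * 2)) := ⟨_, rfl⟩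
  have hK1 : 1 ≤ K := by rw [hK]; exact le_max_left _ _
  obtain ⟨C₂, hC₂, hc⟩ := cheb_pow 1 le_rfl K hK1
  refine ⟨C₂, hC₂, fun η hη => ?_⟩
  obtain ⟨X₀, hX₀⟩ := hc η hη
  obtain ⟨N₁, hN₁⟩ := Pool.Agent.Lib.H57M.Q1_two G hG.ge hlc X₀
  refine ⟨max N₁ b.natAbs, fun N hN => ?_⟩
  obtain ⟨g1, g2, -, g4⟩ := hN₁ N ((le_max_left _ _).trans hN)
  rw [hG, pow_one, pow_one] at g4
  have hNb : b.natAbs ≤ N := (le_max_right _ _).trans hN
  obtain ⟨h1, h2⟩ := hX₀ (argCount G N) g2 (N + b.natAbs) (by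
    have h3 : ((N + b.natAbs : ℕ) : ℝ) ≤ 2 * N := by
      have : N + b.natAbs ≤ 2 * N := by omega
      exact_mod_cast this
    have h4 : 2 * (Pool.Agent.Lib.H59.coeffSum G * 2) ≤ K := by rw [hK]; exact le_max_right _ _
    have h5 : (0 : ℝ) ≤ argCount G N := Nat.cast_nonneg _
    have h6 := mul_le_mul_of_nonneg_right h4 h5
    rw [pow_one]
    linarith)
  refine f1c_bch _ _ _ g1 ?_ ?_ η C₂ h1 h2
  · intro n n' h
    rw [hev, hev] at h
    have h3 : a * (n : ℤ) = a * n' := by linarith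
    exact_mod_cast mul_left_cancel₀ ha.ne' h3
  · intro n hn
    rw [Finset.mem_Icc] at hn
    rw [hev]
    push_cast
    have h3 : 0 ≤ a * (n : ℤ) := mul_nonneg ha.le (Nat.cast_nonneg _)
    have h4 := neg_le_abs b
    linarith

end Pool.Agent.Lib.H59X
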