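import Pool.Agent.Lib.H59X.Defs

/-!
# Chunk F1A: Chebyshev type bounds
-/

open Finset Polynomial

namespace Pool.Agent.Lib.H59X

open Pool.Agent.Lib.H59 (argSet argCount Admissible primeCount omegaN seriesTrunc rootCount)
open Pool.Agent.Lib.H68T (lp)
open Pool.Agent.Lib.H33B (Lq Lw PW SieveWt)

theorem f1a_theta (m : ℕ) : ∑ p ∈ (Icc 1 m).filter Nat.Prime, Real.log p ≤ Real.log 4 * m := by
  have h1 := Chebyshev.theta_le_log4_mul_x (x := (m : ℝ)) (Nat.cast_nonneg m)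
  have h2 : ∑ p ∈ (Icc 1 m).filter Nat.Prime, Real.log p = Chebyshev.theta (m : ℝ) := by
    unfold Chebyshev.theta
    rw [Nat.floor_natCast]
    refine sum_congr ?_ fun _ _ => rfl
    ext p
    simp only [mem_filter, mem_Icc, mem_Ioc]
    constructor
    · rintro ⟨⟨h1, h2⟩, h3⟩
      exact ⟨⟨by omega, h2⟩, h3⟩
    · rintro ⟨⟨h1, h2⟩, h3⟩
      exact ⟨⟨by omega, h2⟩, h3⟩
  rw [h2]
  exact h1

theorem f1a_key (d X m : ℕ) (hX : 1 ≤ X) :
    ∑ p ∈ (Icc 1 m).filter Nat.Prime, (d * Real.log X + Real.log p) ≤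
      d * (√(X : ℝ) * Real.log X) + (2 * d + 1) * (Real.log 4 * m) := by
  classical
  have hlX : 0 ≤ Real.log X := Real.log_natCast_nonneg X
  have h1 : ∀ p ∈ (Icc 1 m).filter Nat.Prime, (d * Real.log X + Real.log p) ≤
      (if p ≤ Nat.sqrt X then d * Real.log X else 0) + (2 * d + 1) * Real.log p := by
    intro p hp
    have hpp := (mem_filter.1 hp).2
    have hlp : 0 ≤ Real.log p := Real.log_natCast_nonneg p
    by_cases h : p ≤ Nat.sqrt X
    · rw [if_pos h]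
      nlinarith [mul_nonneg (Nat.cast_nonneg d : (0 : ℝ) ≤ d) hlp]
    · rw [if_neg h, zero_add]
      have h2 : X < p ^ 2 := Nat.sqrt_lt'.1 (not_le.1 h)
      have h3 : Real.log X ≤ 2 * Real.log p := by
        rw [← Nat.cast_ofNat, ← Real.log_pow]
        refine Real.log_le_log (by exact_mod_cast hX) ?_
        exact_mod_cast h2.le
      nlinarith [mul_le_mul_of_nonneg_left h3 (Nat.cast_nonneg d : (0 : ℝ) ≤ d)]
  refine (sum_le_sum h1).trans ?_
  rw [sum_add_distrib, ← mul_sum]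
  have h4 : ∑ p ∈ (Icc 1 m).filter Nat.Prime, (if p ≤ Nat.sqrt X then d * Real.log X else 0) ≤
      d * (√(X : ℝ) * Real.log X) := by
    rw [← sum_filter, sum_const, nsmul_eq_mul]
    have h5 : ((((Icc 1 m).filter Nat.Prime).filter fun p => p ≤ Nat.sqrt X).card : ℝ) ≤ √(X : ℝ) := by
      have h6 : (((Icc 1 m).filter Nat.Prime).filter fun p => p ≤ Nat.sqrt X).card ≤ Nat.sqrt X := by
        have h7 : ((Icc 1 m).filter Nat.Prime).filter (fun p => p ≤ Nat.sqrt X) ⊆ Icc 1 (Nat.sqrt X) := by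
          intro p hp
          rw [mem_filter, mem_filter, mem_Icc] at hp
          exact mem_Icc.2 ⟨hp.1.1.1, hp.2⟩
        have h8 := card_le_card h7
        rwa [Nat.card_Icc, Nat.add_sub_cancel] at h8
      exact (by exact_mod_cast h6 : (((((Icc 1 m).filter Nat.Prime).filter fun p => p ≤ Nat.sqrt X).card : ℕ) : ℝ) ≤
        (Nat.sqrt X : ℝ)).trans Real.nat_sqrt_le_real_sqrt
    have h9 : 0 ≤ d * Real.log X := by positivity
    calc _ ≤ √(X : ℝ) * (d * Real.log X) := mul_le_mul_of_nonneg_right h5 h9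
      _ = _ := by ring
  have h10 : (2 * (d : ℝ) + 1) * ∑ p ∈ (Icc 1 m).filter Nat.Prime, Real.log p ≤
      (2 * d + 1) * (Real.log 4 * m) := mul_le_mul_of_nonneg_left (f1a_theta m) (by positivity)
  exact add_le_add h4 h10

/-- Proof. `π(t) ≤ C t/log t` (`t ≥ 2`), `θ(t) ≤ C t` (Chebyshev, Mathlib or `H33B.sum_lp_le`). Second sum: `π(m₀) ≤ C (C₁ X^d)/log(C₁ X^d)`, `log m ≤ log(C₁ X^d)`. First sum: let `δ > 0` be small in terms of `η`. The primes
`m ≥ δ X^d` satisfy `|d log X - log m| ≤ log C₁ + log(1/δ)`, at most `C' X^d/log X` primes. The primes `m < δ X^d` contribute at most `(d log X + log(δ X^d)) π(δ X^d) ≤ C'' δ X^d` for large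
`X` (`log(δ X^d) ≥ (d/2) log X`). -/
theorem cheb_pow (d : ℕ) (hd : 1 ≤ d) (C₁ : ℝ) (hC₁ : 1 ≤ C₁) : ∃ C₂ : ℝ, 0 < C₂ ∧ ∀ η : ℝ, 0 < η →
    ∃ X₀ : ℕ, ∀ X : ℕ, X₀ ≤ X → ∀ m₀ : ℕ, (m₀ : ℝ) ≤ C₁ * (X : ℝ) ^ d →
    ∑ m ∈ (Icc 1 m₀).filter Nat.Prime, |d * Real.log X - Real.log m| ≤ η * (X : ℝ) ^ d ∧
    ∑ m ∈ (Icc 1 m₀).filter Nat.Prime, (d * Real.log X + Real.log m) ≤ C₂ * (X : ℝ) ^ d := by
  classical
  have hl4 : 0 < Real.log 4 := Real.log_pos (by norm_num)
  have hd0 : (0 : ℝ) < d := by exact_mod_cast hd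
  have hC0 : 0 < C₁ := by linarith
  refine ⟨2 * d + (2 * d + 1) * (Real.log 4 * C₁), by positivity, ?_⟩
  intro η hη
  set C₂ := 2 * (d : ℝ) + (2 * d + 1) * (Real.log 4 * C₁) with hC₂
  have hC₂0 : 0 < C₂ := by positivity
  set δ := min 1 (η / (4 * ((2 * d + 1) * Real.log 4))) with hδ
  have hδ0 : 0 < δ := lt_min one_pos (by positivity)
  have hδ1 : δ ≤ 1 := min_le_left _ _
  have hδ2 : (2 * d + 1) * (Real.log 4 * δ) ≤ η / 4 := by
    have h1 : δ ≤ η / (4 * ((2 * d + 1) * Real.log 4)) := min_le_right _ _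
    have h2 : (2 * d + 1) * (Real.log 4 * δ) = ((2 * d + 1) * Real.log 4) * δ := by ring
    rw [h2]
    calc ((2 * d + 1) * Real.log 4) * δ ≤ ((2 * d + 1) * Real.log 4) * (η / (4 * ((2 * d + 1) * Real.log 4))) :=
          mul_le_mul_of_nonneg_left h1 (by positivity)
      _ = η / 4 := by field_simp
  set K := Real.log C₁ + Real.log (1 / δ) with hK
  have hlC : 0 ≤ Real.log C₁ := Real.log_nonneg hC₁
  have hlδ : 0 ≤ Real.log (1 / δ) := Real.log_nonneg (by rw [le_div_iff₀ hδ0]; linarith)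
  have hK0 : 0 ≤ K := add_nonneg hlC hlδ
  have ev1 : ∀ᶠ x : ℝ in Filter.atTop, d * (√x * Real.log x) ≤ η / 4 * x := by
    have h1 := (isLittleO_log_rpow_atTop (show (0 : ℝ) < 1 / 2 by norm_num)).bound
      (show (0 : ℝ) < η / (4 * d) by positivity)
    filter_upwards [h1, Filter.eventually_ge_atTop (1 : ℝ)] with x hx hx1
    rw [Real.norm_eq_abs, Real.norm_eq_abs, abs_of_nonneg (Real.log_nonneg hx1),
      abs_of_nonneg (by positivity), ← Real.sqrt_eq_rpow] at hx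
    calc d * (√x * Real.log x) ≤ d * (√x * (η / (4 * d) * √x)) :=
          mul_le_mul_of_nonneg_left (mul_le_mul_of_nonneg_left hx (Real.sqrt_nonneg _)) hd0.le
      _ = η / 4 * (√x * √x) := by field_simp
      _ = η / 4 * x := by rw [Real.mul_self_sqrt (by linarith)]
  have ev2 : ∀ᶠ x : ℝ in Filter.atTop, 2 * K * C₂ / (d * η) + 1 ≤ Real.log x :=
    Real.tendsto_log_atTop.eventually_ge_atTop _
  obtain ⟨X₀, hX₀⟩ := Filter.eventually_atTop.1
    ((tendsto_natCast_atTop_atTop (R := ℝ)).eventually ((ev1.and ev2).and (Filter.eventually_ge_atTop (1 : ℝ))))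
  refine ⟨X₀, ?_⟩
  intro X hX m₀ hm₀
  obtain ⟨⟨h1, h2⟩, h3⟩ := hX₀ X hX
  have hX1 : 1 ≤ X := by exact_mod_cast h3
  have hXd : (X : ℝ) ≤ (X : ℝ) ^ d := le_self_pow₀ h3 (by omega)
  have hXd0 : (0 : ℝ) < (X : ℝ) ^ d := by positivity
  have hlX : 1 ≤ Real.log X := by
    have : 0 ≤ 2 * K * C₂ / (d * η) := by positivity
    linarith
  have second : ∑ m ∈ (Icc 1 m₀).filter Nat.Prime, (d * Real.log X + Real.log m) ≤ C₂ * (X : ℝ) ^ d := by
    refine (f1a_key d X m₀ hX1).trans ?_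
    have k1 : √(X : ℝ) * Real.log X ≤ 2 * X := by
      have k2 : Real.log X ≤ 2 * √(X : ℝ) := by
        have k3 : Real.log X = 2 * Real.log (√(X : ℝ)) := by
          rw [Real.log_sqrt (by positivity)]
          ring
        have k4 := Real.log_le_sub_one_of_pos (show 0 < √(X : ℝ) by positivity)
        rw [k3]
        linarith
      calc √(X : ℝ) * Real.log X ≤ √(X : ℝ) * (2 * √(X : ℝ)) :=
            mul_le_mul_of_nonneg_left k2 (Real.sqrt_nonneg _)
        _ = 2 * (√(X : ℝ) * √(X : ℝ)) := by ring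
        _ = 2 * X := by rw [Real.mul_self_sqrt (by positivity)]
    have k5 : d * (√(X : ℝ) * Real.log X) ≤ d * (2 * (X : ℝ) ^ d) :=
      mul_le_mul_of_nonneg_left (k1.trans (by linarith)) hd0.le
    have k6 : (2 * (d : ℝ) + 1) * (Real.log 4 * m₀) ≤ (2 * d + 1) * (Real.log 4 * (C₁ * (X : ℝ) ^ d)) :=
      mul_le_mul_of_nonneg_left (mul_le_mul_of_nonneg_left hm₀ hl4.le) (by positivity)
    refine (add_le_add k5 k6).trans (le_of_eq ?_)
    rw [hC₂]
    ring
  refine ⟨?_, second⟩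
  rw [← sum_filter_add_sum_filter_not _ (fun m : ℕ => (m : ℝ) ≤ δ * (X : ℝ) ^ d)]
  have small : ∑ m ∈ ((Icc 1 m₀).filter Nat.Prime).filter (fun m : ℕ => (m : ℝ) ≤ δ * (X : ℝ) ^ d),
      |d * Real.log X - Real.log m| ≤ η / 2 * (X : ℝ) ^ d := by
    set m₁ := ⌊δ * (X : ℝ) ^ d⌋₊ with hm₁
    have s1 : ∑ m ∈ ((Icc 1 m₀).filter Nat.Prime).filter (fun m : ℕ => (m : ℝ) ≤ δ * (X : ℝ) ^ d),
        |d * Real.log X - Real.log m| ≤ ∑ m ∈ (Icc 1 m₁).filter Nat.Prime, (d * Real.log X + Real.log m) := by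
      have s2 : ∑ m ∈ ((Icc 1 m₀).filter Nat.Prime).filter (fun m : ℕ => (m : ℝ) ≤ δ * (X : ℝ) ^ d),
          |d * Real.log X - Real.log m| ≤
          ∑ m ∈ ((Icc 1 m₀).filter Nat.Prime).filter (fun m : ℕ => (m : ℝ) ≤ δ * (X : ℝ) ^ d),
          (d * Real.log X + Real.log m) := by
        refine sum_le_sum fun m _ => ?_
        have t1 : 0 ≤ d * Real.log X := by positivity
        have t2 : 0 ≤ Real.log m := Real.log_natCast_nonneg m
        rw [abs_le]
        constructor <;> linarith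
      refine s2.trans ?_
      refine sum_le_sum_of_subset_of_nonneg ?_ ?_
      · intro m hm
        rw [mem_filter, mem_filter, mem_Icc] at hm
        rw [mem_filter, mem_Icc]
        exact ⟨⟨hm.1.1.1, Nat.le_floor hm.2⟩, hm.1.2⟩
      · intro m _ _
        have t1 : 0 ≤ d * Real.log X := by positivity
        have t2 : 0 ≤ Real.log m := Real.log_natCast_nonneg m
        linarith
    refine s1.trans ((f1a_key d X m₁ hX1).trans ?_)
    have s3 : (m₁ : ℝ) ≤ δ * (X : ℝ) ^ d := Nat.floor_le (by positivity)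
    have s4 : (2 * (d : ℝ) + 1) * (Real.log 4 * m₁) ≤ η / 4 * (X : ℝ) ^ d := by
      calc (2 * (d : ℝ) + 1) * (Real.log 4 * m₁) ≤ (2 * d + 1) * (Real.log 4 * (δ * (X : ℝ) ^ d)) :=
            mul_le_mul_of_nonneg_left (mul_le_mul_of_nonneg_left s3 hl4.le) (by positivity)
        _ = ((2 * d + 1) * (Real.log 4 * δ)) * (X : ℝ) ^ d := by ring
        _ ≤ η / 4 * (X : ℝ) ^ d := mul_le_mul_of_nonneg_right hδ2 hXd0.le
    have s5 : d * (√(X : ℝ) * Real.log X) ≤ η / 4 * (X : ℝ) ^ d :=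
      h1.trans (mul_le_mul_of_nonneg_left hXd (by positivity))
    linarith
  have large : ∑ m ∈ ((Icc 1 m₀).filter Nat.Prime).filter (fun m : ℕ => ¬ (m : ℝ) ≤ δ * (X : ℝ) ^ d),
      |d * Real.log X - Real.log m| ≤ η / 2 * (X : ℝ) ^ d := by
    have l1 : ∀ m ∈ ((Icc 1 m₀).filter Nat.Prime).filter (fun m : ℕ => ¬ (m : ℝ) ≤ δ * (X : ℝ) ^ d),
        |d * Real.log X - Real.log m| ≤ K := by
      intro m hm
      rw [mem_filter, mem_filter, mem_Icc, not_le] at hm
      obtain ⟨⟨⟨hm1, hm2⟩, hmp⟩, hm3⟩ := hm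
      have hm0 : (0 : ℝ) < m := by exact_mod_cast hm1
      have e1 : Real.log (C₁ * (X : ℝ) ^ d) = Real.log C₁ + d * Real.log X := by
        rw [Real.log_mul hC0.ne' hXd0.ne', Real.log_pow]
      have e2 : Real.log (δ * (X : ℝ) ^ d) = -Real.log (1 / δ) + d * Real.log X := by
        rw [Real.log_mul hδ0.ne' hXd0.ne', Real.log_pow, one_div, Real.log_inv, neg_neg]
      have l2 : Real.log m ≤ Real.log (C₁ * (X : ℝ) ^ d) := by
        refine Real.log_le_log hm0 (le_trans ?_ hm₀)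
        exact_mod_cast hm2
      have l3 : Real.log (δ * (X : ℝ) ^ d) ≤ Real.log m := Real.log_le_log (by positivity) hm3.le
      rw [e1] at l2
      rw [e2] at l3
      rw [abs_le, hK]
      constructor <;> linarith
    have l4 : ((((Icc 1 m₀).filter Nat.Prime).filter (fun m : ℕ => ¬ (m : ℝ) ≤ δ * (X : ℝ) ^ d)).card : ℝ) *
        (d * Real.log X) ≤ C₂ * (X : ℝ) ^ d := by
      refine le_trans ?_ second
      rw [← nsmul_eq_mul, ← sum_const]
      refine (sum_le_sum_of_subset_of_nonneg (filter_subset _ _) ?_).trans ?_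
      · intro m _ _
        positivity
      · refine sum_le_sum fun m _ => ?_
        have t2 : 0 ≤ Real.log m := Real.log_natCast_nonneg m
        linarith
    refine (sum_le_card_nsmul _ _ _ l1).trans ?_
    rw [nsmul_eq_mul]
    set c : ℝ := ((((Icc 1 m₀).filter Nat.Prime).filter (fun m : ℕ => ¬ (m : ℝ) ≤ δ * (X : ℝ) ^ d)).card : ℝ)
      with hc
    have hc0 : 0 ≤ c := Nat.cast_nonneg _
    have l5 : 2 * K * C₂ ≤ Real.log X * (d * η) := by
      have : 2 * K * C₂ / (d * η) ≤ Real.log X := by linarith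
      rwa [div_le_iff₀ (by positivity)] at this
    -- `c K · 2 d log X ≤ 2 K C₂ X^d ≤ log X d η X^d`
    have l6 : c * K * (2 * (d * Real.log X)) ≤ (η / 2 * (X : ℝ) ^ d) * (2 * (d * Real.log X)) := by
      calc c * K * (2 * (d * Real.log X)) = 2 * K * (c * (d * Real.log X)) := by ring
        _ ≤ 2 * K * (C₂ * (X : ℝ) ^ d) := mul_le_mul_of_nonneg_left l4 (by positivity)
        _ = (2 * K * C₂) * (X : ℝ) ^ d := by ring
        _ ≤ (Real.log X * (d * η)) * (X : ℝ) ^ d := mul_le_mul_of_nonneg_right l5 hXd0.le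
        _ = (η / 2 * (X : ℝ) ^ d) * (2 * (d * Real.log X)) := by ring
    exact le_of_mul_le_mul_right l6 (by positivity)
  linarith

end Pool.Agent.Lib.H59X
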