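import Pool.Agent.Lib.H59X.F1A

/-!
# Chunk F1B: Chebyshev type bounds at polynomial values
-/

open Finset Polynomial

namespace Pool.Agent.Lib.H59X

open Pool.Agent.Lib.H59 (argSet argCount Admissible primeCount omegaN seriesTrunc rootCount)
open Pool.Agent.Lib.H68T (lp)
open Pool.Agent.Lib.H33B (Lq Lw PW SieveWt)

/-- Sums over the prime values of `a + h`. -/
theorem f1b_sum (a : ℤ) (H : ℕ) (f : ℕ → ℝ) (hf : ∀ m, 0 ≤ f m) :
    ∑ h ∈ Icc 1 H, (if (a + h).toNat.Prime then f (a + h).toNat else 0) ≤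
      ∑ m ∈ (Icc 1 (a + H).toNat).filter Nat.Prime, f m := by
  classical
  rw [← sum_filter]
  have hinj : Set.InjOn (fun h : ℕ => (a + h).toNat) ((Icc 1 H).filter fun h : ℕ => (a + h).toNat.Prime) := by
    intro h hh h' hh' heq
    rw [Finset.mem_coe, mem_filter] at hh hh'
    have h1 := hh.2.pos
    have h2 := hh'.2.pos
    simp only at heq
    omega
  rw [← sum_image (f := f) (g := fun h : ℕ => (a + h).toNat) hinj]
  refine sum_le_sum_of_subset_of_nonneg ?_ fun m _ _ => hf m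
  intro m hm
  rw [mem_image] at hm
  obtain ⟨h, hh, rfl⟩ := hm
  rw [mem_filter, mem_Icc] at hh
  rw [mem_filter, mem_Icc]
  have h1 := hh.2.pos
  refine ⟨⟨h1, ?_⟩, hh.2⟩
  have h2 := hh.1.2
  omega

theorem f1b_cast {m : ℤ} (h : m.toNat.Prime) : (m : ℝ) = (m.toNat : ℝ) := by
  have h1 := h.pos
  have h2 : (m.toNat : ℤ) = m := Int.toNat_of_nonneg (by omega)
  calc (m : ℝ) = ((m.toNat : ℤ) : ℝ) := by rw [h2]
    _ = (m.toNat : ℝ) := by norm_cast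

theorem f1b_abs (c : ℝ) (m : ℤ) : |c * pr m - lp m| = if m.toNat.Prime then |c - Real.log m.toNat| else 0 := by
  unfold pr H68T.lp
  by_cases h : m.toNat.Prime
  · rw [if_pos h, if_pos h, if_pos h, mul_one, f1b_cast h]
  · rw [if_neg h, if_neg h, if_neg h, mul_zero, sub_zero, abs_zero]

theorem f1b_add (c : ℝ) (m : ℤ) : c * pr m + lp m = if m.toNat.Prime then c + Real.log m.toNat else 0 := by
  unfold pr H68T.lp
  by_cases h : m.toNat.Prime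
  · rw [if_pos h, if_pos h, if_pos h, mul_one, f1b_cast h]
  · rw [if_neg h, if_neg h, if_neg h, mul_zero, add_zero]

theorem f1b_two (a : ℤ) (H : ℕ) (c : ℝ) (hc : 0 ≤ c) :
    ∑ h ∈ Icc 1 H, |c * pr (a + h) - lp (a + h)| ≤
      ∑ m ∈ (Icc 1 (a + H).toNat).filter Nat.Prime, |c - Real.log m| ∧
    ∑ h ∈ Icc 1 H, (c * pr (a + h) + lp (a + h)) ≤
      ∑ m ∈ (Icc 1 (a + H).toNat).filter Nat.Prime, (c + Real.log m) := by
  constructor
  · rw [sum_congr rfl fun (h : ℕ) _ => f1b_abs c (a + h)]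
    exact f1b_sum a H (fun m => |c - Real.log m|) fun m => abs_nonneg _
  · rw [sum_congr rfl fun (h : ℕ) _ => f1b_add c (a + h)]
    exact f1b_sum a H (fun m => c + Real.log m) fun m => add_nonneg hc (Real.log_natCast_nonneg m)

/-- Proof. `m = P(n) + h` runs through different integers `≤ (coeffSum P + C₁) X^d` (`H59.eval_le_coeffSum`); only primes count (`lp`, `pr` are `0` otherwise). `cheb_pow` with `C₁ := coeffSum P + C₁`, `η/C₁`;
`X^d ≤ C₁ H`. -/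
theorem cheb_shift (P : ℤ[X]) (hk : 1 ≤ P.natDegree) (hl : 0 < P.leadingCoeff) (C₁ : ℝ)
    (hC₁ : 1 ≤ C₁) : ∃ C₂ : ℝ, 0 < C₂ ∧ ∀ η : ℝ, 0 < η → ∃ X₀ : ℕ, ∀ X : ℕ, X₀ ≤ X →
    ∀ H : ℕ, (X : ℝ) ^ P.natDegree ≤ C₁ * H → (H : ℝ) ≤ C₁ * (X : ℝ) ^ P.natDegree → ∀ n ∈ Icc 1 X,
    ∑ h ∈ Icc 1 H, |P.natDegree * Real.log X * pr (P.eval (n : ℤ) + h) - lp (P.eval (n : ℤ) + h)| ≤
      η * H ∧
    ∑ h ∈ Icc 1 H, (P.natDegree * Real.log X * pr (P.eval (n : ℤ) + h) + lp (P.eval (n : ℤ) + h)) ≤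
      C₂ * H := by
  have hcs : (0 : ℝ) ≤ Pool.Agent.Lib.H59.coeffSum P := sum_nonneg fun _ _ => abs_nonneg _
  obtain ⟨K, hK, hmain⟩ := cheb_pow P.natDegree hk (Pool.Agent.Lib.H59.coeffSum P + C₁) (by linarith)
  refine ⟨K * C₁, by positivity, fun η hη => ?_⟩
  obtain ⟨X₀, hX₀⟩ := hmain (η / C₁) (by positivity)
  refine ⟨X₀, fun X hX H hH1 hH2 n hn => ?_⟩
  rw [mem_Icc] at hn
  have hm : ((P.eval (n : ℤ) + H).toNat : ℝ) ≤ (Pool.Agent.Lib.H59.coeffSum P + C₁) * (X : ℝ) ^ P.natDegree := by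
    have h1 : ((P.eval (n : ℤ) : ℤ) : ℝ) ≤ Pool.Agent.Lib.H59.coeffSum P * (n : ℝ) ^ P.natDegree :=
      Pool.Agent.Lib.H59.eval_le_coeffSum P hn.1
    have h2 : ((n : ℝ)) ^ P.natDegree ≤ (X : ℝ) ^ P.natDegree :=
      pow_le_pow_left₀ (Nat.cast_nonneg n) (by exact_mod_cast hn.2) _
    have h3 := mul_le_mul_of_nonneg_left h2 hcs
    have h4 : (0 : ℝ) ≤ (Pool.Agent.Lib.H59.coeffSum P + C₁) * (X : ℝ) ^ P.natDegree := by positivity
    rcases le_or_gt (P.eval (n : ℤ) + H) 0 with h5 | h5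
    · rw [Int.toNat_of_nonpos h5, Nat.cast_zero]
      exact h4
    · have h6 : (((P.eval (n : ℤ) + H).toNat : ℕ) : ℤ) = P.eval (n : ℤ) + H := Int.toNat_of_nonneg h5.le
      have h7 : ((P.eval (n : ℤ) + H).toNat : ℝ) = ((P.eval (n : ℤ) : ℤ) : ℝ) + H := by
        have h8 : ((((P.eval (n : ℤ) + H).toNat : ℕ) : ℤ) : ℝ) = ((P.eval (n : ℤ) + H : ℤ) : ℝ) := by rw [h6]
        push_cast at h8
        exact h8
      rw [h7]
      linarith
  obtain ⟨h1, h2⟩ := hX₀ X hX _ hm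
  have hc : (0 : ℝ) ≤ P.natDegree * Real.log X := mul_nonneg (Nat.cast_nonneg _) (Real.log_natCast_nonneg _)
  obtain ⟨h3, h4⟩ := f1b_two (P.eval (n : ℤ)) H (P.natDegree * Real.log X) hc
  constructor
  · refine h3.trans (h1.trans ?_)
    have h5 : η / C₁ * (X : ℝ) ^ P.natDegree ≤ η / C₁ * (C₁ * H) := mul_le_mul_of_nonneg_left hH1 (by positivity)
    refine h5.trans (le_of_eq ?_)
    field_simp
  · refine h4.trans (h2.trans ?_)
    have h5 : K * (X : ℝ) ^ P.natDegree ≤ K * (C₁ * H) := mul_le_mul_of_nonneg_left hH1 hK.le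
    linarith

/-- Proof. `X = argCount G Y`, `k = deg G`. `m = N - G(n) ≤ Y + c` (`H33B.ENG_low`) and `Y + c ≤ C₁ X^k` for large `Y` (`H33B.argCount_pow`); different `N` give different `m`. `cheb_pow` with `d = k`
(`X → ∞` with `Y`); `X^k ≤ C Y`. -/
theorem cheb_N (G : ℤ[X]) (hG : 1 ≤ G.natDegree) (hlc : 0 < G.leadingCoeff) :
    ∃ C₂ : ℝ, 0 < C₂ ∧ ∀ η : ℝ, 0 < η → ∃ Y₀ : ℕ, ∀ Y : ℕ, Y₀ ≤ Y → ∀ n : ℕ,
    ∑ N ∈ Icc 1 Y, |G.natDegree * Real.log (argCount G Y) * pr ((N : ℤ) - G.eval (n : ℤ)) -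
      lp ((N : ℤ) - G.eval (n : ℤ))| ≤ η * Y ∧
    ∑ N ∈ Icc 1 Y, (G.natDegree * Real.log (argCount G Y) * pr ((N : ℤ) - G.eval (n : ℤ)) +
      lp ((N : ℤ) - G.eval (n : ℤ))) ≤ C₂ * Y := by
  have hlc1 : (1 : ℝ) ≤ G.leadingCoeff := by exact_mod_cast hlc
  obtain ⟨K, hK, hmain⟩ := cheb_pow G.natDegree hG (4 * G.leadingCoeff) (by linarith)
  obtain ⟨c, hc⟩ := H33B.ENG_low G hG hlc
  have hpow := H33B.argCount_pow G hG hlc
  have hlt : ((2 * G.leadingCoeff : ℝ))⁻¹ < ((G.leadingCoeff : ℝ))⁻¹ := by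
    apply inv_strictAnti₀ (by linarith)
    linarith
  have hgt : ((G.leadingCoeff : ℝ))⁻¹ < 2 := by
    have := inv_le_one_of_one_le₀ hlc1
    linarith
  obtain ⟨Y₁, hY₁⟩ := Filter.eventually_atTop.1 ((hpow.eventually_const_lt hlt).and (hpow.eventually_lt_const hgt))
  have htend := Pool.Agent.Lib.H59.argCount_tendsto hG hlc
  refine ⟨2 * K, by positivity, fun η hη => ?_⟩
  obtain ⟨X₀, hX₀⟩ := hmain (η / 2) (by positivity)
  obtain ⟨Y₂, hY₂⟩ := Filter.eventually_atTop.1 (htend.eventually_ge_atTop X₀)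
  refine ⟨max (max Y₁ Y₂) (c + 1), fun Y hY n => ?_⟩
  have hYa : Y₁ ≤ Y := (le_max_left _ _).trans ((le_max_left _ _).trans hY)
  have hYb : Y₂ ≤ Y := (le_max_right _ _).trans ((le_max_left _ _).trans hY)
  have hYc : c + 1 ≤ Y := (le_max_right _ _).trans hY
  have hYpos : (0 : ℝ) < Y := by exact_mod_cast (by omega : 0 < Y)
  obtain ⟨h1, h2⟩ := hY₁ Y hYa
  obtain ⟨X, hX⟩ : ∃ X : ℕ, X = argCount G Y := ⟨_, rfl⟩
  have hXX := hY₂ Y hYb
  rw [← hX] at h1 h2 hXX ⊢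
  rw [lt_div_iff₀ hYpos, inv_mul_lt_iff₀ (by linarith)] at h1
  rw [div_lt_iff₀ hYpos] at h2
  have hm : ((-G.eval (n : ℤ) + Y).toNat : ℝ) ≤ 4 * G.leadingCoeff * (X : ℝ) ^ G.natDegree := by
    have h3 : -G.eval (n : ℤ) + Y ≤ ((c + Y : ℕ) : ℤ) := by
      have := hc n
      push_cast
      linarith
    have h4 : (-G.eval (n : ℤ) + Y).toNat ≤ c + Y := Int.toNat_le.2 h3
    have h5 : ((-G.eval (n : ℤ) + Y).toNat : ℝ) ≤ 2 * Y := by
      have h6 : (-G.eval (n : ℤ) + Y).toNat ≤ 2 * Y := by omega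
      exact_mod_cast h6
    linarith
  obtain ⟨h3, h4⟩ := hX₀ X hXX _ hm
  have hcc : (0 : ℝ) ≤ G.natDegree * Real.log X := mul_nonneg (Nat.cast_nonneg _) (Real.log_natCast_nonneg _)
  obtain ⟨h5, h6⟩ := f1b_two (-G.eval (n : ℤ)) Y (G.natDegree * Real.log X) hcc
  have he : ∀ N : ℕ, (N : ℤ) - G.eval (n : ℤ) = -G.eval (n : ℤ) + N := fun N => by ring
  simp only [he]
  constructor
  · refine h5.trans (h3.trans ?_)
    have h7 : η / 2 * (X : ℝ) ^ G.natDegree ≤ η / 2 * (2 * Y) := mul_le_mul_of_nonneg_left h2.le (by positivity)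
    linarith
  · refine h6.trans (h4.trans ?_)
    have h7 : K * (X : ℝ) ^ G.natDegree ≤ K * (2 * Y) := mul_le_mul_of_nonneg_left h2.le hK.le
    linarith

end Pool.Agent.Lib.H59X
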