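import Pool.Agent.Lib.H59X.C2

/-!
# Chunk F2A: products of functions close in mean
-/

open Finset Polynomial

namespace Pool.Agent.Lib.H59X

open Pool.Agent.Lib.H59 (argSet argCount Admissible primeCount omegaN seriesTrunc rootCount)
open Pool.Agent.Lib.H68T (lp)
open Pool.Agent.Lib.H33B (Lq Lw PW SieveWt)

/-- Proof. Induction on `g` with `box_succ`, `Fin.prod_univ_succ`: `|α_0 ∏ α - β_0 ∏ β| ≤ |α_0 - β_0| ∏ α + β_0 |∏ α - ∏ β|`, sums: `≤ η H_0 (s^g vol H') + s H_0 (g s^g η vol H')`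
(`∑_{h'} ∏ α = ∏ ∑ ≤ s^g vol H'`), `≤ (g + 1) s^(g+1) η vol H` as `s ≥ 1`. -/
theorem prod_l1 {g : ℕ} (H : Fin g → ℕ) (α β : Fin g → ℕ → ℝ) (hα : ∀ i a, 0 ≤ α i a)
    (hβ : ∀ i a, 0 ≤ β i a) (s η : ℝ) (hs : 1 ≤ s) (hη : 0 ≤ η)
    (h1 : ∀ i, ∑ a ∈ Icc 1 (H i), α i a ≤ s * H i) (h2 : ∀ i, ∑ a ∈ Icc 1 (H i), β i a ≤ s * H i)
    (h3 : ∀ i, ∑ a ∈ Icc 1 (H i), |α i a - β i a| ≤ η * H i) :
    ∑ h ∈ Box H, |(∏ i, α i (h i)) - ∏ i, β i (h i)| ≤ g * s ^ g * η * vol H := by
  induction g with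
  | zero => simp
  | succ g ih =>
    rw [box_succ]
    have ih' := ih (fun i => H i.succ) (fun i => α i.succ) (fun i => β i.succ) (fun i a => hα _ a)
      (fun i a => hβ _ a) (fun i => h1 _) (fun i => h2 _) (fun i => h3 _)
    have hA : ∑ h ∈ Box (fun i : Fin g => H i.succ), ∏ i, α i.succ (h i) ≤
        s ^ g * vol (fun i : Fin g => H i.succ) := by
      have e1 : ∑ h ∈ Box (fun i : Fin g => H i.succ), ∏ i, α i.succ (h i) =
          ∏ i : Fin g, ∑ a ∈ Icc 1 (H i.succ), α i.succ a := by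
        unfold Box
        exact (prod_univ_sum _ _).symm
      have e2 : s ^ g * vol (fun i : Fin g => H i.succ) = ∏ i : Fin g, (s * (H i.succ : ℝ)) := by
        rw [prod_mul_distrib, prod_const, card_univ, Fintype.card_fin]
        rfl
      rw [e1, e2]
      exact prod_le_prod (fun i _ => sum_nonneg fun a _ => hα _ a) fun i _ => h1 _
    have hvol : vol H = (H 0 : ℝ) * vol (fun i : Fin g => H i.succ) := by
      unfold vol
      rw [Fin.prod_univ_succ]
    have hv0 : 0 ≤ vol (fun i : Fin g => H i.succ) := by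
      unfold vol
      positivity
    have hsg : 1 ≤ s ^ g := one_le_pow₀ hs
    have hstep : ∀ a ∈ Icc 1 (H 0), ∑ h ∈ Box (fun i : Fin g => H i.succ),
        |(∏ i, α i ((Fin.cons a h : Fin (g + 1) → ℕ) i)) - ∏ i, β i ((Fin.cons a h : Fin (g + 1) → ℕ) i)| ≤
        |α 0 a - β 0 a| * (s ^ g * vol (fun i : Fin g => H i.succ)) +
        β 0 a * (g * s ^ g * η * vol (fun i : Fin g => H i.succ)) := by
      intro a _
      calc ∑ h ∈ Box (fun i : Fin g => H i.succ),
            |(∏ i, α i ((Fin.cons a h : Fin (g + 1) → ℕ) i)) - ∏ i, β i ((Fin.cons a h : Fin (g + 1) → ℕ) i)|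
          ≤ ∑ h ∈ Box (fun i : Fin g => H i.succ), (|α 0 a - β 0 a| * (∏ i, α i.succ (h i)) +
            β 0 a * |(∏ i, α i.succ (h i)) - ∏ i, β i.succ (h i)|) := by
            refine sum_le_sum fun h _ => ?_
            rw [Fin.prod_univ_succ, Fin.prod_univ_succ]
            simp only [Fin.cons_zero, Fin.cons_succ]
            have hp : 0 ≤ ∏ i : Fin g, α i.succ (h i) := prod_nonneg fun i _ => hα _ _
            have e : α 0 a * (∏ i : Fin g, α i.succ (h i)) - β 0 a * ∏ i : Fin g, β i.succ (h i) =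
                (α 0 a - β 0 a) * (∏ i : Fin g, α i.succ (h i)) +
                β 0 a * ((∏ i : Fin g, α i.succ (h i)) - ∏ i : Fin g, β i.succ (h i)) := by ring
            rw [e]
            refine (abs_add_le _ _).trans ?_
            rw [abs_mul, abs_mul, abs_of_nonneg hp, abs_of_nonneg (hβ 0 a)]
        _ = |α 0 a - β 0 a| * (∑ h ∈ Box (fun i : Fin g => H i.succ), ∏ i, α i.succ (h i)) +
            β 0 a * ∑ h ∈ Box (fun i : Fin g => H i.succ), |(∏ i, α i.succ (h i)) - ∏ i, β i.succ (h i)| := by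
            rw [sum_add_distrib, mul_sum, mul_sum]
        _ ≤ _ := add_le_add (mul_le_mul_of_nonneg_left hA (abs_nonneg _))
            (mul_le_mul_of_nonneg_left ih' (hβ 0 a))
    refine (sum_le_sum hstep).trans ?_
    rw [sum_add_distrib, ← sum_mul, ← sum_mul]
    have k1 : (∑ a ∈ Icc 1 (H 0), |α 0 a - β 0 a|) * (s ^ g * vol (fun i : Fin g => H i.succ)) ≤
        (η * H 0) * (s ^ g * vol (fun i : Fin g => H i.succ)) :=
      mul_le_mul_of_nonneg_right (h3 0) (by positivity)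
    have k2 : (∑ a ∈ Icc 1 (H 0), β 0 a) * (g * s ^ g * η * vol (fun i : Fin g => H i.succ)) ≤
        (s * H 0) * (g * s ^ g * η * vol (fun i : Fin g => H i.succ)) :=
      mul_le_mul_of_nonneg_right (h2 0) (by positivity)
    refine (add_le_add k1 k2).trans ?_
    rw [hvol]
    have k3 : (η * H 0) * (s ^ g * vol (fun i : Fin g => H i.succ)) ≤
        s * ((η * H 0) * (s ^ g * vol (fun i : Fin g => H i.succ))) :=
      le_mul_of_one_le_left (by positivity) hs
    refine (add_le_add k3 le_rfl).trans (le_of_eq ?_)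
    push_cast
    ring

end Pool.Agent.Lib.H59X
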