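import Pool.Agent.Lib.H59X.F1
import Pool.Agent.Lib.H59X.F2A

/-!
# Chunk F2B: from weighted sums to numbers of primes
-/

open Finset Polynomial

namespace Pool.Agent.Lib.H59X

open Pool.Agent.Lib.H59 (argSet argCount Admissible primeCount omegaN seriesTrunc rootCount)
open Pool.Agent.Lib.H68T (lp)
open Pool.Agent.Lib.H33B (Lq Lw PW SieveWt)

/-- The number of the `n ≤ X` with `B(n)` and all `P_i(n) + h_i` prime. -/
noncomputable def cntF (r : ℕ) (B : ℤ[X]) {g : ℕ} (P : Fin g → ℤ[X]) (h : Fin g → ℕ) (X : ℕ) : ℝ :=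
  ∑ n ∈ Icc 1 X, pb r B n * ∏ i, pr ((P i).eval (n : ℤ) + h i)

/-- The number of the `n ≤ X` with `G(n) < N` and `B(n)`, all `P_i(n) + h_i` and `N - G(n)` prime. -/
noncomputable def cntN (r : ℕ) (B : ℤ[X]) {g : ℕ} (P : Fin g → ℤ[X]) (G : ℤ[X]) (h : Fin g → ℕ)
    (N X : ℕ) : ℝ :=
  ∑ n ∈ (Icc 1 X).filter (fun n : ℕ => G.eval (n : ℤ) < N),
    pb r B n * (∏ i, pr ((P i).eval (n : ℤ) + h i)) * pr ((N : ℤ) - G.eval (n : ℤ))

theorem f2b_pr_nonneg (m : ℤ) : 0 ≤ pr m := by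
  unfold pr; split_ifs <;> norm_num

theorem f2b_pb_nonneg (r : ℕ) (B : ℤ[X]) (n : ℕ) : 0 ≤ pb r B n := by
  unfold pb; split_ifs
  · norm_num
  · exact f2b_pr_nonneg _

theorem f2b_lp_nonneg (m : ℤ) : 0 ≤ lp m := Pool.Agent.Lib.H33B.ENG_lp_nonneg m

theorem f2b_bw_nonneg (r : ℕ) (B : ℤ[X]) (n : ℕ) : 0 ≤ bw r B n := by
  unfold bw; split_ifs
  · norm_num
  · exact f2b_lp_nonneg _

theorem f2b_vol_nonneg {g : ℕ} (H : Fin g → ℕ) : 0 ≤ vol H :=
  Finset.prod_nonneg fun i _ => Nat.cast_nonneg _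

theorem f2b_prod_le {g : ℕ} (H : Fin g → ℕ) (α : Fin g → ℕ → ℝ) (hα : ∀ i a, 0 ≤ α i a) (s : ℝ)
    (h1 : ∀ i, ∑ a ∈ Icc 1 (H i), α i a ≤ s * H i) :
    ∑ h ∈ Box H, ∏ i, α i (h i) ≤ s ^ g * vol H := by
  unfold Box vol
  rw [← Finset.prod_univ_sum]
  calc ∏ i, ∑ a ∈ Icc 1 (H i), α i a ≤ ∏ i, (s * (H i : ℝ)) :=
        Finset.prod_le_prod (fun i _ => Finset.sum_nonneg fun a _ => hα i a) (fun i _ => h1 i)
    _ = s ^ g * ∏ i, (H i : ℝ) := by
        rw [Finset.prod_mul_distrib, Finset.prod_const, Finset.card_univ, Fintype.card_fin]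

theorem f2b_key {g : ℕ} (H : Fin g → ℕ) (S : Finset ℕ) (p q : ℕ → ℝ) (α β : ℕ → Fin g → ℕ → ℝ)
    (hq : ∀ n, 0 ≤ q n)
    (hα : ∀ n i a, 0 ≤ α n i a) (hβ : ∀ n i a, 0 ≤ β n i a) (s η C X : ℝ) (hs : 1 ≤ s)
    (hη : 0 ≤ η)
    (h1 : ∀ n ∈ S, ∀ i, ∑ a ∈ Icc 1 (H i), α n i a ≤ s * H i)
    (h2 : ∀ n ∈ S, ∀ i, ∑ a ∈ Icc 1 (H i), β n i a ≤ s * H i)
    (h3 : ∀ n ∈ S, ∀ i, ∑ a ∈ Icc 1 (H i), |α n i a - β n i a| ≤ η * H i)
    (h4 : ∑ n ∈ S, |p n - q n| ≤ η * X) (h5 : ∑ n ∈ S, q n ≤ C * X) :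
    ∑ n ∈ S, ∑ h ∈ Box H, |p n * (∏ i, α n i (h i)) - q n * ∏ i, β n i (h i)| ≤
      (s ^ g + C * g * s ^ g) * η * X * vol H := by
  have hv := f2b_vol_nonneg H
  have hsg : 0 ≤ s ^ g := by positivity
  have step : ∀ n ∈ S, ∑ h ∈ Box H, |p n * (∏ i, α n i (h i)) - q n * ∏ i, β n i (h i)| ≤
      |p n - q n| * (s ^ g * vol H) + q n * (g * s ^ g * η * vol H) := by
    intro n hn
    calc ∑ h ∈ Box H, |p n * (∏ i, α n i (h i)) - q n * ∏ i, β n i (h i)|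
        ≤ ∑ h ∈ Box H, (|p n - q n| * (∏ i, α n i (h i)) +
            q n * |(∏ i, α n i (h i)) - ∏ i, β n i (h i)|) := by
          apply Finset.sum_le_sum
          intro h _
          have e : p n * (∏ i, α n i (h i)) - q n * ∏ i, β n i (h i) =
              (p n - q n) * (∏ i, α n i (h i)) +
                q n * ((∏ i, α n i (h i)) - ∏ i, β n i (h i)) := by ring
          rw [e]
          refine (abs_add_le _ _).trans (le_of_eq ?_)
          rw [abs_mul, abs_mul, abs_of_nonneg (hq n),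
            abs_of_nonneg (Finset.prod_nonneg fun i _ => hα n i (h i))]
      _ = |p n - q n| * (∑ h ∈ Box H, ∏ i, α n i (h i)) +
            q n * ∑ h ∈ Box H, |(∏ i, α n i (h i)) - ∏ i, β n i (h i)| := by
          rw [Finset.sum_add_distrib, Finset.mul_sum, Finset.mul_sum]
      _ ≤ _ := by
          have a1 := f2b_prod_le H (α n) (hα n) s (h1 n hn)
          have a2 := prod_l1 H (α n) (β n) (hα n) (hβ n) s η hs hη (h1 n hn) (h2 n hn) (h3 n hn)
          have a3 := mul_le_mul_of_nonneg_left a1 (abs_nonneg (p n - q n))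
          have a4 := mul_le_mul_of_nonneg_left a2 (hq n)
          linarith
  calc ∑ n ∈ S, ∑ h ∈ Box H, |p n * (∏ i, α n i (h i)) - q n * ∏ i, β n i (h i)|
      ≤ ∑ n ∈ S, (|p n - q n| * (s ^ g * vol H) + q n * (g * s ^ g * η * vol H)) :=
        Finset.sum_le_sum step
    _ = (∑ n ∈ S, |p n - q n|) * (s ^ g * vol H) + (∑ n ∈ S, q n) * (g * s ^ g * η * vol H) := by
        rw [Finset.sum_add_distrib, Finset.sum_mul, Finset.sum_mul]
    _ ≤ (η * X) * (s ^ g * vol H) + (C * X) * (g * s ^ g * η * vol H) := by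
        have b1 := mul_le_mul_of_nonneg_right h4 (mul_nonneg hsg hv)
        have hg0 : (0 : ℝ) ≤ g := Nat.cast_nonneg g
        have hh : 0 ≤ (g : ℝ) * s ^ g * η * vol H := by positivity
        have b2 := mul_le_mul_of_nonneg_right h5 hh
        linarith
    _ = (s ^ g + C * g * s ^ g) * η * X * vol H := by ring

/-- Chebyshev data for the system `P`. -/
theorem f2b_data {g : ℕ} (P : Fin g → ℤ[X]) (hP : ∀ i, 1 ≤ (P i).natDegree)
    (hl : ∀ i, 0 < (P i).leadingCoeff) (C₁ : ℝ) (hC₁ : 1 ≤ C₁) :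
    ∃ s : ℝ, 1 ≤ s ∧ ∀ η : ℝ, 0 < η → ∃ X₀ : ℕ, ∀ X : ℕ, X₀ ≤ X → ∀ H : Fin g → ℕ,
      Fit C₁ X P H → ∀ n ∈ Icc 1 X, ∀ i,
      ∑ a ∈ Icc 1 (H i), ((P i).natDegree * Real.log X * pr ((P i).eval (n : ℤ) + a)) ≤ s * H i ∧
      ∑ a ∈ Icc 1 (H i), lp ((P i).eval (n : ℤ) + a) ≤ s * H i ∧
      ∑ a ∈ Icc 1 (H i), |(P i).natDegree * Real.log X * pr ((P i).eval (n : ℤ) + a) -
        lp ((P i).eval (n : ℤ) + a)| ≤ η * H i := by
  choose C hC hC' using fun i => cheb_shift (P i) (hP i) (hl i) C₁ hC₁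
  refine ⟨1 + ∑ i, C i, ?_, ?_⟩
  · have : 0 ≤ ∑ i, C i := Finset.sum_nonneg fun i _ => (hC i).le
    linarith
  intro η hη
  choose X₀ hX₀ using fun i => hC' i η hη
  refine ⟨∑ i, X₀ i, ?_⟩
  intro X hX H hF n hn i
  have hXi : X₀ i ≤ X := le_trans (Finset.single_le_sum (f := X₀) (fun j _ => Nat.zero_le _)
    (Finset.mem_univ i)) hX
  obtain ⟨h1, h2⟩ := hX₀ i X hXi (H i) (hF.lo i) (hF.hi i) n hn
  have hCi : C i ≤ 1 + ∑ i, C i := by
    have := Finset.single_le_sum (f := C) (fun j _ => (hC j).le) (Finset.mem_univ i)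
    linarith
  have hH : (0 : ℝ) ≤ H i := Nat.cast_nonneg _
  have hCH : C i * H i ≤ (1 + ∑ i, C i) * H i := mul_le_mul_of_nonneg_right hCi hH
  have hlog : 0 ≤ Real.log X := Real.log_natCast_nonneg X
  have hp : ∀ a : ℕ, 0 ≤ (P i).natDegree * Real.log X * pr ((P i).eval (n : ℤ) + a) := fun a =>
    mul_nonneg (mul_nonneg (Nat.cast_nonneg _) hlog) (f2b_pr_nonneg _)
  refine ⟨le_trans (Finset.sum_le_sum fun a _ => ?_) (h2.trans hCH),
    le_trans (Finset.sum_le_sum fun a _ => ?_) (h2.trans hCH), h1⟩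
  · have := f2b_lp_nonneg ((P i).eval (n : ℤ) + a)
    linarith
  · have := hp a
    linarith

theorem f2b_tend (G : ℤ[X]) (hG : 1 ≤ G.natDegree) (hlc : 0 < G.leadingCoeff) (X₀ : ℕ) :
    ∃ Y₂ : ℕ, ∀ Y : ℕ, Y₂ ≤ Y → X₀ ≤ argCount G Y := by
  have h := Pool.Agent.Lib.H59.argCount_tendsto hG hlc
  exact Filter.eventually_atTop.mp (h.eventually_ge_atTop X₀)

/-- Proof. `L = log X`. `∑_n |(L^r pb) ∏ (d_i L pr_i) - bw ∏ lp_i| ≤ ∑_n |L^r pb - bw| ∏ (d_i L pr_i) + ∑_n bw |∏ (d_i L pr_i) - ∏ lp_i|`. For each `n` sum over `h ∈ Box H`: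
`∑_h ∏ (d_i L pr_i) ≤ s^g vol H` (`cheb_shift`, `s` the maximum of `1` and the constants), `∑_h |∏ - ∏| ≤ g s^g η vol H` (`prod_l1`, `cheb_shift` with `η`); then sum over `n` by `BCh`:
`≤ (η s^g + C₂ g s^g η) X vol H ≤ ε X vol H`. -/
theorem count_fix {g : ℕ} (P : Fin g → ℤ[X]) (hP : ∀ i, 1 ≤ (P i).natDegree)
    (hl : ∀ i, 0 < (P i).leadingCoeff) (C₁ : ℝ) (hC₁ : 1 ≤ C₁) (C₂ ε : ℝ) (hε : 0 < ε) :
    ∃ η : ℝ, 0 < η ∧ ∃ X₀ : ℕ, ∀ X : ℕ, X₀ ≤ X → ∀ H : Fin g → ℕ, Fit C₁ X P H →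
    ∀ (r : ℕ) (B : ℤ[X]), BCh r B X η C₂ →
    ∑ h ∈ Box H, |(∏ i, ((P i).natDegree : ℝ)) * Real.log X ^ (g + r) * cntF r B P h X -
      ∑ n ∈ Icc 1 X, bw r B n * ∏ i, lp ((P i).eval (n : ℤ) + h i)| ≤ ε * X * vol H := by
  obtain ⟨s, hs, hdata⟩ := f2b_data P hP hl C₁ hC₁
  set K : ℝ := s ^ g + |C₂| * g * s ^ g with hK
  have hs0 : 0 < s := by linarith
  have hK0 : 0 < K := by positivity
  refine ⟨ε / K, by positivity, ?_⟩
  obtain ⟨X₀, hX₀⟩ := hdata (ε / K) (by positivity)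
  refine ⟨X₀, ?_⟩
  intro X hX H hF r B hB
  obtain ⟨hB1, hB2⟩ := hB
  have hlog : 0 ≤ Real.log X := Real.log_natCast_nonneg X
  have hpq : ∑ n ∈ Icc 1 X, bw r B n ≤ |C₂| * X := by
    have h1 : ∑ n ∈ Icc 1 X, bw r B n ≤ ∑ n ∈ Icc 1 X, (Real.log X ^ r * pb r B n + bw r B n) :=
      Finset.sum_le_sum fun n _ => by
        have := mul_nonneg (pow_nonneg hlog r) (f2b_pb_nonneg r B n)
        linarith
    have h2 : C₂ * X ≤ |C₂| * X := mul_le_mul_of_nonneg_right (le_abs_self _) (Nat.cast_nonneg _)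
    linarith
  have key := f2b_key H (Icc 1 X) (fun n => Real.log X ^ r * pb r B n) (fun n => bw r B n)
    (fun n i a => (P i).natDegree * Real.log X * pr ((P i).eval (n : ℤ) + a))
    (fun n i a => lp ((P i).eval (n : ℤ) + a)) (fun n => f2b_bw_nonneg r B n)
    (fun n i a => mul_nonneg (mul_nonneg (Nat.cast_nonneg _) hlog) (f2b_pr_nonneg _))
    (fun n i a => f2b_lp_nonneg _) s (ε / K) |C₂| X hs (by positivity)
    (fun n hn i => (hX₀ X hX H hF n hn i).1) (fun n hn i => (hX₀ X hX H hF n hn i).2.1)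
    (fun n hn i => (hX₀ X hX H hF n hn i).2.2) hB1 hpq
  rw [Finset.sum_comm] at key
  have e1 : (s ^ g + |C₂| * g * s ^ g) * (ε / K) * X * vol H = ε * X * vol H := by
    rw [← hK]; field_simp
  rw [e1] at key
  refine le_trans (Finset.sum_le_sum fun h _ => ?_) key
  have e2 : (∏ i, ((P i).natDegree : ℝ)) * Real.log X ^ (g + r) * cntF r B P h X -
      ∑ n ∈ Icc 1 X, bw r B n * ∏ i, lp ((P i).eval (n : ℤ) + h i) =
      ∑ n ∈ Icc 1 X, (Real.log X ^ r * pb r B n *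
        (∏ i, ((P i).natDegree * Real.log X * pr ((P i).eval (n : ℤ) + h i))) -
        bw r B n * ∏ i, lp ((P i).eval (n : ℤ) + h i)) := by
    unfold cntF
    rw [Finset.mul_sum, Finset.sum_sub_distrib]
    congr 1
    apply Finset.sum_congr rfl
    intro n _
    rw [Finset.prod_mul_distrib, Finset.prod_mul_distrib, Finset.prod_const, Finset.card_univ,
      Fintype.card_fin]
    ring
  rw [e2]
  exact Finset.abs_sum_le_sum_abs _ _

/-- Proof. As `count_fix`, with the additional factor `k L pr(N - G(n))` resp. `lp(N - G(n))`, `k = deg G`, `L = log X`, `X = argCount G Y`, summed over `N ≤ Y` by `cheb_N` (drop the condition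
`G(n) < N` after taking absolute values inside the sum over `n`). -/
theorem count_avg {g : ℕ} (G : ℤ[X]) (hG : 1 ≤ G.natDegree) (hlc : 0 < G.leadingCoeff)
    (P : Fin g → ℤ[X]) (hP : ∀ i, 1 ≤ (P i).natDegree)
    (hl : ∀ i, 0 < (P i).leadingCoeff) (C₁ : ℝ) (hC₁ : 1 ≤ C₁) (C₂ ε : ℝ) (hε : 0 < ε) :
    ∃ η : ℝ, 0 < η ∧ ∃ Y₀ : ℕ, ∀ Y : ℕ, Y₀ ≤ Y → ∀ H : Fin g → ℕ, Fit C₁ (argCount G Y) P H →
    ∀ (r : ℕ) (B : ℤ[X]), BCh r B (argCount G Y) η C₂ →
    ∑ h ∈ Box H, ∑ N ∈ Icc 1 Y, |((G.natDegree : ℝ) * ∏ i, ((P i).natDegree : ℝ)) *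
      Real.log (argCount G Y) ^ (g + r + 1) * cntN r B P G h N (argCount G Y) -
      ∑ n ∈ (Icc 1 (argCount G Y)).filter (fun n : ℕ => G.eval (n : ℤ) < N),
        bw r B n * (∏ i, lp ((P i).eval (n : ℤ) + h i)) * lp ((N : ℤ) - G.eval (n : ℤ))| ≤
      ε * Y * argCount G Y * vol H := by
  obtain ⟨s, hs, hdata⟩ := f2b_data P hP hl C₁ hC₁
  obtain ⟨C₃, hC₃, hN⟩ := cheb_N G hG hlc
  set K : ℝ := C₃ * (s ^ g + |C₂| * g * s ^ g) + |C₂| * s ^ g with hK
  have hs0 : 0 < s := by linarith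
  have hK0 : 0 < K := by positivity
  refine ⟨ε / K, by positivity, ?_⟩
  obtain ⟨X₀, hX₀⟩ := hdata (ε / K) (by positivity)
  obtain ⟨Y₁, hY₁⟩ := hN (ε / K) (by positivity)
  obtain ⟨Y₂, hY₂⟩ := f2b_tend G hG hlc X₀
  refine ⟨max Y₁ Y₂, ?_⟩
  intro Y hY H hF r B hB
  have hX : X₀ ≤ argCount G Y := hY₂ Y (le_trans (le_max_right _ _) hY)
  have hYN := hY₁ Y (le_trans (le_max_left _ _) hY)
  set X := argCount G Y with hXdef
  obtain ⟨hB1, hB2⟩ := hB
  have hlog : 0 ≤ Real.log X := Real.log_natCast_nonneg X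
  have hpq : ∑ n ∈ Icc 1 X, bw r B n ≤ |C₂| * X := by
    have h1 : ∑ n ∈ Icc 1 X, bw r B n ≤ ∑ n ∈ Icc 1 X, (Real.log X ^ r * pb r B n + bw r B n) :=
      Finset.sum_le_sum fun n _ => by
        have := mul_nonneg (pow_nonneg hlog r) (f2b_pb_nonneg r B n)
        linarith
    have h2 : C₂ * X ≤ |C₂| * X := mul_le_mul_of_nonneg_right (le_abs_self _) (Nat.cast_nonneg _)
    linarith
  have key := f2b_key H (Icc 1 X) (fun n => Real.log X ^ r * pb r B n) (fun n => bw r B n)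
    (fun n i a => (P i).natDegree * Real.log X * pr ((P i).eval (n : ℤ) + a))
    (fun n i a => lp ((P i).eval (n : ℤ) + a)) (fun n => f2b_bw_nonneg r B n)
    (fun n i a => mul_nonneg (mul_nonneg (Nat.cast_nonneg _) hlog) (f2b_pr_nonneg _))
    (fun n i a => f2b_lp_nonneg _) s (ε / K) |C₂| X hs (by positivity)
    (fun n hn i => (hX₀ X hX H hF n hn i).1) (fun n hn i => (hX₀ X hX H hF n hn i).2.1)
    (fun n hn i => (hX₀ X hX H hF n hn i).2.2) hB1 hpq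
  have hv := f2b_vol_nonneg H
  -- the second term
  have key2 : ∑ n ∈ Icc 1 X, ∑ h ∈ Box H, bw r B n * ∏ i, lp ((P i).eval (n : ℤ) + h i) ≤
      |C₂| * X * (s ^ g * vol H) := by
    calc ∑ n ∈ Icc 1 X, ∑ h ∈ Box H, bw r B n * ∏ i, lp ((P i).eval (n : ℤ) + h i)
        ≤ ∑ n ∈ Icc 1 X, bw r B n * (s ^ g * vol H) := by
          apply Finset.sum_le_sum
          intro n hn
          rw [← Finset.mul_sum]
          exact mul_le_mul_of_nonneg_left (f2b_prod_le H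
            (fun i a => lp ((P i).eval (n : ℤ) + a)) (fun i a => f2b_lp_nonneg _) s
            (fun i => (hX₀ X hX H hF n hn i).2.1)) (f2b_bw_nonneg r B n)
      _ = (∑ n ∈ Icc 1 X, bw r B n) * (s ^ g * vol H) := by rw [Finset.sum_mul]
      _ ≤ _ := mul_le_mul_of_nonneg_right hpq (by positivity)
  have hk0 : (0 : ℝ) ≤ G.natDegree := Nat.cast_nonneg _
  have hγ0 : ∀ (N n : ℕ), 0 ≤ (G.natDegree : ℝ) * Real.log X * pr ((N : ℤ) - G.eval (n : ℤ)) :=
    fun N n => mul_nonneg (mul_nonneg hk0 hlog) (f2b_pr_nonneg _)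
  -- pointwise in `h`, `n`
  have point : ∀ h ∈ Box H, ∀ n ∈ Icc 1 X, ∑ N ∈ Icc 1 Y,
      |Real.log X ^ r * pb r B n *
        (∏ i, ((P i).natDegree * Real.log X * pr ((P i).eval (n : ℤ) + h i))) *
        ((G.natDegree : ℝ) * Real.log X * pr ((N : ℤ) - G.eval (n : ℤ))) -
        bw r B n * (∏ i, lp ((P i).eval (n : ℤ) + h i)) * lp ((N : ℤ) - G.eval (n : ℤ))| ≤
      |Real.log X ^ r * pb r B n *
        (∏ i, ((P i).natDegree * Real.log X * pr ((P i).eval (n : ℤ) + h i))) -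
        bw r B n * (∏ i, lp ((P i).eval (n : ℤ) + h i))| * (C₃ * Y) +
      (bw r B n * (∏ i, lp ((P i).eval (n : ℤ) + h i))) * (ε / K * Y) := by
    intro h _ n _
    obtain ⟨c1, c2⟩ := hYN n
    set a := Real.log X ^ r * pb r B n *
        (∏ i, ((P i).natDegree * Real.log X * pr ((P i).eval (n : ℤ) + h i))) with ha
    set b := bw r B n * (∏ i, lp ((P i).eval (n : ℤ) + h i)) with hb
    have hb0 : 0 ≤ b := mul_nonneg (f2b_bw_nonneg r B n)
      (Finset.prod_nonneg fun i _ => f2b_lp_nonneg _)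
    have c3 : ∑ N ∈ Icc 1 Y, (G.natDegree : ℝ) * Real.log X * pr ((N : ℤ) - G.eval (n : ℤ)) ≤
        C₃ * Y := le_trans (Finset.sum_le_sum fun N _ => by
          have := f2b_lp_nonneg ((N : ℤ) - G.eval (n : ℤ))
          linarith) c2
    calc _ ≤ ∑ N ∈ Icc 1 Y, (|a - b| *
            ((G.natDegree : ℝ) * Real.log X * pr ((N : ℤ) - G.eval (n : ℤ))) +
            b * |(G.natDegree : ℝ) * Real.log X * pr ((N : ℤ) - G.eval (n : ℤ)) -
              lp ((N : ℤ) - G.eval (n : ℤ))|) := by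
          apply Finset.sum_le_sum
          intro N _
          have e : a * ((G.natDegree : ℝ) * Real.log X * pr ((N : ℤ) - G.eval (n : ℤ))) -
              b * lp ((N : ℤ) - G.eval (n : ℤ)) =
              (a - b) * ((G.natDegree : ℝ) * Real.log X * pr ((N : ℤ) - G.eval (n : ℤ))) +
              b * ((G.natDegree : ℝ) * Real.log X * pr ((N : ℤ) - G.eval (n : ℤ)) -
                lp ((N : ℤ) - G.eval (n : ℤ))) := by ring
          rw [e]
          refine (abs_add_le _ _).trans (le_of_eq ?_)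
          rw [abs_mul (a - b), abs_mul b, abs_of_nonneg (hγ0 N n), abs_of_nonneg hb0]
      _ = |a - b| * (∑ N ∈ Icc 1 Y,
            (G.natDegree : ℝ) * Real.log X * pr ((N : ℤ) - G.eval (n : ℤ))) +
            b * ∑ N ∈ Icc 1 Y, |(G.natDegree : ℝ) * Real.log X * pr ((N : ℤ) - G.eval (n : ℤ)) -
              lp ((N : ℤ) - G.eval (n : ℤ))| := by
          rw [Finset.sum_add_distrib, Finset.mul_sum, Finset.mul_sum]
      _ ≤ _ := add_le_add (mul_le_mul_of_nonneg_left c3 (abs_nonneg _))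
          (mul_le_mul_of_nonneg_left c1 hb0)
  have main : ∑ h ∈ Box H, ∑ n ∈ Icc 1 X, ∑ N ∈ Icc 1 Y,
      |Real.log X ^ r * pb r B n *
        (∏ i, ((P i).natDegree * Real.log X * pr ((P i).eval (n : ℤ) + h i))) *
        ((G.natDegree : ℝ) * Real.log X * pr ((N : ℤ) - G.eval (n : ℤ))) -
        bw r B n * (∏ i, lp ((P i).eval (n : ℤ) + h i)) * lp ((N : ℤ) - G.eval (n : ℤ))| ≤
      ε * Y * X * vol H := by
    calc _ ≤ ∑ h ∈ Box H, ∑ n ∈ Icc 1 X, (|Real.log X ^ r * pb r B n *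
            (∏ i, ((P i).natDegree * Real.log X * pr ((P i).eval (n : ℤ) + h i))) -
            bw r B n * (∏ i, lp ((P i).eval (n : ℤ) + h i))| * (C₃ * Y) +
          (bw r B n * (∏ i, lp ((P i).eval (n : ℤ) + h i))) * (ε / K * Y)) :=
          Finset.sum_le_sum fun h hh => Finset.sum_le_sum fun n hn => point h hh n hn
      _ = (∑ n ∈ Icc 1 X, ∑ h ∈ Box H, |Real.log X ^ r * pb r B n *
            (∏ i, ((P i).natDegree * Real.log X * pr ((P i).eval (n : ℤ) + h i))) -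
            bw r B n * (∏ i, lp ((P i).eval (n : ℤ) + h i))|) * (C₃ * Y) +
          (∑ n ∈ Icc 1 X, ∑ h ∈ Box H, bw r B n * (∏ i, lp ((P i).eval (n : ℤ) + h i))) *
            (ε / K * Y) := by
          rw [Finset.sum_comm (s := Icc 1 X), Finset.sum_comm (s := Icc 1 X)]
          simp only [Finset.sum_add_distrib, Finset.sum_mul]
      _ ≤ ((s ^ g + |C₂| * g * s ^ g) * (ε / K) * X * vol H) * (C₃ * Y) +
          (|C₂| * X * (s ^ g * vol H)) * (ε / K * Y) :=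
          add_le_add (mul_le_mul_of_nonneg_right key (by positivity))
            (mul_le_mul_of_nonneg_right key2 (by positivity))
      _ = K * (ε / K) * Y * X * vol H := by rw [hK]; ring
      _ = ε * Y * X * vol H := by rw [mul_div_cancel₀ _ hK0.ne']
  refine le_trans (Finset.sum_le_sum fun h _ => ?_) main
  rw [Finset.sum_comm (s := Icc 1 X)]
  apply Finset.sum_le_sum
  intro N _
  have e2 : ((G.natDegree : ℝ) * ∏ i, ((P i).natDegree : ℝ)) *
      Real.log X ^ (g + r + 1) * cntN r B P G h N X -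
      ∑ n ∈ (Icc 1 X).filter (fun n : ℕ => G.eval (n : ℤ) < N),
        bw r B n * (∏ i, lp ((P i).eval (n : ℤ) + h i)) * lp ((N : ℤ) - G.eval (n : ℤ)) =
      ∑ n ∈ (Icc 1 X).filter (fun n : ℕ => G.eval (n : ℤ) < N), (Real.log X ^ r * pb r B n *
        (∏ i, ((P i).natDegree * Real.log X * pr ((P i).eval (n : ℤ) + h i))) *
        ((G.natDegree : ℝ) * Real.log X * pr ((N : ℤ) - G.eval (n : ℤ))) -
        bw r B n * (∏ i, lp ((P i).eval (n : ℤ) + h i)) * lp ((N : ℤ) - G.eval (n : ℤ))) := by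
    unfold cntN
    rw [Finset.mul_sum, Finset.sum_sub_distrib]
    congr 1
    apply Finset.sum_congr rfl
    intro n _
    rw [Finset.prod_mul_distrib, Finset.prod_mul_distrib, Finset.prod_const, Finset.card_univ,
      Fintype.card_fin]
    ring
  rw [e2]
  refine (Finset.abs_sum_le_sum_abs _ _).trans ?_
  exact Finset.sum_le_sum_of_subset_of_nonneg (Finset.filter_subset _ _)
    fun n _ _ => abs_nonneg _

end Pool.Agent.Lib.H59X
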