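import Pool.Agent.Lib.H59X.Z5

/-!
# Project H59X: Schinzel's formula for almost all constant terms (final theorems)
-/

open Finset Polynomial

namespace Pool.Agent.Lib.H59X

open Pool.Agent.Lib.H59 (argSet argCount Admissible primeCount omegaN seriesTrunc rootCount)

open Classical in
/-- All constant terms (of the `F_i` and of `N - G`) vary. -/
theorem all_random {g : ℕ} (G : ℤ[X]) (hG : 1 ≤ G.natDegree) (hlc : 0 < G.leadingCoeff)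
    (P : Fin g → ℤ[X]) (hP : ∀ i, 1 ≤ (P i).natDegree) (hl : ∀ i, 0 < (P i).leadingCoeff)
    (C₁ : ℝ) (hC₁ : 1 ≤ C₁) (ε : ℝ) (hε : 0 < ε) :
    ∃ z₀ : ℕ, ∀ z : ℕ, z₀ ≤ z → ∃ Y₀ : ℕ, ∀ Y : ℕ, Y₀ ≤ Y → ∀ H : Fin g → ℕ,
    Fit C₁ (argCount G Y) P H →
    (((Icc 1 Y ×ˢ Box H).filter (fun x : ℕ × (Fin g → ℕ) => Admissible (fam P x.2) G x.1 ∧
      ε * (H33B.mainT (fam P x.2) G x.1 * seriesTrunc (fam P x.2) G x.1 z) <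
        |(primeCount (fam P x.2) G x.1 : ℝ) -
          H33B.mainT (fam P x.2) G x.1 * seriesTrunc (fam P x.2) G x.1 z|)).card : ℝ) ≤
      ε * Y * vol H := by
  obtain ⟨z₀, hz₀⟩ := exc_avg G hG hlc P hP hl 0 1 (Or.inl ⟨rfl, rfl⟩) C₁ hC₁ ε hε
  refine ⟨z₀, fun z hz => ?_⟩
  obtain ⟨Y₀, hY₀⟩ := hz₀ z hz
  obtain ⟨Y₁, hY₁⟩ := primeCount_zero (g := g) G hG hlc
  refine ⟨max Y₀ Y₁, fun Y hY H hH => ?_⟩
  refine le_trans ?_ (hY₀ Y ((le_max_left _ _).trans hY) H hH)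
  refine Nat.cast_le.2 (card_le_card fun x hx => ?_)
  rw [mem_filter] at hx ⊢
  obtain ⟨hx1, hx2, hx3⟩ := hx
  have hN : x.1 ≤ Y := (mem_Icc.1 (mem_product.1 hx1).1).2
  rw [hY₁ Y x.1 ((le_max_right _ _).trans hY) hN P x.2, mainT_zero, series_zero] at hx3
  have hpos := series_pos (fam P x.2) G x.1 z hx2
  rw [series_zero] at hpos
  exact ⟨hx1, hpos, hx3⟩

open Classical in
/-- One linear polynomial `F_0` is fixed, the other constant terms vary. -/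
theorem one_fixed {g : ℕ} (G : ℤ[X]) (hG : 1 ≤ G.natDegree) (hlc : 0 < G.leadingCoeff)
    (F₀ : ℤ[X]) (hF₀ : F₀.natDegree = 1) (hF₀l : 0 < F₀.leadingCoeff)
    (P : Fin g → ℤ[X]) (hP : ∀ i, 1 ≤ (P i).natDegree) (hl : ∀ i, 0 < (P i).leadingCoeff)
    (C₁ : ℝ) (hC₁ : 1 ≤ C₁) (ε : ℝ) (hε : 0 < ε) :
    ∃ z₀ : ℕ, ∀ z : ℕ, z₀ ≤ z → ∃ Y₀ : ℕ, ∀ Y : ℕ, Y₀ ≤ Y → ∀ H : Fin g → ℕ,
    Fit C₁ (argCount G Y) P H →
    (((Icc 1 Y ×ˢ Box H).filter (fun x : ℕ × (Fin g → ℕ) =>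
      Admissible (Fin.cons F₀ (fam P x.2) : Fin (g + 1) → ℤ[X]) G x.1 ∧
      ε * (H33B.mainT (Fin.cons F₀ (fam P x.2) : Fin (g + 1) → ℤ[X]) G x.1 *
          seriesTrunc (Fin.cons F₀ (fam P x.2) : Fin (g + 1) → ℤ[X]) G x.1 z) <
        |(primeCount (Fin.cons F₀ (fam P x.2) : Fin (g + 1) → ℤ[X]) G x.1 : ℝ) -
          H33B.mainT (Fin.cons F₀ (fam P x.2) : Fin (g + 1) → ℤ[X]) G x.1 *
            seriesTrunc (Fin.cons F₀ (fam P x.2) : Fin (g + 1) → ℤ[X]) G x.1 z|)).card : ℝ) ≤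
      ε * Y * vol H := by
  obtain ⟨z₀, hz₀⟩ := exc_avg G hG hlc P hP hl 1 F₀ (Or.inr ⟨rfl, hF₀, hF₀l⟩) C₁ hC₁ ε hε
  refine ⟨z₀, fun z hz => ?_⟩
  obtain ⟨Y₀, hY₀⟩ := hz₀ z hz
  obtain ⟨Y₁, hY₁⟩ := primeCount_one (g := g) G hG hlc
  refine ⟨max Y₀ Y₁, fun Y hY H hH => ?_⟩
  refine le_trans ?_ (hY₀ Y ((le_max_left _ _).trans hY) H hH)
  refine Nat.cast_le.2 (card_le_card fun x hx => ?_)
  rw [mem_filter] at hx ⊢
  obtain ⟨hx1, hx2, hx3⟩ := hx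
  have hN : x.1 ≤ Y := (mem_Icc.1 (mem_product.1 hx1).1).2
  rw [hY₁ Y x.1 ((le_max_right _ _).trans hY) hN F₀ P x.2, mainT_one F₀ hF₀, series_one] at hx3
  have hpos := series_pos _ G x.1 z hx2
  rw [series_one] at hpos
  exact ⟨hx1, hpos, hx3⟩

end Pool.Agent.Lib.H59X
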