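import Pool.Agent.Lib.H59X.C1
import Pool.Agent.Lib.H59X.C2

/-!
# Chunk L1: the local factors
-/

open Finset Polynomial

namespace Pool.Agent.Lib.H59X

open Pool.Agent.Lib.H59 (argSet argCount Admissible primeCount omegaN seriesTrunc rootCount)
open Pool.Agent.Lib.H68T (lp)
open Pool.Agent.Lib.H33B (Lq Lw PW SieveWt)

theorem l1_Lq_nonneg (q : ℕ) (m : ℤ) : 0 ≤ Lq q m := by
  unfold Lq
  split_ifs
  · positivity
  · exact le_rfl

theorem l1_bL_nonneg (r : ℕ) (B : ℤ[X]) (q v : ℕ) : 0 ≤ bL r B q v := by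
  unfold bL
  split_ifs
  · exact zero_le_one
  · exact l1_Lq_nonneg _ _

theorem l1_congr (q : ℕ) {m m' : ℤ} (h : (q : ℤ) ∣ m - m') : Lq q m = Lq q m' := by
  obtain ⟨k, hk⟩ := h
  have hm : m = m' + q * k := by linarith
  have h1 : IsCoprime m (q : ℤ) ↔ IsCoprime m' (q : ℤ) := by
    rw [hm]
    exact IsCoprime.add_mul_left_left_iff
  unfold Lq
  simp only [h1]

/-- Proof. `Lq ≥ 0`. -/
theorem af_nonneg (r : ℕ) (B : ℤ[X]) {g : ℕ} (P : Fin g → ℤ[X]) (I : Finset (Fin g)) (p : ℕ)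
    (h : Fin g → ℕ) : 0 ≤ af r B P I p h := by
  unfold af
  refine div_nonneg (sum_nonneg fun v _ => mul_nonneg (l1_bL_nonneg _ _ _ _) (prod_nonneg fun i _ => l1_Lq_nonneg _ _))
    (Nat.cast_nonneg p)

/-- Proof. `Lq p m` depends only on `m` modulo `p`. -/
theorem af_per (r : ℕ) (B : ℤ[X]) {g : ℕ} (P : Fin g → ℤ[X]) (I : Finset (Fin g)) (p : ℕ) :
    Per p (af r B P I p) := by
  intro h h' hh
  unfold af
  congr 1
  refine sum_congr rfl fun v _ => ?_
  congr 1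
  refine prod_congr rfl fun i _ => ?_
  refine l1_congr p ?_
  have h1 : (p : ℤ) ∣ (h i : ℤ) - h' i := Nat.modEq_iff_dvd.1 (hh i).symm
  have e : (P i).eval (v : ℤ) + h i - ((P i).eval (v : ℤ) + h' i) = (h i : ℤ) - h' i := by ring
  rw [e]
  exact h1

theorem l1_prime {p : ℕ} (hp : p.Prime) (m : ℤ) :
    Lq p m = if (p : ℤ) ∣ m then 0 else (1 - 1 / (p : ℝ))⁻¹ := by
  have hp1 : IsCoprime m (p : ℤ) ↔ ¬ (p : ℤ) ∣ m := by
    rw [isCoprime_comm]
    exact (Nat.prime_iff_prime_int.1 hp).coprime_iff_not_dvd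
  unfold Lq
  by_cases h : (p : ℤ) ∣ m
  · rw [if_neg (fun hc => (hp1.1 hc) h), if_pos h]
  · rw [if_pos (hp1.2 h), if_neg h, Nat.totient_prime hp, Nat.cast_sub hp.one_lt.le, Nat.cast_one]
    have h0 : (p : ℝ) ≠ 0 := by exact_mod_cast hp.ne_zero
    have h1 : (p : ℝ) - 1 ≠ 0 := by
      have : (1 : ℝ) < p := by exact_mod_cast hp.one_lt
      linarith
    field_simp

theorem l1_bL {A r : ℕ} {B : ℤ[X]} (hB : Bas A r B) {p : ℕ} (hp : p.Prime) (v : ℕ) :
    bL r B p v = if (p : ℤ) ∣ B.eval (v : ℤ) then 0 else ((1 - 1 / (p : ℝ))⁻¹) ^ r := by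
  unfold bL
  rcases hB with ⟨hr, hB1⟩ | ⟨hr, -, -⟩
  · subst hr hB1
    have h1 : ¬ (p : ℤ) ∣ (1 : ℤ[X]).eval (v : ℤ) := by
      rw [eval_one]
      exact (Nat.prime_iff_prime_int.1 hp).not_dvd_one
    rw [if_neg h1]
    simp
  · subst hr
    rw [if_neg one_ne_zero, l1_prime hp, pow_one]

theorem l1_prodLq {p : ℕ} (hp : p.Prime) {g : ℕ} (x : Fin g → ℤ) :
    ∏ i, Lq p (x i) = if (p : ℤ) ∣ ∏ i, x i then 0 else ((1 - 1 / (p : ℝ))⁻¹) ^ g := by
  have hpz := Nat.prime_iff_prime_int.1 hp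
  by_cases h : (p : ℤ) ∣ ∏ i, x i
  · rw [if_pos h]
    obtain ⟨i, hi, hd⟩ := (hpz.dvd_finset_prod_iff _).1 h
    refine prod_eq_zero hi ?_
    rw [l1_prime hp, if_pos hd]
  · rw [if_neg h]
    have h1 : ∀ i ∈ (univ : Finset (Fin g)), Lq p (x i) = (1 - 1 / (p : ℝ))⁻¹ := by
      intro i hi
      rw [l1_prime hp, if_neg fun hd => h (hd.trans (dvd_prod_of_mem _ hi))]
    rw [prod_congr rfl h1, prod_const, card_univ, Fintype.card_fin]

theorem l1_QQ_eval (B : ℤ[X]) {g : ℕ} (P : Fin g → ℤ[X]) (h : Fin g → ℕ) (v : ℤ) :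
    (QQ B P h).eval v = B.eval v * ∏ i, ((P i).eval v + h i) := by
  unfold QQ fam
  rw [eval_mul, eval_prod]
  simp

/-- Proof. `Lq p m = (1 - 1/p)⁻¹` if `p ∤ m` and `0` otherwise (`φ(p) = p - 1`), so the terms of the sum are `(1 - 1/p)^(-(r+g))` if `p` divides
neither `B(v)` nor any `P_i(v) + h_i`, i.e. if `p ∤ QQ B P h (v)` (for `r = 0`, `B = 1`), and `0` otherwise. -/
theorem af_eq (A r : ℕ) (B : ℤ[X]) (hB : Bas A r B) {g : ℕ} (P : Fin g → ℤ[X]) (p : ℕ) (hp : p.Prime)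
    (h : Fin g → ℕ) :
    af r B P univ p h = (1 - (rootCount (QQ B P h) p : ℝ) / p) * ((1 - 1 / (p : ℝ)) ^ (r + g))⁻¹ := by
  classical
  have hpz := Nat.prime_iff_prime_int.1 hp
  have hp0 : (p : ℝ) ≠ 0 := by exact_mod_cast hp.ne_zero
  have h1 : ∀ v ∈ range p, bL r B p v * ∏ i, Lq p ((P i).eval (v : ℤ) + h i) =
      if (p : ℤ) ∣ (QQ B P h).eval (v : ℤ) then 0 else ((1 - 1 / (p : ℝ)) ^ (r + g))⁻¹ := by
    intro v _
    rw [l1_bL hB hp, l1_prodLq hp, l1_QQ_eval]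
    by_cases ha : (p : ℤ) ∣ B.eval (v : ℤ)
    · rw [if_pos ha, if_pos (ha.mul_right _), zero_mul]
    · by_cases hb : (p : ℤ) ∣ ∏ i, ((P i).eval (v : ℤ) + h i)
      · rw [if_pos hb, if_pos (hb.mul_left _), mul_zero]
      · rw [if_neg ha, if_neg hb, if_neg (fun hc => (hpz.dvd_or_dvd hc).elim ha hb), ← pow_add, inv_pow]
  unfold af
  rw [sum_congr rfl h1, sum_ite, sum_const_zero, zero_add, sum_const, nsmul_eq_mul]
  have h2 : (((range p).filter fun v : ℕ => ¬ (p : ℤ) ∣ (QQ B P h).eval (v : ℤ)).card : ℝ) =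
      p - (rootCount (QQ B P h) p : ℝ) := by
    have h3 := card_filter_add_card_filter_not (s := range p) (fun v : ℕ => (p : ℤ) ∣ (QQ B P h).eval (v : ℤ))
    rw [card_range] at h3
    have h4 : ((rootCount (QQ B P h) p : ℕ) : ℝ) + (((range p).filter fun v : ℕ =>
        ¬ (p : ℤ) ∣ (QQ B P h).eval (v : ℤ)).card : ℝ) = p := by exact_mod_cast h3
    linarith
  rw [h2]
  field_simp

/-- Proof. `af_eq`. -/
theorem ssz_eq (A r : ℕ) (B : ℤ[X]) (hB : Bas A r B) {g : ℕ} (P : Fin g → ℤ[X]) (z : ℕ)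
    (h : Fin g → ℕ) : ssz (r + g) (QQ B P h) z = ∏ p ∈ Nat.primesBelow z, af r B P univ p h := by
  unfold ssz
  refine prod_congr rfl fun p hp => ?_
  exact (af_eq A r B hB P p (Nat.prime_of_mem_primesBelow hp) h).symm

theorem l1_Lq_prod (T : Finset ℕ) (hT : ∀ p ∈ T, p.Prime) (m : ℤ) :
    Lq (∏ p ∈ T, p) m = ∏ p ∈ T, Lq p m := by
  classical
  induction T using Finset.induction_on with
  | empty =>
    unfold Lq
    simp [isCoprime_one_right]
  | insert p s hp ih =>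
    rw [prod_insert hp, prod_insert hp, ← ih fun q hq => hT q (mem_insert_of_mem hq)]
    have hpp : p.Prime := hT p (mem_insert_self _ _)
    have hcop : p.Coprime (∏ q ∈ s, q) := by
      refine Nat.Coprime.prod_right fun q hq => ?_
      refine (Nat.coprime_primes hpp (hT q (mem_insert_of_mem hq))).mpr ?_
      rintro rfl
      exact hp hq
    unfold Lq
    have h1 : IsCoprime m ((p * ∏ q ∈ s, q : ℕ) : ℤ) ↔ IsCoprime m (p : ℤ) ∧ IsCoprime m ((∏ q ∈ s, q : ℕ) : ℤ) := by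
      rw [Nat.cast_mul]
      exact IsCoprime.mul_right_iff
    by_cases ha : IsCoprime m (p : ℤ)
    · by_cases hb : IsCoprime m ((∏ q ∈ s, q : ℕ) : ℤ)
      · rw [if_pos (h1.2 ⟨ha, hb⟩), if_pos ha, if_pos hb, Nat.totient_mul hcop, Nat.cast_mul, Nat.cast_mul,
          mul_div_mul_comm]
      · rw [if_neg (fun hc => hb (h1.1 hc).2), if_neg hb, mul_zero]
    · rw [if_neg (fun hc => ha (h1.1 hc).1), if_neg ha, zero_mul]

theorem l1_eval_mod (Q : ℤ[X]) (p N : ℕ) : (p : ℤ) ∣ Q.eval ((N % p : ℕ) : ℤ) - Q.eval (N : ℤ) := by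
  have h1 : (p : ℤ) ∣ ((N % p : ℕ) : ℤ) - N := Nat.modEq_iff_dvd.1 (Nat.mod_modEq N p).symm
  exact h1.trans (Polynomial.sub_dvd_eval_sub _ _ _)

/-- The mean value of the model is the product of its local factors.

Proof. For squarefree `q`: `Lq q m = ∏_{p ∣ q} Lq p m` (`IsCoprime m q` iff `p ∤ m` for all `p ∣ q`; `q/φ(q) = ∏ p/(p-1)`). Hence
`Lw (u i) m = ∏_{p < u i} Lq p m` and the summand of `mixv` is `∏_{p < U} ψ_p(v)` with
`ψ_p(v) = bL r B p v · ∏_{i : p < u i} Lq p (P_i(v) + h_i)` (as `u i ≤ U`), which depends only on `v` modulo `p`. The mean over `v mod PW U` of the product is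
the product of the means (`H33B.SR2_crt`, or `mean_prod` with `g = 1`). -/
theorem mixv_eq (A r : ℕ) (B : ℤ[X]) (hB : Bas A r B) {g : ℕ} (P : Fin g → ℤ[X]) (u : Fin g → ℕ)
    (U : ℕ) (hu : ∀ i, u i ≤ U) (h : Fin g → ℕ) :
    mixv r B P u U h =
      ∏ p ∈ Nat.primesBelow U, af r B P (univ.filter fun i => p < u i) p h := by
  classical
  have hT : ∀ p ∈ Nat.primesBelow U, p.Prime := fun p hp => Nat.prime_of_mem_primesBelow hp
  have h1 : ∀ v ∈ range (PW U), bL r B (PW U) v * ∏ i, Lw (u i) ((P i).eval (v : ℤ) + h i) =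
      ∏ p ∈ Nat.primesBelow U, (bL r B p v * ∏ i ∈ univ.filter fun i => p < u i, Lq p ((P i).eval (v : ℤ) + h i)) := by
    intro v _
    rw [prod_mul_distrib]
    congr 1
    · unfold bL
      split_ifs
      · rw [prod_const_one]
      · exact l1_Lq_prod _ hT _
    · have h2 : ∀ i ∈ (univ : Finset (Fin g)), Lw (u i) ((P i).eval (v : ℤ) + h i) =
          ∏ p ∈ Nat.primesBelow U, if p < u i then Lq p ((P i).eval (v : ℤ) + h i) else 1 := by
        intro i _
        have h3 : Nat.primesBelow (u i) = (Nat.primesBelow U).filter (fun p => p < u i) := by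
          ext p
          rw [mem_filter, Nat.mem_primesBelow, Nat.mem_primesBelow]
          constructor
          · rintro ⟨ha, hb⟩
            exact ⟨⟨lt_of_lt_of_le ha (hu i), hb⟩, ha⟩
          · rintro ⟨⟨-, hb⟩, hc⟩
            exact ⟨hc, hb⟩
        unfold Lw PW
        rw [l1_Lq_prod _ (fun p hp => Nat.prime_of_mem_primesBelow hp), h3, prod_filter]
      rw [prod_congr rfl h2, prod_comm]
      refine prod_congr rfl fun p _ => ?_
      rw [prod_filter]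
  unfold mixv
  rw [sum_congr rfl h1]
  have h4 := Pool.Agent.Lib.H33B.SR2_crt (Nat.primesBelow U) hT
    (fun p v => bL r B p v * ∏ i ∈ univ.filter fun i => p < u i, Lq p ((P i).eval (v : ℤ) + h i)) (by
      intro p N
      congr 1
      · unfold bL
        split_ifs
        · rfl
        · exact l1_congr p (l1_eval_mod B p N)
      · refine prod_congr rfl fun i _ => ?_
        refine l1_congr p ?_
        have e : (P i).eval ((N % p : ℕ) : ℤ) + h i - ((P i).eval (N : ℤ) + h i) =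
            (P i).eval ((N % p : ℕ) : ℤ) - (P i).eval (N : ℤ) := by ring
        rw [e]
        exact l1_eval_mod (P i) p N)
  have h5 : (PW U : ℝ) = ∏ p ∈ Nat.primesBelow U, (p : ℝ) := by
    unfold PW
    rw [Nat.cast_prod]
  have h6 : PW U = ∏ p ∈ Nat.primesBelow U, p := rfl
  rw [h5, h6, h4, ← prod_div_distrib]
  rfl

end Pool.Agent.Lib.H59X
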