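import Pool.Agent.Lib.H59X.L2A

/-!
# Chunk L2B: second moments of the local factors
-/

open Finset Polynomial

namespace Pool.Agent.Lib.H59X

open Pool.Agent.Lib.H59 (argSet argCount Admissible primeCount omegaN seriesTrunc rootCount)
open Pool.Agent.Lib.H68T (lp)
open Pool.Agent.Lib.H33B (Lq Lw PW SieveWt)

theorem l2b_roots {f : ℤ[X]} {p : ℕ} (hp : p.Prime) (hl : ¬ (p : ℤ) ∣ f.leadingCoeff) :
    rootCount f p ≤ f.natDegree := by
  classical
  have : Fact p.Prime := ⟨hp⟩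
  set g := f.map (Int.castRingHom (ZMod p)) with hg
  have hg0 : g ≠ 0 := by
    intro h
    have := congrArg (fun q => q.coeff f.natDegree) h
    simp only [hg, coeff_map, coeff_zero, eq_intCast] at this
    exact hl ((ZMod.intCast_zmod_eq_zero_iff_dvd _ _).mp this)
  have h1 : rootCount f p ≤ g.roots.toFinset.card := by
    unfold rootCount
    refine Finset.card_le_card_of_injOn (fun a : ℕ => (a : ZMod p)) ?_ ?_
    · intro a ha
      rw [Finset.mem_coe, Finset.mem_filter] at ha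
      rw [Finset.mem_coe, Multiset.mem_toFinset, mem_roots hg0, IsRoot.def, hg]
      have h2 : ((f.eval (a : ℤ) : ℤ) : ZMod p) = 0 :=
        (ZMod.intCast_zmod_eq_zero_iff_dvd _ _).mpr ha.2
      rw [eval_map, eval₂_eq_eval_map] at *
      have h3 := eval_intCast_map (Int.castRingHom (ZMod p)) f (a : ℤ)
      simp only [Int.cast_natCast, eq_intCast] at h3
      rw [h3]
      exact h2
    · intro a ha b hb hab
      rw [Finset.mem_coe, Finset.mem_filter, Finset.mem_range] at ha hb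
      have := (ZMod.natCast_eq_natCast_iff' a b p).mp hab
      rwa [Nat.mod_eq_of_lt ha.1, Nat.mod_eq_of_lt hb.1] at this
  refine h1.trans ((Multiset.toFinset_card_le _).trans ((card_roots' g).trans ?_))
  rw [hg]
  exact natDegree_map_le

theorem l2b_L {p : ℕ} (hp : p.Prime) : (1 - 1 / (p : ℝ))⁻¹ = p / ((p : ℝ) - 1) := by
  have h0 : (p : ℝ) ≠ 0 := by exact_mod_cast hp.ne_zero
  have h1 : (p : ℝ) - 1 ≠ 0 := by
    have : (1 : ℝ) < p := by exact_mod_cast hp.one_lt
    linarith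
  have e : (1 - 1 / (p : ℝ)) = (p - 1) / p := by field_simp
  rw [e, inv_div]

theorem l2b_L_le {p : ℕ} (hp : p.Prime) : (1 - 1 / (p : ℝ))⁻¹ - 1 ≤ 2 / p := by
  have h2 : (2 : ℝ) ≤ p := by exact_mod_cast hp.two_le
  rw [l2b_L hp]
  have h3 : (0 : ℝ) < p - 1 := by linarith
  have e : (p : ℝ) / (p - 1) - 1 = 1 / (p - 1) := by field_simp; ring
  rw [e, div_le_div_iff₀ h3 (by linarith)]
  linarith

theorem l2b_L_one {p : ℕ} (hp : p.Prime) : 1 ≤ (1 - 1 / (p : ℝ))⁻¹ := by
  have h2 : (2 : ℝ) ≤ p := by exact_mod_cast hp.two_le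
  rw [l2b_L hp, one_le_div (by linarith)]
  linarith

theorem l2b_L_two {p : ℕ} (hp : p.Prime) : (1 - 1 / (p : ℝ))⁻¹ ≤ 2 := by
  have h2 : (2 : ℝ) ≤ p := by exact_mod_cast hp.two_le
  have h := l2b_L_le hp
  have h3 : 2 / (p : ℝ) ≤ 1 := by
    rw [div_le_one (by linarith)]
    exact h2
  linarith

theorem l2b_pow {p : ℕ} (hp : p.Prime) (n : ℕ) :
    ((1 - 1 / (p : ℝ))⁻¹) ^ n - 1 ≤ n * 2 ^ n * ((1 - 1 / (p : ℝ))⁻¹ - 1) := by
  have h1 := l2b_L_one hp
  have h2 := l2b_L_two hp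
  set L := (1 - 1 / (p : ℝ))⁻¹
  induction n with
  | zero => simp
  | succ n ih =>
    have e : L ^ (n + 1) - 1 = L * (L ^ n - 1) + (L - 1) := by ring
    rw [e]
    have h3 : 0 ≤ L ^ n - 1 := sub_nonneg.2 (one_le_pow₀ h1)
    have h4 : L * (L ^ n - 1) ≤ 2 * (n * 2 ^ n * (L - 1)) := mul_le_mul h2 ih h3 (by norm_num)
    have h5 : (L - 1) ≤ 2 ^ (n + 1) * (L - 1) :=
      le_mul_of_one_le_left (by linarith) (one_le_pow₀ (by norm_num))
    refine (add_le_add h4 h5).trans (le_of_eq ?_)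
    push_cast
    ring

/-- The mean over `c` of `Lq (x + c) Lq (y + c)`, `x ≡ y`. -/
theorem l2b_same {p : ℕ} (hp : p.Prime) {x y : ℤ} (h : (p : ℤ) ∣ x - y) :
    ∑ c ∈ range p, Lq p (x + c) * Lq p (y + c) = (1 - 1 / (p : ℝ))⁻¹ * p := by
  have h1 : ∀ c ∈ range p, Lq p (x + c) * Lq p (y + c) = (1 - 1 / (p : ℝ))⁻¹ * Lq p (x + c) := by
    intro c _
    have h2 : Lq p (y + c) = Lq p (x + c) := by
      refine l1_congr p ?_
      have e : y + (c : ℤ) - (x + c) = -(x - y) := by ring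
      rw [e]
      exact (dvd_neg).2 h
    rw [h2, l1_prime hp]
    split_ifs <;> simp
  rw [sum_congr rfl h1, ← mul_sum, l2a_sum hp]

/-- The mean over `c` of `Lq (x + c) Lq (y + c)`, `x ≢ y`. -/
theorem l2b_diff {p : ℕ} (hp : p.Prime) {x y : ℤ} (h : ¬ (p : ℤ) ∣ x - y) :
    ∑ c ∈ range p, Lq p (x + c) * Lq p (y + c) ≤ p := by
  classical
  have h0 : (0 : ℝ) < p := by exact_mod_cast hp.pos
  have h1 : (0 : ℝ) < (p : ℝ) - 1 := by
    have : (1 : ℝ) < p := by exact_mod_cast hp.one_lt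
    linarith
  -- `Lq x + Lq y - L ≤ Lq x Lq y / L`, with equality since the two do not vanish together
  have key : ∀ c ∈ range p, Lq p (x + c) * Lq p (y + c) =
      (1 - 1 / (p : ℝ))⁻¹ * (Lq p (x + c) + Lq p (y + c) - (1 - 1 / (p : ℝ))⁻¹) := by
    intro c _
    rw [l1_prime hp, l1_prime hp]
    by_cases hx : (p : ℤ) ∣ x + c
    · have hy : ¬ (p : ℤ) ∣ y + c := by
        intro hy
        refine h ?_
        have e : x - y = (x + c) - (y + c) := by ring
        rw [e]
        exact dvd_sub hx hy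
      rw [if_pos hx, if_neg hy]
      ring
    · by_cases hy : (p : ℤ) ∣ y + c
      · rw [if_neg hx, if_pos hy]
        ring
      · rw [if_neg hx, if_neg hy]
        ring
  rw [sum_congr rfl key, ← mul_sum, sum_sub_distrib, sum_add_distrib, l2a_sum hp, l2a_sum hp, sum_const,
    card_range, nsmul_eq_mul, l2b_L hp]
  have e : (p : ℝ) / (p - 1) * (p + p - p * (p / (p - 1))) = p * (1 - 1 / (p - 1) ^ 2) := by
    field_simp
    ring
  rw [e]
  have h3 : (0 : ℝ) ≤ 1 / ((p : ℝ) - 1) ^ 2 := by positivity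
  nlinarith

/-- Proof. `p² · mean (af²) = ∑_{v,v'} bL(v) bL(v') ∏_{i ∈ I} m_i(v, v')`, `m_i` the mean over `c mod p` of `Lq p (P_i(v) + c) Lq p (P_i(v') + c)`; this is
`(p/(p-1))² (p-2)/p ≤ 1` if `P_i(v) ≢ P_i(v')` and `p/(p-1) ≤ 2` if `P_i(v) ≡ P_i(v')` modulo `p`. The pairs `(v, v')` of the second kind for at least one `i ∈ I` are
at most `g A p` (for given `v'` the polynomial `P_i - P_i(v')` is not zero modulo `p`, as `p > A ≥ |lc|`, so it has at most `A` roots); for them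
the product is at most `(p/(p-1))^g ≤ 1 + g 2^g/p` (`p/(p-1) = 1 + 1/(p-1) ≤ 1 + 2/p`, `(1 + x)^g ≤ 1 + g 2^(g-1) x` for `0 ≤ x ≤ 1`), for all others at most `1`.
Hence the sum is at most `∑_{v,v'} bL(v) bL(v') + g A p · 4 · g 2^g/p` and `∑_v bL(v) = p` (as in `af_mean`). -/
theorem af_sq (g A : ℕ) : ∃ C : ℝ, 0 < C ∧ ∀ P : Fin g → ℤ[X], Pol A P → ∀ (r : ℕ) (B : ℤ[X]),
    Bas A r B → ∀ p : ℕ, p.Prime → A < p → ∀ I : Finset (Fin g),
    mean p (fun h => af r B P I p h ^ 2) ≤ 1 + C / (p : ℝ) ^ 2 := by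
  classical
  refine ⟨8 * (g : ℝ) ^ 2 * 2 ^ g * A + 1, by positivity, ?_⟩
  intro P hP r B hB p hp hA I
  have hp0 : (0 : ℝ) < p := by exact_mod_cast hp.pos
  have hpz := Nat.prime_iff_prime_int.1 hp
  have hLone := l2b_L_one hp
  have hLtwo := l2b_L_two hp
  set L := (1 - 1 / (p : ℝ))⁻¹ with hL
  -- the bad pairs
  let bad : ℕ → ℕ → Prop := fun v w => ∃ i ∈ I, (p : ℤ) ∣ (P i).eval (v : ℤ) - (P i).eval (w : ℤ)
  let m : Fin g → ℕ → ℕ → ℝ := fun i v w =>
    (∑ c ∈ range p, Lq p ((P i).eval (v : ℤ) + (c : ℕ)) * Lq p ((P i).eval (w : ℤ) + (c : ℕ))) / p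
  have hm0 : ∀ i v w, 0 ≤ m i v w := fun i v w =>
    div_nonneg (sum_nonneg fun c _ => mul_nonneg (l1_Lq_nonneg _ _) (l1_Lq_nonneg _ _)) hp0.le
  have hm1 : ∀ i v w, m i v w ≤ L := by
    intro i v w
    by_cases h : (p : ℤ) ∣ (P i).eval (v : ℤ) - (P i).eval (w : ℤ)
    · have e : m i v w = L := by
        show (∑ c ∈ range p, Lq p ((P i).eval (v : ℤ) + (c : ℕ)) * Lq p ((P i).eval (w : ℤ) + (c : ℕ))) / p = L
        rw [l2b_same hp h, ← hL]
        field_simp
      exact e.le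
    · have h2 : m i v w ≤ 1 := by
        show (∑ c ∈ range p, Lq p ((P i).eval (v : ℤ) + (c : ℕ)) * Lq p ((P i).eval (w : ℤ) + (c : ℕ))) / p ≤ 1
        rw [div_le_one hp0]
        exact l2b_diff hp h
      exact h2.trans hLone
  have hm2 : ∀ i (v w : ℕ), ¬ (p : ℤ) ∣ (P i).eval (v : ℤ) - (P i).eval (w : ℤ) → m i v w ≤ 1 := by
    intro i v w h
    show (∑ c ∈ range p, Lq p ((P i).eval (v : ℤ) + (c : ℕ)) * Lq p ((P i).eval (w : ℤ) + (c : ℕ))) / p ≤ 1
    rw [div_le_one hp0]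
    exact l2b_diff hp h
  have hprod : ∀ v w, ∏ i ∈ I, m i v w ≤ 1 + if bad v w then L ^ g - 1 else 0 := by
    intro v w
    by_cases hb : bad v w
    · rw [if_pos hb]
      have h1 : ∏ i ∈ I, m i v w ≤ L ^ I.card := by
        rw [← prod_const]
        exact prod_le_prod (fun i _ => hm0 i v w) fun i _ => hm1 i v w
      have h2 : L ^ I.card ≤ L ^ g := by
        refine pow_le_pow_right₀ hLone ?_
        have := card_le_univ I
        rwa [Fintype.card_fin] at this
      linarith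
    · rw [if_neg hb, add_zero]
      refine prod_le_one (fun i _ => hm0 i v w) fun i hi => hm2 i v w fun hd => hb ⟨i, hi, hd⟩
  -- the mean as a double sum
  have hmean : mean p (fun h => af r B P I p h ^ 2) =
      (∑ v ∈ range p, ∑ w ∈ range p, bL r B p v * bL r B p w * ∏ i ∈ I, m i v w) / (p : ℝ) ^ 2 := by
    have e1 : ∀ h : Fin g → ℕ, af r B P I p h ^ 2 = (∑ v ∈ range p, ∑ w ∈ range p, bL r B p v * bL r B p w *
        ∏ i ∈ I, (Lq p ((P i).eval (v : ℤ) + h i) * Lq p ((P i).eval (w : ℤ) + h i))) / (p : ℝ) ^ 2 := by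
      intro h
      unfold af
      rw [div_pow, sq (∑ v ∈ range p, _), sum_mul_sum]
      congr 1
      refine sum_congr rfl fun v _ => sum_congr rfl fun w _ => ?_
      rw [prod_mul_distrib]
      ring
    have e2 : ∀ v w : ℕ, ∑ h ∈ cube g p, ∏ i ∈ I, (Lq p ((P i).eval (v : ℤ) + h i) *
        Lq p ((P i).eval (w : ℤ) + h i)) = (p : ℝ) ^ g * ∏ i ∈ I, m i v w := by
      intro v w
      have e3 : ∀ h ∈ cube g p, ∏ i ∈ I, (Lq p ((P i).eval (v : ℤ) + h i) * Lq p ((P i).eval (w : ℤ) + h i)) =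
          ∏ i, (if i ∈ I then Lq p ((P i).eval (v : ℤ) + h i) * Lq p ((P i).eval (w : ℤ) + h i) else 1) := by
        intro h _
        rw [prod_ite_mem, univ_inter]
      rw [sum_congr rfl e3]
      unfold cube
      rw [← prod_univ_sum (fun _ : Fin g => range p)
        (fun i c => if i ∈ I then Lq p ((P i).eval (v : ℤ) + (c : ℕ)) * Lq p ((P i).eval (w : ℤ) + (c : ℕ)) else 1)]
      have e4 : ∀ i ∈ (univ : Finset (Fin g)), ∑ c ∈ range p, (if i ∈ I then
          Lq p ((P i).eval (v : ℤ) + (c : ℕ)) * Lq p ((P i).eval (w : ℤ) + (c : ℕ)) else 1) =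
          (p : ℝ) * (if i ∈ I then m i v w else 1) := by
        intro i _
        by_cases hi : i ∈ I
        · simp only [if_pos hi]
          show _ = (p : ℝ) * ((∑ c ∈ range p, Lq p ((P i).eval (v : ℤ) + (c : ℕ)) *
            Lq p ((P i).eval (w : ℤ) + (c : ℕ))) / p)
          field_simp
        · simp only [if_neg hi]
          simp
      rw [prod_congr rfl e4, prod_mul_distrib, prod_const, card_univ, Fintype.card_fin, prod_ite_mem, univ_inter]
    unfold mean
    rw [sum_congr rfl fun h _ => e1 h, ← sum_div, sum_comm]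
    have e5 : ∀ v ∈ range p, ∑ h ∈ cube g p, ∑ w ∈ range p, bL r B p v * bL r B p w *
        ∏ i ∈ I, (Lq p ((P i).eval (v : ℤ) + h i) * Lq p ((P i).eval (w : ℤ) + h i)) =
        (p : ℝ) ^ g * ∑ w ∈ range p, bL r B p v * bL r B p w * ∏ i ∈ I, m i v w := by
      intro v _
      rw [sum_comm, mul_sum]
      refine sum_congr rfl fun w _ => ?_
      rw [← mul_sum, e2]
      ring
    rw [sum_congr rfl e5, ← mul_sum]
    have hpg : (p : ℝ) ^ g ≠ 0 := pow_ne_zero _ hp0.ne'
    field_simp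
  -- the number of bad pairs
  have hcount : ∀ w : ℕ, (((range p).filter fun v => bad v w).card : ℝ) ≤ g * A := by
    intro w
    have h1 : (range p).filter (fun v => bad v w) ⊆
        I.biUnion fun i => (range p).filter fun v : ℕ => (p : ℤ) ∣ (P i - C ((P i).eval (w : ℤ))).eval (v : ℤ) := by
      intro v hv
      rw [mem_filter] at hv
      obtain ⟨hv1, i, hi, hd⟩ := hv
      rw [mem_biUnion]
      refine ⟨i, hi, mem_filter.2 ⟨hv1, ?_⟩⟩
      rw [eval_sub, eval_C]
      exact hd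
    have h2 : ∀ i ∈ I, ((range p).filter fun v : ℕ =>
        (p : ℤ) ∣ (P i - C ((P i).eval (w : ℤ))).eval (v : ℤ)).card ≤ A := by
      intro i _
      have hd : (P i - C ((P i).eval (w : ℤ))).natDegree = (P i).natDegree := natDegree_sub_C
      have hlc : (P i - C ((P i).eval (w : ℤ))).leadingCoeff = (P i).leadingCoeff := by
        unfold leadingCoeff
        rw [hd, coeff_sub, coeff_C, if_neg (by have := hP.deg i; omega), sub_zero]
      have hne : (P i).leadingCoeff ≠ 0 := by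
        intro h
        rw [leadingCoeff_eq_zero] at h
        have := hP.deg i
        rw [h] at this
        simp at this
      have hnd : ¬ (p : ℤ) ∣ (P i - C ((P i).eval (w : ℤ))).leadingCoeff := by
        rw [hlc, Int.natCast_dvd]
        intro hdv
        have h3 := Nat.le_of_dvd (Int.natAbs_pos.2 hne) hdv
        have h4 := hP.lc i
        omega
      exact (l2b_roots hp hnd).trans (hd.le.trans (hP.degA i))
    have h3 : ((range p).filter fun v => bad v w).card ≤ g * A := by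
      refine (card_le_card h1).trans (card_biUnion_le.trans ((sum_le_card_nsmul _ _ _ h2).trans ?_))
      rw [smul_eq_mul]
      refine Nat.mul_le_mul_right _ ?_
      have := card_le_univ I
      rwa [Fintype.card_fin] at this
    exact_mod_cast h3
  have hLg : L ^ g - 1 ≤ g * 2 ^ g * (2 / p) := by
    refine (l2b_pow hp g).trans ?_
    exact mul_le_mul_of_nonneg_left (l2b_L_le hp) (by positivity)
  have hLg0 : 0 ≤ L ^ g - 1 := sub_nonneg.2 (one_le_pow₀ hLone)
  -- conclusion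
  rw [hmean, div_le_iff₀ (by positivity)]
  have f1 : ∀ v ∈ range p, ∀ w ∈ range p, bL r B p v * bL r B p w * ∏ i ∈ I, m i v w ≤
      bL r B p v * bL r B p w + (if bad v w then 4 * (L ^ g - 1) else 0) := by
    intro v _ w _
    have hb0 := mul_nonneg (l1_bL_nonneg r B p v) (l1_bL_nonneg r B p w)
    have hb4 : bL r B p v * bL r B p w ≤ 4 := by
      have := mul_le_mul (l2a_bL_le hp r B v) (l2a_bL_le hp r B w) (l1_bL_nonneg r B p w) (by norm_num)
      linarith
    refine (mul_le_mul_of_nonneg_left (hprod v w) hb0).trans ?_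
    by_cases hb : bad v w
    · rw [if_pos hb, if_pos hb]
      nlinarith
    · rw [if_neg hb, if_neg hb]
      simp
  refine (sum_le_sum fun v hv => sum_le_sum fun w hw => f1 v hv w hw).trans ?_
  have f2 : ∑ v ∈ range p, ∑ w ∈ range p, (bL r B p v * bL r B p w + (if bad v w then 4 * (L ^ g - 1) else 0)) =
      (∑ v ∈ range p, bL r B p v) * (∑ w ∈ range p, bL r B p w) +
      ∑ w ∈ range p, (((range p).filter fun v => bad v w).card : ℝ) * (4 * (L ^ g - 1)) := by
    rw [sum_mul_sum, sum_congr rfl fun v _ => sum_add_distrib, sum_add_distrib]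
    congr 1
    rw [sum_comm]
    refine sum_congr rfl fun w _ => ?_
    rw [← sum_filter, sum_const, nsmul_eq_mul]
  rw [f2, l2a_bLsum hB hp hA]
  have f3 : ∑ w ∈ range p, (((range p).filter fun v => bad v w).card : ℝ) * (4 * (L ^ g - 1)) ≤
      p * ((g * A) * (4 * (g * 2 ^ g * (2 / p)))) := by
    have : ∀ w ∈ range p, (((range p).filter fun v => bad v w).card : ℝ) * (4 * (L ^ g - 1)) ≤
        (g * A) * (4 * (g * 2 ^ g * (2 / p))) := by
      intro w _
      exact mul_le_mul (hcount w) (mul_le_mul_of_nonneg_left hLg (by norm_num)) (by positivity) (by positivity)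
    refine (sum_le_sum this).trans ?_
    rw [sum_const, card_range, nsmul_eq_mul]
  have e : (1 + (8 * (g : ℝ) ^ 2 * 2 ^ g * A + 1) / (p : ℝ) ^ 2) * (p : ℝ) ^ 2 =
      p * p + (8 * (g : ℝ) ^ 2 * 2 ^ g * A + 1) := by
    field_simp
  have e2 : (p : ℝ) * ((g * A) * (4 * (g * 2 ^ g * (2 / p)))) = 8 * (g : ℝ) ^ 2 * 2 ^ g * A := by
    field_simp
    ring
  rw [e]
  rw [e2] at f3
  linarith

end Pool.Agent.Lib.H59X
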