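import Pool.Agent.Lib.H59X.L1

/-!
# Chunk L2C: the local factors are close to one
-/

open Finset Polynomial

namespace Pool.Agent.Lib.H59X

open Pool.Agent.Lib.H59 (argSet argCount Admissible primeCount omegaN seriesTrunc rootCount)
open Pool.Agent.Lib.H68T (lp)
open Pool.Agent.Lib.H33B (Lq Lw PW SieveWt)

theorem l2c_roots {f : ℤ[X]} {p : ℕ} (hp : p.Prime) (hl : ¬ (p : ℤ) ∣ f.leadingCoeff) :
    rootCount f p ≤ f.natDegree := by
  classical
  have : Fact p.Prime := ⟨hp⟩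
  set g := f.map (Int.castRingHom (ZMod p)) with hg
  have hg0 : g ≠ 0 := by
    intro h
    have := congrArg (fun q => q.coeff f.natDegree) h
    simp only [hg, coeff_map, coeff_zero, eq_intCast] at this
    exact hl ((ZMod.intCast_zmod_eq_zero_iff_dvd _ _).mp this)
  have h1 : rootCount f p ≤ g.roots.toFinset.card := by
    unfold rootCount
    refine Finset.card_le_card_of_injOn (fun a : ℕ => (a : ZMod p)) ?_ ?_
    · intro a ha
      rw [Finset.mem_coe, Finset.mem_filter] at ha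
      rw [Finset.mem_coe, Multiset.mem_toFinset, mem_roots hg0, IsRoot.def, hg]
      have h2 : ((f.eval (a : ℤ) : ℤ) : ZMod p) = 0 :=
        (ZMod.intCast_zmod_eq_zero_iff_dvd _ _).mpr ha.2
      rw [eval_map, eval₂_eq_eval_map] at *
      have h3 := eval_intCast_map (Int.castRingHom (ZMod p)) f (a : ℤ)
      simp only [Int.cast_natCast, eq_intCast] at h3
      rw [h3]
      exact h2
    · intro a ha b hb hab
      rw [Finset.mem_coe, Finset.mem_filter, Finset.mem_range] at ha hb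
      have := (ZMod.natCast_eq_natCast_iff' a b p).mp hab
      rwa [Nat.mod_eq_of_lt ha.1, Nat.mod_eq_of_lt hb.1] at this
  refine h1.trans ((Multiset.toFinset_card_le _).trans ((card_roots' g).trans ?_))
  rw [hg]
  exact natDegree_map_le

theorem l2c_L {p : ℕ} (hp : p.Prime) : (1 - 1 / (p : ℝ))⁻¹ = p / ((p : ℝ) - 1) := by
  have h0 : (p : ℝ) ≠ 0 := by exact_mod_cast hp.ne_zero
  have h1 : (p : ℝ) - 1 ≠ 0 := by
    have : (1 : ℝ) < p := by exact_mod_cast hp.one_lt
    linarith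
  have e : (1 - 1 / (p : ℝ)) = (p - 1) / p := by field_simp
  rw [e, inv_div]

theorem l2c_L_le {p : ℕ} (hp : p.Prime) : (1 - 1 / (p : ℝ))⁻¹ - 1 ≤ 2 / p := by
  have h2 : (2 : ℝ) ≤ p := by exact_mod_cast hp.two_le
  rw [l2c_L hp]
  have h3 : (0 : ℝ) < p - 1 := by linarith
  have e : (p : ℝ) / (p - 1) - 1 = 1 / (p - 1) := by field_simp; ring
  rw [e, div_le_div_iff₀ h3 (by linarith)]
  linarith

theorem l2c_L_one {p : ℕ} (hp : p.Prime) : 1 ≤ (1 - 1 / (p : ℝ))⁻¹ := by
  have h2 : (2 : ℝ) ≤ p := by exact_mod_cast hp.two_le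
  rw [l2c_L hp, one_le_div (by linarith)]
  linarith

theorem l2c_L_two {p : ℕ} (hp : p.Prime) : (1 - 1 / (p : ℝ))⁻¹ ≤ 2 := by
  have h2 : (2 : ℝ) ≤ p := by exact_mod_cast hp.two_le
  have h := l2c_L_le hp
  have h3 : 2 / (p : ℝ) ≤ 1 := by
    rw [div_le_one (by linarith)]
    exact h2
  linarith

theorem l2c_pow {p : ℕ} (hp : p.Prime) (n : ℕ) :
    ((1 - 1 / (p : ℝ))⁻¹) ^ n - 1 ≤ n * 2 ^ n * ((1 - 1 / (p : ℝ))⁻¹ - 1) := by
  have h1 := l2c_L_one hp
  have h2 := l2c_L_two hp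
  set L := (1 - 1 / (p : ℝ))⁻¹
  induction n with
  | zero => simp
  | succ n ih =>
    have e : L ^ (n + 1) - 1 = L * (L ^ n - 1) + (L - 1) := by ring
    rw [e]
    have h3 : 0 ≤ L ^ n - 1 := sub_nonneg.2 (one_le_pow₀ h1)
    have h4 : L * (L ^ n - 1) ≤ 2 * (n * 2 ^ n * (L - 1)) := mul_le_mul h2 ih h3 (by norm_num)
    have h5 : (L - 1) ≤ 2 ^ (n + 1) * (L - 1) :=
      le_mul_of_one_le_left (by linarith) (one_le_pow₀ (by norm_num))
    refine (add_le_add h4 h5).trans (le_of_eq ?_)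
    push_cast
    ring

/-- Proof. `af_eq`; `QQ B P h` has at most `ρ ≤ 1 + g A` roots modulo `p > A` (`H59.rootCount_mul_le`, `H59.rootCount_prod_le`; none of the factors vanishes modulo
`p`). `|(1 - ρ/p)(1 - 1/p)^(-m) - 1| ≤ |(1 - 1/p)^(-m) - 1| + (ρ/p) 2^m ≤ m 2^m/p + ρ 2^m/p`, `m = r + g ≤ g + 1` (`(1 - 1/p)^(-1) = 1 + 1/(p-1) ≤ 1 + 2/p`). -/
theorem af_close (g A : ℕ) : ∃ C : ℝ, 0 < C ∧ ∀ P : Fin g → ℤ[X], Pol A P → ∀ (r : ℕ) (B : ℤ[X]),
    Bas A r B → ∀ p : ℕ, p.Prime → A < p → ∀ h : Fin g → ℕ, |af r B P univ p h - 1| ≤ C / p := by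
  classical
  refine ⟨(g + 1 : ℝ) * 2 ^ (g + 1) * 2 + (1 + g * A) * 2 ^ (g + 1), by positivity, ?_⟩
  intro P hP r B hB p hp hA h
  have hp0 : (0 : ℝ) < p := by exact_mod_cast hp.pos
  have hLone := l2c_L_one hp
  have hLtwo := l2c_L_two hp
  have hroot : rootCount (QQ B P h) p ≤ 1 + g * A := by
    unfold QQ
    refine (Pool.Agent.Lib.H59.rootCount_mul_le _ _ hp).trans (add_le_add ?_ ?_)
    · rcases hB with ⟨-, hB1⟩ | ⟨-, hd, hl⟩
      · subst hB1
        refine (l2c_roots hp ?_).trans ?_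
        · rw [leadingCoeff_one]
          exact (Nat.prime_iff_prime_int.1 hp).not_dvd_one
        · simp
      · refine (l2c_roots hp ?_).trans hd.le
        have hne : B.leadingCoeff ≠ 0 := by
          intro h0
          rw [leadingCoeff_eq_zero] at h0
          rw [h0] at hd
          simp at hd
        rw [Int.natCast_dvd]
        intro hdv
        have h3 := Nat.le_of_dvd (Int.natAbs_pos.2 hne) hdv
        omega
    · refine (Pool.Agent.Lib.H59.rootCount_prod_le _ _ hp).trans ?_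
      have h2 : ∀ i ∈ (univ : Finset (Fin g)), rootCount (fam P h i) p ≤ A := by
        intro i _
        unfold fam
        have hd : (P i + C (h i : ℤ)).natDegree = (P i).natDegree := natDegree_add_C
        have hlc : (P i + C (h i : ℤ)).leadingCoeff = (P i).leadingCoeff := by
          unfold leadingCoeff
          rw [hd, coeff_add, coeff_C, if_neg (by have := hP.deg i; omega), add_zero]
        have hne : (P i).leadingCoeff ≠ 0 := by
          intro h0
          rw [leadingCoeff_eq_zero] at h0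
          have := hP.deg i
          rw [h0] at this
          simp at this
        have hnd : ¬ (p : ℤ) ∣ (P i + C (h i : ℤ)).leadingCoeff := by
          rw [hlc, Int.natCast_dvd]
          intro hdv
          have h3 := Nat.le_of_dvd (Int.natAbs_pos.2 hne) hdv
          have h4 := hP.lc i
          omega
        exact (l2c_roots hp hnd).trans (hd.le.trans (hP.degA i))
      refine (sum_le_card_nsmul _ _ _ h2).trans ?_
      rw [card_univ, Fintype.card_fin, smul_eq_mul]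
  rw [af_eq A r B hB P p hp h]
  have hinv : ((1 - 1 / (p : ℝ)) ^ (r + g))⁻¹ = ((1 - 1 / (p : ℝ))⁻¹) ^ (r + g) := by rw [inv_pow]
  rw [hinv]
  have hr : r ≤ 1 := by
    rcases hB with ⟨h1, -⟩ | ⟨h1, -, -⟩ <;> omega
  have hpow := l2c_pow hp (r + g)
  have hLle := l2c_L_le hp
  set L := (1 - 1 / (p : ℝ))⁻¹ with hL
  have hm0 : 0 ≤ L ^ (r + g) - 1 := sub_nonneg.2 (one_le_pow₀ hLone)
  have hm1 : L ^ (r + g) - 1 ≤ (g + 1 : ℝ) * 2 ^ (g + 1) * (2 / p) := by
    refine hpow.trans ?_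
    have k1 : ((r + g : ℕ) : ℝ) ≤ g + 1 := by
      push_cast
      have : (r : ℝ) ≤ 1 := by exact_mod_cast hr
      linarith
    have k2 : (2 : ℝ) ^ (r + g) ≤ 2 ^ (g + 1) := pow_le_pow_right₀ (by norm_num) (by omega)
    refine mul_le_mul (mul_le_mul k1 k2 (by positivity) (by positivity)) hLle (by linarith) (by positivity)
  have hm2 : L ^ (r + g) ≤ 2 ^ (g + 1) := by
    refine (pow_le_pow_left₀ (by linarith) hLtwo _).trans ?_
    exact pow_le_pow_right₀ (by norm_num) (by omega)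
  have hrr : (rootCount (QQ B P h) p : ℝ) ≤ 1 + g * A := by exact_mod_cast hroot
  have e : (1 - (rootCount (QQ B P h) p : ℝ) / p) * L ^ (r + g) - 1 =
      (L ^ (r + g) - 1) - (rootCount (QQ B P h) p : ℝ) / p * L ^ (r + g) := by ring
  rw [e]
  have hq0 : 0 ≤ (rootCount (QQ B P h) p : ℝ) / p * L ^ (r + g) := by positivity
  have hq1 : (rootCount (QQ B P h) p : ℝ) / p * L ^ (r + g) ≤ (1 + g * A) / p * 2 ^ (g + 1) := by
    refine mul_le_mul (div_le_div_of_nonneg_right hrr hp0.le) hm2 (by positivity) (by positivity)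
  have e2 : ((g + 1 : ℝ) * 2 ^ (g + 1) * 2 + (1 + g * A) * 2 ^ (g + 1)) / p =
      (g + 1 : ℝ) * 2 ^ (g + 1) * (2 / p) + (1 + g * A) / p * 2 ^ (g + 1) := by
    field_simp
  rw [e2, abs_le]
  have hz1 : (0 : ℝ) ≤ (g + 1 : ℝ) * 2 ^ (g + 1) * (2 / p) := by positivity
  have hz2 : (0 : ℝ) ≤ (1 + g * A) / p * 2 ^ (g + 1) := by positivity
  constructor <;> linarith

end Pool.Agent.Lib.H59X
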