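import Pool.Agent.Lib.H59X.L1

/-!
# Chunk L2A: first moments of the local factors
-/

open Finset Polynomial

namespace Pool.Agent.Lib.H59X

open Pool.Agent.Lib.H59 (argSet argCount Admissible primeCount omegaN seriesTrunc rootCount)
open Pool.Agent.Lib.H68T (lp)
open Pool.Agent.Lib.H33B (Lq Lw PW SieveWt)

/-- `∑_{c < p} Lq p (x + c) = p`. -/
theorem l2a_sum {p : ℕ} (hp : p.Prime) (x : ℤ) : ∑ c ∈ range p, Lq p (x + c) = p := by
  classical
  have hp0 : (0 : ℤ) < p := by exact_mod_cast hp.pos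
  have h1 : ∀ c ∈ range p, Lq p (x + c) = if c = ((-x) % p).toNat then 0 else (1 - 1 / (p : ℝ))⁻¹ := by
    intro c hc
    rw [l1_prime hp]
    have hm0 := Int.emod_nonneg (-x) hp0.ne'
    have hm1 := Int.emod_lt_of_pos (-x) hp0
    have hcp : (c : ℤ) < p := by exact_mod_cast mem_range.1 hc
    have key : (p : ℤ) ∣ x + c ↔ c = ((-x) % p).toNat := by
      constructor
      · intro h
        have h2 : (c : ℤ) ≡ -x [ZMOD p] := by
          refine (Int.modEq_iff_dvd.2 ?_).symm
          have e : (c : ℤ) - -x = x + c := by ring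
          rw [e]
          exact h
        have h3 : (c : ℤ) % p = (-x) % p := h2
        rw [Int.emod_eq_of_lt (Int.natCast_nonneg c) hcp] at h3
        rw [← h3]
        rfl
      · intro h
        have h2 : (c : ℤ) = (-x) % p := by
          rw [h, Int.toNat_of_nonneg hm0]
        rw [h2]
        have h3 := Int.dvd_sub_self_of_emod_eq (a := -x) (b := p) (c := (-x) % p) rfl
        have e : x + (-x) % p = (-x) % p - -x := by ring
        rw [e]
        exact h3
    by_cases h : (p : ℤ) ∣ x + c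
    · rw [if_pos h, if_pos (key.1 h)]
    · rw [if_neg h, if_neg fun hc => h (key.2 hc)]
  rw [sum_congr rfl h1]
  have hmem : ((-x) % p).toNat ∈ range p := by
    rw [mem_range]
    have hm0 := Int.emod_nonneg (-x) hp0.ne'
    have hm1 := Int.emod_lt_of_pos (-x) hp0
    omega
  rw [sum_ite, sum_const_zero, zero_add, sum_const, filter_ne', card_erase_of_mem hmem, card_range,
    nsmul_eq_mul, Nat.cast_sub hp.one_lt.le, Nat.cast_one]
  have h0 : (p : ℝ) ≠ 0 := by exact_mod_cast hp.ne_zero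
  have h1 : (p : ℝ) - 1 ≠ 0 := by
    have : (1 : ℝ) < p := by exact_mod_cast hp.one_lt
    linarith
  have e : (1 - 1 / (p : ℝ)) = (p - 1) / p := by field_simp
  rw [e, inv_div]
  field_simp

theorem l2a_Lq_le {p : ℕ} (hp : p.Prime) (m : ℤ) : Lq p m ≤ 2 := by
  rw [l1_prime hp]
  split_ifs
  · norm_num
  · have h2 : (2 : ℝ) ≤ p := by exact_mod_cast hp.two_le
    have h3 : 1 / (p : ℝ) ≤ 1 / 2 := one_div_le_one_div_of_le (by norm_num) h2
    rw [inv_le_comm₀ (by linarith) (by norm_num)]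
    linarith

theorem l2a_bL_le {p : ℕ} (hp : p.Prime) (r : ℕ) (B : ℤ[X]) (v : ℕ) : bL r B p v ≤ 2 := by
  unfold bL
  split_ifs
  · norm_num
  · exact l2a_Lq_le hp _

/-- The mean of `af` is the mean of `bL`. -/
theorem l2a_mean (r : ℕ) (B : ℤ[X]) {g : ℕ} (P : Fin g → ℤ[X]) (p : ℕ) (hp : p.Prime) (I : Finset (Fin g)) :
    mean p (af r B P I p) = (∑ v ∈ range p, bL r B p v) / p := by
  classical
  have hp0 : (p : ℝ) ≠ 0 := by exact_mod_cast hp.ne_zero
  have key : ∀ v : ℕ, ∑ h ∈ cube g p, ∏ i ∈ I, Lq p ((P i).eval (v : ℤ) + h i) = (p : ℝ) ^ g := by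
    intro v
    have e1 : ∀ h ∈ cube g p, ∏ i ∈ I, Lq p ((P i).eval (v : ℤ) + h i) =
        ∏ i, (if i ∈ I then Lq p ((P i).eval (v : ℤ) + h i) else 1) := by
      intro h _
      rw [prod_ite_mem, univ_inter]
    rw [sum_congr rfl e1]
    unfold cube
    rw [← prod_univ_sum (fun _ : Fin g => range p)
      (fun i c => if i ∈ I then Lq p ((P i).eval (v : ℤ) + (c : ℕ)) else 1)]
    have e2 : ∀ i ∈ (univ : Finset (Fin g)), ∑ c ∈ range p, (if i ∈ I then Lq p ((P i).eval (v : ℤ) + (c : ℕ)) else 1) =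
        (p : ℝ) := by
      intro i _
      by_cases hi : i ∈ I
      · simp only [if_pos hi]
        exact l2a_sum hp _
      · simp only [if_neg hi]
        simp
    rw [prod_congr rfl e2, prod_const, card_univ, Fintype.card_fin]
  unfold mean af
  rw [← sum_div, sum_comm]
  have e3 : ∀ v ∈ range p, ∑ h ∈ cube g p, bL r B p v * ∏ i ∈ I, Lq p ((P i).eval (v : ℤ) + h i) =
      bL r B p v * (p : ℝ) ^ g := by
    intro v _
    rw [← mul_sum, key]
  rw [sum_congr rfl e3, ← sum_mul]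
  have hpg : (p : ℝ) ^ g ≠ 0 := pow_ne_zero _ hp0
  field_simp

theorem l2a_bLsum_le (r : ℕ) (B : ℤ[X]) {p : ℕ} (hp : p.Prime) : (∑ v ∈ range p, bL r B p v) / p ≤ 2 := by
  have hp0 : (0 : ℝ) < p := by exact_mod_cast hp.pos
  rw [div_le_iff₀ hp0]
  calc ∑ v ∈ range p, bL r B p v ≤ ∑ v ∈ range p, (2 : ℝ) := sum_le_sum fun v _ => l2a_bL_le hp r B v
    _ = 2 * p := by rw [sum_const, card_range, nsmul_eq_mul, mul_comm]

/-- `∑_v bL(v) = p` for `p > A`. -/
theorem l2a_bLsum {A r : ℕ} {B : ℤ[X]} (hB : Bas A r B) {p : ℕ} (hp : p.Prime) (hA : A < p) :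
    ∑ v ∈ range p, bL r B p v = p := by
  classical
  rcases hB with ⟨hr, hB1⟩ | ⟨hr, hd, hl⟩
  · subst hr
    unfold bL
    simp
  · subst hr
    have h0 : B.leadingCoeff ≠ 0 := by
      intro h
      rw [leadingCoeff_eq_zero] at h
      rw [h] at hd
      simp at hd
    have ha : B.coeff 1 ≠ 0 := by
      rw [← hd]
      exact h0
    have hal : (B.coeff 1).natAbs ≤ A := by
      rw [← hd]
      exact hl
    have hev : ∀ v : ℕ, B.eval (v : ℤ) = B.coeff 1 * v + B.coeff 0 := by
      intro v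
      conv_lhs => rw [eq_X_add_C_of_natDegree_le_one hd.le]
      simp
    have hcop : IsCoprime (B.coeff 1) (p : ℤ) := by
      rw [isCoprime_comm, (Nat.prime_iff_prime_int.1 hp).coprime_iff_not_dvd, Int.natCast_dvd]
      intro hd
      have := Nat.le_of_dvd (Int.natAbs_pos.2 ha) hd
      omega
    have h1 : ∑ v ∈ range p, bL 1 B p v = ∑ c ∈ range p, Lq p (B.coeff 0 + c) := by
      have hp0 : (0 : ℤ) < p := by exact_mod_cast hp.pos
      refine sum_bij (fun v _ => ((B.coeff 1 * v) % p).toNat) ?_ ?_ ?_ ?_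
      · intro v _
        rw [mem_range]
        have hm0 := Int.emod_nonneg (B.coeff 1 * v) hp0.ne'
        have hm1 := Int.emod_lt_of_pos (B.coeff 1 * v) hp0
        omega
      · intro v hv w hw hvw
        rw [mem_range] at hv hw
        have hm0 := Int.emod_nonneg (B.coeff 1 * v) hp0.ne'
        have hm1 := Int.emod_nonneg (B.coeff 1 * w) hp0.ne'
        have e1 : (B.coeff 1 * v) % p = (B.coeff 1 * w) % p := by
          have := congrArg (fun n : ℕ => (n : ℤ)) hvw
          simp only [Int.toNat_of_nonneg hm0, Int.toNat_of_nonneg hm1] at this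
          exact this
        have e2 : (p : ℤ) ∣ B.coeff 1 * w - B.coeff 1 * v := Int.modEq_iff_dvd.1 e1
        rw [← mul_sub] at e2
        have e3 : (p : ℤ) ∣ (w : ℤ) - v := hcop.symm.dvd_of_dvd_mul_left e2
        have e4 : (v : ℤ) ≡ w [ZMOD p] := Int.modEq_iff_dvd.2 e3
        have e5 : v ≡ w [MOD p] := Int.natCast_modEq_iff.1 e4
        have e6 : v % p = w % p := e5
        rwa [Nat.mod_eq_of_lt hv, Nat.mod_eq_of_lt hw] at e6
      · intro c hc
        rw [mem_range] at hc
        obtain ⟨x, y, hxy⟩ := hcop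
        have hm0 := Int.emod_nonneg (x * c) hp0.ne'
        have hm1 := Int.emod_lt_of_pos (x * c) hp0
        refine ⟨((x * c) % p).toNat, mem_range.2 (by omega), ?_⟩
        have e0 : ((((x * c) % p).toNat : ℕ) : ℤ) = (x * c) % p := Int.toNat_of_nonneg hm0
        have e1 : (B.coeff 1 * ((((x * c) % p).toNat : ℕ) : ℤ)) % p = c := by
          rw [e0]
          have e2 : B.coeff 1 * ((x * c) % p) ≡ (c : ℤ) [ZMOD p] := by
            have e3 : (x * c) % p ≡ x * c [ZMOD p] := Int.mod_modEq _ _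
            have e4 : B.coeff 1 * ((x * c) % p) ≡ B.coeff 1 * (x * c) [ZMOD p] := e3.mul_left _
            refine e4.trans ?_
            refine Int.modEq_iff_dvd.2 ⟨y * c, ?_⟩
            have e5 : (c : ℤ) = (x * B.coeff 1 + y * p) * c := by rw [hxy, one_mul]
            calc (c : ℤ) - B.coeff 1 * (x * c) = (x * B.coeff 1 + y * p) * c - B.coeff 1 * (x * c) := by
                  rw [← e5]
              _ = p * (y * c) := by ring
          have e6 : (B.coeff 1 * ((x * c) % p)) % p = (c : ℤ) % p := e2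
          rw [e6]
          exact Int.emod_eq_of_lt (Int.natCast_nonneg c) (by exact_mod_cast hc)
        rw [e1]
        rfl
      · intro v _
        have hm0 := Int.emod_nonneg (B.coeff 1 * v) hp0.ne'
        unfold bL
        rw [if_neg one_ne_zero, hev]
        refine l1_congr p ?_
        rw [Int.toNat_of_nonneg hm0]
        have e : B.coeff 1 * v + B.coeff 0 - (B.coeff 0 + (B.coeff 1 * v) % p) =
            B.coeff 1 * v - (B.coeff 1 * v) % p := by ring
        rw [e]
        exact Int.dvd_self_sub_of_emod_eq rfl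
    rw [h1]
    exact l2a_sum hp _

/-- Proof. Exchange the sums over `h` and `v`: for fixed `v` the sum over `h ∈ cube g p` is `∏_i ∑_{h_i < p}` (`Finset.prod_univ_sum`), equal to
`p` for `i ∉ I` and to `∑_{c < p} Lq p (P_i(v) + c) = (p - 1) p/(p - 1) = p` for `i ∈ I`. So the mean is `(1/p) ∑_v bL r B p v`, which is `1` for `r = 0`;
for `r = 1`, `B = a x + b` with `p ∤ a` (`0 < |a| ≤ A < p`), `B(v)` runs through all residues, and the mean is `1` again. -/
theorem af_mean (A r : ℕ) (B : ℤ[X]) (hB : Bas A r B) {g : ℕ} (P : Fin g → ℤ[X]) (p : ℕ)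
    (hp : p.Prime) (hA : A < p) (I : Finset (Fin g)) : mean p (af r B P I p) = 1 := by
  have hp0 : (p : ℝ) ≠ 0 := by exact_mod_cast hp.ne_zero
  rw [l2a_mean r B P p hp I, l2a_bLsum hB hp hA, div_self hp0]

/-- Proof. As `af_mean`; `Lq p m ≤ p/(p-1) ≤ 2`. -/
theorem af_mean_le (A r : ℕ) (B : ℤ[X]) (hB : Bas A r B) {g : ℕ} (P : Fin g → ℤ[X]) (p : ℕ)
    (hp : p.Prime) (I : Finset (Fin g)) : mean p (af r B P I p) ≤ 2 := by
  rw [l2a_mean r B P p hp I]
  exact l2a_bLsum_le r B hp

/-- Proof. `Lq p m ≤ 2`. -/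
theorem af_le (r : ℕ) (B : ℤ[X]) {g : ℕ} (P : Fin g → ℤ[X]) (p : ℕ)
    (hp : p.Prime) (I : Finset (Fin g)) (h : Fin g → ℕ) : af r B P I p h ≤ 2 ^ (g + 1) := by
  have hp0 : (0 : ℝ) < p := by exact_mod_cast hp.pos
  unfold af
  rw [div_le_iff₀ hp0]
  have h1 : ∀ v ∈ range p, bL r B p v * ∏ i ∈ I, Lq p ((P i).eval (v : ℤ) + h i) ≤ (2 : ℝ) ^ (g + 1) := by
    intro v _
    have h2 : ∏ i ∈ I, Lq p ((P i).eval (v : ℤ) + h i) ≤ (2 : ℝ) ^ I.card := by
      rw [← prod_const]
      exact prod_le_prod (fun i _ => l1_Lq_nonneg _ _) fun i _ => l2a_Lq_le hp _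
    have h3 : (2 : ℝ) ^ I.card ≤ 2 ^ g := by
      refine pow_le_pow_right₀ (by norm_num) ?_
      have := card_le_univ I
      rwa [Fintype.card_fin] at this
    rw [pow_succ, mul_comm ((2 : ℝ) ^ g)]
    exact mul_le_mul (l2a_bL_le hp r B v) (h2.trans h3) (prod_nonneg fun i _ => l1_Lq_nonneg _ _) (by norm_num)
  refine (sum_le_sum h1).trans ?_
  rw [sum_const, card_range, nsmul_eq_mul, mul_comm]

end Pool.Agent.Lib.H59X
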