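import Pool.Agent.Lib.H59X.L2

/-!
# Chunk L3: the model against the truncated singular series, on average over all residues
-/

open Finset Polynomial

namespace Pool.Agent.Lib.H59X

open Pool.Agent.Lib.H59 (argSet argCount Admissible primeCount omegaN seriesTrunc rootCount)
open Pool.Agent.Lib.H68T (lp)
open Pool.Agent.Lib.H33B (Lq Lw PW SieveWt)

theorem L3_mod_dvd {g a b : ℕ} (hab : a ∣ b) {F : (Fin g → ℕ) → ℝ} (hF : Per a F) : Per b F :=
  fun h h' hh => hF h h' fun i => (hh i).of_dvd hab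

theorem L3_per_prod {g : ℕ} (T : Finset ℕ) (f : ℕ → (Fin g → ℕ) → ℝ) (hf : ∀ p ∈ T, Per p (f p)) :
    Per (∏ p ∈ T, p) (fun h => ∏ p ∈ T, f p h) := by
  intro h h' hh
  exact prod_congr rfl fun p hp => hf p hp h h' fun i => (hh i).of_dvd (dvd_prod_of_mem _ hp)

theorem L3_card (g q : ℕ) : ((cube g q).card : ℝ) = (q : ℝ) ^ g := by
  unfold cube
  rw [Fintype.card_piFinset]
  simp

theorem L3_mean_add {g q : ℕ} (F G : (Fin g → ℕ) → ℝ) :
    mean q (fun h => F h + G h) = mean q F + mean q G := by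
  unfold mean
  rw [sum_add_distrib, add_div]

theorem L3_mean_mul_const {g q : ℕ} (c : ℝ) (F : (Fin g → ℕ) → ℝ) :
    mean q (fun h => c * F h) = c * mean q F := by
  unfold mean
  rw [← mul_sum, mul_div_assoc]

theorem L3_mean_mono {g q : ℕ} (F G : (Fin g → ℕ) → ℝ) (h : ∀ x, F x ≤ G x) :
    mean q F ≤ mean q G := by
  unfold mean
  exact div_le_div_of_nonneg_right (sum_le_sum fun x _ => h x) (by positivity)

theorem L3_mean_nonneg {g q : ℕ} (F : (Fin g → ℕ) → ℝ) (h : ∀ x, 0 ≤ F x) : 0 ≤ mean q F := by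
  unfold mean
  exact div_nonneg (sum_nonneg fun x _ => h x) (by positivity)

/-- Cauchy-Schwarz for means -/
theorem L3_cs {g q : ℕ} (hq : 0 < q) (F : (Fin g → ℕ) → ℝ) (M : ℝ)
    (hM : mean q (fun h => F h ^ 2) ≤ M) : mean q (fun h => |F h|) ≤ Real.sqrt M := by
  apply Real.le_sqrt_of_sq_le
  refine le_trans ?_ hM
  unfold mean
  have hqg : (0 : ℝ) < (q : ℝ) ^ g := by positivity
  rw [div_pow, div_le_div_iff₀ (by positivity) hqg]
  have h1 := sq_sum_le_card_mul_sum_sq (s := cube g q) (f := fun h => |F h|)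
  rw [L3_card] at h1
  simp only [sq_abs] at h1
  calc (∑ h ∈ cube g q, |F h|) ^ 2 * (q : ℝ) ^ g ≤ ((q : ℝ) ^ g * ∑ h ∈ cube g q, F h ^ 2) * (q : ℝ) ^ g :=
        mul_le_mul_of_nonneg_right h1 hqg.le
    _ = _ := by ring

theorem L3_sum_sq (T : Finset ℕ) (W : ℕ) (hW : 1 ≤ W) (hT : ∀ p ∈ T, W ≤ p) :
    ∑ p ∈ T, (1 : ℝ) / (p : ℝ) ^ 2 ≤ 2 / W := by
  obtain ⟨N, hN⟩ : ∃ N, ∀ p ∈ T, p < N := by
    refine ⟨T.sup id + 1, fun p hp => ?_⟩
    have : p ≤ T.sup id := le_sup (f := id) hp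
    omega
  have hsub : T ⊆ Ioo (W - 1) N := by
    intro p hp
    rw [mem_Ioo]
    have := hT p hp
    have := hN p hp
    omega
  have h1 := sum_Ioo_inv_sq_le (α := ℝ) (W - 1) N
  have h2 : (((W - 1 : ℕ) : ℝ) + 1) = W := by
    rw [Nat.cast_sub hW]; push_cast; ring
  rw [h2] at h1
  refine le_trans ?_ h1
  simp only [one_div]
  exact sum_le_sum_of_subset_of_nonneg hsub fun _ _ _ => by positivity

/-- Proof. Let `T` be a finite set of primes `≥ W > A`, `F = ∏_{p ∈ T} a_p`, `a_p = af r B P (I p) p`. By `mean_prod`, `af_mean`, `af_sq`: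
`mean F = 1`, `mean F² ≤ ∏_{p ∈ T} (1 + C/p²) ≤ exp(C ∑_{p ≥ W} 1/p²) ≤ exp(2C/W) ≤ 1 + 4C/W` for `W ≥ 2C`. So `mean |F - 1| ≤ (mean (F - 1)²)^(1/2) =
(mean F² - 1)^(1/2) ≤ (4C/W)^(1/2)` (Cauchy-Schwarz). -/
theorem prod_close (g A : ℕ) : ∃ (C : ℝ) (W₀ : ℕ), 0 < C ∧ ∀ P : Fin g → ℤ[X], Pol A P →
    ∀ (r : ℕ) (B : ℤ[X]), Bas A r B → ∀ W : ℕ, W₀ ≤ W → ∀ T : Finset ℕ, (∀ p ∈ T, p.Prime ∧ W ≤ p) →
    ∀ I : ℕ → Finset (Fin g),
    mean (∏ p ∈ T, p) (fun h => |(∏ p ∈ T, af r B P (I p) p h) - 1|) ≤ C / Real.sqrt W := by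
  obtain ⟨c, hc, hsq⟩ := af_sq g A
  refine ⟨2 * Real.sqrt c, max (A + 1) (⌈4 * c⌉₊ + 1), by positivity, ?_⟩
  intro P hP r B hB W hW T hT I
  have hW1 : A + 1 ≤ W := (le_max_left _ _).trans hW
  have hW2 : ⌈4 * c⌉₊ + 1 ≤ W := (le_max_right _ _).trans hW
  have hWpos : (0 : ℝ) < W := by
    have : 0 < W := by omega
    exact_mod_cast this
  have hW3 : 4 * c ≤ W := by
    refine (Nat.le_ceil _).trans ?_
    have : ⌈4 * c⌉₊ ≤ W := by omega
    exact_mod_cast this
  set q := ∏ p ∈ T, p with hq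
  have hq0 : 0 < q := prod_pos fun p hp => (hT p hp).1.pos
  have hper : ∀ p ∈ T, Per p (af r B P (I p) p) := fun p _ => af_per r B P (I p) p
  have hmean : mean q (fun h => ∏ p ∈ T, af r B P (I p) p h) = 1 := by
    rw [hq, mean_prod T (fun p hp => (hT p hp).1) (fun p => af r B P (I p) p) hper]
    apply prod_eq_one
    intro p hp
    exact af_mean A r B hB P p (hT p hp).1 (by have := (hT p hp).2; omega) (I p)
  have hmean2 : mean q (fun h => (∏ p ∈ T, af r B P (I p) p h) ^ 2) ≤ 1 + 4 * c / W := by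
    have h1 : (fun h => (∏ p ∈ T, af r B P (I p) p h) ^ 2) =
        (fun h => ∏ p ∈ T, (fun h => af r B P (I p) p h ^ 2) h) := by
      funext h; rw [prod_pow]
    rw [h1, hq, mean_prod T (fun p hp => (hT p hp).1) (fun p => fun h => af r B P (I p) p h ^ 2)
      (fun p hp h h' hh => by simp only [hper p hp h h' hh])]
    have h2 : ∏ p ∈ T, mean p (fun h => af r B P (I p) p h ^ 2) ≤
        ∏ p ∈ T, Real.exp (c * (1 / (p : ℝ) ^ 2)) := by
      apply prod_le_prod
      · intro p _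
        exact L3_mean_nonneg _ fun x => sq_nonneg _
      · intro p hp
        refine (hsq P hP r B hB p (hT p hp).1 (by have := (hT p hp).2; omega) (I p)).trans ?_
        have := Real.add_one_le_exp (c * (1 / (p : ℝ) ^ 2))
        rw [mul_one_div] at this ⊢
        linarith
    refine h2.trans ?_
    rw [← Real.exp_sum, ← mul_sum]
    have h3 := L3_sum_sq T W (by omega) fun p hp => (hT p hp).2
    have h4 : Real.exp (c * ∑ p ∈ T, 1 / (p : ℝ) ^ 2) ≤ Real.exp (2 * c / W) := by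
      apply Real.exp_le_exp.mpr
      calc c * ∑ p ∈ T, 1 / (p : ℝ) ^ 2 ≤ c * (2 / W) := mul_le_mul_of_nonneg_left h3 hc.le
        _ = 2 * c / W := by ring
    refine h4.trans ?_
    set x := 2 * c / W with hx
    have hx0 : 0 ≤ x := by positivity
    have hx1 : x ≤ 1 / 2 := by
      rw [hx, div_le_iff₀ hWpos]; linarith
    have h5 := Real.exp_bound_div_one_sub_of_interval hx0 (by linarith)
    refine h5.trans ?_
    have h6 : 1 + 4 * c / W = 1 + 2 * x := by rw [hx]; ring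
    rw [h6, div_le_iff₀ (by linarith)]
    nlinarith
  have hvar : mean q (fun h => ((∏ p ∈ T, af r B P (I p) p h) - 1) ^ 2) ≤ 4 * c / W := by
    have h1 : (fun h => ((∏ p ∈ T, af r B P (I p) p h) - 1) ^ 2) =
        (fun h => (∏ p ∈ T, af r B P (I p) p h) ^ 2 + ((-2) * (∏ p ∈ T, af r B P (I p) p h) + 1)) := by
      funext h; ring
    rw [h1, L3_mean_add, L3_mean_add, L3_mean_mul_const, hmean, mean_const g q hq0]
    linarith
  have h := L3_cs hq0 (fun h => (∏ p ∈ T, af r B P (I p) p h) - 1) _ hvar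
  refine h.trans (le_of_eq ?_)
  rw [Real.sqrt_div (by positivity), Real.sqrt_mul (by norm_num),
    show (4 : ℝ) = 2 ^ 2 by norm_num, Real.sqrt_sq (by norm_num)]

theorem L3_PW_pos (w : ℕ) : 0 < PW w :=
  prod_pos fun _ hp => (Nat.prime_of_mem_primesBelow hp).pos

theorem L3_below_mono {a b : ℕ} (h : a ≤ b) : Nat.primesBelow a ⊆ Nat.primesBelow b := by
  intro p hp
  rw [Nat.mem_primesBelow] at hp ⊢
  exact ⟨hp.1.trans_le h, hp.2⟩

theorem L3_one (A r : ℕ) (B : ℤ[X]) (hB : Bas A r B) {g : ℕ} (P : Fin g → ℤ[X]) (p : ℕ)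
    (hp : p.Prime) (hA : A < p) (h : Fin g → ℕ) : af r B P ∅ p h = 1 := by
  have h1 := af_mean A r B hB P p hp hA ∅
  have h2 : af r B P ∅ p = fun _ => af r B P ∅ p h := by
    funext h'
    simp [af]
  rw [h2, mean_const g p hp.pos] at h1
  exact h1

theorem L3_split (A r : ℕ) (B : ℤ[X]) (hB : Bas A r B) {g : ℕ} (P : Fin g → ℤ[X]) {W V Z : ℕ}
    (hA : A < W) (hWV : W ≤ V) (hVZ : V ≤ Z) (I : ℕ → Finset (Fin g)) (h1 : ∀ p < W, I p = univ)
    (h2 : ∀ p, V ≤ p → I p = ∅) (h : Fin g → ℕ) :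
    ∏ p ∈ Nat.primesBelow V, af r B P (I p) p h =
      (∏ p ∈ Nat.primesBelow W, af r B P univ p h) *
        ∏ p ∈ Nat.primesBelow Z \ Nat.primesBelow W, af r B P (I p) p h := by
  have e1 : ∏ p ∈ Nat.primesBelow V, af r B P (I p) p h =
      ∏ p ∈ Nat.primesBelow Z, af r B P (I p) p h := by
    apply prod_subset (L3_below_mono hVZ)
    intro p hp hp'
    rw [Nat.mem_primesBelow] at hp hp'
    have hVp : V ≤ p := by
      by_contra hc
      exact hp' ⟨not_le.mp hc, hp.2⟩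
    rw [h2 p hVp]
    exact L3_one A r B hB P p hp.2 (by omega) h
  rw [e1, ← prod_sdiff (L3_below_mono (hWV.trans hVZ)), mul_comm]
  congr 1
  refine prod_congr rfl fun p hp => ?_
  rw [h1 p (Nat.mem_primesBelow.mp hp).1]

theorem L3_mean_small (A r : ℕ) (B : ℤ[X]) (hB : Bas A r B) {g : ℕ} (P : Fin g → ℤ[X]) (W : ℕ) :
    mean (PW W) (fun h => ∏ p ∈ Nat.primesBelow W, af r B P univ p h) ≤ 2 ^ (A + 1) := by
  unfold PW
  rw [mean_prod _ (fun p hp => Nat.prime_of_mem_primesBelow hp) (fun p => af r B P univ p)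
    (fun p _ => af_per r B P univ p)]
  rw [← prod_filter_mul_prod_filter_not (Nat.primesBelow W) (fun p => p ≤ A)]
  have h2 : ∏ p ∈ (Nat.primesBelow W).filter (fun p => ¬ p ≤ A), mean p (af r B P univ p) = 1 := by
    apply prod_eq_one
    intro p hp
    rw [mem_filter] at hp
    exact af_mean A r B hB P p (Nat.prime_of_mem_primesBelow hp.1) (by omega) univ
  rw [h2, mul_one]
  calc ∏ p ∈ (Nat.primesBelow W).filter (fun p => p ≤ A), mean p (af r B P univ p)
      ≤ ∏ p ∈ (Nat.primesBelow W).filter (fun p => p ≤ A), (2 : ℝ) := by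
        apply prod_le_prod
        · intro p _
          exact L3_mean_nonneg _ fun x => af_nonneg r B P univ p x
        · intro p hp
          rw [mem_filter] at hp
          exact af_mean_le A r B hB P p (Nat.prime_of_mem_primesBelow hp.1) univ
    _ = 2 ^ ((Nat.primesBelow W).filter (fun p => p ≤ A)).card := by rw [prod_const]
    _ ≤ 2 ^ (A + 1) := by
        apply pow_le_pow_right₀ (by norm_num)
        have : (Nat.primesBelow W).filter (fun p => p ≤ A) ⊆ range (A + 1) := by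
          intro p hp
          rw [mem_filter] at hp
          rw [mem_range]
          omega
        have := card_le_card this
        rwa [card_range] at this

/-- Proof. By `mixv_eq`, `ssz_eq` both are products of local factors, with the same factors `b_p = af r B P univ p` for `p < W` (`p < W ≤ u i`). So the function is at
most `(∏_{p < W} b_p)(|∏_{W ≤ p < U} a_p - 1| + |∏_{W ≤ p < z} b_p - 1|)`. `mean_mul` for `PW W` and the product of the primes in `[W, max U z)` (product `PW (max U z)`); and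
the mean modulo `∏_{W ≤ p < max U z} p` of the function `|∏_{W ≤ p < U} a_p - 1|`, periodic modulo `∏_{W ≤ p < U} p`, is its mean modulo the latter (`mean_mul` with
`F₂ = 1`, `mean_const`). `mean (∏_{p < W} b_p) = ∏ mean b_p ≤ 2^(A+1)` (`mean_prod`, `af_mean`, `af_mean_le` for the at most `A + 1` primes `≤ A`), `prod_close`. -/
theorem mix_mean (g A : ℕ) : ∃ (C : ℝ) (W₀ : ℕ), 0 < C ∧ ∀ P : Fin g → ℤ[X], Pol A P →
    ∀ (r : ℕ) (B : ℤ[X]), Bas A r B → ∀ W : ℕ, W₀ ≤ W → ∀ (u : Fin g → ℕ) (U z : ℕ),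
    (∀ i, W ≤ u i ∧ u i ≤ U) → W ≤ U → W ≤ z →
    mean (PW (max U z)) (fun h => |mixv r B P u U h - ssz (r + g) (QQ B P h) z|) ≤
      C / Real.sqrt W := by
  obtain ⟨C, W₁, hC, hpc⟩ := prod_close g A
  refine ⟨2 ^ (A + 1) * (2 * C), max W₁ (A + 1), by positivity, ?_⟩
  intro P hP r B hB W hW u U z hu hWU hWz
  have hW1 : W₁ ≤ W := (le_max_left _ _).trans hW
  have hWA : A < W := by have := (le_max_right W₁ (A + 1)).trans hW; omega
  set Z := max U z with hZ
  have hUZ : U ≤ Z := le_max_left _ _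
  have hzZ : z ≤ Z := le_max_right _ _
  set T := Nat.primesBelow Z \ Nat.primesBelow W with hT
  have hTp : ∀ p ∈ T, p.Prime ∧ W ≤ p := by
    intro p hp
    rw [hT, mem_sdiff, Nat.mem_primesBelow, Nat.mem_primesBelow] at hp
    refine ⟨hp.1.2, ?_⟩
    by_contra hc
    exact hp.2 ⟨not_le.mp hc, hp.1.2⟩
  have hPW : PW Z = PW W * ∏ p ∈ T, p := by
    unfold PW
    rw [mul_comm, hT, prod_sdiff (L3_below_mono (hWU.trans hUZ))]
  have hcop : Nat.Coprime (PW W) (∏ p ∈ T, p) := by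
    unfold PW
    apply Nat.Coprime.prod_left
    intro p hp
    apply Nat.Coprime.prod_right
    intro q hq
    rw [Nat.coprime_primes (Nat.prime_of_mem_primesBelow hp) (hTp q hq).1]
    have h1 := (Nat.mem_primesBelow.mp hp).1
    have h2 := (hTp q hq).2
    omega
  set Ia : ℕ → Finset (Fin g) := fun p => univ.filter fun i => p < u i with hIa
  set Ib : ℕ → Finset (Fin g) := fun p => if p < z then univ else ∅ with hIb
  set F₁ : (Fin g → ℕ) → ℝ := fun h => ∏ p ∈ Nat.primesBelow W, af r B P univ p h with hF₁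
  set Fa : (Fin g → ℕ) → ℝ := fun h => ∏ p ∈ T, af r B P (Ia p) p h with hFa
  set Fb : (Fin g → ℕ) → ℝ := fun h => ∏ p ∈ T, af r B P (Ib p) p h with hFb
  have e1 : ∀ h, mixv r B P u U h = F₁ h * Fa h := by
    intro h
    rw [mixv_eq A r B hB P u U (fun i => (hu i).2) h]
    refine L3_split A r B hB P hWA hWU hUZ Ia ?_ ?_ h
    · intro p hp
      rw [hIa]
      simp only [filter_eq_self, mem_univ, true_implies]
      intro i
      exact lt_of_lt_of_le hp (hu i).1
    · intro p hp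
      rw [hIa]
      simp only [filter_eq_empty_iff, mem_univ, true_implies]
      intro i
      have := (hu i).2
      omega
  have e2 : ∀ h, ssz (r + g) (QQ B P h) z = F₁ h * Fb h := by
    intro h
    rw [ssz_eq A r B hB P z h]
    have e3 : ∏ p ∈ Nat.primesBelow z, af r B P univ p h =
        ∏ p ∈ Nat.primesBelow z, af r B P (Ib p) p h := by
      refine prod_congr rfl fun p hp => ?_
      rw [hIb]
      simp only [(Nat.mem_primesBelow.mp hp).1, if_true]
    rw [e3]
    refine L3_split A r B hB P hWA hWz hzZ Ib ?_ ?_ h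
    · intro p hp
      rw [hIb]
      simp only [show p < z by omega, if_true]
    · intro p hp
      rw [hIb]
      simp only [show ¬ p < z by omega, if_false]
  have hF₁0 : ∀ h, 0 ≤ F₁ h := fun h => prod_nonneg fun p _ => af_nonneg r B P univ p h
  have hle : ∀ h, |mixv r B P u U h - ssz (r + g) (QQ B P h) z| ≤
      F₁ h * (|Fa h - 1| + |Fb h - 1|) := by
    intro h
    rw [e1, e2, ← mul_sub, abs_mul, abs_of_nonneg (hF₁0 h)]
    apply mul_le_mul_of_nonneg_left _ (hF₁0 h)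
    calc |Fa h - Fb h| = |(Fa h - 1) - (Fb h - 1)| := by congr 1; ring
      _ ≤ _ := abs_sub _ _
  refine (L3_mean_mono _ _ hle).trans ?_
  have hper1 : Per (PW W) F₁ := L3_per_prod _ (fun p => af r B P univ p)
    (fun p _ => af_per r B P univ p)
  have hpera : Per (∏ p ∈ T, p) Fa := L3_per_prod _ (fun p => af r B P (Ia p) p)
    (fun p _ => af_per r B P (Ia p) p)
  have hperb : Per (∏ p ∈ T, p) Fb := L3_per_prod _ (fun p => af r B P (Ib p) p)
    (fun p _ => af_per r B P (Ib p) p)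
  have hTpos : 0 < ∏ p ∈ T, p := prod_pos fun p hp => (hTp p hp).1.pos
  rw [hPW, mean_mul (PW W) (∏ p ∈ T, p) hcop (L3_PW_pos W) hTpos F₁
    (fun h => |Fa h - 1| + |Fb h - 1|) hper1 (by
      intro h h' hh
      simp only [hpera h h' hh, hperb h h' hh])]
  have h3 : mean (∏ p ∈ T, p) (fun h => |Fa h - 1| + |Fb h - 1|) ≤ 2 * C / Real.sqrt W := by
    rw [L3_mean_add]
    have ha := hpc P hP r B hB W hW1 T hTp Ia
    have hb := hpc P hP r B hB W hW1 T hTp Ib
    calc _ ≤ C / Real.sqrt W + C / Real.sqrt W := add_le_add ha hb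
      _ = _ := by ring
  calc _ ≤ 2 ^ (A + 1) * (2 * C / Real.sqrt W) := by
        apply mul_le_mul (L3_mean_small A r B hB P W) h3
        · exact L3_mean_nonneg _ fun x => by positivity
        · positivity
    _ = _ := by ring

end Pool.Agent.Lib.H59X
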