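import Pool.Agent.Lib.H59X.L3

/-!
# Chunk L4: the model against the truncated singular series, on average over a box
-/

open Finset Polynomial

namespace Pool.Agent.Lib.H59X

open Pool.Agent.Lib.H59 (argSet argCount Admissible primeCount omegaN seriesTrunc rootCount)
open Pool.Agent.Lib.H68T (lp)
open Pool.Agent.Lib.H33B (Lq Lw PW SieveWt)

theorem L4_ssz_per (A r : ℕ) (B : ℤ[X]) (hB : Bas A r B) {g : ℕ} (P : Fin g → ℤ[X]) (z : ℕ) :
    Per (PW z) (fun h => ssz (r + g) (QQ B P h) z) := by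
  have h1 : (fun h => ssz (r + g) (QQ B P h) z) =
      fun h => ∏ p ∈ Nat.primesBelow z, af r B P univ p h := by
    funext h; exact ssz_eq A r B hB P z h
  rw [h1]
  exact L3_per_prod _ (fun p => af r B P univ p) (fun p _ => af_per r B P univ p)

theorem L4_mix_per (A r : ℕ) (B : ℤ[X]) (hB : Bas A r B) {g : ℕ} (P : Fin g → ℤ[X]) (u : Fin g → ℕ)
    (U : ℕ) (hu : ∀ i, u i ≤ U) : Per (PW U) (mixv r B P u U) := by
  have h1 : mixv r B P u U = fun h =>
      ∏ p ∈ Nat.primesBelow U, af r B P (univ.filter fun i => p < u i) p h := by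
    funext h; exact mixv_eq A r B hB P u U hu h
  rw [h1]
  exact L3_per_prod _ (fun p => af r B P (univ.filter fun i => p < u i) p)
    (fun p _ => af_per r B P _ p)

theorem L4_PW_dvd {a b : ℕ} (h : a ≤ b) : PW a ∣ PW b :=
  prod_dvd_prod_of_subset _ _ _ (L3_below_mono h)

/-- `box_le` for a box with sides at least the period -/
theorem L4_box {g : ℕ} (q : ℕ) (hq : 0 < q) (H : Fin g → ℕ) (hH : ∀ i, q ≤ H i)
    (F : (Fin g → ℕ) → ℝ) (hF : Per q F) (h0 : ∀ h, 0 ≤ F h) :
    ∑ h ∈ Box H, F h ≤ 2 ^ g * vol H * mean q F := by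
  refine (box_le q hq H F hF h0).trans ?_
  apply mul_le_mul_of_nonneg_right _ (L3_mean_nonneg F h0)
  unfold vol
  calc ∏ i, ((H i : ℝ) + q) ≤ ∏ i : Fin g, (2 * (H i : ℝ)) := by
        apply prod_le_prod
        · intro i _; positivity
        · intro i _
          have : (q : ℝ) ≤ H i := by exact_mod_cast hH i
          linarith
    _ = _ := by rw [prod_mul_distrib]; simp

/-- Proof. `box_le` with `q = PW (max U z)`, for the function of `mix_mean` (periodic: `af_per` and `mixv_eq`, `ssz_eq`, or directly), and `H_i ≥ H₀ = q`: the sum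
is at most `2^g vol H` times the mean. -/
theorem mix_box (g A : ℕ) : ∃ (C : ℝ) (W₀ : ℕ), 0 < C ∧ ∀ (W U z : ℕ) (u : Fin g → ℕ), W₀ ≤ W →
    (∀ i, W ≤ u i ∧ u i ≤ U) → W ≤ U → W ≤ z → ∃ H₀ : ℕ, ∀ H : Fin g → ℕ, (∀ i, H₀ ≤ H i) →
    ∀ P : Fin g → ℤ[X], Pol A P → ∀ (r : ℕ) (B : ℤ[X]), Bas A r B →
    ∑ h ∈ Box H, |mixv r B P u U h - ssz (r + g) (QQ B P h) z| ≤ C / Real.sqrt W * vol H := by
  obtain ⟨C, W₀, hC, hmm⟩ := mix_mean g A
  refine ⟨2 ^ g * C, W₀, by positivity, ?_⟩
  intro W U z u hW hu hWU hWz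
  refine ⟨PW (max U z), ?_⟩
  intro H hH P hP r B hB
  have h1 := hmm P hP r B hB W hW u U z hu hWU hWz
  have hper : Per (PW (max U z)) (fun h => |mixv r B P u U h - ssz (r + g) (QQ B P h) z|) := by
    have ha : Per (PW (max U z)) (mixv r B P u U) :=
      L3_mod_dvd (L4_PW_dvd (le_max_left _ _)) (L4_mix_per A r B hB P u U fun i => (hu i).2)
    have hb : Per (PW (max U z)) (fun h => ssz (r + g) (QQ B P h) z) :=
      L3_mod_dvd (L4_PW_dvd (le_max_right _ _)) (L4_ssz_per A r B hB P z)
    intro h h' hh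
    have hb' := hb h h' hh
    simp only at hb'
    simp only [ha h h' hh, hb']
  refine (L4_box _ (L3_PW_pos _) H hH _ hper fun _ => abs_nonneg _).trans ?_
  have hv : 0 ≤ vol H := prod_nonneg fun _ _ => Nat.cast_nonneg _
  calc 2 ^ g * vol H * mean (PW (max U z)) (fun h => |mixv r B P u U h - ssz (r + g) (QQ B P h) z|)
      ≤ 2 ^ g * vol H * (C / Real.sqrt W) := mul_le_mul_of_nonneg_left h1 (by positivity)
    _ = _ := by ring

/-- The truncated singular series is rarely small.

Proof. `f_p(h) = (af r B P univ p h)⁻¹` if `af > 0` and `0` otherwise; the number is at most `σ ∑_{h ∈ Box} ∏_{p < z} f_p(h)`, which is at most `σ 2^g vol H ∏_{p < z} mean p f_p` by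
`box_le` (`H_i ≥ PW z`) and `mean_prod`. By `af_close`, for `p > A`, `p ≥ 2 C'`: `af = 1 + x`, `|x| ≤ C'/p ≤ 1/2`, `f_p ≤ 1 - x + 2 x²`, so (mean of `x` is `0`, `af_mean`)
`mean f_p ≤ 1 + 2 C'²/p²`; the product of these is bounded. For the other primes (`p < p₀ = A + 2 C' + 2`) `f_p ≤ p` (`af_eq`: `af > 0` means `rootCount < p`,
so `1 - rootCount/p ≥ 1/p`, and `(1 - 1/p)^(-m) ≥ 1`), and there are at most `p₀` of them. -/
theorem inv_box (g A : ℕ) : ∃ C : ℝ, 0 < C ∧ ∀ z : ℕ, ∃ H₀ : ℕ, ∀ H : Fin g → ℕ, (∀ i, H₀ ≤ H i) →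
    ∀ P : Fin g → ℤ[X], Pol A P → ∀ (r : ℕ) (B : ℤ[X]), Bas A r B → ∀ σ : ℝ, 0 < σ →
    (((Box H).filter (fun h => 0 < ssz (r + g) (QQ B P h) z ∧
      ssz (r + g) (QQ B P h) z < σ)).card : ℝ) ≤ C * σ * vol H := by
  obtain ⟨c, hc, hcl⟩ := af_close g A
  set p₀ : ℕ := A + ⌈2 * c⌉₊ + 2 with hp₀
  refine ⟨2 ^ g * ((p₀ : ℝ) ^ p₀ * Real.exp (4 * c ^ 2)), by positivity, ?_⟩
  intro z
  refine ⟨PW z, ?_⟩
  intro H hH P hP r B hB σ hσ
  set f : ℕ → (Fin g → ℕ) → ℝ := fun p h =>
    if 0 < af r B P univ p h then (af r B P univ p h)⁻¹ else 0 with hf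
  have hf0 : ∀ p h, 0 ≤ f p h := by
    intro p h
    simp only [hf]
    split_ifs with h1
    · positivity
    · exact le_rfl
  have hfper : ∀ p, Per p (f p) := by
    intro p h h' hh
    simp only [hf, af_per r B P univ p h h' hh]
  have hFper : Per (PW z) (fun h => ∏ p ∈ Nat.primesBelow z, f p h) :=
    L3_per_prod _ f fun p _ => hfper p
  have hF0 : ∀ h, 0 ≤ ∏ p ∈ Nat.primesBelow z, f p h := fun h => prod_nonneg fun p _ => hf0 p h
  -- the count
  have h1 : (((Box H).filter (fun h => 0 < ssz (r + g) (QQ B P h) z ∧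
      ssz (r + g) (QQ B P h) z < σ)).card : ℝ) ≤ σ * ∑ h ∈ Box H, ∏ p ∈ Nat.primesBelow z, f p h := by
    rw [← mul_one (((Box H).filter (fun h => 0 < ssz (r + g) (QQ B P h) z ∧
      ssz (r + g) (QQ B P h) z < σ)).card : ℝ), ← nsmul_eq_mul, ← sum_const, mul_sum]
    refine le_trans (sum_le_sum (g := fun h => σ * ∏ p ∈ Nat.primesBelow z, f p h) ?_)
      (sum_le_sum_of_subset_of_nonneg (filter_subset _ _)
        fun h _ _ => mul_nonneg hσ.le (hF0 h))
    intro h hh
    rw [mem_filter] at hh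
    obtain ⟨-, hpos, hlt⟩ := hh
    rw [ssz_eq A r B hB P z h] at hpos hlt
    have h2 : ∀ p ∈ Nat.primesBelow z, 0 < af r B P univ p h := by
      intro p hp
      rcases lt_or_eq_of_le (af_nonneg r B P univ p h) with h3 | h3
      · exact h3
      · exfalso
        rw [prod_eq_zero hp h3.symm] at hpos
        exact lt_irrefl _ hpos
    have h3 : ∏ p ∈ Nat.primesBelow z, f p h = (∏ p ∈ Nat.primesBelow z, af r B P univ p h)⁻¹ := by
      rw [← prod_inv_distrib]
      refine prod_congr rfl fun p hp => ?_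
      simp only [hf, if_pos (h2 p hp)]
    rw [h3, ← div_eq_mul_inv, le_div_iff₀ hpos, one_mul]
    exact hlt.le
  refine h1.trans ?_
  have h2 := L4_box (PW z) (L3_PW_pos z) H hH _ hFper hF0
  have h3 : mean (PW z) (fun h => ∏ p ∈ Nat.primesBelow z, f p h) =
      ∏ p ∈ Nat.primesBelow z, mean p (f p) :=
    mean_prod _ (fun p hp => Nat.prime_of_mem_primesBelow hp) f fun p _ => hfper p
  -- small primes
  have hsmall : ∀ p ∈ Nat.primesBelow z, p < p₀ → mean p (f p) ≤ p₀ := by
    intro p hp hlt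
    have hpp := Nat.prime_of_mem_primesBelow hp
    have hp0 : (0 : ℝ) < p := by exact_mod_cast hpp.pos
    have hle : mean p (f p) ≤ mean p (fun _ : Fin g → ℕ => (p : ℝ)) := by
      apply L3_mean_mono
      intro h
      simp only [hf]
      split_ifs with h4
      · rw [af_eq A r B hB P p hpp h] at h4 ⊢
        have hp1 : (1 : ℝ) < p := by exact_mod_cast hpp.one_lt
        have h5 : 0 < 1 - 1 / (p : ℝ) := by
          rw [sub_pos, div_lt_one hp0]; exact hp1
        have h6 : 1 - 1 / (p : ℝ) ≤ 1 := by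
          have : 0 < 1 / (p : ℝ) := by positivity
          linarith
        have h7 : 1 ≤ ((1 - 1 / (p : ℝ)) ^ (r + g))⁻¹ := by
          rw [one_le_inv₀ (pow_pos h5 _)]
          exact pow_le_one₀ h5.le h6
        have h8 : 0 < 1 - (rootCount (QQ B P h) p : ℝ) / p := by
          by_contra hcon
          have := mul_nonpos_of_nonpos_of_nonneg (not_lt.mp hcon) (zero_le_one.trans h7)
          linarith
        have h9 : rootCount (QQ B P h) p + 1 ≤ p := by
          rw [sub_pos, div_lt_one hp0] at h8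
          exact_mod_cast h8
        have h10 : 1 / (p : ℝ) ≤ 1 - (rootCount (QQ B P h) p : ℝ) / p := by
          rw [div_le_iff₀ hp0]
          have : (rootCount (QQ B P h) p : ℝ) + 1 ≤ p := by exact_mod_cast h9
          rw [sub_mul, div_mul_cancel₀ _ hp0.ne']
          linarith
        rw [inv_le_comm₀ h4 hp0]
        calc ((p : ℝ))⁻¹ = 1 / p * 1 := by rw [one_div, mul_one]
          _ ≤ _ := mul_le_mul h10 h7 zero_le_one h8.le
      · positivity
    rw [mean_const g p hpp.pos] at hle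
    refine hle.trans ?_
    exact_mod_cast hlt.le
  -- large primes
  have hlarge : ∀ p ∈ Nat.primesBelow z, ¬ p < p₀ → mean p (f p) ≤
      Real.exp (2 * c ^ 2 * (1 / (p : ℝ) ^ 2)) := by
    intro p hp hlt
    have hpp := Nat.prime_of_mem_primesBelow hp
    have hp0 : (0 : ℝ) < p := by exact_mod_cast hpp.pos
    have hAp : A < p := by omega
    have hcp : 2 * c ≤ p := by
      refine (Nat.le_ceil _).trans ?_
      have : ⌈2 * c⌉₊ ≤ p := by omega
      exact_mod_cast this
    have hle : mean p (f p) ≤ mean p (fun h : Fin g → ℕ =>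
        (-1) * af r B P univ p h + (2 + 2 * (c / p) ^ 2)) := by
      apply L3_mean_mono
      intro h
      have h4 := hcl P hP r B hB p hpp hAp h
      have h5 : c / p ≤ 1 / 2 := by
        rw [div_le_iff₀ hp0]; linarith
      set x := af r B P univ p h - 1 with hx
      have hx1 := abs_le.mp (h4.trans h5)
      have hx2 : x ^ 2 ≤ (c / p) ^ 2 := sq_le_sq' (by linarith [neg_abs_le x]) (by linarith [le_abs_self x])
      have hxa : af r B P univ p h = 1 + x := by rw [hx]; ring
      have hpos : 0 < af r B P univ p h := by rw [hxa]; linarith [hx1.1]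
      simp only [hf]
      rw [if_pos hpos]
      rw [inv_le_iff_one_le_mul₀ hpos, hxa]
      have h6 : 1 - x + 2 * x ^ 2 ≤ (-1) * (1 + x) + (2 + 2 * (c / p) ^ 2) := by linarith
      have h7 : 0 < 1 + x := by linarith [hx1.1]
      calc (1 : ℝ) ≤ (1 + x) * (1 - x + 2 * x ^ 2) := by nlinarith [sq_nonneg x, hx1.1]
        _ ≤ _ := by
          rw [mul_comm]
          exact mul_le_mul_of_nonneg_right h6 h7.le
    refine hle.trans ?_
    rw [L3_mean_add, L3_mean_mul_const, af_mean A r B hB P p hpp hAp univ, mean_const g p hpp.pos]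
    have := Real.add_one_le_exp (2 * c ^ 2 * (1 / (p : ℝ) ^ 2))
    have h8 : 2 * (c / (p : ℝ)) ^ 2 = 2 * c ^ 2 * (1 / (p : ℝ) ^ 2) := by
      rw [div_pow]; ring
    linarith
  have hp₀1 : (1 : ℝ) ≤ p₀ := by
    have : 1 ≤ p₀ := by omega
    exact_mod_cast this
  have h4 : ∏ p ∈ Nat.primesBelow z, mean p (f p) ≤ (p₀ : ℝ) ^ p₀ * Real.exp (4 * c ^ 2) := by
    rw [← prod_filter_mul_prod_filter_not (Nat.primesBelow z) (fun p => p < p₀)]
    apply mul_le_mul
    · calc ∏ p ∈ (Nat.primesBelow z).filter (fun p => p < p₀), mean p (f p)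
          ≤ ∏ p ∈ (Nat.primesBelow z).filter (fun p => p < p₀), (p₀ : ℝ) := by
            apply prod_le_prod
            · intro p _
              exact L3_mean_nonneg _ (hf0 p)
            · intro p hp
              rw [mem_filter] at hp
              exact hsmall p hp.1 hp.2
        _ = (p₀ : ℝ) ^ ((Nat.primesBelow z).filter (fun p => p < p₀)).card := by rw [prod_const]
        _ ≤ _ := by
            apply pow_le_pow_right₀ hp₀1
            have : (Nat.primesBelow z).filter (fun p => p < p₀) ⊆ range p₀ := by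
              intro p hp
              rw [mem_filter] at hp
              exact mem_range.mpr hp.2
            have := card_le_card this
            rwa [card_range] at this
    · calc ∏ p ∈ (Nat.primesBelow z).filter (fun p => ¬ p < p₀), mean p (f p)
          ≤ ∏ p ∈ (Nat.primesBelow z).filter (fun p => ¬ p < p₀),
              Real.exp (2 * c ^ 2 * (1 / (p : ℝ) ^ 2)) := by
            apply prod_le_prod
            · intro p _
              exact L3_mean_nonneg _ (hf0 p)
            · intro p hp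
              rw [mem_filter] at hp
              exact hlarge p hp.1 hp.2
        _ = Real.exp (2 * c ^ 2 * ∑ p ∈ (Nat.primesBelow z).filter (fun p => ¬ p < p₀),
              1 / (p : ℝ) ^ 2) := by rw [← Real.exp_sum, mul_sum]
        _ ≤ _ := by
            apply Real.exp_le_exp.mpr
            have h5 := L3_sum_sq ((Nat.primesBelow z).filter (fun p => ¬ p < p₀)) 1 le_rfl
              (fun p hp => by
                rw [mem_filter] at hp
                exact (Nat.prime_of_mem_primesBelow hp.1).one_le)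
            calc 2 * c ^ 2 * ∑ p ∈ (Nat.primesBelow z).filter (fun p => ¬ p < p₀), 1 / (p : ℝ) ^ 2
                ≤ 2 * c ^ 2 * (2 / ((1 : ℕ) : ℝ)) := mul_le_mul_of_nonneg_left h5 (by positivity)
              _ = _ := by push_cast; ring
    · exact prod_nonneg fun p _ => L3_mean_nonneg _ (hf0 p)
    · positivity
  have hv : 0 ≤ vol H := prod_nonneg fun _ _ => Nat.cast_nonneg _
  calc σ * ∑ h ∈ Box H, ∏ p ∈ Nat.primesBelow z, f p h
      ≤ σ * (2 ^ g * vol H * ((p₀ : ℝ) ^ p₀ * Real.exp (4 * c ^ 2))) := by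
        apply mul_le_mul_of_nonneg_left _ hσ.le
        refine h2.trans ?_
        rw [h3]
        exact mul_le_mul_of_nonneg_left h4 (by positivity)
    _ = _ := by ring

end Pool.Agent.Lib.H59X
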