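import Mathlib

/-! One-variable facts about logarithmic derivatives of complex polynomials whose roots lie in `Im ≤ -d`. -/

namespace Pool.Agent.Lib.H59X

open Polynomial

theorem neg_im_inv {r : ℂ} {d : ℝ} (hd : 0 < d) (hr : r.im ≤ -d) :
    d * ‖1 / (0 - r)‖ ^ 2 ≤ -(1 / (0 - r)).im := by
  have hr0 : 0 < Complex.normSq r := Complex.normSq_pos.2 (by rintro rfl; simp at hr; linarith)
  have h1 : ‖1 / (0 - r)‖ ^ 2 = 1 / Complex.normSq r := by
    rw [zero_sub, norm_div, norm_neg, norm_one, div_pow, one_pow, Complex.sq_norm]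
  have h2 : -(1 / (0 - r)).im = -r.im / Complex.normSq r := by
    rw [zero_sub, one_div, Complex.inv_im, Complex.normSq_neg, Complex.neg_im]
    ring
  rw [h1, h2, mul_one_div]
  exact div_le_div_of_nonneg_right (by linarith) hr0.le

theorem sq_add_le {a b W : ℝ} {k : ℕ} (ha : 0 ≤ a) (hk : a ^ 2 ≤ k * W) (hW : 0 ≤ W) :
    (a + b) ^ 2 ≤ ((k + 1 : ℕ) : ℝ) * (W + b ^ 2) := by
  push_cast
  rcases Nat.eq_zero_or_pos k with h0 | h0
  · subst h0
    simp only [Nat.cast_zero, zero_mul] at hk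
    have : a = 0 := by nlinarith [sq_nonneg a]
    subst this
    simp only [Nat.cast_zero]
    nlinarith
  · have hk0 : (0 : ℝ) < k := by exact_mod_cast h0
    have h2 : 2 * a * b ≤ k * b ^ 2 + W := by
      have h3 : (k : ℝ) * (2 * a * b) ≤ k * (k * b ^ 2 + W) := by nlinarith [sq_nonneg ((k : ℝ) * b - a)]
      exact le_of_mul_le_mul_left h3 hk0
    nlinarith

theorem multiset_bounds {d : ℝ} (hd : 0 < d) (s : Multiset ℂ) (hs : ∀ r ∈ s, r.im ≤ -d) :
    ∃ W : ℝ, 0 ≤ W ∧ d * W ≤ -((s.map fun z => 1 / (0 - z)).sum).im ∧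
      ‖(s.map fun z => 1 / (0 - z)).sum‖ ^ 2 ≤ (Multiset.card s : ℕ) * W ∧ (s ≠ 0 → 0 < W) := by
  induction s using Multiset.induction_on with
  | empty => exact ⟨0, le_rfl, by simp, by simp, fun h => absurd rfl h⟩
  | cons r s ih =>
    obtain ⟨W, hW, h1, h2, -⟩ := ih fun x hx => hs x (Multiset.mem_cons_of_mem hx)
    have hr : r.im ≤ -d := hs r (Multiset.mem_cons_self _ _)
    have h3 := neg_im_inv hd hr
    have hr0 : r ≠ 0 := by rintro rfl; simp at hr; linarith
    have hpos : 0 < ‖1 / (0 - r)‖ := norm_pos_iff.2 (by simp [hr0])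
    refine ⟨W + ‖1 / (0 - r)‖ ^ 2, by positivity, ?_, ?_, fun _ => by positivity⟩
    · rw [Multiset.map_cons, Multiset.sum_cons, Complex.add_im]
      nlinarith
    · rw [Multiset.map_cons, Multiset.sum_cons, Multiset.card_cons]
      refine le_trans ?_ (sq_add_le (norm_nonneg _) h2 hW)
      refine pow_le_pow_left₀ (norm_nonneg _) ?_ 2
      rw [add_comm]
      exact norm_add_le _ _

variable {q : ℂ[X]} {d : ℝ} {N : ℕ}

/-- (a) lower bound for the value at zero. -/
theorem norm_eval_zero_ge (hd : 0 < d) (hroot : ∀ r ∈ q.roots, r.im ≤ -d) :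
    ‖q.leadingCoeff‖ * d ^ q.natDegree ≤ ‖q.eval 0‖ := by
  have hs := IsAlgClosed.splits q
  rw [hs.eval_eq_prod_roots, norm_mul]
  refine mul_le_mul_of_nonneg_left ?_ (norm_nonneg _)
  rw [hs.natDegree_eq_card_roots]
  generalize q.roots = s at hroot
  induction s using Multiset.induction_on with
  | empty => simp
  | cons r s ih =>
    rw [Multiset.card_cons, pow_succ, Multiset.map_cons, Multiset.prod_cons, norm_mul, mul_comm]
    have hr : r.im ≤ -d := hroot r (Multiset.mem_cons_self _ _)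
    have h1 : d ≤ ‖0 - r‖ := by
      refine le_trans ?_ (Complex.abs_im_le_norm _)
      rw [zero_sub, Complex.neg_im]
      exact le_trans (by linarith) (le_abs_self _)
    exact mul_le_mul h1 (ih fun x hx => hroot x (Multiset.mem_cons_of_mem hx)) (by positivity) (norm_nonneg _)

/-- (b), (c) the logarithmic derivative at zero. -/
theorem logDeriv_bound (hd : 0 < d) (hroot : ∀ r ∈ q.roots, r.im ≤ -d) (hq : q.eval 0 ≠ 0)
    (hN : q.natDegree ≤ N) :
    d * ‖q.derivative.eval 0 / q.eval 0‖ ^ 2 ≤ N * -(q.derivative.eval 0 / q.eval 0).im ∧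
      0 ≤ -(q.derivative.eval 0 / q.eval 0).im ∧
      (0 < q.natDegree → 0 < -(q.derivative.eval 0 / q.eval 0).im) := by
  have hs := IsAlgClosed.splits q
  rw [hs.eval_derivative_div_eval_of_ne_zero hq]
  obtain ⟨W, hW, h1, h2, h3⟩ := multiset_bounds hd q.roots hroot
  refine ⟨?_, le_trans (by positivity) h1, fun h => lt_of_lt_of_le (mul_pos hd (h3 ?_)) h1⟩
  · have hc : ((Multiset.card q.roots : ℕ) : ℝ) ≤ N := by
      rw [← hs.natDegree_eq_card_roots]
      exact_mod_cast hN
    have h4 : ((Multiset.card q.roots : ℕ) : ℝ) * W ≤ N * W := mul_le_mul_of_nonneg_right hc hW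
    have hN0 : (0 : ℝ) ≤ N := Nat.cast_nonneg _
    nlinarith [mul_le_mul_of_nonneg_left h1 hN0, mul_le_mul_of_nonneg_left (h2.trans h4) hd.le]
  · intro h0
    rw [hs.natDegree_eq_card_roots, h0] at h
    simp at h

/-- (d) a root close to any point where `f` is small against its derivative: if `ρ ≥ 0` and all roots of `q` have
distance `≥ ρ` from `ζ`, then `ρ |q'(ζ)| ≤ N |q(ζ)|`. -/
theorem root_near {ζ : ℂ} {ρ : ℝ} (hρ : 0 ≤ ρ) (hroot : ∀ r ∈ q.roots, ρ ≤ ‖ζ - r‖) (hN : q.natDegree ≤ N) :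
    ρ * ‖q.derivative.eval ζ‖ ≤ N * ‖q.eval ζ‖ := by
  rcases hρ.eq_or_lt with h0 | h0
  · rw [← h0, zero_mul]
    positivity
  have hs := IsAlgClosed.splits q
  rcases eq_or_ne (q.eval ζ) 0 with hz | hz
  · rcases eq_or_ne q 0 with rfl | hq0
    · simp
    · have := hroot ζ ((mem_roots hq0).2 hz)
      rw [sub_self, norm_zero] at this
      linarith
  · rw [hs.eval_derivative_eq_eval_mul_sum hz, norm_mul]
    have h1 : ρ * ‖(q.roots.map fun z => 1 / (ζ - z)).sum‖ ≤ (Multiset.card q.roots : ℕ) := by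
      clear hz
      generalize q.roots = s at hroot
      induction s using Multiset.induction_on with
      | empty => simp
      | cons r s ih =>
        rw [Multiset.map_cons, Multiset.sum_cons, Multiset.card_cons]
        push_cast
        have hr := hroot r (Multiset.mem_cons_self _ _)
        have h2 : ρ * ‖1 / (ζ - r)‖ ≤ 1 := by
          rw [norm_div, norm_one, mul_one_div]
          exact (div_le_one (lt_of_lt_of_le h0 hr)).2 hr
        have h3 := ih fun x hx => hroot x (Multiset.mem_cons_of_mem hx)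
        have h4 := mul_le_mul_of_nonneg_left (norm_add_le (1 / (ζ - r)) (s.map fun z => 1 / (ζ - z)).sum) hρ
        linarith
    have hc : ((Multiset.card q.roots : ℕ) : ℝ) ≤ N := by
      rw [← hs.natDegree_eq_card_roots]
      exact_mod_cast hN
    calc ρ * (‖q.eval ζ‖ * ‖(q.roots.map fun z => 1 / (ζ - z)).sum‖)
        = ‖q.eval ζ‖ * (ρ * ‖(q.roots.map fun z => 1 / (ζ - z)).sum‖) := by ring
      _ ≤ ‖q.eval ζ‖ * N := mul_le_mul_of_nonneg_left (h1.trans hc) (norm_nonneg _)
      _ = N * ‖q.eval ζ‖ := mul_comm _ _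

end Pool.Agent.Lib.H59X
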