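import Pool.Agent.Lib.H59X.L1

/-!
# Chunk M1: sums of the model
-/

open Finset Polynomial

namespace Pool.Agent.Lib.H59X

open Pool.Agent.Lib.H59 (argSet argCount Admissible primeCount omegaN seriesTrunc rootCount)
open Pool.Agent.Lib.H68T (lp)
open Pool.Agent.Lib.H33B (Lq Lw PW SieveWt)

theorem M1_PW_dvd {w U : ℕ} (h : w ≤ U) : PW w ∣ PW U := by
  unfold PW
  apply Finset.prod_dvd_prod_of_subset
  intro p hp
  rw [Nat.mem_primesBelow] at hp ⊢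
  exact ⟨by omega, hp.2⟩

theorem M1_Lw_mod (w : ℕ) (m m' : ℤ) (h : ((PW w : ℕ) : ℤ) ∣ m - m') : Lw w m = Lw w m' := by
  unfold Pool.Agent.Lib.H33B.Lw Pool.Agent.Lib.H33B.Lq
  have h1 : IsCoprime m ((PW w : ℕ) : ℤ) ↔ IsCoprime m' ((PW w : ℕ) : ℤ) := by
    obtain ⟨c, hc⟩ := h
    have h2 : m = m' + ((PW w : ℕ) : ℤ) * c := by linarith
    rw [h2]
    exact IsCoprime.add_mul_left_left_iff
  by_cases h3 : IsCoprime m ((PW w : ℕ) : ℤ)
  · rw [if_pos h3, if_pos (h1.1 h3)]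
  · rw [if_neg h3, if_neg (fun h4 => h3 (h1.2 h4))]

theorem M1_Lw_le (w : ℕ) (m : ℤ) : Lw w m ≤ PW w := by
  unfold Pool.Agent.Lib.H33B.Lw Pool.Agent.Lib.H33B.Lq
  have hP : 0 < PW w := H33B.PW_pos w
  split_ifs
  · have h1 : (1 : ℝ) ≤ ((PW w).totient : ℝ) := by exact_mod_cast Nat.totient_pos.2 hP
    exact div_le_self (Nat.cast_nonneg _) h1
  · exact Nat.cast_nonneg _

/-- Proof. `Φ(n) = ∏ Lw (u i)(P_i(n) + h_i)` depends only on `n` modulo `PW U` (`PW (u i) ∣ PW U`) and `0 ≤ Φ ≤ (PW U)^g` (`Lw w m ≤ PW w/φ(PW w) ≤ PW w ≤ PW U`). Split `[1, x]` into the classes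
`v < PW U`: `∑_{n ≤ x} bw(n) Φ(n) = ∑_v Φ(v) ∑_{n ≡ v} bw(n)`, and `x mixv = ∑_v Φ(v) (x/PW U) bL(v)`. -/
theorem per_sum (r : ℕ) (B : ℤ[X]) {g : ℕ} (P : Fin g → ℤ[X]) (u : Fin g → ℕ) (U X : ℕ) (η : ℝ)
    (hu : ∀ i, u i ≤ U) (hη : BEq r B U X η) (x : ℕ) (hx : x ≤ X) (h : Fin g → ℕ) :
    |∑ n ∈ Icc 1 x, bw r B n * ∏ i, Lw (u i) ((P i).eval (n : ℤ) + h i) - x * mixv r B P u U h| ≤
      (PW U : ℝ) ^ (g + 1) * (η * X) := by
  classical
  set q := PW U with hq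
  have hqpos : 0 < q := H33B.PW_pos U
  have hqr : (0 : ℝ) < q := by exact_mod_cast hqpos
  set Φ : ℕ → ℝ := fun n => ∏ i, Lw (u i) ((P i).eval (n : ℤ) + h i) with hΦ
  have hΦ0 : ∀ n, 0 ≤ Φ n := fun n => prod_nonneg fun i _ => H33B.ENG_Lw_nonneg _ _
  have hΦ1 : ∀ n, Φ n ≤ (q : ℝ) ^ g := by
    intro n
    calc Φ n ≤ ∏ _i : Fin g, (q : ℝ) := by
          refine prod_le_prod (fun i _ => H33B.ENG_Lw_nonneg _ _) fun i _ => ?_
          refine (M1_Lw_le _ _).trans ?_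
          exact_mod_cast Nat.le_of_dvd hqpos (M1_PW_dvd (hu i))
      _ = (q : ℝ) ^ g := by rw [prod_const, card_univ, Fintype.card_fin]
  have hper : ∀ n v : ℕ, n ≡ v [MOD q] → Φ n = Φ v := by
    intro n v hnv
    refine prod_congr rfl fun i _ => ?_
    apply M1_Lw_mod
    have h1 : ((q : ℕ) : ℤ) ∣ (n : ℤ) - v := by
      have h2 := (Nat.modEq_iff_dvd.1 hnv)
      have h3 := (dvd_neg.2 h2)
      simpa using h3
    have h2 : (n : ℤ) - v ∣ (P i).eval (n : ℤ) - (P i).eval (v : ℤ) := sub_dvd_eval_sub _ _ _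
    have h3 : ((PW (u i) : ℕ) : ℤ) ∣ ((q : ℕ) : ℤ) := by exact_mod_cast M1_PW_dvd (hu i)
    have h4 := h3.trans (h1.trans h2)
    have h5 : (P i).eval (n : ℤ) + (h i : ℤ) - ((P i).eval (v : ℤ) + (h i : ℤ)) =
        (P i).eval (n : ℤ) - (P i).eval (v : ℤ) := by ring
    rw [h5]
    exact h4
  have hsum : ∑ n ∈ Icc 1 x, bw r B n * Φ n =
      ∑ v ∈ range q, Φ v * ∑ n ∈ (Icc 1 x).filter (fun n => n ≡ v [MOD q]), bw r B n := by
    have hmaps : ∀ n ∈ Icc 1 x, n % q ∈ range q := fun n _ => by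
      rw [mem_range]; exact Nat.mod_lt _ hqpos
    rw [← sum_fiberwise_of_maps_to hmaps]
    refine sum_congr rfl fun v hv => ?_
    rw [mem_range] at hv
    rw [mul_sum]
    have h1 : (Icc 1 x).filter (fun n => n % q = v) = (Icc 1 x).filter (fun n => n ≡ v [MOD q]) := by
      refine filter_congr fun n _ => ?_
      unfold Nat.ModEq
      rw [Nat.mod_eq_of_lt hv]
    rw [h1]
    refine sum_congr rfl fun n hn => ?_
    rw [hper n v (mem_filter.1 hn).2]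
    ring
  have hmix : (x : ℝ) * mixv r B P u U h = ∑ v ∈ range q, Φ v * (x / q * bL r B q v) := by
    unfold mixv
    rw [← mul_div_assoc, mul_sum, sum_div]
    refine sum_congr rfl fun v _ => ?_
    rw [← hq]
    simp only [hΦ]
    ring
  rw [hsum, hmix, ← sum_sub_distrib]
  refine (abs_sum_le_sum_abs _ _).trans ?_
  have hηX : 0 ≤ η * X := (abs_nonneg _).trans (hη x hx 0)
  have h1 : ∀ v ∈ range q, |Φ v * ∑ n ∈ (Icc 1 x).filter (fun n => n ≡ v [MOD q]), bw r B n -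
      Φ v * (x / q * bL r B q v)| ≤ (q : ℝ) ^ g * (η * X) := by
    intro v _
    rw [← mul_sub, abs_mul, abs_of_nonneg (hΦ0 v)]
    exact mul_le_mul (hΦ1 v) (hη x hx v) (abs_nonneg _) (by positivity)
  refine (sum_le_sum h1).trans ?_
  rw [sum_const, card_range, nsmul_eq_mul, pow_succ]
  exact le_of_eq (by ring)

end Pool.Agent.Lib.H59X
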