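import Pool.Agent.Lib.H59X.V1

/-!
# Chunk R1: the truncated singular series does not change much beyond `w`, for almost all `h`
-/

open Finset Polynomial

namespace Pool.Agent.Lib.H59X

open Pool.Agent.Lib.H59 (argSet argCount Admissible primeCount omegaN seriesTrunc rootCount)

theorem R1_log {x : ℝ} (hx : |x| ≤ 1 / 2) : |Real.log (1 + x) - x| ≤ 2 * x ^ 2 := by
  have h := abs_le.1 hx
  have h1 : 0 < 1 + x := by linarith
  have h2 : Real.log (1 + x) ≤ x := by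
    have := Real.log_le_sub_one_of_pos h1
    linarith
  have h3 : x - 2 * x ^ 2 ≤ Real.log (1 + x) := by
    have h4 := Real.one_sub_inv_le_log_of_pos h1
    have h5 : 1 - (1 + x)⁻¹ = x / (1 + x) := by
      field_simp
      ring
    rw [h5] at h4
    refine le_trans ?_ h4
    rw [le_div_iff₀ h1]
    nlinarith [sq_nonneg x, mul_nonneg (sq_nonneg x) (by linarith : (0 : ℝ) ≤ 1 / 2 + x), h.1]
  rw [abs_le]
  constructor <;> nlinarith [sq_nonneg x]

theorem R1_exp {t : ℝ} (ht : |t| ≤ 1) : |Real.exp t - 1| ≤ 2 * |t| := by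
  have h := Real.abs_exp_sub_one_le ht
  exact h

theorem R1_prod (T : Finset ℕ) (x : ℕ → ℝ) (C δ : ℝ) (w : ℕ) (hw : 1 ≤ w) (hCw : 2 * C ≤ w) (hδ1 : δ ≤ 1 / 2) (hw2 : 4 * C ^ 2 ≤ δ * w)
    (hT : ∀ p ∈ T, w ≤ p) (hx : ∀ p ∈ T, |x p| ≤ C / p) (hs : |∑ p ∈ T, x p| ≤ δ) :
    |(∏ p ∈ T, (1 + x p)) - 1| ≤ 4 * δ := by
  have hw0 : (0 : ℝ) < w := by exact_mod_cast hw
  have hp0 : ∀ p ∈ T, (0 : ℝ) < p := fun p hp => by
    exact_mod_cast lt_of_lt_of_le hw (hT p hp)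
  have hx2 : ∀ p ∈ T, |x p| ≤ 1 / 2 := by
    intro p hp
    refine (hx p hp).trans ?_
    rw [div_le_div_iff₀ (hp0 p hp) two_pos]
    have : (w : ℝ) ≤ p := by exact_mod_cast hT p hp
    linarith
  have hpos : ∀ p ∈ T, 0 < 1 + x p := fun p hp => by
    have := (abs_le.1 (hx2 p hp)).1
    linarith
  have hlog : ∏ p ∈ T, (1 + x p) = Real.exp (∑ p ∈ T, Real.log (1 + x p)) := by
    rw [Real.exp_sum]
    exact prod_congr rfl fun p hp => (Real.exp_log (hpos p hp)).symm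
  have hsq : ∑ p ∈ T, 2 * (C / (p : ℝ)) ^ 2 ≤ δ := by
    have h1 : ∑ p ∈ T, 2 * (C / (p : ℝ)) ^ 2 = (2 * C ^ 2) * ∑ p ∈ T, ((p : ℝ) ^ 2)⁻¹ := by
      rw [mul_sum]
      refine sum_congr rfl fun p _ => ?_
      rw [div_pow, div_eq_mul_inv]
      ring
    obtain ⟨n, hn⟩ : ∃ n, ∀ p ∈ T, p < n := ⟨T.sup id + 1, fun p hp =>
      Nat.lt_succ_of_le (le_sup (f := id) hp)⟩
    have h2 : ∑ p ∈ T, ((p : ℝ) ^ 2)⁻¹ ≤ 2 / (((w - 1 : ℕ) : ℝ) + 1) := by
      refine le_trans ?_ (sum_Ioo_inv_sq_le (w - 1) n)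
      refine sum_le_sum_of_subset_of_nonneg (fun p hp => ?_) fun p _ _ => by positivity
      rw [mem_Ioo]
      have := hT p hp
      exact ⟨by omega, hn p hp⟩
    have h3 : ((w - 1 : ℕ) : ℝ) + 1 = w := by
      rw [Nat.cast_sub hw]
      push_cast
      ring
    rw [h3] at h2
    rw [h1]
    calc (2 * C ^ 2) * ∑ p ∈ T, ((p : ℝ) ^ 2)⁻¹ ≤ (2 * C ^ 2) * (2 / w) :=
          mul_le_mul_of_nonneg_left h2 (by positivity)
      _ = 4 * C ^ 2 / w := by ring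
      _ ≤ δ := by rw [div_le_iff₀ hw0]; exact hw2
  have hsum : |(∑ p ∈ T, Real.log (1 + x p)) - ∑ p ∈ T, x p| ≤ δ := by
    rw [← sum_sub_distrib]
    refine (abs_sum_le_sum_abs _ _).trans (le_trans (sum_le_sum fun p hp => ?_) hsq)
    refine (R1_log (hx2 p hp)).trans ?_
    rw [← sq_abs (x p)]
    exact mul_le_mul_of_nonneg_left (pow_le_pow_left₀ (abs_nonneg _) (hx p hp) 2) zero_le_two
  have ht : |∑ p ∈ T, Real.log (1 + x p)| ≤ 2 * δ := by
    have h1 := abs_sub_abs_le_abs_sub (∑ p ∈ T, Real.log (1 + x p)) (∑ p ∈ T, x p)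
    linarith
  rw [hlog]
  refine (R1_exp (ht.trans (by linarith))).trans ?_
  linarith

theorem R1_ssz (A r : ℕ) (B : ℤ[X]) (hB : Bas A r B) {g : ℕ} (P : Fin g → ℤ[X]) (w z : ℕ)
    (hwz : w ≤ z) (h : Fin g → ℕ) : ssz (r + g) (QQ B P h) z = ssz (r + g) (QQ B P h) w *
      ∏ p ∈ (Nat.primesBelow z).filter (fun p => w ≤ p), af r B P univ p h := by
  rw [ssz_eq A r B hB, ssz_eq A r B hB]
  have h1 : (Nat.primesBelow z).filter (fun p => ¬ w ≤ p) = Nat.primesBelow w := by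
    ext p
    simp only [mem_filter, Nat.mem_primesBelow]
    constructor
    · rintro ⟨⟨_, h2⟩, h3⟩
      exact ⟨by omega, h2⟩
    · rintro ⟨h2, h3⟩
      exact ⟨⟨by omega, h3⟩, by omega⟩
  rw [← h1, mul_comm, prod_filter_mul_prod_filter_not]

theorem R1_nonneg (m : ℕ) (Q : ℤ[X]) (z : ℕ) : 0 ≤ ssz m Q z := by
  unfold ssz
  refine prod_nonneg fun p hp => ?_
  have hp' : p.Prime := (Nat.mem_primesBelow.1 hp).2
  have hp0 : (0 : ℝ) < p := by exact_mod_cast hp'.pos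
  have h1 : (1 : ℝ) / p ≤ 1 := by
    rw [div_le_one hp0]
    exact_mod_cast hp'.one_le
  refine mul_nonneg ?_ (inv_nonneg.2 (pow_nonneg (by linarith) _))
  have h2 : rootCount Q p ≤ p := by
    unfold Pool.Agent.Lib.H59.rootCount
    exact (card_filter_le _ _).trans (by rw [card_range])
  have : (rootCount Q p : ℝ) / p ≤ 1 := by
    rw [div_le_one hp0]
    exact_mod_cast h2
  linarith

/-- The truncated singular series changes by a factor `1 + O(ε)` beyond `w`, for almost all `h` of a box. -/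
theorem tail_box (g A : ℕ) (C₁ : ℝ) (hC₁ : 1 ≤ C₁) (ε : ℝ) (hε : 0 < ε) : ∃ w₀ : ℕ,
    ∀ P : Fin g → ℤ[X], Pol A P → ∀ (r : ℕ) (B : ℤ[X]), Bas A r B →
    ∀ (w z : ℕ) (H : Fin g → ℕ), w₀ ≤ w → w ≤ z → (∀ i, (z : ℝ) ^ 3 ≤ C₁ * H i) →
    (((Box H).filter (fun h => ε * ssz (r + g) (QQ B P h) w <
      |ssz (r + g) (QQ B P h) z - ssz (r + g) (QQ B P h) w|)).card : ℝ) ≤ ε * vol H := by
  obtain ⟨C, hC, hc⟩ := af_close g A
  obtain ⟨D, hD, hd⟩ := sec g A C₁ hC₁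
  set δ : ℝ := min ε 1 / 4 with hδ
  have hm0 : 0 < min ε 1 := lt_min hε one_pos
  have hδ0 : 0 < δ := by positivity
  have hδ1 : δ ≤ 1 / 2 := by
    have := min_le_right ε 1
    linarith
  have hδε : 4 * δ ≤ ε := by
    have := min_le_left ε 1
    linarith
  refine ⟨max (A + 1) (max ⌈2 * C⌉₊ (max ⌈4 * C ^ 2 / δ⌉₊ ⌈D / (ε * δ ^ 2)⌉₊)),
    fun P hP r B hB w z H hw hwz hz => ?_⟩
  have hw1 : A + 1 ≤ w := (le_max_left _ _).trans hw
  have hw2 : 2 * C ≤ w := (Nat.le_ceil _).trans (by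
    exact_mod_cast (le_max_left _ _).trans ((le_max_right _ _).trans hw))
  have hw3 : 4 * C ^ 2 / δ ≤ w := (Nat.le_ceil _).trans (by
    exact_mod_cast (le_max_left _ _).trans ((le_max_right _ _).trans ((le_max_right _ _).trans hw)))
  have hw4 : D / (ε * δ ^ 2) ≤ w := (Nat.le_ceil _).trans (by
    exact_mod_cast (le_max_right _ _).trans ((le_max_right _ _).trans
      ((le_max_right _ _).trans hw)))
  have hw0 : (0 : ℝ) < w := by exact_mod_cast (by omega : 0 < w)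
  set T := (Nat.primesBelow z).filter (fun p => w ≤ p) with hT
  have hTm : ∀ p ∈ T, p.Prime ∧ A < p ∧ w ≤ p ∧ p < z := by
    intro p hp
    rw [hT, mem_filter, Nat.mem_primesBelow] at hp
    exact ⟨hp.1.2, by omega, hp.2, hp.1.1⟩
  have h1 := hd P hP r B hB z w H (by omega) hwz hz T hTm
  set bad := (Box H).filter (fun h => ε * ssz (r + g) (QQ B P h) w <
      |ssz (r + g) (QQ B P h) z - ssz (r + g) (QQ B P h) w|) with hbad
  have h2 : ∀ h ∈ bad, δ ^ 2 ≤ (∑ p ∈ T, (af r B P univ p h - 1)) ^ 2 := by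
    intro h hh
    rw [hbad, mem_filter] at hh
    by_contra hcon
    push Not at hcon
    have h3 : |∑ p ∈ T, (af r B P univ p h - 1)| ≤ δ := by
      rw [← abs_of_pos hδ0]
      exact (sq_lt_sq.1 hcon).le
    have h4 := R1_prod T (fun p => af r B P univ p h - 1) C δ w (by omega) hw2 hδ1
      (by rw [div_le_iff₀ hδ0] at hw3; linarith) (fun p hp => (hTm p hp).2.2.1)
      (fun p hp => hc P hP r B hB p (hTm p hp).1 (hTm p hp).2.1 h) h3
    simp only [add_sub_cancel] at h4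
    have h5 := hh.2
    rw [R1_ssz A r B hB P w z hwz h] at h5
    have h6 : ssz (r + g) (QQ B P h) w * (∏ p ∈ T, af r B P univ p h) -
        ssz (r + g) (QQ B P h) w =
        ssz (r + g) (QQ B P h) w * ((∏ p ∈ T, af r B P univ p h) - 1) := by ring
    rw [h6, abs_mul, abs_of_nonneg (R1_nonneg _ _ _)] at h5
    have h7 := mul_le_mul_of_nonneg_left (h4.trans hδε) (R1_nonneg (r + g) (QQ B P h) w)
    linarith
  have h3 : (bad.card : ℝ) * δ ^ 2 ≤ D / w * vol H := by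
    calc (bad.card : ℝ) * δ ^ 2 = ∑ _h ∈ bad, δ ^ 2 := by rw [sum_const, nsmul_eq_mul]
      _ ≤ ∑ h ∈ bad, (∑ p ∈ T, (af r B P univ p h - 1)) ^ 2 := sum_le_sum h2
      _ ≤ ∑ h ∈ Box H, (∑ p ∈ T, (af r B P univ p h - 1)) ^ 2 :=
          sum_le_sum_of_subset_of_nonneg (filter_subset _ _) fun _ _ _ => sq_nonneg _
      _ ≤ D / w * vol H := h1
  have hvol : 0 ≤ vol H := by
    unfold vol
    positivity
  have h4 : D / w ≤ ε * δ ^ 2 := by
    rw [div_le_iff₀ (by positivity)] at hw4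
    rw [div_le_iff₀ hw0]
    linarith
  have h5 : (bad.card : ℝ) * δ ^ 2 ≤ (ε * vol H) * δ ^ 2 := by
    calc (bad.card : ℝ) * δ ^ 2 ≤ D / w * vol H := h3
      _ ≤ (ε * δ ^ 2) * vol H := mul_le_mul_of_nonneg_right h4 hvol
      _ = (ε * vol H) * δ ^ 2 := by ring
  exact le_of_mul_le_mul_right h5 (by positivity)

end Pool.Agent.Lib.H59X
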