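import Pool.Agent.Lib.H59X.M1
import Pool.Agent.Lib.H59X.L4

/-!
# Chunk Z2A: the mixed model for the family with `N - G`
-/

open Finset Polynomial

namespace Pool.Agent.Lib.H59X

open Pool.Agent.Lib.H59 (argSet argCount Admissible primeCount omegaN seriesTrunc rootCount)
open Pool.Agent.Lib.H68T (lp)
open Pool.Agent.Lib.H33B (Lq Lw PW SieveWt)

theorem z2a_qq {g : ℕ} (G : ℤ[X]) (P : Fin g → ℤ[X]) (B : ℤ[X]) (N : ℕ) (h : Fin g → ℕ) :
    QQ B (Fin.cons (-G) P : Fin (g + 1) → ℤ[X]) (Fin.cons N h) = QQ B P h * (C (N : ℤ) - G) := by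
  have e : ∏ i : Fin (g + 1), fam (Fin.cons (-G) P : Fin (g + 1) → ℤ[X]) (Fin.cons N h) i =
      (C (N : ℤ) - G) * ∏ i : Fin g, fam P h i := by
    rw [Fin.prod_univ_succ]
    have e0 : fam (Fin.cons (-G) P : Fin (g + 1) → ℤ[X]) (Fin.cons N h) 0 = C (N : ℤ) - G := by
      show (Fin.cons (-G) P : Fin (g + 1) → ℤ[X]) 0 +
        C (((Fin.cons N h : Fin (g + 1) → ℕ) 0 : ℕ) : ℤ) = _
      rw [Fin.cons_zero, Fin.cons_zero]
      ring
    rw [e0]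
    rfl
  unfold QQ
  rw [e]
  ring

theorem z2a_vol {g : ℕ} (Y : ℕ) (H : Fin g → ℕ) :
    vol (Fin.cons Y H : Fin (g + 1) → ℕ) = Y * vol H := by
  unfold vol
  rw [Fin.prod_univ_succ]
  rfl

theorem z2a_pol {g : ℕ} (A : ℕ) (G : ℤ[X]) (hG : 1 ≤ G.natDegree) (hGA : G.natDegree ≤ A)
    (hGl : G.leadingCoeff.natAbs ≤ A) (P : Fin g → ℤ[X]) (hP : Pol A P) :
    Pol A (Fin.cons (-G) P : Fin (g + 1) → ℤ[X]) where
  deg i := by
    refine Fin.cases ?_ (fun i => ?_) i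
    · rw [Fin.cons_zero, natDegree_neg]
      exact hG
    · rw [Fin.cons_succ]
      exact hP.deg i
  degA i := by
    refine Fin.cases ?_ (fun i => ?_) i
    · rw [Fin.cons_zero, natDegree_neg]
      exact hGA
    · rw [Fin.cons_succ]
      exact hP.degA i
  lc i := by
    refine Fin.cases ?_ (fun i => ?_) i
    · rw [Fin.cons_zero, leadingCoeff_neg, Int.natAbs_neg]
      exact hGl
    · rw [Fin.cons_succ]
      exact hP.lc i

/-- The mixed model (levels `u` and `w`) against the singular series, in the mean over `N` and the shifts.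

Proof. `mix_box` for `g + 1`, the family `Fin.cons (-G) P`, the levels `Fin.cons w u`, the box `Fin.cons Y H`; `box_succ`. (`mixv r B (Fin.cons (-G) P) (Fin.cons w u) U (Fin.cons N h)` has the summands
`bL · Lw w (-G(v) + N) · ∏ Lw (u i)(P_i(v) + h_i)`, and `QQ B (Fin.cons (-G) P) (Fin.cons N h) = B ((-G + N) ∏ (P_i + h_i))`, `r + (g + 1) = r + g + 1`.) -/
theorem mix_box_N {g : ℕ} (A : ℕ) (G : ℤ[X]) (hG : 1 ≤ G.natDegree) (hGA : G.natDegree ≤ A)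
    (hGl : G.leadingCoeff.natAbs ≤ A) (P : Fin g → ℤ[X]) (hP : Pol A P) :
    ∃ (K : ℝ) (W₀ : ℕ), 0 < K ∧ ∀ (W U z w : ℕ) (u : Fin g → ℕ), W₀ ≤ W → W ≤ w → w ≤ U →
    (∀ i, W ≤ u i ∧ u i ≤ U) → W ≤ z → ∃ H₀ : ℕ, ∀ (Y : ℕ) (H : Fin g → ℕ), H₀ ≤ Y →
    (∀ i, H₀ ≤ H i) → ∀ (r : ℕ) (B : ℤ[X]), Bas A r B →
    ∑ N ∈ Icc 1 Y, ∑ h ∈ Box H,
      |mixv r B (Fin.cons (-G) P : Fin (g + 1) → ℤ[X]) (Fin.cons w u : Fin (g + 1) → ℕ) U
          (Fin.cons N h) - ssz (r + g + 1) (QQ B P h * (C (N : ℤ) - G)) z| ≤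
        K / Real.sqrt W * Y * vol H := by
  obtain ⟨K, W₀, hK, hmix⟩ := mix_box (g + 1) A
  refine ⟨K, W₀, hK, fun W U z w u hW hWw hwU hu hWz => ?_⟩
  obtain ⟨H₀, hH₀⟩ := hmix W U z (Fin.cons w u : Fin (g + 1) → ℕ) hW (fun i => by
    refine Fin.cases ?_ (fun i => ?_) i
    · rw [Fin.cons_zero]
      exact ⟨hWw, hwU⟩
    · rw [Fin.cons_succ]
      exact hu i) (hWw.trans hwU) hWz
  refine ⟨H₀, fun Y H hY hH r B hB => ?_⟩
  have h1 := hH₀ (Fin.cons Y H : Fin (g + 1) → ℕ) (fun i => by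
    refine Fin.cases ?_ (fun i => ?_) i
    · rw [Fin.cons_zero]
      exact hY
    · rw [Fin.cons_succ]
      exact hH i) (Fin.cons (-G) P : Fin (g + 1) → ℤ[X]) (z2a_pol A G hG hGA hGl P hP) r B hB
  rw [box_succ, z2a_vol, ← mul_assoc] at h1
  refine le_trans (le_of_eq ?_) h1
  refine Finset.sum_congr rfl fun N _ => ?_
  refine Finset.sum_congr rfl fun h _ => ?_
  rw [z2a_qq]
  rfl

theorem z2a_mono (G : ℤ[X]) (Y1 : ℕ)
    (h1 : ∀ Y : ℕ, Y1 ≤ Y → ∀ n : ℕ, n ∈ argSet G Y ↔ 1 ≤ n ∧ n ≤ argCount G Y) :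
    ∀ N N' : ℕ, Y1 ≤ N → N ≤ N' → argCount G N ≤ argCount G N' := by
  intro N N' hN hNN'
  rcases Nat.eq_zero_or_pos (argCount G N) with h0 | h0
  · omega
  · have h3 := (h1 N hN (argCount G N)).2 ⟨h0, le_refl _⟩
    have h4 : argCount G N ∈ argSet G N' := by
      refine ⟨h3.1, ?_⟩
      have h5 := h3.2
      have : (N : ℤ) ≤ N' := by exact_mod_cast hNN'
      linarith
    exact ((h1 N' (hN.trans hNN') _).1 h4).2

/-- Sums of the mixed model.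

Proof. `per_sum` for the family `Fin.cons (-G) P` with the levels `Fin.cons w u` and the shifts `Fin.cons N h` (`x = argCount G N ≤ argCount G Y`, and for `N ≥ N₀`:
`{n ≤ argCount G Y : G(n) < N} = [1, argCount G N]`, `H57M.argSet_eq`). -/
theorem per_sum_N {g : ℕ} (G : ℤ[X]) (hG : 1 ≤ G.natDegree) (hlc : 0 < G.leadingCoeff)
    (P : Fin g → ℤ[X]) : ∃ N₀ : ℕ, ∀ (r : ℕ) (B : ℤ[X]) (u : Fin g → ℕ) (w U Y : ℕ) (η : ℝ),
    (∀ i, u i ≤ U) → w ≤ U → BEq r B U (argCount G Y) η → ∀ N : ℕ, N₀ ≤ N → N ≤ Y →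
    ∀ h : Fin g → ℕ,
    |∑ n ∈ (Icc 1 (argCount G Y)).filter (fun n : ℕ => G.eval (n : ℤ) < N),
      bw r B n * (∏ i, Lw (u i) ((P i).eval (n : ℤ) + h i)) * Lw w ((N : ℤ) - G.eval (n : ℤ)) -
      argCount G N * mixv r B (Fin.cons (-G) P : Fin (g + 1) → ℤ[X])
        (Fin.cons w u : Fin (g + 1) → ℕ) U (Fin.cons N h)| ≤
      (PW U : ℝ) ^ (g + 2) * (η * argCount G Y) := by
  obtain ⟨N₀, hN₀⟩ := Pool.Agent.Lib.H57M.argSet_eq G hG hlc
  refine ⟨N₀, fun r B u w U Y η hu hw hη N hN hNY h => ?_⟩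
  have hle := z2a_mono G N₀ hN₀ N Y hN hNY
  have h1 := per_sum r B (Fin.cons (-G) P : Fin (g + 1) → ℤ[X]) (Fin.cons w u : Fin (g + 1) → ℕ)
    U (argCount G Y) η (fun i => by
      refine Fin.cases ?_ (fun i => ?_) i
      · rw [Fin.cons_zero]
        exact hw
      · rw [Fin.cons_succ]
        exact hu i) hη (argCount G N) hle (Fin.cons N h : Fin (g + 1) → ℕ)
  have hset : (Icc 1 (argCount G Y)).filter (fun n : ℕ => G.eval (n : ℤ) < N) =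
      Icc 1 (argCount G N) := by
    ext n
    rw [Finset.mem_filter, Finset.mem_Icc, Finset.mem_Icc, ← hN₀ N hN n]
    constructor
    · rintro ⟨⟨h2, -⟩, h3⟩
      exact ⟨h2, by linarith⟩
    · intro h2
      have h3 := (hN₀ N hN n).1 h2
      exact ⟨⟨h3.1, h3.2.trans hle⟩, by have := h2.2; linarith⟩
  rw [hset]
  refine le_trans (le_of_eq ?_) h1
  congr 2
  refine Finset.sum_congr rfl fun n _ => ?_
  rw [Fin.prod_univ_succ]
  have e0 : Lw ((Fin.cons w u : Fin (g + 1) → ℕ) 0)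
      (((Fin.cons (-G) P : Fin (g + 1) → ℤ[X]) 0).eval (n : ℤ) +
        (((Fin.cons N h : Fin (g + 1) → ℕ) 0 : ℕ) : ℤ)) = Lw w ((N : ℤ) - G.eval (n : ℤ)) := by
    rw [Fin.cons_zero, Fin.cons_zero, Fin.cons_zero, eval_neg]
    congr 1
    ring
  rw [e0]
  simp only [Fin.cons_succ]
  ring

end Pool.Agent.Lib.H59X
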