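import Pool.Agent.Lib.H59X.Z1

/-!
# Chunk Z3: the exceptional shifts, for every `N` (`G` linear)
-/

open Finset Polynomial

namespace Pool.Agent.Lib.H59X

open Pool.Agent.Lib.H59 (argSet argCount Admissible primeCount omegaN seriesTrunc rootCount)
open Pool.Agent.Lib.H68T (lp)
open Pool.Agent.Lib.H33B (Lq Lw PW SieveWt)

theorem z3_pr (m : ℤ) : m.toNat.Prime ↔ ∃ q : ℕ, q.Prime ∧ m = q := by
  constructor
  · intro h
    refine ⟨m.toNat, h, ?_⟩
    have h1 := h.pos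
    omega
  · rintro ⟨q, hq, rfl⟩
    rwa [Int.toNat_natCast]

theorem z3_eval {g : ℕ} (P : Fin g → ℤ[X]) (h : Fin g → ℕ) (i : Fin g) (n : ℤ) :
    (fam P h i).eval n = (P i).eval n + h i := by
  unfold fam
  rw [eval_add, eval_C]

/-- Proof. For `N ≥ N₀`: `argSet G N = [1, argCount G N]` (`H57M.argSet_eq`); `∃ q prime, m = q` iff `m.toNat` is prime; a sum of products of indicators. -/
theorem primeCount_fix {g : ℕ} (G : ℤ[X]) (hG : 1 ≤ G.natDegree) (hlc : 0 < G.leadingCoeff) :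
    ∃ N₀ : ℕ, ∀ N : ℕ, N₀ ≤ N → ∀ (P : Fin g → ℤ[X]) (h : Fin g → ℕ),
    (primeCount (fam P h) G N : ℝ) = cntF 1 (C (N : ℤ) - G) P h (argCount G N) := by
  classical
  obtain ⟨N₀, hN₀⟩ := H57M.argSet_eq G hG hlc
  refine ⟨N₀, fun N hN P h => ?_⟩
  have e : {n : ℕ | n ∈ argSet G N ∧ (∀ i, ∃ q : ℕ, q.Prime ∧ (fam P h i).eval (n : ℤ) = q) ∧
      ∃ q : ℕ, q.Prime ∧ (N : ℤ) - G.eval (n : ℤ) = q} =
      ((Icc 1 (argCount G N)).filter fun n : ℕ => (((C (N : ℤ) - G).eval (n : ℤ)).toNat.Prime ∧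
        ∀ i ∈ (univ : Finset (Fin g)), ((P i).eval (n : ℤ) + h i).toNat.Prime) : Finset ℕ) := by
    ext n
    rw [Finset.mem_coe, mem_filter, mem_Icc, Set.mem_ofPred_eq, hN₀ N hN n]
    simp only [z3_eval, z3_pr, eval_sub, eval_C, mem_univ, true_implies]
    constructor
    · rintro ⟨h1, h2, h3⟩
      exact ⟨h1, h3, h2⟩
    · rintro ⟨h1, h3, h2⟩
      exact ⟨h1, h2, h3⟩
  unfold primeCount
  rw [e, Set.ncard_coe_finset, Finset.card_filter]
  unfold cntF
  push_cast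
  refine sum_congr rfl fun n _ => ?_
  unfold pb pr
  rw [if_neg one_ne_zero, prod_ite_zero, prod_const_one]
  by_cases h1 : (((C (N : ℤ) - G).eval (n : ℤ)).toNat.Prime)
  · by_cases h2 : ∀ i ∈ (univ : Finset (Fin g)), ((P i).eval (n : ℤ) + h i).toNat.Prime
    · rw [if_pos ⟨h1, h2⟩, if_pos h1, if_pos h2, one_mul]
    · rw [if_neg (fun h => h2 h.2), if_neg h2, mul_zero]
  · rw [if_neg (fun h => h1 h.1), if_neg h1, zero_mul]

/-- Proof. `omegaN F G N p = rootCount ((∏ F)(C N - G)) p`; commutativity. -/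
theorem series_fix {g : ℕ} (P : Fin g → ℤ[X]) (G : ℤ[X]) (h : Fin g → ℕ) (N z : ℕ) :
    seriesTrunc (fam P h) G N z = ssz (1 + g) (QQ (C (N : ℤ) - G) P h) z := by
  unfold seriesTrunc ssz
  refine prod_congr rfl fun p _ => ?_
  have h1 : omegaN (fam P h) G N p = rootCount (QQ (C (N : ℤ) - G) P h) p := by
    unfold omegaN rootCount QQ
    rw [mul_comm]
  rw [h1, add_comm g 1]

/-- Proof. If `p < z` and `omegaN = p` then `p` divides all values. -/
theorem series_pos {g : ℕ} (F : Fin g → ℤ[X]) (G : ℤ[X]) (N z : ℕ) (h : Admissible F G N) :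
    0 < seriesTrunc F G N z := by
  unfold seriesTrunc
  refine prod_pos fun p hp => ?_
  have hpp : p.Prime := Nat.prime_of_mem_primesBelow hp
  have hp2 : (2 : ℝ) ≤ p := by exact_mod_cast hpp.two_le
  have hp0 : (0 : ℝ) < p := by linarith
  have h1 : (0 : ℝ) < 1 - 1 / (p : ℝ) := by
    rw [sub_pos, div_lt_one hp0]
    linarith
  have h2 : omegaN F G N p < p := by
    by_contra hcon
    push Not at hcon
    have h3 : omegaN F G N p ≤ p := by
      unfold omegaN
      exact (card_filter_le _ _).trans (by rw [card_range])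
    have h4 : ((range p).filter fun a : ℕ =>
        (p : ℤ) ∣ ((∏ i, F i) * (C (N : ℤ) - G)).eval (a : ℤ)) = range p := by
      apply eq_of_subset_of_card_le (filter_subset _ _)
      rw [card_range]
      exact hcon
    refine h.2 p hpp fun n => ?_
    have hpz : (0 : ℤ) < p := by exact_mod_cast hpp.pos
    have h5 : (n % p).toNat ∈ range p := by
      rw [mem_range]
      have := Int.emod_lt_of_pos n hpz
      have := Int.emod_nonneg n hpz.ne'
      omega
    rw [← h4, mem_filter] at h5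
    have h6 := h5.2
    have h7 : (((n % p).toNat : ℕ) : ℤ) = n % p := Int.toNat_of_nonneg (Int.emod_nonneg n hpz.ne')
    rw [h7] at h6
    have h8 : n - n % p ∣ ((∏ i, F i) * (C (N : ℤ) - G)).eval n - ((∏ i, F i) * (C (N : ℤ) - G)).eval (n % p) :=
      sub_dvd_eval_sub _ _ _
    have h9 : (p : ℤ) ∣ n - n % p := Int.dvd_self_sub_emod
    exact (dvd_iff_dvd_of_dvd_sub (h9.trans h8)).2 h6
  have h3 : (omegaN F G N p : ℝ) < p := by exact_mod_cast h2
  have h4 : (0 : ℝ) < 1 - (omegaN F G N p : ℝ) / p := by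
    rw [sub_pos, div_lt_one hp0]
    exact h3
  positivity

open Classical in
/-- Proof. `X = argCount G N`, `L = log X`, `mainT (fam P h) G N = X/L^(g+1)/∏ d_i` (`natDegree_add_C`, `deg G = 1`), the same for all `h`. Write `s(h) = seriesTrunc = ssz`. The `h` of the filter have `s(h) > 0`
(`series_pos`) and `|(∏ d_i) L^(g+1) cntF - X s| > ε X s`. With `σ` such that `C σ ≤ ε/2` (`inv_box`, `Bas A 1 (C N - G)`): at most `(ε/2) vol H` of them have `s < σ`; the others are at most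
`ε' X vol H/(ε X σ)` by `l1_fix` with `ε' = ε² σ/2`. -/
theorem exc_fix {g : ℕ} (G : ℤ[X]) (hG : G.natDegree = 1) (hlc : 0 < G.leadingCoeff)
    (P : Fin g → ℤ[X]) (hP : ∀ i, 1 ≤ (P i).natDegree) (hl : ∀ i, 0 < (P i).leadingCoeff)
    (C₁ : ℝ) (hC₁ : 1 ≤ C₁) (ε : ℝ) (hε : 0 < ε) :
    ∃ z₀ : ℕ, ∀ z : ℕ, z₀ ≤ z → ∃ N₀ : ℕ, ∀ N : ℕ, N₀ ≤ N → ∀ H : Fin g → ℕ,
    Fit C₁ (argCount G N) P H →
    (((Box H).filter (fun h => Admissible (fam P h) G N ∧
      ε * (H33B.mainT (fam P h) G N * seriesTrunc (fam P h) G N z) <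
        |(primeCount (fam P h) G N : ℝ) -
          H33B.mainT (fam P h) G N * seriesTrunc (fam P h) G N z|)).card : ℝ) ≤ ε * vol H := by
  obtain ⟨A, hA⟩ : ∃ A : ℕ, A = (∑ i, ((P i).natDegree + (P i).leadingCoeff.natAbs)) + G.leadingCoeff.natAbs := ⟨_, rfl⟩
  have hAi : ∀ i, (P i).natDegree + (P i).leadingCoeff.natAbs ≤ A := by
    intro i
    have h1 := single_le_sum (f := fun i => (P i).natDegree + (P i).leadingCoeff.natAbs) (fun _ _ => Nat.zero_le _) (mem_univ i)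
    omega
  have hPol : Pol A P := ⟨hP, fun i => by have := hAi i; omega, fun i => by have := hAi i; omega⟩
  obtain ⟨K, hK, hinv⟩ := inv_box g A
  obtain ⟨σ, hσ⟩ : ∃ σ : ℝ, σ = ε / (2 * K) := ⟨_, rfl⟩
  have hσ0 : 0 < σ := by rw [hσ]; positivity
  obtain ⟨z₀, hz₀⟩ := l1_fix G hG hlc P hP hl C₁ hC₁ (ε ^ 2 * σ / 2) (by positivity)
  refine ⟨z₀, fun z hz => ?_⟩
  obtain ⟨N₀, hN₀⟩ := hz₀ z hz
  obtain ⟨H₀, hH₀⟩ := hinv z
  obtain ⟨N₁, hN₁⟩ := primeCount_fix (g := g) G hG.ge hlc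
  have htend := Pool.Agent.Lib.H59.argCount_tendsto hG.ge hlc
  obtain ⟨N₂, hN₂⟩ := Filter.eventually_atTop.1 (htend.eventually_ge_atTop (max 3 ⌈C₁ * H₀⌉₊))
  refine ⟨max N₀ (max N₁ N₂), fun N hN H hH => ?_⟩
  have hNa : N₀ ≤ N := (le_max_left _ _).trans hN
  have hNb : N₁ ≤ N := (le_max_left _ _).trans ((le_max_right _ _).trans hN)
  have hNc := hN₂ N ((le_max_right _ _).trans ((le_max_right _ _).trans hN))
  obtain ⟨X, hX⟩ : ∃ X : ℕ, X = argCount G N := ⟨_, rfl⟩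
  rw [← hX] at hNc hH
  have hX3 : 3 ≤ X := (le_max_left _ _).trans hNc
  have hXH : C₁ * H₀ ≤ X := (Nat.le_ceil _).trans (by exact_mod_cast (le_max_right _ _).trans hNc)
  have hX0 : (0 : ℝ) < X := by exact_mod_cast (by omega : 0 < X)
  have hX1 : (1 : ℝ) ≤ X := by exact_mod_cast (by omega : 1 ≤ X)
  have hL0 : 0 < Real.log X := Real.log_pos (by exact_mod_cast (by omega : 1 < X))
  have hHi : ∀ i, H₀ ≤ H i := by
    intro i
    have h1 := hH.lo i
    have h2 : (X : ℝ) ≤ (X : ℝ) ^ (P i).natDegree := le_self_pow₀ hX1 (by have := hP i; omega)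
    have h3 : C₁ * (H₀ : ℝ) ≤ C₁ * H i := hXH.trans (h2.trans h1)
    have h4 : (H₀ : ℝ) ≤ H i := le_of_mul_le_mul_left h3 (by linarith)
    exact_mod_cast h4
  have hD0 : (0 : ℝ) < ∏ i, ((P i).natDegree : ℝ) := prod_pos fun i _ => by exact_mod_cast hP i
  obtain ⟨D, hD⟩ : ∃ D : ℝ, D = ∏ i, ((P i).natDegree : ℝ) := ⟨_, rfl⟩
  rw [← hD] at hD0
  have hmain : ∀ h, H33B.mainT (fam P h) G N = X / Real.log X ^ (g + 1) * D⁻¹ := by
    intro h
    unfold H33B.mainT
    have h1 : ∀ i, (fam P h i).natDegree = (P i).natDegree := fun i => by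
      unfold fam
      exact natDegree_add_C
    simp only [h1, hG, ← hX, Nat.cast_one, one_mul, ← hD]
  have hvol0 : 0 ≤ vol H := by
    unfold vol
    positivity
  have hsum := hN₀ N hNa H (by rw [← hX]; exact hH)
  rw [← hX, ← hD] at hsum
  have hdeg : (C (N : ℤ) - G).natDegree = 1 := by
    rw [sub_eq_neg_add, natDegree_add_C, natDegree_neg, hG]
  have hB : Bas A 1 (C (N : ℤ) - G) := by
    refine Or.inr ⟨rfl, hdeg, ?_⟩
    have h1 : (C (N : ℤ) - G).leadingCoeff = -G.leadingCoeff := by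
      unfold leadingCoeff
      rw [hdeg, hG, coeff_sub, coeff_C, if_neg one_ne_zero, zero_sub]
    rw [h1, Int.natAbs_neg, hA]
    omega
  have hbox := hH₀ H hHi P hPol 1 _ hB σ hσ0
  obtain ⟨E, hE⟩ : ∃ E : Finset (Fin g → ℕ), E = (Box H).filter (fun h => Admissible (fam P h) G N ∧
      ε * (H33B.mainT (fam P h) G N * seriesTrunc (fam P h) G N z) <
        |(primeCount (fam P h) G N : ℝ) -
          H33B.mainT (fam P h) G N * seriesTrunc (fam P h) G N z|) := ⟨_, rfl⟩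
  rw [← hE]
  obtain ⟨S, hS⟩ : ∃ S : (Fin g → ℕ) → ℝ, S = fun h => ssz (1 + g) (QQ (C (N : ℤ) - G) P h) z := ⟨_, rfl⟩
  obtain ⟨T, hT⟩ : ∃ T : (Fin g → ℕ) → ℝ, T = fun h => D * Real.log X ^ (g + 1) * cntF 1 (C (N : ℤ) - G) P h X := ⟨_, rfl⟩
  have hkey : ∀ h ∈ E, 0 < S h ∧ ε * X * S h < |T h - X * S h| := by
    intro h hh
    rw [hE, mem_filter] at hh
    obtain ⟨-, hadm, hlt⟩ := hh
    have h1 := series_pos (fam P h) G N z hadm
    rw [series_fix] at h1
    rw [series_fix, hmain, hN₁ N hNb P h, ← hX] at hlt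
    have hSh : ssz (1 + g) (QQ (C (N : ℤ) - G) P h) z = S h := by rw [hS]
    rw [hSh] at h1 hlt
    refine ⟨h1, ?_⟩
    have hM : (0 : ℝ) < D * Real.log X ^ (g + 1) := by positivity
    have h2 := mul_lt_mul_of_pos_left hlt hM
    have h3 : D * Real.log X ^ (g + 1) * (ε * (X / Real.log X ^ (g + 1) * D⁻¹ * S h)) = ε * X * S h := by
      field_simp
    have h4 : D * Real.log X ^ (g + 1) * |cntF 1 (C (N : ℤ) - G) P h X - X / Real.log X ^ (g + 1) * D⁻¹ * S h| =
        |T h - X * S h| := by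
      have h6 : T h - X * S h = D * Real.log X ^ (g + 1) * (cntF 1 (C (N : ℤ) - G) P h X - X / Real.log X ^ (g + 1) * D⁻¹ * S h) := by
        rw [hT]
        field_simp
      rw [h6, abs_mul, abs_of_pos hM]
    rwa [h3, h4] at h2
  have hsplit : E ⊆ ((Box H).filter (fun h => 0 < ssz (1 + g) (QQ (C (N : ℤ) - G) P h) z ∧
      ssz (1 + g) (QQ (C (N : ℤ) - G) P h) z < σ)) ∪ E.filter (fun h => σ ≤ S h) := by
    intro h hh
    rw [mem_union, mem_filter, mem_filter]
    rcases lt_or_ge (S h) σ with h1 | h1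
    · refine Or.inl ⟨?_, ?_, ?_⟩
      · rw [hE, mem_filter] at hh
        exact hh.1
      · have h2 := (hkey h hh).1
        rw [hS] at h2
        exact h2
      · rw [hS] at h1
        exact h1
    · exact Or.inr ⟨hh, h1⟩
  have hcard : (E.card : ℝ) ≤ K * σ * vol H + ((E.filter (fun h => σ ≤ S h)).card : ℝ) := by
    have h1 := (card_le_card hsplit).trans (card_union_le _ _)
    have h2 : (E.card : ℝ) ≤ (((Box H).filter (fun h => 0 < ssz (1 + g) (QQ (C (N : ℤ) - G) P h) z ∧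
      ssz (1 + g) (QQ (C (N : ℤ) - G) P h) z < σ)).card : ℝ) + ((E.filter (fun h => σ ≤ S h)).card : ℝ) := by
      exact_mod_cast h1
    linarith
  have hlarge : ((E.filter (fun h => σ ≤ S h)).card : ℝ) * (ε * X * σ) ≤ ε ^ 2 * σ / 2 * X * vol H := by
    refine le_trans ?_ hsum
    have h1 : ((E.filter (fun h => σ ≤ S h)).card : ℝ) * (ε * X * σ) ≤
        ∑ h ∈ E.filter (fun h => σ ≤ S h), |T h - X * S h| := by
      rw [← nsmul_eq_mul]
      refine card_nsmul_le_sum _ _ _ fun h hh => ?_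
      rw [mem_filter] at hh
      refine le_trans ?_ (hkey h hh.1).2.le
      exact mul_le_mul_of_nonneg_left hh.2 (by positivity)
    refine h1.trans ?_
    have h2 : E.filter (fun h => σ ≤ S h) ⊆ Box H := by
      refine (filter_subset _ _).trans ?_
      rw [hE]
      exact filter_subset _ _
    have h3 := sum_le_sum_of_subset_of_nonneg (f := fun h => |T h - X * S h|) h2 (fun _ _ _ => abs_nonneg _)
    refine h3.trans (le_of_eq ?_)
    rw [hT, hS]
  have hfin : ((E.filter (fun h => σ ≤ S h)).card : ℝ) ≤ ε / 2 * vol H := by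
    have h1 : (0 : ℝ) < ε * X * σ := by positivity
    have h2 : ε ^ 2 * σ / 2 * X * vol H = (ε / 2 * vol H) * (ε * X * σ) := by ring
    rw [h2] at hlarge
    exact le_of_mul_le_mul_right hlarge h1
  have hKσ : K * σ = ε / 2 := by
    rw [hσ]
    field_simp
  rw [hKσ] at hcard
  linarith

end Pool.Agent.Lib.H59X
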