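import Pool.Agent.Lib.H59X.R1
import Pool.Agent.Lib.H59X.Z2A
import Pool.Agent.Lib.H59X.Z3
import Pool.Agent.Lib.H59X.Fin

/-!
# Chunk R2: the final theorems with the singular series cut off anywhere between `z₀` and `X^(1/3)`
-/

open Finset Polynomial Filter Topology

namespace Pool.Agent.Lib.H59X

open Pool.Agent.Lib.H59 (argSet argCount Admissible primeCount omegaN seriesTrunc rootCount)

theorem R2_real {Q M a b ε : ℝ} (hM : 0 ≤ M) (hε : 0 ≤ ε) (hε1 : ε ≤ 1 / 2)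
    (h1 : |Q - M * a| ≤ ε * (M * a)) (h2 : |b - a| ≤ ε * a) (ha : 0 ≤ a) :
    |Q - M * b| ≤ 4 * ε * (M * b) := by
  have h3 : a ≤ 2 * b := by
    have := (abs_le.1 h2).1
    nlinarith
  have h4 : |Q - M * b| ≤ |Q - M * a| + M * |b - a| := by
    have h5 : Q - M * b = (Q - M * a) - M * (b - a) := by ring
    rw [h5]
    refine (abs_sub _ _).trans ?_
    rw [abs_mul, abs_of_nonneg hM]
  have h6 : M * |b - a| ≤ M * (ε * a) := mul_le_mul_of_nonneg_left h2 hM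
  have h7 : M * a ≤ M * (2 * b) := mul_le_mul_of_nonneg_left h3 hM
  calc |Q - M * b| ≤ ε * (M * a) + M * (ε * a) := h4.trans (add_le_add h1 h6)
    _ = 2 * ε * (M * a) := by ring
    _ ≤ 2 * ε * (M * (2 * b)) := mul_le_mul_of_nonneg_left h7 (by linarith)
    _ = 4 * ε * (M * b) := by ring

theorem R2_mainT {g : ℕ} (F : Fin g → ℤ[X]) (G : ℤ[X]) (N : ℕ) : 0 ≤ H33B.mainT F G N := by
  unfold Pool.Agent.Lib.H33B.mainT
  have h1 : 0 ≤ Real.log (argCount G N) := Real.log_natCast_nonneg _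
  positivity

/-- the set of the bad points, two levels -/
theorem R2_card {α : Type*} [DecidableEq α] (s : Finset α) (p q t : α → Prop) [DecidablePred p]
    [DecidablePred q] [DecidablePred t] (h : ∀ x ∈ s, p x → q x ∨ t x) (a b c : ℝ)
    (hq : ((s.filter q).card : ℝ) ≤ a) (ht : ((s.filter t).card : ℝ) ≤ b) (hc : a + b ≤ c) :
    ((s.filter p).card : ℝ) ≤ c := by
  have h1 : s.filter p ⊆ s.filter q ∪ s.filter t := by
    intro x hx
    rw [mem_filter] at hx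
    rw [mem_union, mem_filter, mem_filter]
    rcases h x hx.1 hx.2 with h2 | h2
    · exact Or.inl ⟨hx.1, h2⟩
    · exact Or.inr ⟨hx.1, h2⟩
  have h2 : ((s.filter p).card : ℝ) ≤ (s.filter q).card + (s.filter t).card := by
    exact_mod_cast (card_le_card h1).trans (card_union_le _ _)
  linarith

theorem R2_fit {g : ℕ} {C₁ : ℝ} {X : ℕ} {P : Fin g → ℤ[X]} {H : Fin g → ℕ} (hX : 1 ≤ X)
    (hP : ∀ i, 1 ≤ (P i).natDegree) (hH : Fit C₁ X P H) {z : ℕ} (hz : z ^ 3 ≤ X) (i : Fin g) :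
    (z : ℝ) ^ 3 ≤ C₁ * H i := by
  refine le_trans ?_ (hH.lo i)
  calc (z : ℝ) ^ 3 ≤ (X : ℝ) := by exact_mod_cast hz
    _ = (X : ℝ) ^ 1 := (pow_one _).symm
    _ ≤ (X : ℝ) ^ (P i).natDegree := pow_le_pow_right₀ (by exact_mod_cast hX) (hP i)

open Classical in
/-- `G` linear, every large `N`. -/
theorem exc_fix_z {g : ℕ} (G : ℤ[X]) (hG : G.natDegree = 1) (hlc : 0 < G.leadingCoeff)
    (P : Fin g → ℤ[X]) (hP : ∀ i, 1 ≤ (P i).natDegree) (hl : ∀ i, 0 < (P i).leadingCoeff)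
    (C₁ : ℝ) (hC₁ : 1 ≤ C₁) (ε : ℝ) (hε : 0 < ε) :
    ∃ z₀ N₀ : ℕ, ∀ z N : ℕ, z₀ ≤ z → N₀ ≤ N → z ^ 3 ≤ argCount G N → ∀ H : Fin g → ℕ,
    Fit C₁ (argCount G N) P H →
    (((Box H).filter (fun h => Admissible (fam P h) G N ∧
      ε * (H33B.mainT (fam P h) G N * seriesTrunc (fam P h) G N z) <
        |(primeCount (fam P h) G N : ℝ) -
          H33B.mainT (fam P h) G N * seriesTrunc (fam P h) G N z|)).card : ℝ) ≤ ε * vol H := by
  set ε₁ : ℝ := min ε 1 / 4 with hε₁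
  have hm0 : 0 < min ε 1 := lt_min hε one_pos
  have h0 : 0 < ε₁ := by positivity
  have h1 : ε₁ ≤ 1 / 2 := by
    have := min_le_right ε 1
    linarith
  have h4 : 4 * ε₁ ≤ ε := by
    have := min_le_left ε 1
    linarith
  obtain ⟨A, hA⟩ : ∃ A : ℕ, (∀ i, (P i).natDegree ≤ A) ∧ (∀ i, (P i).leadingCoeff.natAbs ≤ A) ∧
      G.leadingCoeff.natAbs ≤ A := by
    refine ⟨(univ.sup fun i => (P i).natDegree) + (univ.sup fun i => (P i).leadingCoeff.natAbs) +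
      G.leadingCoeff.natAbs, fun i => ?_, fun i => ?_, by omega⟩
    · have := le_sup (f := fun i => (P i).natDegree) (mem_univ i)
      omega
    · have := le_sup (f := fun i => (P i).leadingCoeff.natAbs) (mem_univ i)
      omega
  obtain ⟨z₁, hz₁⟩ := exc_fix G hG hlc P hP hl C₁ hC₁ ε₁ h0
  obtain ⟨w₀, hw₀⟩ := tail_box g A C₁ hC₁ ε₁ h0
  set w := max z₁ w₀ with hw
  obtain ⟨N₀, hN₀⟩ := hz₁ w (le_max_left _ _)
  have ht := Pool.Agent.Lib.H59.argCount_tendsto (hG.ge) hlc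
  obtain ⟨N₁, hN₁⟩ := eventually_atTop.1 (ht.eventually_ge_atTop 1)
  refine ⟨w, max N₀ N₁, fun z N hz hN hzX H hH => ?_⟩
  have hX1 : 1 ≤ argCount G N := hN₁ N ((le_max_right _ _).trans hN)
  have h2 := hN₀ N ((le_max_left _ _).trans hN) H hH
  have hBas : Bas A 1 (C (N : ℤ) - G) := by
    have hdeg : (C (N : ℤ) - G).natDegree = 1 := by
      rw [← hG]
      exact Pool.Agent.Lib.H59.natDegree_C_sub' G N
    have hlead : (C (N : ℤ) - G).leadingCoeff = -G.leadingCoeff := by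
      rw [leadingCoeff, hdeg, coeff_sub, coeff_C_of_ne_zero one_ne_zero, zero_sub,
        leadingCoeff, hG]
    refine Or.inr ⟨rfl, hdeg, ?_⟩
    rw [hlead, Int.natAbs_neg]
    exact hA.2.2
  have h3 := hw₀ P ⟨hP, hA.1, hA.2.1⟩ 1 (C (N : ℤ) - G) hBas w z H (le_max_right _ _) hz
    (fun i => R2_fit hX1 hP hH hzX i)
  refine R2_card (Box H) _ _ _ (fun h _ hp => ?_) _ _ _ h2 h3 ?_
  · by_contra hcon
    push Not at hcon
    obtain ⟨hc1, hc2⟩ := hcon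
    have hc3 := hc1 hp.1
    rw [← series_fix, ← series_fix] at hc2
    have hs0 : 0 ≤ seriesTrunc (fam P h) G N w := by
      rw [series_fix]
      exact R1_nonneg _ _ _
    have h5 := R2_real (R2_mainT _ _ _) h0.le h1 hc3 hc2 hs0
    have hs1 : 0 ≤ seriesTrunc (fam P h) G N z := by
      rw [series_fix]
      exact R1_nonneg _ _ _
    have h6 : 4 * ε₁ * (H33B.mainT (fam P h) G N * seriesTrunc (fam P h) G N z) ≤
        ε * (H33B.mainT (fam P h) G N * seriesTrunc (fam P h) G N z) :=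
      mul_le_mul_of_nonneg_right h4 (mul_nonneg (R2_mainT _ _ _) hs1)
    linarith [hp.2]
  · have hvol : 0 ≤ vol H := by
      unfold vol
      positivity
    nlinarith

/-- the box with `N` -/
theorem R2_box {g : ℕ} (Y : ℕ) (H : Fin g → ℕ) (Q : (Fin (g + 1) → ℕ) → Prop)
    [DecidablePred Q] (Q' : ℕ × (Fin g → ℕ) → Prop) [DecidablePred Q']
    (hQ : ∀ x, Q' x ↔ Q (Fin.cons x.1 x.2)) :
    ((Icc 1 Y ×ˢ Box H).filter Q').card =
      ((Box (Fin.cons Y H : Fin (g + 1) → ℕ)).filter Q).card := by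
  have h1 := box_succ (Fin.cons Y H : Fin (g + 1) → ℕ) (fun x => if Q x then (1 : ℝ) else 0)
  have h2 : (((Box (Fin.cons Y H : Fin (g + 1) → ℕ)).filter Q).card : ℝ) =
      ∑ x ∈ Box (Fin.cons Y H : Fin (g + 1) → ℕ), if Q x then (1 : ℝ) else 0 := by
    rw [sum_boole]
  have h3 : (((Icc 1 Y ×ˢ Box H).filter Q').card : ℝ) =
      ∑ x ∈ Icc 1 Y ×ˢ Box H, if Q' x then (1 : ℝ) else 0 := by
    rw [sum_boole]
  have h4 : (((Icc 1 Y ×ˢ Box H).filter Q').card : ℝ) =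
      (((Box (Fin.cons Y H : Fin (g + 1) → ℕ)).filter Q).card : ℝ) := by
    rw [h2, h3, h1, sum_product]
    refine sum_congr rfl fun a _ => sum_congr rfl fun h _ => ?_
    simp only [hQ]
  exact_mod_cast h4

/-- `X(Y) ≤ 2 Y` -/
theorem R2_argCount (G : ℤ[X]) (hG : 1 ≤ G.natDegree) (hlc : 0 < G.leadingCoeff) :
    ∃ Y₀ : ℕ, ∀ Y : ℕ, Y₀ ≤ Y → 1 ≤ argCount G Y ∧ (argCount G Y : ℝ) ≤ 2 * Y := by
  have h1 := Pool.Agent.Lib.H33B.argCount_pow G hG hlc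
  have h2 : ((G.leadingCoeff : ℝ)⁻¹) < 2 := by
    have h3 : (1 : ℝ) ≤ G.leadingCoeff := by exact_mod_cast hlc
    have := inv_le_one_of_one_le₀ h3
    linarith
  have ht := Pool.Agent.Lib.H59.argCount_tendsto hG hlc
  obtain ⟨Y₀, hY₀⟩ := eventually_atTop.1 ((h1.eventually_lt_const h2).and
    (ht.eventually_ge_atTop 1))
  refine ⟨max Y₀ 1, fun Y hY => ?_⟩
  obtain ⟨h3, h4⟩ := hY₀ Y ((le_max_left _ _).trans hY)
  refine ⟨h4, ?_⟩
  have hY0 : (0 : ℝ) < Y := by exact_mod_cast (le_max_right _ _).trans hY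
  rw [div_lt_iff₀ hY0] at h3
  refine le_trans ?_ h3.le
  calc (argCount G Y : ℝ) = (argCount G Y : ℝ) ^ 1 := (pow_one _).symm
    _ ≤ _ := pow_le_pow_right₀ (by exact_mod_cast h4) hG

open Classical in
/-- The tail for the pairs `(N, h)`. -/
theorem tail_pairs {g : ℕ} (G : ℤ[X]) (hG : 1 ≤ G.natDegree) (hlc : 0 < G.leadingCoeff)
    (P : Fin g → ℤ[X]) (hP : ∀ i, 1 ≤ (P i).natDegree) (r : ℕ) (B : ℤ[X])
    (hB : ∃ A, Bas A r B) (C₁ : ℝ) (hC₁ : 1 ≤ C₁) (ε : ℝ) (hε : 0 < ε) :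
    ∃ w₀ Y₀ : ℕ, ∀ w z Y : ℕ, w₀ ≤ w → w ≤ z → Y₀ ≤ Y → z ^ 3 ≤ argCount G Y →
    ∀ H : Fin g → ℕ, Fit C₁ (argCount G Y) P H →
    (((Icc 1 Y ×ˢ Box H).filter (fun x : ℕ × (Fin g → ℕ) =>
      ε * ssz (r + g + 1) (QQ B P x.2 * (C (x.1 : ℤ) - G)) w <
      |ssz (r + g + 1) (QQ B P x.2 * (C (x.1 : ℤ) - G)) z -
        ssz (r + g + 1) (QQ B P x.2 * (C (x.1 : ℤ) - G)) w|)).card : ℝ) ≤ ε * Y * vol H := by
  obtain ⟨A₀, hA₀⟩ := hB
  obtain ⟨A, hA0, hA⟩ : ∃ A : ℕ, A₀ ≤ A ∧ (∀ i, (P i).natDegree ≤ A) ∧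
      (∀ i, (P i).leadingCoeff.natAbs ≤ A) ∧ G.leadingCoeff.natAbs ≤ A ∧ G.natDegree ≤ A := by
    refine ⟨A₀ + (univ.sup fun i => (P i).natDegree) +
      (univ.sup fun i => (P i).leadingCoeff.natAbs) +
      G.leadingCoeff.natAbs + G.natDegree, by omega, fun i => ?_, fun i => ?_, by omega, by omega⟩
    · have := le_sup (f := fun i => (P i).natDegree) (mem_univ i)
      omega
    · have := le_sup (f := fun i => (P i).leadingCoeff.natAbs) (mem_univ i)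
      omega
  have hBas : Bas A r B := by
    rcases hA₀ with h | h
    · exact Or.inl h
    · exact Or.inr ⟨h.1, h.2.1, h.2.2.trans hA0⟩
  obtain ⟨w₀, hw₀⟩ := tail_box (g + 1) A (2 * C₁) (by linarith) ε hε
  obtain ⟨Y₀, hY₀⟩ := R2_argCount G hG hlc
  refine ⟨w₀, Y₀, fun w z Y hw hwz hY hz H hH => ?_⟩
  obtain ⟨hX1, hXY⟩ := hY₀ Y hY
  have hz3 : (z : ℝ) ^ 3 ≤ argCount G Y := by exact_mod_cast hz
  have h1 := hw₀ (Fin.cons (-G) P : Fin (g + 1) → ℤ[X])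
    (z2a_pol A G hG hA.2.2.2 hA.2.2.1 P ⟨hP, hA.1, hA.2.1⟩) r B hBas w z
    (Fin.cons Y H : Fin (g + 1) → ℕ) hw hwz (fun i => by
      refine Fin.cases ?_ (fun i => ?_) i
      · rw [Fin.cons_zero]
        have hY0 : (0 : ℝ) ≤ Y := Nat.cast_nonneg _
        nlinarith
      · rw [Fin.cons_succ]
        refine (R2_fit hX1 hP hH hz i).trans ?_
        have hH0 : (0 : ℝ) ≤ H i := Nat.cast_nonneg _
        nlinarith)
  rw [z2a_vol, ← mul_assoc] at h1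
  refine le_trans (le_of_eq ?_) h1
  congr 1
  refine R2_box Y H _ _ fun x => ?_
  rw [z2a_qq]
  rfl

open Classical in
/-- All constant terms vary. -/
theorem all_random_z {g : ℕ} (G : ℤ[X]) (hG : 1 ≤ G.natDegree) (hlc : 0 < G.leadingCoeff)
    (P : Fin g → ℤ[X]) (hP : ∀ i, 1 ≤ (P i).natDegree) (hl : ∀ i, 0 < (P i).leadingCoeff)
    (C₁ : ℝ) (hC₁ : 1 ≤ C₁) (ε : ℝ) (hε : 0 < ε) :
    ∃ z₀ Y₀ : ℕ, ∀ z Y : ℕ, z₀ ≤ z → Y₀ ≤ Y → z ^ 3 ≤ argCount G Y → ∀ H : Fin g → ℕ,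
    Fit C₁ (argCount G Y) P H →
    (((Icc 1 Y ×ˢ Box H).filter (fun x : ℕ × (Fin g → ℕ) => Admissible (fam P x.2) G x.1 ∧
      ε * (H33B.mainT (fam P x.2) G x.1 * seriesTrunc (fam P x.2) G x.1 z) <
        |(primeCount (fam P x.2) G x.1 : ℝ) -
          H33B.mainT (fam P x.2) G x.1 * seriesTrunc (fam P x.2) G x.1 z|)).card : ℝ) ≤
      ε * Y * vol H := by
  set ε₁ : ℝ := min ε 1 / 4 with hε₁
  have hm0 : 0 < min ε 1 := lt_min hε one_pos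
  have h0 : 0 < ε₁ := by positivity
  have h1 : ε₁ ≤ 1 / 2 := by
    have := min_le_right ε 1
    linarith
  have h4 : 4 * ε₁ ≤ ε := by
    have := min_le_left ε 1
    linarith
  obtain ⟨z₁, hz₁⟩ := all_random G hG hlc P hP hl C₁ hC₁ ε₁ h0
  obtain ⟨w₀, Y₁, hw₀⟩ := tail_pairs G hG hlc P hP 0 1 ⟨0, Or.inl ⟨rfl, rfl⟩⟩ C₁ hC₁ ε₁ h0
  obtain ⟨Y₀, hY₀⟩ := hz₁ (max z₁ w₀) (le_max_left _ _)
  refine ⟨max z₁ w₀, max Y₀ Y₁, fun z Y hz hY hzX H hH => ?_⟩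
  have h2 := hY₀ Y ((le_max_left _ _).trans hY) H hH
  have h3 := hw₀ (max z₁ w₀) z Y (le_max_right _ _) hz ((le_max_right _ _).trans hY) hzX H hH
  refine R2_card _ _ _ _ (fun x _ hp => ?_) _ _ _ h2 h3 ?_
  · by_contra hcon
    push Not at hcon
    obtain ⟨hc1, hc2⟩ := hcon
    have hc3 := hc1 hp.1
    rw [← series_zero, ← series_zero] at hc2
    have hs : ∀ u, 0 ≤ seriesTrunc (fam P x.2) G x.1 u := fun u => by
      rw [series_zero]
      exact R1_nonneg _ _ _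
    have h5 := R2_real (R2_mainT _ _ _) h0.le h1 hc3 hc2 (hs _)
    have h6 : 4 * ε₁ * (H33B.mainT (fam P x.2) G x.1 * seriesTrunc (fam P x.2) G x.1 z) ≤
        ε * (H33B.mainT (fam P x.2) G x.1 * seriesTrunc (fam P x.2) G x.1 z) :=
      mul_le_mul_of_nonneg_right h4 (mul_nonneg (R2_mainT _ _ _) (hs _))
    linarith [hp.2]
  · have hvol : 0 ≤ (Y : ℝ) * vol H := by
      unfold vol
      positivity
    nlinarith

open Classical in
/-- One linear polynomial `F_0` is fixed, the other constant terms vary. -/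
theorem one_fixed_z {g : ℕ} (G : ℤ[X]) (hG : 1 ≤ G.natDegree) (hlc : 0 < G.leadingCoeff)
    (F₀ : ℤ[X]) (hF₀ : F₀.natDegree = 1) (hF₀l : 0 < F₀.leadingCoeff)
    (P : Fin g → ℤ[X]) (hP : ∀ i, 1 ≤ (P i).natDegree) (hl : ∀ i, 0 < (P i).leadingCoeff)
    (C₁ : ℝ) (hC₁ : 1 ≤ C₁) (ε : ℝ) (hε : 0 < ε) :
    ∃ z₀ Y₀ : ℕ, ∀ z Y : ℕ, z₀ ≤ z → Y₀ ≤ Y → z ^ 3 ≤ argCount G Y → ∀ H : Fin g → ℕ,
    Fit C₁ (argCount G Y) P H →
    (((Icc 1 Y ×ˢ Box H).filter (fun x : ℕ × (Fin g → ℕ) =>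
      Admissible (Fin.cons F₀ (fam P x.2) : Fin (g + 1) → ℤ[X]) G x.1 ∧
      ε * (H33B.mainT (Fin.cons F₀ (fam P x.2) : Fin (g + 1) → ℤ[X]) G x.1 *
          seriesTrunc (Fin.cons F₀ (fam P x.2) : Fin (g + 1) → ℤ[X]) G x.1 z) <
        |(primeCount (Fin.cons F₀ (fam P x.2) : Fin (g + 1) → ℤ[X]) G x.1 : ℝ) -
          H33B.mainT (Fin.cons F₀ (fam P x.2) : Fin (g + 1) → ℤ[X]) G x.1 *
            seriesTrunc (Fin.cons F₀ (fam P x.2) : Fin (g + 1) → ℤ[X]) G x.1 z|)).card : ℝ) ≤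
      ε * Y * vol H := by
  set ε₁ : ℝ := min ε 1 / 4 with hε₁
  have hm0 : 0 < min ε 1 := lt_min hε one_pos
  have h0 : 0 < ε₁ := by positivity
  have h1 : ε₁ ≤ 1 / 2 := by
    have := min_le_right ε 1
    linarith
  have h4 : 4 * ε₁ ≤ ε := by
    have := min_le_left ε 1
    linarith
  obtain ⟨z₁, hz₁⟩ := one_fixed G hG hlc F₀ hF₀ hF₀l P hP hl C₁ hC₁ ε₁ h0
  obtain ⟨w₀, Y₁, hw₀⟩ := tail_pairs G hG hlc P hP 1 F₀
    ⟨_, Or.inr ⟨rfl, hF₀, le_rfl⟩⟩ C₁ hC₁ ε₁ h0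
  obtain ⟨Y₀, hY₀⟩ := hz₁ (max z₁ w₀) (le_max_left _ _)
  refine ⟨max z₁ w₀, max Y₀ Y₁, fun z Y hz hY hzX H hH => ?_⟩
  have h2 := hY₀ Y ((le_max_left _ _).trans hY) H hH
  have h3 := hw₀ (max z₁ w₀) z Y (le_max_right _ _) hz ((le_max_right _ _).trans hY) hzX H hH
  refine R2_card _ _ _ _ (fun x _ hp => ?_) _ _ _ h2 h3 ?_
  · by_contra hcon
    push Not at hcon
    obtain ⟨hc1, hc2⟩ := hcon
    have hc3 := hc1 hp.1
    rw [← series_one, ← series_one] at hc2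
    have hs : ∀ u, 0 ≤ seriesTrunc (Fin.cons F₀ (fam P x.2) : Fin (g + 1) → ℤ[X]) G x.1 u :=
      fun u => by
        rw [series_one]
        exact R1_nonneg _ _ _
    have h5 := R2_real (R2_mainT _ _ _) h0.le h1 hc3 hc2 (hs _)
    have h6 := mul_le_mul_of_nonneg_right h4 (mul_nonneg (R2_mainT
      (Fin.cons F₀ (fam P x.2) : Fin (g + 1) → ℤ[X]) G x.1) (hs z))
    linarith [hp.2]
  · have hvol : 0 ≤ (Y : ℝ) * vol H := by
      unfold vol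
      positivity
    nlinarith

end Pool.Agent.Lib.H59X
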