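import Pool.Agent.Lib.H59X.Defs
import Pool.Agent.Lib.H33B.FS

/-!
# Chunk S1: a uniform upper bound sieve in residue classes
-/

open Finset Polynomial

namespace Pool.Agent.Lib.H59X

open Pool.Agent.Lib.H59 (argSet argCount Admissible primeCount omegaN seriesTrunc rootCount)
open Pool.Agent.Lib.H68T (lp)
open Pool.Agent.Lib.H33B (Lq Lw PW SieveWt AllPrime)

/-- few `n` have all values prime and one of them divisible by a given prime -/
theorem S1_few {m : ℕ} (R : Fin m → ℤ[X]) (hd : ∀ i, 1 ≤ (R i).natDegree) (X p : ℕ) (hp : p.Prime)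
    (T : Finset ℕ) (hT : T ⊆ Icc 1 X) (hA : ∀ n ∈ T, AllPrime R n)
    (hdiv : ∀ n ∈ T, (p : ℤ) ∣ (∏ i, R i).eval (n : ℤ)) : T.card ≤ ∑ i, (R i).natDegree := by
  classical
  have hsub : T ⊆ Finset.univ.biUnion fun i => (Icc 1 X).filter fun n : ℕ =>
      (R i).eval (n : ℤ) = (p : ℤ) := by
    intro n hn
    have h := hdiv n hn
    rw [eval_prod] at h
    have hpZ := Nat.prime_iff_prime_int.1 hp
    obtain ⟨i, _, hi⟩ := (hpZ.dvd_finsetProd_iff _).1 h
    obtain ⟨r, hr, hre⟩ := hA n hn i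
    rw [mem_biUnion]
    refine ⟨i, mem_univ _, mem_filter.2 ⟨hT hn, ?_⟩⟩
    rw [hre] at hi ⊢
    rw [Int.natCast_dvd_natCast, Nat.prime_dvd_prime_iff_eq hp hr] at hi
    rw [hi]
  refine (card_le_card hsub).trans (card_biUnion_le.trans (sum_le_sum fun i _ => ?_))
  exact Pool.Agent.Lib.H59.card_value_le (hd i) _ _

theorem S1_ssz_nonneg (m : ℕ) (Q : ℤ[X]) (z : ℕ) : 0 ≤ ssz m Q z := by
  unfold ssz
  refine prod_nonneg fun p hp => ?_
  have hpp := Nat.prime_of_mem_primesBelow hp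
  have hp0 : (0 : ℝ) < p := by exact_mod_cast hpp.pos
  have h1 : (rootCount Q p : ℝ) ≤ p := by
    exact_mod_cast Pool.Agent.Lib.H59.rootCount_le_self Q p
  have h2 : (rootCount Q p : ℝ) / p ≤ 1 := (div_le_one hp0).2 h1
  have h3 : 1 / (p : ℝ) ≤ 1 := by
    rw [div_le_one hp0]; exact_mod_cast hpp.one_lt.le
  have h4 : (0 : ℝ) ≤ 1 - 1 / p := by linarith
  exact mul_nonneg (by linarith) (inv_nonneg.2 (pow_nonneg h4 m))

/-- the sieve in a good class -/
theorem S1_sieve {m : ℕ} (R : Fin m → ℤ[X]) (hd : ∀ i, 1 ≤ (R i).natDegree) (κ : ℕ)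
    (hκ : (∑ i, (R i).natDegree) ≤ κ) (X q b z : ℕ) (hq : 1 ≤ q) (hbq : b < q)
    (hroot : ∀ p : ℕ, p.Prime → p < z → rootCount (∏ i, R i) p < p ∧ rootCount (∏ i, R i) p ≤ κ)
    (hb : ∀ p ∈ q.primeFactors, ¬ (p : ℤ) ∣ (∏ i, R i).eval (b : ℤ))
    {r : ℝ} (hz : 2 ≤ z) (hr : 1 ≤ r)
    (hrz : (Real.log 2 + 28 * (κ : ℝ) * Real.log 4) * Real.log z ≤ Real.log r)
    (hX : r ^ 12 ≤ ((X / q : ℕ) : ℝ)) (T : Finset ℕ) (hT : T ⊆ Icc 1 X)
    (hA : ∀ n ∈ T, AllPrime R n ∧ n ≡ b [MOD q]) :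
    (T.card : ℝ) ≤ 4 * ((X / q : ℕ) : ℝ) * (((2 * κ + 2 : ℕ) : ℝ) ^ q.primeFactors.card *
      ∏ p ∈ Nat.primesBelow z, (1 - (rootCount (∏ i, R i) p : ℝ) / p)) + κ * z + 1 := by
  classical
  set M : ℕ := X / q with hM
  set H : ℤ[X] := H33B.FS_P (∏ i, R i) q b with hH
  have hroot' : ∀ p : ℕ, p.Prime → p < z → rootCount H p ≤ κ ∧ rootCount H p < p := by
    intro p hp hpz
    by_cases hpq : p ∣ q
    · rw [hH, H33B.FS_root0 _ b hpq (hb p (Nat.mem_primeFactors.2 ⟨hp, hpq, by omega⟩))]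
      exact ⟨Nat.zero_le _, hp.pos⟩
    · rw [hH, H33B.FS_root _ b hp hpq]
      exact ⟨(hroot p hp hpz).2, (hroot p hp hpz).1⟩
  obtain ⟨h1, h2⟩ := Pool.Agent.Lib.H59.poly_sieve H (κ := κ) (Y := z) (X := M) (R := r)
    (fun p hp h => (hroot' p hp h).1) (fun p hp h => (hroot' p hp h).2) hz hr hrz hX
  set T₁ := (Icc 1 M).filter fun n : ℕ => ∀ p ∈ Nat.primesBelow z, ¬ (p : ℤ) ∣ H.eval (n : ℤ)
    with hT₁
  set T₂ := (Finset.range z).biUnion fun r =>
    (Finset.univ.biUnion fun i => (Icc 1 M).filter fun n : ℕ =>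
      (H33B.FS_P (R i) q b).eval (n : ℤ) = (r : ℤ)) with hT₂
  have hT₂card : T₂.card ≤ κ * z := by
    have : ∀ r ∈ Finset.range z, ((Finset.univ.biUnion fun i => (Icc 1 M).filter fun n : ℕ =>
      (H33B.FS_P (R i) q b).eval (n : ℤ) = (r : ℤ))).card ≤ κ := by
      intro r _
      refine le_trans (card_biUnion_le.trans (sum_le_sum fun i _ => ?_)) hκ
      rw [← H33B.FS_deg (R i) hq b]
      exact Pool.Agent.Lib.H59.card_value_le (by rw [H33B.FS_deg (R i) hq b]; exact hd i) _ _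
    refine card_biUnion_le.trans ((sum_le_sum this).trans ?_)
    rw [sum_const, card_range, smul_eq_mul, mul_comm]
  have hcount : T.card ≤ (T₁ ∪ T₂).card + 1 := by
    have hsub : T ⊆ insert b ((T₁ ∪ T₂).image fun m => q * m + b) := by
      intro n hn
      have hn1 := mem_Icc.1 (hT hn)
      obtain ⟨hn2, hn3⟩ := hA n hn
      have h3 : n % q = b := by
        have h4 : n % q = b % q := hn3
        rwa [Nat.mod_eq_of_lt hbq] at h4
      have h4 : q * (n / q) + b = n := by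
        have := Nat.div_add_mod n q
        rwa [h3] at this
      rw [mem_insert, mem_image]
      rcases Nat.eq_zero_or_pos (n / q) with h5 | h5
      · left
        rw [h5] at h4
        omega
      · right
        refine ⟨n / q, ?_, h4⟩
        have hmM : n / q ∈ Icc 1 M := by
          rw [mem_Icc]
          exact ⟨h5, Nat.div_le_div_right hn1.2⟩
        by_cases hbig : ∀ i, ∀ r : ℕ, (R i).eval (n : ℤ) = r → z ≤ r
        · rw [mem_union]
          left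
          rw [hT₁, mem_filter]
          refine ⟨hmM, fun p hp hpd => ?_⟩
          have hpp := Nat.prime_of_mem_primesBelow hp
          have hpz := Nat.lt_of_mem_primesBelow hp
          rw [hH, H33B.FS_eval, h4, eval_prod] at hpd
          obtain ⟨i, _, hi⟩ := ((Nat.prime_iff_prime_int.1 hpp).dvd_finsetProd_iff _).1 hpd
          obtain ⟨r, hr, hre⟩ := hn2 i
          rw [hre, Int.natCast_dvd_natCast, Nat.prime_dvd_prime_iff_eq hpp hr] at hi
          have := hbig i r hre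
          omega
        · push Not at hbig
          obtain ⟨i, r, hr, hrz⟩ := hbig
          rw [mem_union]
          right
          rw [hT₂, mem_biUnion]
          refine ⟨r, Finset.mem_range.2 hrz, ?_⟩
          rw [mem_biUnion]
          refine ⟨i, Finset.mem_univ _, mem_filter.2 ⟨hmM, ?_⟩⟩
          rw [H33B.FS_eval, h4, hr]
    refine (card_le_card hsub).trans ((card_insert_le _ _).trans ?_)
    exact Nat.add_le_add_right card_image_le 1
  have hcount' : T.card ≤ T₁.card + κ * z + 1 := by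
    have := card_union_le T₁ T₂
    omega
  have hcount'' : (T.card : ℝ) ≤ T₁.card + κ * z + 1 := by exact_mod_cast hcount'
  have hfac : ∀ p ∈ Nat.primesBelow z, 0 ≤ 1 - (rootCount (∏ i, R i) p : ℝ) / p := by
    intro p hp
    have hpp := Nat.prime_of_mem_primesBelow hp
    have hp0 : (0 : ℝ) < p := by exact_mod_cast hpp.pos
    have h3 : (rootCount (∏ i, R i) p : ℝ) ≤ p := by
      exact_mod_cast Pool.Agent.Lib.H59.rootCount_le_self _ p
    have h4 : (rootCount (∏ i, R i) p : ℝ) / p ≤ 1 := (div_le_one hp0).2 h3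
    linarith
  have hprod : ∏ p ∈ Nat.primesBelow z, (1 - (rootCount H p : ℝ) / p) ≤
      ((2 * κ + 2 : ℕ) : ℝ) ^ q.primeFactors.card *
      ∏ p ∈ Nat.primesBelow z, (1 - (rootCount (∏ i, R i) p : ℝ) / p) := by
    have h3 : ∏ p ∈ Nat.primesBelow z, (1 - (rootCount H p : ℝ) / p) ≤
        ∏ p ∈ Nat.primesBelow z, ((1 - (rootCount (∏ i, R i) p : ℝ) / p) *
          (if p ∣ q then ((2 * κ + 2 : ℕ) : ℝ) else 1)) := by
      refine prod_le_prod (fun p hp => ?_) fun p hp => ?_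
      · have hpp := Nat.prime_of_mem_primesBelow hp
        have hp0 : (0 : ℝ) < p := by exact_mod_cast hpp.pos
        have h3 : (rootCount H p : ℝ) ≤ p := by
          exact_mod_cast Pool.Agent.Lib.H59.rootCount_le_self _ p
        have h4 : (rootCount H p : ℝ) / p ≤ 1 := (div_le_one hp0).2 h3
        linarith
      · have hpp := Nat.prime_of_mem_primesBelow hp
        have hpz := Nat.lt_of_mem_primesBelow hp
        have hp0 : (0 : ℝ) < p := by exact_mod_cast hpp.pos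
        split_ifs with hpq
        · rw [hH, H33B.FS_root0 _ b hpq (hb p (Nat.mem_primeFactors.2 ⟨hpp, hpq, by omega⟩))]
          obtain ⟨a1, a2⟩ := hroot p hpp hpz
          simp only [Nat.cast_zero, zero_div, sub_zero]
          have a3 : (rootCount (∏ i, R i) p : ℝ) + 1 ≤ p := by exact_mod_cast a1
          have a4 : (rootCount (∏ i, R i) p : ℝ) ≤ κ := by exact_mod_cast a2
          push_cast
          have a5 : (0 : ℝ) ≤ κ := Nat.cast_nonneg _
          have a6 : 1 - (rootCount (∏ i, R i) p : ℝ) / p = (p - rootCount (∏ i, R i) p) / p := by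
            field_simp
          rw [a6, div_mul_eq_mul_div, le_div_iff₀ hp0, one_mul]
          rcases le_or_gt (p : ℝ) (2 * κ + 1) with h5 | h5
          · have h6 : (1 : ℝ) ≤ p - rootCount (∏ i, R i) p := by linarith
            nlinarith
          · have h6 : (p : ℝ) / 2 ≤ p - rootCount (∏ i, R i) p := by linarith
            nlinarith
        · rw [hH, H33B.FS_root _ b hpp hpq, mul_one]
    refine h3.trans ?_
    rw [prod_mul_distrib, mul_comm]
    apply mul_le_mul_of_nonneg_right _ (prod_nonneg hfac)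
    rw [← prod_filter, prod_const]
    apply pow_le_pow_right₀
    · push_cast
      have a5 : (0 : ℝ) ≤ κ := Nat.cast_nonneg _
      linarith
    · apply card_le_card
      intro p hp
      rw [mem_filter] at hp
      exact Nat.mem_primeFactors.2 ⟨Nat.prime_of_mem_primesBelow hp.1, hp.2, by omega⟩
  have h5 : (T₁.card : ℝ) ≤ 4 * M * (((2 * κ + 2 : ℕ) : ℝ) ^ q.primeFactors.card *
      ∏ p ∈ Nat.primesBelow z, (1 - (rootCount (∏ i, R i) p : ℝ) / p)) :=
    h1.trans (mul_le_mul_of_nonneg_left hprod (by positivity))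
  linarith

theorem S1_bh (m : ℕ) (Q : ℤ[X]) (z : ℕ) :
    ∏ p ∈ Nat.primesBelow z, (1 - (rootCount Q p : ℝ) / p) =
      ssz m Q z * (∏ p ∈ Nat.primesBelow z, (1 - (p : ℝ)⁻¹)) ^ m := by
  unfold ssz
  rw [← prod_pow, ← prod_mul_distrib]
  refine prod_congr rfl fun p hp => ?_
  have hpp := Nat.prime_of_mem_primesBelow hp
  have hp0 : (1 : ℝ) < p := by exact_mod_cast hpp.one_lt
  have h2 : 0 < 1 - (p : ℝ)⁻¹ := by
    have : (p : ℝ)⁻¹ < 1 := inv_lt_one_of_one_lt₀ hp0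
    linarith
  rw [mul_assoc, one_div, inv_mul_cancel₀, mul_one]
  positivity

open Filter in
theorem S1_ev (M κ m : ℕ) (hM1 : 14 ≤ M) (K : ℝ) : ∃ X₀ : ℕ, 3 ≤ X₀ ∧ ∀ X : ℕ, X₀ ≤ X →
    1 ≤ Real.log X ∧ 2 ≤ (X : ℝ) ^ ((1 : ℝ) / (2 * M)) ∧
    (2 * κ + 2) * (Real.log X ^ K * Real.log X ^ m) ≤ (X : ℝ) ^ ((1 : ℝ) / 2) ∧
    2 * Real.log X ^ K ≤ (X : ℝ) ^ ((1 : ℝ) / 14) := by
  have hlog : Tendsto (fun X : ℕ => Real.log (X : ℝ)) atTop atTop :=
    Real.tendsto_log_atTop.comp tendsto_natCast_atTop_atTop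
  have hM0 : (0 : ℝ) < (1 : ℝ) / (2 * M) := by
    have : (0 : ℝ) < M := by exact_mod_cast (by omega : 0 < M)
    positivity
  have h2 : ∀ᶠ X : ℕ in atTop, 2 ≤ (X : ℝ) ^ ((1 : ℝ) / (2 * M)) :=
    ((tendsto_rpow_atTop hM0).comp tendsto_natCast_atTop_atTop).eventually_ge_atTop 2
  have hκ : (0 : ℝ) < 2 * κ + 2 := by positivity
  have h3 : ∀ᶠ x : ℝ in atTop, ‖Real.log x ^ (K + m)‖ ≤ (1 / (2 * κ + 2)) * ‖x ^ ((1 : ℝ) / 2)‖ :=
    (isLittleO_log_rpow_rpow_atTop (K + m) (by norm_num)).bound (by positivity)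
  have h4 : ∀ᶠ x : ℝ in atTop, ‖Real.log x ^ K‖ ≤ (1 / 2) * ‖x ^ ((1 : ℝ) / 14)‖ :=
    (isLittleO_log_rpow_rpow_atTop K (by norm_num)).bound (by positivity)
  obtain ⟨X₀, hX₀⟩ := eventually_atTop.1 ((hlog.eventually_ge_atTop 1).and (h2.and
    (((tendsto_natCast_atTop_atTop (R := ℝ)).eventually h3).and
      ((tendsto_natCast_atTop_atTop (R := ℝ)).eventually h4))))
  refine ⟨max X₀ 3, le_max_right _ _, fun X hX => ?_⟩
  obtain ⟨a1, a2, a3, a4⟩ := hX₀ X ((le_max_left _ _).trans hX)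
  have hl0 : 0 < Real.log (X : ℝ) := by linarith
  rw [Real.norm_of_nonneg (Real.rpow_nonneg hl0.le _),
    Real.norm_of_nonneg (Real.rpow_nonneg (Nat.cast_nonneg _) _)] at a3 a4
  refine ⟨a1, a2, ?_, by linarith⟩
  rw [Real.rpow_add hl0, Real.rpow_natCast] at a3
  have h5 := mul_le_mul_of_nonneg_left a3 hκ.le
  have h6 : (2 * (κ : ℝ) + 2) * (1 / (2 * κ + 2) * (X : ℝ) ^ ((1 : ℝ) / 2)) =
      (X : ℝ) ^ ((1 : ℝ) / 2) := by field_simp
  linarith

open Classical in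
/-- All constants depend only on `m`, `κ` and `K`: uniform in the polynomials.

Proof. (Compare `H33B.FS_caseA`, `FS_caseB`, `FS_large`, the same for a fixed system; `H33B.FS_P`, `FS_root`, `FS_root0`, `FS_deg`, `FS_eval` can be used.)
`M = 14 (40 κ + 1)`, `Q = ∏ R_i`, `z = zz M X ≤ X^(1/M)`, `z → ∞`. A value `R_i(n) = c` is taken for at most `deg R_i` of the `n` (`H59.card_value_le`).
(A) If `rootCount Q p = p` for a prime `p < z`, then `p ∣ Q(n)` for all `n`, so if all `R_i(n)` are primes one of them is `p`: at most `κ` such `n`.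
(B) Otherwise `rootCount Q p < p`, hence `≤ κ`, for all `p < z`. If a prime `p ∣ q` divides `Q(b)` then for `n ≡ b` some `R_i(n)` is divisible by `p`: again at most `κ` such `n`.
Otherwise put `b' = b % q` and `n = b' + q m`, `0 ≤ m ≤ X/q` (`m = 0` is at most one `n`). The polynomial `H = Q(q x + b')` has `rootCount H p = rootCount Q p` for `p ∤ q` and `0` for
`p ∣ q`. `H59.poly_sieve` for `H`, `κ`, `Y = z`, `X := X / q`, `R = X^(1/14)` (`R^12 ≤ X / q` as `q ≤ (log X)^K`, and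
`(log 2 + 28 κ log 4) log z ≤ log R` by the choice of `M`): at most `4 (X/q) ∏_{p < z, p ∤ q} (1 - ρ_p/p)` of the `m` have `H(m)` prime to all `p < z`. For the other `n` with all `R_i(n)` prime one of
these is `< z`: at most `κ z` such `n`. Moreover `∏_{p < z, p ∤ q} (1 - ρ_p/p) ≤ (2κ+2)^(ω(q)) ∏_{p < z} (1 - ρ_p/p)` (`1 - ρ_p/p ≥ 1/(2κ+2)`: for `p ≤ 2κ` it is `≥ 1/p`, for
`p > 2κ` it is `≥ 1/2`) and `∏_{p < z} (1 - ρ_p/p) = ssz m Q z ∏_{p < z} (1 - 1/p)^m ≤ ssz m Q z (C/log z)^m ≤ ssz m Q z (C_M/log X)^m` (Mertens,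
`H59.prod_one_sub_inv_le`). The additional `κ z + κ + 1` is at most `X/(q (log X)^m)` for large `X` (the term `1` in `1 + ssz`). -/
theorem class_sieve (m κ : ℕ) : ∃ M₀ : ℕ, ∀ M : ℕ, M₀ ≤ M → 1 ≤ M → ∃ C : ℝ, 0 < C ∧ ∀ K : ℝ,
    ∃ X₀ : ℕ, ∀ X : ℕ, X₀ ≤ X →
    ∀ R : Fin m → ℤ[X], (∀ i, 1 ≤ (R i).natDegree) → (∑ i, (R i).natDegree) ≤ κ →
    (∀ p : ℕ, p.Prime → rootCount (∏ i, R i) p < p → rootCount (∏ i, R i) p ≤ κ) →
    ∀ q b : ℕ, Squarefree q → (q : ℝ) ≤ Real.log X ^ K →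
    (((Icc 1 X).filter (fun n => n ≡ b [MOD q] ∧ AllPrime R n)).card : ℝ) ≤
      ((2 * κ + 2 : ℕ) : ℝ) ^ q.primeFactors.card * ((X : ℝ) / q) * (C / Real.log X ^ m) *
        (1 + ssz m (∏ i, R i) (zz M X)) := by
  refine ⟨14 * (40 * κ + 1), fun M hM hM1 => ⟨4 * (2 * M) ^ m + 1, by positivity, fun K => ?_⟩⟩
  have hM14 : 14 ≤ M := le_trans (by nlinarith) hM
  obtain ⟨X₀, hX₀3, hX₀⟩ := S1_ev M κ m hM14 K
  refine ⟨X₀, fun X hX R hd hκ hroot q b hq hqK => ?_⟩
  obtain ⟨e1, e2, e3, e4⟩ := hX₀ X hX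
  have hX3 : (3 : ℝ) ≤ X := by exact_mod_cast hX₀3.trans hX
  have hX0 : (0 : ℝ) < X := by linarith
  have hX1 : (1 : ℝ) ≤ X := by linarith
  have hl0 : 0 < Real.log (X : ℝ) := by linarith
  have hqn : 1 ≤ q := Nat.one_le_iff_ne_zero.2 hq.ne_zero
  have hq0 : (0 : ℝ) < q := by exact_mod_cast hqn
  have hMpos : (0 : ℝ) < M := by exact_mod_cast (by omega : 0 < M)
  set z := zz M X with hz
  set Q := ∏ i, R i with hQ
  set T := (Icc 1 X).filter (fun n => n ≡ b [MOD q] ∧ AllPrime R n) with hT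
  have hTsub : T ⊆ Icc 1 X := filter_subset _ _
  have hTA : ∀ n ∈ T, AllPrime R n := fun n hn => (mem_filter.1 hn).2.2
  have hTb : ∀ n ∈ T, n ≡ b [MOD q] := fun n hn => (mem_filter.1 hn).2.1
  have hss := S1_ssz_nonneg m Q z
  have hκ0 : (0 : ℝ) ≤ κ := Nat.cast_nonneg _
  -- `z ≤ X^(1/M)`
  have hy0 : 0 < (X : ℝ) ^ ((1 : ℝ) / M) := Real.rpow_pos_of_pos hX0 _
  have hzle : (z : ℝ) ≤ (X : ℝ) ^ ((1 : ℝ) / M) := Nat.floor_le hy0.le
  have hz14 : (z : ℝ) ≤ (X : ℝ) ^ ((1 : ℝ) / 14) := by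
    refine hzle.trans (Real.rpow_le_rpow_of_exponent_le hX1 ?_)
    exact one_div_le_one_div_of_le (by norm_num) (by exact_mod_cast hM14)
  have hXpow : (X : ℝ) ^ ((1 : ℝ) / 14) * (X : ℝ) ^ ((1 : ℝ) / 2) ≤ X := by
    rw [← Real.rpow_add hX0]
    calc (X : ℝ) ^ ((1 : ℝ) / 14 + 1 / 2) ≤ (X : ℝ) ^ (1 : ℝ) :=
          Real.rpow_le_rpow_of_exponent_le hX1 (by norm_num)
      _ = X := Real.rpow_one _
  have hX14 : (1 : ℝ) ≤ (X : ℝ) ^ ((1 : ℝ) / 14) := Real.one_le_rpow hX1 (by norm_num)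
  -- the small terms
  have hsmall : (κ : ℝ) * z + κ + 1 ≤ (X : ℝ) / q / Real.log X ^ m := by
    rw [le_div_iff₀ (by positivity), le_div_iff₀ hq0]
    have h1 : (κ : ℝ) * z + κ + 1 ≤ (2 * κ + 2) * (X : ℝ) ^ ((1 : ℝ) / 14) := by nlinarith
    calc ((κ : ℝ) * z + κ + 1) * Real.log X ^ m * q
        ≤ ((2 * κ + 2) * (X : ℝ) ^ ((1 : ℝ) / 14)) * Real.log X ^ m * Real.log X ^ K := by
          apply mul_le_mul _ hqK hq0.le (by positivity)
          exact mul_le_mul_of_nonneg_right h1 (by positivity)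
      _ = (X : ℝ) ^ ((1 : ℝ) / 14) * ((2 * κ + 2) * (Real.log X ^ K * Real.log X ^ m)) := by ring
      _ ≤ (X : ℝ) ^ ((1 : ℝ) / 14) * (X : ℝ) ^ ((1 : ℝ) / 2) :=
          mul_le_mul_of_nonneg_left e3 (by positivity)
      _ ≤ X := hXpow
  have hD1 : (1 : ℝ) ≤ ((2 * κ + 2 : ℕ) : ℝ) ^ q.primeFactors.card :=
    one_le_pow₀ (by push_cast; linarith)
  set Dq := ((2 * κ + 2 : ℕ) : ℝ) ^ q.primeFactors.card with hDq
  have hE0 : 0 ≤ (X : ℝ) / q / Real.log X ^ m := by positivity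
  have hgoal : ∀ t : ℝ, t ≤ (X : ℝ) / q / Real.log X ^ m →
      t ≤ Dq * ((X : ℝ) / q) * ((4 * (2 * M) ^ m + 1) / Real.log X ^ m) * (1 + ssz m Q z) := by
    intro t ht
    refine ht.trans ?_
    have h1 : Dq * ((X : ℝ) / q) * ((4 * (2 * M) ^ m + 1) / Real.log X ^ m) * (1 + ssz m Q z) =
        ((X : ℝ) / q / Real.log X ^ m) * (Dq * (4 * (2 * M) ^ m + 1) * (1 + ssz m Q z)) := by ring
    rw [h1]
    refine le_mul_of_one_le_right hE0 ?_
    have h2 : (1 : ℝ) ≤ 4 * (2 * M) ^ m + 1 := by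
      have : (0 : ℝ) ≤ (2 * M) ^ m := by positivity
      linarith
    exact one_le_mul_of_one_le_of_one_le (one_le_mul_of_one_le_of_one_le hD1 h2) (by linarith)
  have hfew : ∀ p : ℕ, p.Prime → (∀ n ∈ T, (p : ℤ) ∣ Q.eval (n : ℤ)) →
      (T.card : ℝ) ≤ Dq * ((X : ℝ) / q) * ((4 * (2 * M) ^ m + 1) / Real.log X ^ m) *
        (1 + ssz m Q z) := by
    intro p hp h
    apply hgoal
    have h1 := (S1_few R hd X p hp T hTsub hTA h).trans hκ
    have h2 : (T.card : ℝ) ≤ κ := by exact_mod_cast h1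
    have h3 : (0 : ℝ) ≤ κ * z := by positivity
    linarith
  -- case A
  by_cases hA : ∃ p : ℕ, p.Prime ∧ p < z ∧ p ≤ rootCount Q p
  · obtain ⟨p, hp, _, hpr⟩ := hA
    refine hfew p hp fun n _ => ?_
    have h1 : (Finset.range p).filter (fun a : ℕ => (p : ℤ) ∣ Q.eval (a : ℤ)) = Finset.range p := by
      apply eq_of_subset_of_card_le (filter_subset _ _)
      rw [card_range]
      exact hpr
    have h2 : n % p ∈ (Finset.range p).filter (fun a : ℕ => (p : ℤ) ∣ Q.eval (a : ℤ)) := by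
      rw [h1, Finset.mem_range]
      exact Nat.mod_lt _ hp.pos
    rw [mem_filter] at h2
    exact (Pool.Agent.Lib.H59.dvd_eval_mod_iff Q p n).1 h2.2
  push Not at hA
  -- case B1
  by_cases hB : ∃ p ∈ q.primeFactors, (p : ℤ) ∣ Q.eval ((b % q : ℕ) : ℤ)
  · obtain ⟨p, hp, hpd⟩ := hB
    rw [Nat.mem_primeFactors] at hp
    refine hfew p hp.1 fun n hn => ?_
    have h1 : n % p = (b % q) % p := by
      have h2 : n ≡ b [MOD p] := (hTb n hn).of_dvd hp.2.1
      have h3 : b % q ≡ b [MOD p] := (Nat.mod_modEq b q).of_dvd hp.2.1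
      exact h2.trans h3.symm
    rw [← Pool.Agent.Lib.H59.dvd_eval_mod_iff, h1, Pool.Agent.Lib.H59.dvd_eval_mod_iff]
    exact hpd
  push Not at hB
  -- case B2
  have hzy : (X : ℝ) ^ ((1 : ℝ) / (2 * M)) ≤ z := by
    have h1 : (X : ℝ) ^ ((1 : ℝ) / M) = ((X : ℝ) ^ ((1 : ℝ) / (2 * M))) ^ 2 := by
      rw [← Real.rpow_natCast, ← Real.rpow_mul hX0.le]
      congr 1
      push_cast
      field_simp
    have h2 : (X : ℝ) ^ ((1 : ℝ) / M) < z + 1 := Nat.lt_floor_add_one _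
    rw [h1] at h2
    nlinarith
  have hz2 : 2 ≤ z := by
    have : (2 : ℝ) ≤ z := e2.trans hzy
    exact_mod_cast this
  have hlogz : Real.log X / (2 * M) ≤ Real.log z := by
    have h1 := Real.log_le_log (Real.rpow_pos_of_pos hX0 _) hzy
    rw [Real.log_rpow hX0] at h1
    calc Real.log X / (2 * M) = 1 / (2 * M) * Real.log X := by ring
      _ ≤ _ := h1
  have hlogz' : Real.log z ≤ 1 / M * Real.log X := by
    have h1 := Real.log_le_log (by
      have : (2 : ℝ) ≤ z := by exact_mod_cast hz2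
      linarith) hzle
    rwa [Real.log_rpow hX0] at h1
  have hlogz0 : 0 < Real.log z := lt_of_lt_of_le (by positivity) hlogz
  set r : ℝ := (X : ℝ) ^ ((1 : ℝ) / 14) with hr
  have hr12 : r ^ 12 ≤ ((X / q : ℕ) : ℝ) := by
    have h1 : (X : ℝ) / q - 1 < ((X / q : ℕ) : ℝ) := by
      have h1 := Nat.lt_div_mul_add (a := X) (b := q) (by omega)
      have h2 : (X : ℝ) < ((X / q : ℕ) : ℝ) * q + q := by exact_mod_cast h1
      rw [sub_lt_iff_lt_add, div_lt_iff₀ hq0]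
      linarith
    have h2 : 2 * (X : ℝ) ^ ((13 : ℝ) / 14) ≤ X / q := by
      rw [le_div_iff₀ hq0]
      have h3 : (X : ℝ) ^ ((13 : ℝ) / 14) * r = X := by
        rw [hr, ← Real.rpow_add hX0]
        norm_num
      calc 2 * (X : ℝ) ^ ((13 : ℝ) / 14) * q ≤ 2 * (X : ℝ) ^ ((13 : ℝ) / 14) * Real.log X ^ K :=
            mul_le_mul_of_nonneg_left hqK (by positivity)
        _ = (X : ℝ) ^ ((13 : ℝ) / 14) * (2 * Real.log X ^ K) := by ring
        _ ≤ (X : ℝ) ^ ((13 : ℝ) / 14) * r := mul_le_mul_of_nonneg_left e4 (by positivity)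
        _ = X := h3
    have h4 : r ^ 12 ≤ (X : ℝ) ^ ((13 : ℝ) / 14) := by
      rw [hr, ← Real.rpow_natCast, ← Real.rpow_mul hX0.le]
      apply Real.rpow_le_rpow_of_exponent_le hX1
      norm_num
    have h5 : (1 : ℝ) ≤ (X : ℝ) ^ ((13 : ℝ) / 14) := Real.one_le_rpow hX1 (by norm_num)
    linarith
  have hrz : (Real.log 2 + 28 * (κ : ℝ) * Real.log 4) * Real.log z ≤ Real.log r := by
    rw [hr, Real.log_rpow hX0]
    have hl2 : Real.log 2 ≤ 1 := by linarith [Real.log_two_lt_d9]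
    have hl4 : Real.log 4 ≤ 10 / 7 := by
      have : Real.log 4 = 2 * Real.log 2 := by
        rw [show (4:ℝ) = 2 ^ 2 by norm_num, Real.log_pow]; norm_num
      linarith [Real.log_two_lt_d9]
    have h1 : Real.log 2 + 28 * (κ : ℝ) * Real.log 4 ≤ 1 + 40 * κ := by nlinarith
    have h2 : (0 : ℝ) ≤ 1 + 40 * κ := by positivity
    have h3 : 14 * (40 * (κ : ℝ) + 1) ≤ M := by exact_mod_cast hM
    calc (Real.log 2 + 28 * (κ : ℝ) * Real.log 4) * Real.log z
        ≤ (1 + 40 * κ) * (1 / M * Real.log X) :=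
          mul_le_mul h1 hlogz' hlogz0.le h2
      _ = ((1 + 40 * κ) / M) * Real.log X := by ring
      _ ≤ (1 / 14) * Real.log X := by
          apply mul_le_mul_of_nonneg_right _ hl0.le
          rw [div_le_div_iff₀ hMpos (by norm_num)]
          linarith
  have hsieve := S1_sieve R hd κ hκ X q (b % q) z hqn (Nat.mod_lt _ (by omega))
    (fun p hp hpz => ⟨hA p hp hpz, hroot p hp (hA p hp hpz)⟩) hB hz2 hX14 hrz hr12 T hTsub
    (fun n hn => ⟨hTA n hn, (hTb n hn).trans (Nat.mod_modEq b q).symm⟩)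
  have hMq : ((X / q : ℕ) : ℝ) ≤ X / q := Nat.cast_div_le
  have hpr : ∏ p ∈ Nat.primesBelow z, (1 - (rootCount Q p : ℝ) / p) ≤
      ssz m Q z * ((2 * M) ^ m / Real.log X ^ m) := by
    rw [S1_bh m Q z]
    apply mul_le_mul_of_nonneg_left _ hss
    have h0 : 0 ≤ ∏ p ∈ Nat.primesBelow z, (1 - (p : ℝ)⁻¹) := by
      refine prod_nonneg fun p hp => ?_
      have h1 : (1 : ℝ) < p := by exact_mod_cast (Nat.prime_of_mem_primesBelow hp).one_lt
      have : (p : ℝ)⁻¹ < 1 := inv_lt_one_of_one_lt₀ h1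
      linarith
    have h1 : ∏ p ∈ Nat.primesBelow z, (1 - (p : ℝ)⁻¹) ≤ 2 * M / Real.log X := by
      refine (Pool.Agent.Lib.H59.prod_one_sub_inv_le hz2).trans ?_
      calc 1 / Real.log z ≤ 1 / (Real.log X / (2 * M)) :=
            one_div_le_one_div_of_le (by positivity) hlogz
        _ = 2 * M / Real.log X := by rw [one_div_div]
    calc _ ≤ (2 * M / Real.log X) ^ m := pow_le_pow_left₀ h0 h1 m
      _ = _ := div_pow _ _ _
  have hmain : 4 * ((X / q : ℕ) : ℝ) * (Dq *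
      ∏ p ∈ Nat.primesBelow z, (1 - (rootCount Q p : ℝ) / p)) ≤
      Dq * ((X : ℝ) / q) * (4 * (2 * M) ^ m / Real.log X ^ m) * ssz m Q z := by
    have hD0 : 0 ≤ Dq := by linarith
    calc 4 * ((X / q : ℕ) : ℝ) * (Dq *
        ∏ p ∈ Nat.primesBelow z, (1 - (rootCount Q p : ℝ) / p)) ≤
        4 * ((X : ℝ) / q) * (Dq * (ssz m Q z * ((2 * M) ^ m / Real.log X ^ m))) := by
          have h1 : 0 ≤ Dq * (ssz m Q z * ((2 * M) ^ m / Real.log X ^ m)) := by positivity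
          calc _ ≤ 4 * ((X / q : ℕ) : ℝ) * (Dq * (ssz m Q z * ((2 * M) ^ m / Real.log X ^ m))) := by
                apply mul_le_mul_of_nonneg_left _ (by positivity)
                exact mul_le_mul_of_nonneg_left hpr hD0
            _ ≤ _ := by
                apply mul_le_mul_of_nonneg_right _ h1
                linarith
      _ = _ := by ring
  have hD0 : 0 ≤ Dq := by linarith
  have h3 : (κ : ℝ) * z + 1 ≤ Dq * ((X : ℝ) / q) * (1 / Real.log X ^ m) := by
    have h4 : (κ : ℝ) * z + 1 ≤ (X : ℝ) / q / Real.log X ^ m := by linarith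
    refine h4.trans ?_
    have h5 : Dq * ((X : ℝ) / q) * (1 / Real.log X ^ m) = Dq * ((X : ℝ) / q / Real.log X ^ m) := by
      ring
    rw [h5]
    exact le_mul_of_one_le_left hE0 hD1
  have h6 : 0 ≤ Dq * ((X : ℝ) / q) * (1 / Real.log X ^ m) * ssz m Q z := by positivity
  have h7 : 0 ≤ Dq * ((X : ℝ) / q) * (4 * (2 * M) ^ m / Real.log X ^ m) := by positivity
  calc (T.card : ℝ) ≤ _ := hsieve
    _ ≤ Dq * ((X : ℝ) / q) * (4 * (2 * M) ^ m / Real.log X ^ m) * ssz m Q z +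
        Dq * ((X : ℝ) / q) * (1 / Real.log X ^ m) := by linarith
    _ ≤ Dq * ((X : ℝ) / q) * (4 * (2 * M) ^ m / Real.log X ^ m) * ssz m Q z +
        Dq * ((X : ℝ) / q) * (1 / Real.log X ^ m) +
        Dq * ((X : ℝ) / q) * (1 / Real.log X ^ m) * ssz m Q z +
        Dq * ((X : ℝ) / q) * (4 * (2 * M) ^ m / Real.log X ^ m) := by linarith
    _ = _ := by ring

end Pool.Agent.Lib.H59X
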