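import Pool.Agent.Lib.H59X.S1
import Pool.Agent.Lib.H59X.L1
import Pool.Agent.Lib.H59.SchinzelUpper

/-!
# Chunk S2: the weights
-/

open Finset Polynomial

namespace Pool.Agent.Lib.H59X

open Pool.Agent.Lib.H59 (argSet argCount Admissible primeCount omegaN seriesTrunc rootCount)
open Pool.Agent.Lib.H68T (lp)
open Pool.Agent.Lib.H33B (Lq Lw PW SieveWt AllPrime)

theorem s2_root1 {f : ℤ[X]} {p : ℕ} (hp : p.Prime) (h : ¬ (p : ℤ) ∣ f.leadingCoeff) :
    rootCount f p ≤ f.natDegree := by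
  classical
  have : Fact p.Prime := ⟨hp⟩
  set g := f.map (Int.castRingHom (ZMod p)) with hg
  have hg0 : g ≠ 0 := by
    intro h0
    apply h
    have h1 : g.coeff f.natDegree = 0 := by rw [h0, coeff_zero]
    rw [hg, coeff_map, eq_intCast] at h1
    exact (ZMod.intCast_zmod_eq_zero_iff_dvd _ _).mp h1
  have h1 : rootCount f p ≤ g.roots.toFinset.card := by
    unfold rootCount
    refine Finset.card_le_card_of_injOn (fun a : ℕ => (a : ZMod p)) ?_ ?_
    · intro a ha
      rw [Finset.mem_coe, Finset.mem_filter] at ha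
      rw [Finset.mem_coe, Multiset.mem_toFinset, mem_roots hg0, IsRoot.def, hg]
      have h2 : ((f.eval (a : ℤ) : ℤ) : ZMod p) = 0 :=
        (ZMod.intCast_zmod_eq_zero_iff_dvd _ _).mpr ha.2
      rw [eval_map, eval₂_eq_eval_map] at *
      have h3 := eval_intCast_map (Int.castRingHom (ZMod p)) f (a : ℤ)
      simp only [Int.cast_natCast, eq_intCast] at h3
      rw [h3]
      exact h2
    · intro a ha b hb hab
      rw [Finset.mem_coe, Finset.mem_filter, Finset.mem_range] at ha hb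
      have := (ZMod.natCast_eq_natCast_iff' a b p).mp hab
      rwa [Nat.mod_eq_of_lt ha.1, Nat.mod_eq_of_lt hb.1] at this
  refine h1.trans ((Multiset.toFinset_card_le _).trans ((card_roots' g).trans ?_))
  rw [hg]
  exact natDegree_map_le

theorem s2_root {m : ℕ} (R : Fin m → ℤ[X]) (A κ : ℕ) (hd : ∀ i, 1 ≤ (R i).natDegree)
    (hlc : ∀ i, (R i).leadingCoeff.natAbs ≤ A) (hs : ∑ i, (R i).natDegree ≤ κ) (hA : A ≤ κ)
    (p : ℕ) (hp : p.Prime) (h : rootCount (∏ i, R i) p < p) : rootCount (∏ i, R i) p ≤ κ := by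
  by_cases hpA : p ≤ A
  · omega
  · refine (Pool.Agent.Lib.H59.rootCount_prod_le univ R hp).trans
      ((sum_le_sum fun i _ => s2_root1 hp ?_).trans hs)
    intro h1
    have h2 : (R i).leadingCoeff ≠ 0 := by
      rw [Ne, leadingCoeff_eq_zero]
      intro h0
      have := hd i
      rw [h0, natDegree_zero] at this
      omega
    have h3 := Int.natAbs_dvd_natAbs.2 h1
    rw [Int.natAbs_natCast] at h3
    have h4 := Nat.le_of_dvd (Int.natAbs_pos.2 h2) h3
    have := hlc i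
    omega

theorem s2_lp0 (m : ℤ) : 0 ≤ lp m := by
  unfold H68T.lp
  split_ifs with h
  · apply Real.log_nonneg
    have h1 : 0 < m := by
      by_contra h2
      rw [Int.toNat_of_nonpos (not_lt.1 h2)] at h
      exact Nat.not_prime_zero h
    exact_mod_cast h1
  · exact le_rfl

theorem s2_lpe (m : ℤ) (h : lp m ≠ 0) : ∃ q : ℕ, q.Prime ∧ m = q := by
  unfold H68T.lp at h
  have h1 : m.toNat.Prime := by
    by_contra h1
    rw [if_neg h1] at h
    exact h rfl
  have h2 : 0 < m := by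
    by_contra h2
    rw [Int.toNat_of_nonpos (not_lt.1 h2)] at h1
    exact Nat.not_prime_zero h1
  exact ⟨m.toNat, h1, (Int.toNat_of_nonneg h2.le).symm⟩

theorem s2_lple (m : ℤ) {T L : ℝ} (hT : (m : ℝ) ≤ T) (hL0 : 0 ≤ L) (hL : Real.log T ≤ L) :
    lp m ≤ L := by
  by_cases h : lp m = 0
  · rw [h]; exact hL0
  · obtain ⟨q, hq, hm⟩ := s2_lpe m h
    unfold H68T.lp
    rw [if_pos (by rw [hm, Int.toNat_natCast]; exact hq)]
    refine le_trans (Real.log_le_log ?_ hT) hL
    rw [hm]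
    exact_mod_cast hq.pos

theorem s2_ssz {m : ℕ} (Q : ℤ[X]) (z : ℕ) : 0 ≤ ssz m Q z := by
  unfold ssz
  refine prod_nonneg fun p hp => ?_
  have hpp := Nat.prime_of_mem_primesBelow hp
  have hp0 : (0 : ℝ) < p := by exact_mod_cast hpp.pos
  have h1 : (rootCount Q p : ℝ) ≤ p := by
    exact_mod_cast Pool.Agent.Lib.H59.rootCount_le_self Q p
  have h2 : (rootCount Q p : ℝ) / p ≤ 1 := (div_le_one hp0).2 h1
  have h3 : 1 / (p : ℝ) ≤ 1 := by
    rw [div_le_one hp0]
    exact_mod_cast hpp.one_lt.le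
  have h4 : 0 ≤ 1 - 1 / (p : ℝ) := by linarith
  exact mul_nonneg (by linarith) (inv_nonneg.2 (pow_nonneg h4 _))

open Classical in
theorem s2_gen (m κ M : ℕ) (Cs C' Ce K A₀ : ℝ) (X : ℕ) (R : Fin m → ℤ[X]) (f : ℕ → ℝ)
    (hf0 : ∀ n ∈ Icc 1 X, 0 ≤ f n)
    (hf1 : ∀ n ∈ Icc 1 X, AllPrime R n → f n ≤ (C' * Real.log X) ^ m)
    (hf2 : ∀ n ∈ Icc 1 X, ¬ AllPrime R n → f n = 0)
    (hs : ∀ q b : ℕ, Squarefree q → (q : ℝ) ≤ Real.log X ^ K →
      (((Icc 1 X).filter (fun n => n ≡ b [MOD q] ∧ AllPrime R n)).card : ℝ) ≤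
      ((2 * κ + 2 : ℕ) : ℝ) ^ q.primeFactors.card * ((X : ℝ) / q) * (Cs / Real.log X ^ m) *
        (1 + ssz m (∏ i, R i) (zz M X)))
    (hA : C' ^ m * Cs ≤ A₀) (hA1 : 1 ≤ A₀) (hlog : 1 ≤ Real.log X) (hC' : 0 ≤ C')
    (hle : (C' * Real.log X) ^ m ≤ Real.log X ^ Ce) (hCe : 0 ≤ Ce) :
    SieveWt (2 * κ + 2) Ce K X X (A₀ * X * (1 + ssz m (∏ i, R i) (zz M X))) f := by
  have hL0 : 0 < Real.log X := by linarith
  have hpow : 1 ≤ Real.log X ^ Ce := Real.one_le_rpow hlog hCe
  have hpm : 0 ≤ (C' * Real.log X) ^ m := by positivity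
  have hsz := s2_ssz (m := m) (∏ i, R i) (zz M X)
  refine ⟨hf0, fun n hn => ?_, fun q b hq hqK => ?_, ?_⟩
  · by_cases h : AllPrime R n
    · exact (hf1 n hn h).trans hle
    · rw [hf2 n hn h]; linarith
  · have h1 : ∑ n ∈ (Icc 1 X).filter (fun n => n ≡ b [MOD q]), f n ≤
        ∑ n ∈ (Icc 1 X).filter (fun n => n ≡ b [MOD q] ∧ AllPrime R n),
          (C' * Real.log X) ^ m := by
      have h2 : ∑ n ∈ (Icc 1 X).filter (fun n => n ≡ b [MOD q] ∧ AllPrime R n), f n =
          ∑ n ∈ (Icc 1 X).filter (fun n => n ≡ b [MOD q]), f n := by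
        apply sum_subset
        · intro n hn
          rw [mem_filter] at hn ⊢
          exact ⟨hn.1, hn.2.1⟩
        · intro n hn hn'
          rw [mem_filter] at hn hn'
          exact hf2 n hn.1 fun h => hn' ⟨hn.1, hn.2, h⟩
      rw [← h2]
      refine sum_le_sum fun n hn => ?_
      rw [mem_filter] at hn
      exact hf1 n hn.1 hn.2.2
    refine h1.trans ?_
    rw [sum_const, nsmul_eq_mul]
    refine (mul_le_mul_of_nonneg_right (hs q b hq hqK) hpm).trans ?_
    have h3 : ((2 * κ + 2 : ℕ) : ℝ) ^ q.primeFactors.card * ((X : ℝ) / q) * (Cs / Real.log X ^ m) *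
        (1 + ssz m (∏ i, R i) (zz M X)) * (C' * Real.log X) ^ m =
        (C' ^ m * Cs) * (((2 * κ + 2 : ℕ) : ℝ) ^ q.primeFactors.card * ((X : ℝ) / q) *
        (1 + ssz m (∏ i, R i) (zz M X))) := by
      rw [mul_pow]
      field_simp
    rw [h3]
    have h4 : ((2 * κ + 2 : ℕ) : ℝ) ^ q.primeFactors.card *
        (A₀ * X * (1 + ssz m (∏ i, R i) (zz M X))) / q =
        A₀ * (((2 * κ + 2 : ℕ) : ℝ) ^ q.primeFactors.card * ((X : ℝ) / q) *
        (1 + ssz m (∏ i, R i) (zz M X))) := by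
      ring
    rw [h4]
    exact mul_le_mul_of_nonneg_right hA (by positivity)
  · have hX0 : (0 : ℝ) ≤ X := by positivity
    calc (X : ℝ) = 1 * X * 1 * 1 := by ring
      _ ≤ A₀ * X * (1 + ssz m (∏ i, R i) (zz M X)) * Real.log X ^ Ce := by
        gcongr
        linarith

/-- Proof. `R = fam P h` (`m = g`) if `r = 0`, `R = Fin.cons B (fam P h)` (`m = g + 1`) if `r = 1`; `∏ R_i = QQ B P h`. `κ = (g + 1)(A + 1)`: the sum of the degrees is at most
`1 + g A ≤ κ`; if `rootCount (QQ B P h) p < p` then it is `≤ κ`: for `p ≤ A` clear, for `p > A` no factor vanishes modulo `p` (leading coefficients, the constants `h_i` do not matter),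
so it is at most `1 + g A`. `M` = maximum of `3` and the `M₀` of `class_sieve` for `m = g` and `m = g + 1`.
For `n ≤ X`: `0 < P_i(n) + h_i ≤ (coeffSum P_i + C₁) X^A` and `|B(n)| ≤ A X + X²`, so `lp ≤ 2(A+1) log X + C ≤ 3 (A + 1) log X`-like bound `C' log X` for large `X`; the product is `0` unless all of them are
primes, i.e. unless `AllPrime R n` (`lp m = 0` unless `m.toNat` is prime). So `f(n) ≤ (C' log X)^(g+r) 1[AllPrime R n]`: this gives `le` (exponent `C = g + 2`), and `cls` by `class_sieve` with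
`A₀ = (C' + 1)^(g+1) (C_sieve + 1)` for both `r` (`(C' log X)^m · C_s/(log X)^m = C'^m C_s`), `D = 2 κ + 2`. `large`: `S ≥ X` if `A₀ ≥ 1`, and `(log X)^C ≥ 1`
(`ssz ≥ 0`: `rootCount ≤ p`). -/
theorem wt {g : ℕ} (P : Fin g → ℤ[X]) (A : ℕ) (hA : 1 ≤ A) (hP : Pol A P)
    (hl : ∀ i, 0 < (P i).leadingCoeff) (C₁ : ℝ) (hC₁ : 1 ≤ C₁) :
    ∃ (D M : ℕ) (C A₀ : ℝ), 3 ≤ M ∧ 0 ≤ C ∧ 0 < A₀ ∧ ∀ K : ℝ, ∃ X₀ : ℕ, ∀ X : ℕ, X₀ ≤ X →
    ∀ H : Fin g → ℕ, Fit C₁ X P H → ∀ h ∈ Box H, ∀ (r : ℕ) (B : ℤ[X]), Bas A r B →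
    |(B.coeff 0 : ℝ)| ≤ (X : ℝ) ^ 2 → ∀ ψ : ℕ → ℝ, (∀ n, 0 ≤ ψ n ∧ ψ n ≤ 1) →
    SieveWt D C K X X (A₀ * X * (1 + ssz (r + g) (QQ B P h) (zz M X)))
      (fun n => ψ n * bw r B n * ∏ i, lp ((P i).eval (n : ℤ) + h i)) := by
  classical
  set κ : ℕ := (g + 1) * (A + 1) with hκ
  obtain ⟨M1, hM1⟩ := class_sieve g κ
  obtain ⟨M2, hM2⟩ := class_sieve (g + 1) κ
  set M : ℕ := max 3 (max M1 M2) with hM
  have h3M : 3 ≤ M := le_max_left _ _
  obtain ⟨Cs1, hCs1, hS1⟩ := hM1 M ((le_max_left _ _).trans (le_max_right _ _)) (by omega)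
  obtain ⟨Cs2, hCs2, hS2⟩ := hM2 M ((le_max_right _ _).trans (le_max_right _ _)) (by omega)
  set C' : ℝ := (A : ℝ) + 3 with hC'
  have hC'1 : 1 ≤ C' := by rw [hC']; have : (0 : ℝ) ≤ A := by positivity
                           linarith
  have hC'0 : 0 ≤ C' := by linarith
  set A₀ : ℝ := C' ^ (g + 1) * (Cs1 + Cs2 + 1) with hA₀
  have hpow1 : 1 ≤ C' ^ (g + 1) := one_le_pow₀ hC'1
  have hpow2 : C' ^ g ≤ C' ^ (g + 1) := pow_le_pow_right₀ hC'1 (by omega)
  have hA₀1 : 1 ≤ A₀ := by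
    rw [hA₀]
    nlinarith
  refine ⟨2 * κ + 2, M, (g : ℝ) + 2, A₀, h3M, by positivity, by linarith, fun K => ?_⟩
  obtain ⟨X1, hX1⟩ := hS1 K
  obtain ⟨X2, hX2⟩ := hS2 K
  -- large X
  set cP : ℝ := ∑ i, Pool.Agent.Lib.H59.coeffSum (P i) + C₁ with hcP
  obtain ⟨X3, hX3⟩ := exists_nat_ge (max cP (max (A : ℝ) (Real.exp (C' ^ (g + 1)))))
  refine ⟨max (max X1 X2) (max X3 3), fun X hX H hFit h hh r B hB hB0 ψ hψ => ?_⟩
  have hXX1 : X1 ≤ X := (le_max_left _ _).trans ((le_max_left _ _).trans hX)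
  have hXX2 : X2 ≤ X := (le_max_right _ _).trans ((le_max_left _ _).trans hX)
  have hXX3 : X3 ≤ X := (le_max_left _ _).trans ((le_max_right _ _).trans hX)
  have hXX4 : 3 ≤ X := (le_max_right _ _).trans ((le_max_right _ _).trans hX)
  have hXr : max cP (max (A : ℝ) (Real.exp (C' ^ (g + 1)))) ≤ X :=
    hX3.trans (by exact_mod_cast hXX3)
  have hXc : cP ≤ X := (le_max_left _ _).trans hXr
  have hXA : (A : ℝ) ≤ X := (le_max_left _ _).trans ((le_max_right _ _).trans hXr)
  have hXe : Real.exp (C' ^ (g + 1)) ≤ X := (le_max_right _ _).trans ((le_max_right _ _).trans hXr)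
  have hX3' : (3 : ℝ) ≤ X := by exact_mod_cast hXX4
  have hX0 : (0 : ℝ) < X := by linarith
  have hlogC : C' ^ (g + 1) ≤ Real.log X := (Real.le_log_iff_exp_le hX0).2 hXe
  have hlog1 : 1 ≤ Real.log X := hpow1.trans hlogC
  have hlog0 : 0 < Real.log X := by linarith
  have hce : ∀ m : ℕ, m ≤ g + 1 → (C' * Real.log X) ^ m ≤ Real.log X ^ ((g : ℝ) + 2) := by
    intro m hm
    have h1 : 1 ≤ C' * Real.log X := by nlinarith
    calc (C' * Real.log X) ^ m ≤ (C' * Real.log X) ^ (g + 1) := pow_le_pow_right₀ h1 hm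
      _ = C' ^ (g + 1) * Real.log X ^ (g + 1) := by rw [mul_pow]
      _ ≤ Real.log X * Real.log X ^ (g + 1) := by gcongr
      _ = Real.log X ^ (g + 2) := by ring
      _ = Real.log X ^ ((g : ℝ) + 2) := by
        rw [← Real.rpow_natCast]
        push_cast
        rfl
  -- the bounds for the weights
  have hcoef : ∀ i, 0 ≤ Pool.Agent.Lib.H59.coeffSum (P i) := fun i => by
    unfold Pool.Agent.Lib.H59.coeffSum
    positivity
  have hPb : ∀ n ∈ Icc 1 X, ∀ i, lp ((P i).eval (n : ℤ) + h i) ≤ C' * Real.log X := by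
    intro n hn i
    rw [mem_Icc] at hn
    have h1 := Pool.Agent.Lib.H59.eval_le_coeffSum (P i) hn.1
    have h2 : (n : ℝ) ^ (P i).natDegree ≤ (X : ℝ) ^ (P i).natDegree := by
      gcongr
      exact hn.2
    have h3 : (h i : ℝ) ≤ C₁ * (X : ℝ) ^ (P i).natDegree := by
      refine le_trans ?_ (hFit.hi i)
      unfold Box at hh
      rw [Fintype.mem_piFinset] at hh
      exact_mod_cast (mem_Icc.1 (hh i)).2
    have h4 : Pool.Agent.Lib.H59.coeffSum (P i) + C₁ ≤ cP := by
      rw [hcP]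
      have := single_le_sum (f := fun i => Pool.Agent.Lib.H59.coeffSum (P i))
        (fun i _ => hcoef i) (mem_univ i)
      linarith
    have h5 : (((P i).eval (n : ℤ) + h i : ℤ) : ℝ) ≤ (X : ℝ) ^ (A + 1) := by
      push_cast
      calc ((eval (n : ℤ) (P i) : ℤ) : ℝ) + h i ≤
          Pool.Agent.Lib.H59.coeffSum (P i) * (X : ℝ) ^ (P i).natDegree +
            C₁ * (X : ℝ) ^ (P i).natDegree := by
            have := mul_le_mul_of_nonneg_left h2 (hcoef i)
            linarith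
        _ = (Pool.Agent.Lib.H59.coeffSum (P i) + C₁) * (X : ℝ) ^ (P i).natDegree := by ring
        _ ≤ X * (X : ℝ) ^ A := by
            gcongr
            · linarith
            · linarith
            · exact hP.degA i
        _ = (X : ℝ) ^ (A + 1) := by ring
    refine s2_lple _ h5 (by positivity) ?_
    rw [Real.log_pow]
    push_cast
    rw [hC']
    nlinarith
  have hPpos : ∀ n, 0 ≤ ∏ i, lp ((P i).eval (n : ℤ) + h i) := fun n =>
    prod_nonneg fun i _ => s2_lp0 _
  have hPprod : ∀ n ∈ Icc 1 X, ∏ i, lp ((P i).eval (n : ℤ) + h i) ≤ (C' * Real.log X) ^ g := by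
    intro n hn
    calc ∏ i, lp ((P i).eval (n : ℤ) + h i) ≤ ∏ _i : Fin g, (C' * Real.log X) :=
          prod_le_prod (fun i _ => s2_lp0 _) fun i _ => hPb n hn i
      _ = _ := by rw [prod_const, card_univ, Fintype.card_fin]
  have hfe : ∀ n i, (fam P h i).eval (n : ℤ) = (P i).eval (n : ℤ) + h i := by
    intro n i
    unfold fam
    simp
  have hfd : ∀ i, (fam P h i).natDegree = (P i).natDegree := fun i => by
    unfold fam
    exact natDegree_add_C
  have hflc : ∀ i, (fam P h i).leadingCoeff = (P i).leadingCoeff := fun i => by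
    rw [leadingCoeff, hfd i]
    unfold fam
    rw [coeff_add, coeff_C, if_neg (by have := hP.deg i; omega), add_zero]
    rfl
  have hdsum : ∑ i, (fam P h i).natDegree ≤ g * A := by
    calc ∑ i, (fam P h i).natDegree ≤ ∑ _i : Fin g, A :=
          sum_le_sum fun i _ => by rw [hfd i]; exact hP.degA i
      _ = g * A := by simp
  have hκ1 : g * A + 1 ≤ κ := by rw [hκ]; nlinarith
  have hκ2 : A ≤ κ := by rw [hκ]; nlinarith
  rcases hB with ⟨rfl, rfl⟩ | ⟨rfl, hB1, hB2⟩
  · -- r = 0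
    have hQ : QQ 1 P h = ∏ i, fam P h i := by unfold QQ; rw [one_mul]
    rw [hQ]
    have h0g : 0 + g = g := by omega
    rw [h0g]
    have hbw : ∀ n, bw 0 (1 : ℤ[X]) n = 1 := fun n => by unfold bw; simp
    refine s2_gen g κ M Cs1 C' _ K A₀ X (fam P h) _ ?_ ?_ ?_ ?_ ?_ hA₀1 hlog1 hC'0
      (hce g (by omega)) (by positivity)
    · intro n _
      simp only [hbw, mul_one]
      exact mul_nonneg (hψ n).1 (hPpos n)
    · intro n hn _
      simp only [hbw, mul_one]
      calc ψ n * ∏ i, lp ((P i).eval (n : ℤ) + h i) ≤ 1 * (C' * Real.log X) ^ g := by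
            gcongr
            · exact hPpos n
            · exact (hψ n).2
            · exact hPprod n hn
        _ = _ := one_mul _
    · intro n _ hn
      have : ∏ i, lp ((P i).eval (n : ℤ) + h i) = 0 := by
        by_contra h0
        apply hn
        intro i
        rw [hfe]
        exact s2_lpe _ (prod_ne_zero_iff.1 h0 i (mem_univ i))
      simp only [this, mul_zero]
    · intro q b hq hqK
      exact hX1 X hXX1 (fam P h) (fun i => by rw [hfd i]; exact hP.deg i)
        (hdsum.trans (by omega))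
        (s2_root (fam P h) A κ (fun i => by rw [hfd i]; exact hP.deg i)
          (fun i => by rw [hflc i]; exact hP.lc i) (hdsum.trans (by omega)) hκ2) q b hq hqK
    · rw [hA₀]
      calc C' ^ g * Cs1 ≤ C' ^ (g + 1) * Cs1 := by gcongr
        _ ≤ C' ^ (g + 1) * (Cs1 + Cs2 + 1) := by
          gcongr
          linarith
  · -- r = 1
    set R : Fin (g + 1) → ℤ[X] := Fin.cons B (fam P h) with hR
    have hR0 : R 0 = B := rfl
    have hRs : ∀ i : Fin g, R i.succ = fam P h i := fun i => by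
      rw [hR, Fin.cons_succ]
    have hQ : QQ B P h = ∏ i, R i := by
      unfold QQ
      rw [Fin.prod_univ_succ, hR0]
      congr 1
    rw [hQ]
    have h0g : 1 + g = g + 1 := by omega
    rw [h0g]
    have hbw : ∀ n : ℕ, bw 1 B n = lp (B.eval (n : ℤ)) := fun n => by unfold bw; simp
    have hBb : ∀ n ∈ Icc 1 X, lp (B.eval (n : ℤ)) ≤ C' * Real.log X := by
      intro n hn
      rw [mem_Icc] at hn
      have h1 : B.eval (n : ℤ) = B.coeff 0 + B.leadingCoeff * n := by
        rw [eval_eq_sum_range, hB1, sum_range_succ, sum_range_one, leadingCoeff, hB1]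
        ring
      have h2 : ((B.eval (n : ℤ) : ℤ) : ℝ) ≤ (X : ℝ) ^ 3 := by
        rw [h1]
        push_cast
        have h3 : (B.coeff 0 : ℝ) ≤ (X : ℝ) ^ 2 := (le_abs_self _).trans hB0
        have h4 : (B.leadingCoeff : ℝ) ≤ A := by
          have h5 : B.leadingCoeff ≤ (B.leadingCoeff.natAbs : ℤ) := Int.le_natAbs
          have h6 : B.leadingCoeff ≤ (A : ℤ) := h5.trans (by exact_mod_cast hB2)
          exact_mod_cast h6
        have h5 : (n : ℝ) ≤ X := by exact_mod_cast hn.2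
        have h6 : (0 : ℝ) ≤ n := by positivity
        have h7 : (B.leadingCoeff : ℝ) * n ≤ X * X :=
          (mul_le_mul_of_nonneg_right (h4.trans hXA) h6).trans
            (mul_le_mul_of_nonneg_left h5 hX0.le)
        nlinarith [sq_nonneg (X : ℝ)]
      refine s2_lple _ h2 (by positivity) ?_
      rw [Real.log_pow]
      push_cast
      rw [hC']
      have : (0 : ℝ) ≤ A := by positivity
      nlinarith
    refine s2_gen (g + 1) κ M Cs2 C' _ K A₀ X R _ ?_ ?_ ?_ ?_ ?_ hA₀1 hlog1 hC'0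
      (hce (g + 1) le_rfl) (by positivity)
    · intro n _
      simp only [hbw]
      exact mul_nonneg (mul_nonneg (hψ n).1 (s2_lp0 _)) (hPpos n)
    · intro n hn _
      simp only [hbw]
      calc ψ n * lp (B.eval (n : ℤ)) * ∏ i, lp ((P i).eval (n : ℤ) + h i) ≤
          1 * (C' * Real.log X) * (C' * Real.log X) ^ g := by
            gcongr
            · exact hPpos n
            · exact s2_lp0 _
            · exact (hψ n).2
            · exact hBb n hn
            · exact hPprod n hn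
        _ = _ := by ring
    · intro n _ hn
      have : lp (B.eval (n : ℤ)) * ∏ i, lp ((P i).eval (n : ℤ) + h i) = 0 := by
        by_contra h0
        apply hn
        intro i
        obtain ⟨h1, h2⟩ := mul_ne_zero_iff.1 h0
        refine Fin.cases ?_ (fun j => ?_) i
        · rw [hR0]
          exact s2_lpe _ h1
        · rw [hRs, hfe]
          exact s2_lpe _ (prod_ne_zero_iff.1 h2 j (mem_univ j))
      simp only [hbw, mul_assoc, this, mul_zero]
    · intro q b hq hqK
      have hd : ∀ i, 1 ≤ (R i).natDegree := by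
        intro i
        refine Fin.cases ?_ (fun j => ?_) i
        · rw [hR0, hB1]
        · rw [hRs, hfd]; exact hP.deg j
      have hlc : ∀ i, (R i).leadingCoeff.natAbs ≤ A := by
        intro i
        refine Fin.cases ?_ (fun j => ?_) i
        · rw [hR0]; exact hB2
        · rw [hRs, hflc]; exact hP.lc j
      have hsum : ∑ i, (R i).natDegree ≤ κ := by
        rw [Fin.sum_univ_succ, hR0, hB1]
        simp only [hRs]
        omega
      exact hX2 X hXX2 R hd hsum (s2_root R A κ hd hlc hsum hκ2) q b hq hqK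
    · rw [hA₀]
      gcongr
      linarith

end Pool.Agent.Lib.H59X
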