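import Pool.Agent.Lib.H59X.T1

/-!
# Chunk T0: replacement of `N - G(n)`
-/

open Finset Polynomial

namespace Pool.Agent.Lib.H59X

open Pool.Agent.Lib.H59 (argSet argCount Admissible primeCount omegaN seriesTrunc rootCount)
open Pool.Agent.Lib.H68T (lp)
open Pool.Agent.Lib.H33B (Lq Lw PW SieveWt)

theorem T0_scale (D : ℕ) (C C' K K' : ℝ) (hK' : 0 ≤ K') (X Y Z : ℕ) (S : ℝ) (f : ℕ → ℝ)
    (hZ : 1 ≤ Real.log Z) (hCC : Real.log Z ^ C ≤ Real.log Y ^ C')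
    (hKK : Real.log Y ^ K ≤ Real.log Z ^ K')
    (hf : SieveWt D C K' Z X S f) : SieveWt D C' K Y X S f := by
  have hlogZ : 0 < Real.log Z := by linarith
  have hS : 0 ≤ S := by
    have h1 := hf.cls 1 0 squarefree_one (by
      rw [Nat.cast_one]; exact Real.one_le_rpow hZ hK')
    have h2 : 0 ≤ ∑ n ∈ (Icc 1 X).filter (fun n => n ≡ 0 [MOD 1]), f n :=
      sum_nonneg fun n hn => hf.nonneg n (mem_filter.mp hn).1
    simp only [Nat.primeFactors_one, card_empty, pow_zero, one_mul, Nat.cast_one, div_one] at h1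
    linarith
  exact ⟨hf.nonneg, fun n hn => (hf.le n hn).trans hCC,
    fun q b hq hqK => hf.cls q b hq (hqK.trans hKK),
    hf.large.trans (mul_le_mul_of_nonneg_left hCC hS)⟩

open Filter in
theorem T0_ev (G : ℤ[X]) (hG : 1 ≤ G.natDegree) (hlc : 0 < G.leadingCoeff) (C K : ℝ) (hC : 0 ≤ C)
    (hK : 0 ≤ K) : ∃ Y₀ : ℕ, ∀ Y : ℕ, Y₀ ≤ Y → 1 ≤ Real.log (argCount G Y) ∧
      Real.log (argCount G Y) ^ C ≤ Real.log Y ^ (C + 1) ∧
      Real.log Y ^ K ≤ Real.log (argCount G Y) ^ (K + 1) := by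
  have hX := Pool.Agent.Lib.H59.argCount_tendsto hG hlc
  have hL : Tendsto (fun Y : ℕ => Real.log (argCount G Y)) atTop atTop :=
    Real.tendsto_log_atTop.comp ((tendsto_natCast_atTop_atTop (R := ℝ)).comp hX)
  have hlog : Tendsto (fun Y : ℕ => Real.log (Y : ℝ)) atTop atTop :=
    Real.tendsto_log_atTop.comp tendsto_natCast_atTop_atTop
  have hr := H33B.argCount_log G hG hlc
  have hk : (1 : ℝ) ≤ G.natDegree := by exact_mod_cast hG
  have h1 := hr.eventually_le_const (u := (G.natDegree : ℝ) + 1) (by linarith)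
  have h2 := hr.eventually_const_le (u := (1 : ℝ) / 2) (by linarith)
  obtain ⟨Y₀, hY₀⟩ := eventually_atTop.1 (h1.and (h2.and ((hL.eventually_ge_atTop 1).and
    ((hL.eventually_ge_atTop (((G.natDegree : ℝ) + 1) ^ K)).and
      ((hlog.eventually_ge_atTop 1).and (hlog.eventually_ge_atTop ((2 : ℝ) ^ C)))))))
  refine ⟨Y₀, fun Y hY => ?_⟩
  obtain ⟨a1, a2, a3, a4, a5, a6⟩ := hY₀ Y hY
  have l0 : 0 < Real.log (argCount G Y) := by linarith
  have l1 : 0 < Real.log (Y : ℝ) := by linarith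
  rw [div_le_iff₀ l0] at a1
  rw [le_div_iff₀ l0] at a2
  refine ⟨a3, ?_, ?_⟩
  · calc Real.log (argCount G Y) ^ C ≤ (2 * Real.log Y) ^ C :=
          Real.rpow_le_rpow l0.le (by linarith) hC
      _ = 2 ^ C * Real.log Y ^ C := Real.mul_rpow (by norm_num) l1.le
      _ ≤ Real.log Y * Real.log Y ^ C :=
          mul_le_mul_of_nonneg_right a6 (Real.rpow_nonneg l1.le _)
      _ = _ := by rw [Real.rpow_add_one l1.ne']; ring
  · calc Real.log Y ^ K ≤ (((G.natDegree : ℝ) + 1) * Real.log (argCount G Y)) ^ K :=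
          Real.rpow_le_rpow l1.le a1 hK
      _ = ((G.natDegree : ℝ) + 1) ^ K * Real.log (argCount G Y) ^ K :=
          Real.mul_rpow (by positivity) l0.le
      _ ≤ Real.log (argCount G Y) * Real.log (argCount G Y) ^ K :=
          mul_le_mul_of_nonneg_right a4 (Real.rpow_nonneg l0.le _)
      _ = _ := by rw [Real.rpow_add_one l0.ne']; ring

/-- Proof. `X = argCount G Y`. `wt P …`: `D, M, C, A₀`; `H33B.engine G hG hlc D C`: `K`. `log X ≤ log Y ≤ C' log X` for large `Y` (`H33B.argCount_log`,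
`H33B.DE1_arg`), so a `SieveWt D C (K + 1) X X S f` is a `SieveWt D C K Y X S f` for large `Y` (`wt_scale` with `Z = X`, `K' = K + 1`; use `wt` with `K + 1`). For each `h ∈ Box H` apply the engine with
`f(n) = bw(n) ∏ lp(P_i(n) + h_i)` (`ψ = 1`), `S = A₀ X (1 + ssz)`, `ε' = ε/(A₀ C₂)` (`C₂` from `mass_avg`) and sum over `h`. -/
theorem stepN {g : ℕ} (G : ℤ[X]) (hG : 1 ≤ G.natDegree) (hlc : 0 < G.leadingCoeff)
    (P : Fin g → ℤ[X]) (A : ℕ) (hA : 1 ≤ A) (hP : Pol A P)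
    (hl : ∀ i, 0 < (P i).leadingCoeff) (C₁ : ℝ) (hC₁ : 1 ≤ C₁) (ε : ℝ) (hε : 0 < ε) :
    ∃ w₀ : ℕ, ∀ w : ℕ, w₀ ≤ w → ∃ Y₀ : ℕ, ∀ Y : ℕ, Y₀ ≤ Y → ∀ H : Fin g → ℕ,
    Fit C₁ (argCount G Y) P H → ∀ (r : ℕ) (B : ℤ[X]), Bas A r B →
    |(B.coeff 0 : ℝ)| ≤ (argCount G Y : ℝ) ^ 2 →
    ∑ h ∈ Box H, ∑ N ∈ Icc 1 Y,
      |∑ n ∈ (Icc 1 (argCount G Y)).filter (fun n : ℕ => G.eval (n : ℤ) < N),
        bw r B n * (∏ i, lp ((P i).eval (n : ℤ) + h i)) *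
          (lp ((N : ℤ) - G.eval (n : ℤ)) - Lw w ((N : ℤ) - G.eval (n : ℤ)))| ≤
      ε * Y * argCount G Y * vol H := by
  classical
  obtain ⟨D, M, C, A₀, hM, hC, hA₀, hwt⟩ := wt P A hA hP hl C₁ hC₁
  obtain ⟨C₂, hC₂, hmass⟩ := mass_avg (g := g) A C₁ hC₁
  obtain ⟨K, hK, heng⟩ := H33B.engine G hG hlc D (C + 1)
  obtain ⟨w₀, hw₀⟩ := heng (ε / (A₀ * C₂)) (by positivity)
  refine ⟨w₀, fun w hw => ?_⟩
  obtain ⟨Y₁, hY₁⟩ := hw₀ w hw
  obtain ⟨X₀, hX₀⟩ := hwt (K + 1)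
  obtain ⟨Y₂, hY₂⟩ := T0_ev G hG hlc C K hC hK
  obtain ⟨Y₃, hY₃⟩ := Filter.eventually_atTop.1
    ((Pool.Agent.Lib.H59.argCount_tendsto hG hlc).eventually_ge_atTop (max X₀ 1))
  refine ⟨max Y₁ (max Y₂ Y₃), fun Y hY H hH r B hB hB0 => ?_⟩
  have y1 : Y₁ ≤ Y := (le_max_left _ _).trans hY
  have y2 : Y₂ ≤ Y := ((le_max_left _ _).trans (le_max_right _ _)).trans hY
  have y3 : Y₃ ≤ Y := ((le_max_right _ _).trans (le_max_right _ _)).trans hY
  obtain ⟨b1, b2, b3⟩ := hY₂ Y y2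
  have b4 := hY₃ Y y3
  have hX0 : X₀ ≤ argCount G Y := (le_max_left _ _).trans b4
  have hX1 : 1 ≤ argCount G Y := (le_max_right _ _).trans b4
  set X := argCount G Y with hX
  have key : ∀ h ∈ Box H, ∑ N ∈ Icc 1 Y,
      |∑ n ∈ (Icc 1 X).filter (fun n : ℕ => G.eval (n : ℤ) < N),
        bw r B n * (∏ i, lp ((P i).eval (n : ℤ) + h i)) *
          (lp ((N : ℤ) - G.eval (n : ℤ)) - Lw w ((N : ℤ) - G.eval (n : ℤ)))| ≤
      ε / (A₀ * C₂) * Y * (A₀ * X * (1 + ssz (r + g) (QQ B P h) (zz M X))) := by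
    intro h hh
    have h1 := hX₀ X hX0 H hH h hh r B hB hB0 (fun _ => 1) (fun _ => ⟨zero_le_one, le_rfl⟩)
    have h2 := T0_scale D C (C + 1) K (K + 1) (by linarith) X Y X _ _ b1 b2 b3 h1
    have h3 := hY₁ Y y1 _ _ h2
    simp only [one_mul] at h3
    exact h3
  refine (sum_le_sum key).trans ?_
  have h4 := hmass P hP M hM X hX1 H hH r B hB
  rw [← mul_sum, ← mul_sum]
  calc ε / (A₀ * C₂) * Y * (A₀ * X * ∑ h ∈ Box H, (1 + ssz (r + g) (QQ B P h) (zz M X)))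
      ≤ ε / (A₀ * C₂) * Y * (A₀ * X * (C₂ * vol H)) := by
        apply mul_le_mul_of_nonneg_left _ (by positivity)
        exact mul_le_mul_of_nonneg_left h4 (by positivity)
    _ = ε * Y * X * vol H := by
        field_simp

end Pool.Agent.Lib.H59X
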