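import Mathlib

/-!
# Chunk V2B: two elementary inequalities
-/

open Finset

namespace Pool.Agent.Lib.H59X

/-- Proof. `λ_s = 1/((s+1)(s+2))`, `∑_{s < S} λ_s = 1 - 1/(S+1) ≤ 1`. Convexity of `exp` (Jensen, `convexOn_exp`, or induction on `S`) for the points `t_s/λ_s` with weights `λ_s`
and the point `0` with weight `1 - ∑ λ_s`: `exp(∑ t_s) ≤ ∑ λ_s exp(t_s/λ_s) + (1 - ∑ λ_s)`. -/
theorem jensen (S : ℕ) (t : ℕ → ℝ) : Real.exp (∑ s ∈ range S, t s) ≤
    1 + ∑ s ∈ range S, (1 / (((s : ℝ) + 1) * (s + 2))) * Real.exp (((s : ℝ) + 1) * (s + 2) * t s) := by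
  have hsum : ∀ S : ℕ, ∑ s ∈ range S, (1 / (((s : ℝ) + 1) * (s + 2))) = 1 - 1 / ((S : ℝ) + 1) := by
    intro S
    induction S with
    | zero => simp
    | succ S ih =>
      rw [sum_range_succ, ih]
      push_cast
      have h1 : (S : ℝ) + 1 ≠ 0 := by positivity
      have h2 : (S : ℝ) + 2 ≠ 0 := by positivity
      have h3 : (S : ℝ) + 1 + 1 ≠ 0 := by positivity
      field_simp
      ring
  set w : ℕ → ℝ := fun s => if s < S then 1 / (((s : ℝ) + 1) * (s + 2)) else 1 / ((S : ℝ) + 1)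
    with hw
  set x : ℕ → ℝ := fun s => if s < S then ((s : ℝ) + 1) * (s + 2) * t s else 0 with hx
  have hw1 : ∀ s ∈ range S, w s = 1 / (((s : ℝ) + 1) * (s + 2)) := by
    intro s hs
    simp only [hw, if_pos (mem_range.1 hs)]
  have hx1 : ∀ s ∈ range S, x s = ((s : ℝ) + 1) * (s + 2) * t s := by
    intro s hs
    simp only [hx, if_pos (mem_range.1 hs)]
  have hwS : w S = 1 / ((S : ℝ) + 1) := by simp [hw]
  have hxS : x S = 0 := by simp [hx]
  have hj := convexOn_exp.map_sum_le (t := range (S + 1)) (w := w) (p := x) (by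
      intro s _
      simp only [hw]
      split_ifs <;> positivity) (by
      rw [sum_range_succ, sum_congr rfl hw1, hsum, hwS]
      ring) (fun _ _ => Set.mem_univ _)
  rw [sum_range_succ, sum_range_succ, hwS, hxS] at hj
  have e1 : ∑ s ∈ range S, w s • x s = ∑ s ∈ range S, t s := by
    refine sum_congr rfl fun s hs => ?_
    rw [hw1 s hs, hx1 s hs, smul_eq_mul]
    have h1 : (s : ℝ) + 1 ≠ 0 := by positivity
    have h2 : (s : ℝ) + 2 ≠ 0 := by positivity
    field_simp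
  have e2 : ∑ s ∈ range S, w s • Real.exp (x s) = ∑ s ∈ range S,
      (1 / (((s : ℝ) + 1) * (s + 2))) * Real.exp (((s : ℝ) + 1) * (s + 2) * t s) := by
    refine sum_congr rfl fun s hs => ?_
    rw [hw1 s hs, hx1 s hs, smul_eq_mul]
  rw [e1, e2, smul_zero, add_zero, Real.exp_zero, smul_eq_mul, mul_one] at hj
  have h3 : 1 / ((S : ℝ) + 1) ≤ 1 := by
    rw [div_le_one (by positivity)]
    linarith [Nat.cast_nonneg (α := ℝ) S]
  linarith

/-- Proof. The left hand side tends to `0`: `2^s` grows faster than any polynomial in `s`, `log 2 > 0`. -/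
theorem numeric (C : ℝ) : ∃ C' : ℝ, 0 < C' ∧ ∀ s : ℕ,
    Real.exp (C * ((s : ℝ) + 1) * (s + 2)) * (((s : ℝ) + 1) * (s + 2)) ^ 2 / (2 : ℝ) ^ (2 ^ s) ≤ C' := by
  set F : ℕ → ℝ := fun s => Real.exp (C * ((s : ℝ) + 1) * (s + 2)) *
    (((s : ℝ) + 1) * (s + 2)) ^ 2 / (2 : ℝ) ^ (2 ^ s) with hF
  have hF0 : ∀ s, 0 ≤ F s := fun s => by simp only [hF]; positivity
  have hlog2 : 0 < Real.log 2 := Real.log_pos (by norm_num)
  have ht := tendsto_pow_const_div_const_pow_of_one_lt 2 (r := (2 : ℝ)) (by norm_num)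
  have hε : 0 < Real.log 2 / (6 * (|C| + 2)) := by positivity
  obtain ⟨s₀, hs₀⟩ := Filter.eventually_atTop.1 (ht.eventually_lt_const hε)
  have hbig : ∀ s, s₀ + 1 ≤ s → F s ≤ 1 := by
    intro s hs
    have h1 := hs₀ s (by omega)
    have hs1 : (1 : ℝ) ≤ s := by exact_mod_cast (by omega : 1 ≤ s)
    rw [div_lt_div_iff₀ (by positivity) (by positivity)] at h1
    set u : ℝ := ((s : ℝ) + 1) * (s + 2) with hu
    have hu0 : 0 < u := by positivity
    have hu6 : u ≤ 6 * (s : ℝ) ^ 2 := by rw [hu]; nlinarith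
    have h2 : (|C| + 2) * u ≤ Real.log 2 * 2 ^ s := by
      have h3 : (|C| + 2) * u ≤ (|C| + 2) * (6 * (s : ℝ) ^ 2) :=
        mul_le_mul_of_nonneg_left hu6 (by positivity)
      linarith
    have h4 : u ^ 2 ≤ Real.exp (2 * u) := by
      have h5 : u ≤ Real.exp u := by linarith [Real.add_one_le_exp u]
      calc u ^ 2 ≤ (Real.exp u) ^ 2 := pow_le_pow_left₀ hu0.le h5 2
        _ = Real.exp (2 * u) := by rw [← Real.exp_nat_mul]; norm_num
    have h6 : (2 : ℝ) ^ (2 ^ s) = Real.exp (Real.log 2 * 2 ^ s) := by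
      have h7 : Real.log 2 * 2 ^ s = ((2 ^ s : ℕ) : ℝ) * Real.log 2 := by push_cast; ring
      rw [h7, Real.exp_nat_mul, Real.exp_log (by norm_num)]
    have h8 : C * ((s : ℝ) + 1) * (s + 2) ≤ |C| * u := by
      rw [mul_assoc]
      exact mul_le_mul_of_nonneg_right (le_abs_self C) hu0.le
    simp only [hF]
    rw [div_le_one (by positivity), h6]
    calc Real.exp (C * ((s : ℝ) + 1) * (s + 2)) * u ^ 2
        ≤ Real.exp (|C| * u) * Real.exp (2 * u) :=
          mul_le_mul (Real.exp_le_exp.2 h8) h4 (by positivity) (Real.exp_pos _).le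
      _ = Real.exp ((|C| + 2) * u) := by rw [← Real.exp_add]; ring_nf
      _ ≤ Real.exp (Real.log 2 * 2 ^ s) := Real.exp_le_exp.2 h2
  refine ⟨1 + ∑ s ∈ range (s₀ + 1), F s, by
    have := sum_nonneg fun s (_ : s ∈ range (s₀ + 1)) => hF0 s
    linarith, ?_⟩
  intro s
  rcases Nat.lt_or_ge s (s₀ + 1) with h | h
  · have h1 := single_le_sum (f := F) (fun s _ => hF0 s) (mem_range.2 h)
    have : F s ≤ 1 + ∑ s ∈ range (s₀ + 1), F s := by linarith
    exact this
  · have h1 := sum_nonneg fun s (_ : s ∈ range (s₀ + 1)) => hF0 s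
    have h2 := hbig s h
    have : F s ≤ 1 + ∑ s ∈ range (s₀ + 1), F s := by linarith
    exact this

end Pool.Agent.Lib.H59X
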