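import Pool.Agent.Lib.H59X.V1
import Pool.Agent.Lib.H59X.V2

/-!
# Chunk V3: the mean of the truncated singular series over a box
-/

open Finset Polynomial

namespace Pool.Agent.Lib.H59X

open Pool.Agent.Lib.H59 (argSet argCount Admissible primeCount omegaN seriesTrunc rootCount)
open Pool.Agent.Lib.H68T (lp)
open Pool.Agent.Lib.H33B (Lq Lw PW SieveWt)

theorem V3_lam (S : ℕ) : ∑ s ∈ range S, (1 : ℝ) / (((s : ℝ) + 1) * (s + 2)) ≤ 1 := by
  have h : ∀ S : ℕ, ∑ s ∈ range S, (1 : ℝ) / (((s : ℝ) + 1) * (s + 2)) = 1 - 1 / (S + 1) := by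
    intro S
    induction S with
    | zero => simp
    | succ n ih =>
      rw [sum_range_succ, ih]
      push_cast
      field_simp
      ring
  rw [h]
  have : (0 : ℝ) < 1 / ((S : ℝ) + 1) := by positivity
  linarith

theorem V3_loglog {p s : ℕ} (hp : 2 ≤ p) (h : Nat.log 2 (Nat.log 2 p) = s) :
    2 ^ (2 ^ s) ≤ p ∧ p < (2 ^ (2 ^ s)) ^ 2 := by
  have h1 : Nat.log 2 p ≠ 0 := (Nat.log_pos (by norm_num) hp).ne'
  have h2 : 2 ^ s ≤ Nat.log 2 p := by
    rw [← h]; exact Nat.pow_log_le_self 2 h1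
  have h3 : Nat.log 2 p < 2 ^ (s + 1) := by
    rw [← h]; exact Nat.lt_pow_succ_log_self (by norm_num) _
  constructor
  · exact (Nat.pow_le_pow_right (by norm_num) h2).trans (Nat.pow_log_le_self 2 (by omega))
  · rw [← pow_mul, ← pow_succ]
    exact Nat.lt_pow_of_log_lt (by norm_num) h3

theorem V3_exp {t L C : ℝ} (hL : 0 < L) (ht : t ≤ C) :
    Real.exp (L * t) ≤ Real.exp 1 + Real.exp (C * L) * (L * t) ^ 2 := by
  rcases le_or_gt (L * t) 1 with h | h
  · have h1 := Real.exp_le_exp.mpr h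
    have h2 : 0 ≤ Real.exp (C * L) * (L * t) ^ 2 := by positivity
    linarith
  · have h1 : L * t ≤ C * L := by
      rw [mul_comm C L]; exact mul_le_mul_of_nonneg_left ht hL.le
    have h2 := Real.exp_le_exp.mpr h1
    have h3 : 1 ≤ (L * t) ^ 2 := by nlinarith
    have h4 : Real.exp (C * L) * 1 ≤ Real.exp (C * L) * (L * t) ^ 2 :=
      mul_le_mul_of_nonneg_left h3 (Real.exp_pos _).le
    have h5 := Real.exp_pos 1
    linarith

/-- Proof. `ssz_eq`. `x_p = af r B P univ p - 1`. The factors with `p ≤ A` are at most `2^(g+1)` (`af_le`), at most `A` of them, and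
`∏_{A < p < z} (1 + x_p) ≤ exp(∑_{A < p < z} x_p) = exp(∑_{s < S} T_s)`, `T_s` the sum of the `x_p` with `A < p < z`, `y_s ≤ p < y_s²`, `y_s = 2^(2^s)` (`y_s² = y_{s+1}`,
`2^(2^S) ≥ z`). By `af_close`, `sum_range`: `|T_s| ≤ C₀`. By `jensen` it suffices to bound, with `Λ = (s+1)(s+2)`, `∑_{h ∈ Box} exp(Λ T_s) ≤ C₃ vol H` uniformly in `s`
(`∑ 1/Λ ≤ 1`). `exp(Λ T_s) ≤ e + exp(C₀ Λ) (Λ T_s)²` (`Λ |T_s| ≤ 1` or `(Λ T_s)² > 1`). If `y_s > z` then `T_s = 0`; otherwise `sec` (`y = y_s ≤ z`):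
`∑_h T_s² ≤ C vol H/y_s`, and `exp(C₀ Λ) Λ² C/y_s` is bounded by `numeric`. (`#Box H = vol H`.) -/
theorem series_avg (g A : ℕ) (C₁ : ℝ) (hC₁ : 1 ≤ C₁) : ∃ C : ℝ, 0 < C ∧ ∀ P : Fin g → ℤ[X], Pol A P →
    ∀ (r : ℕ) (B : ℤ[X]), Bas A r B → ∀ (z : ℕ) (H : Fin g → ℕ), (∀ i, (z : ℝ) ^ 3 ≤ C₁ * H i) →
    ∑ h ∈ Box H, ssz (r + g) (QQ B P h) z ≤ C * vol H := by
  obtain ⟨c, hc, hcl⟩ := af_close g A
  obtain ⟨Cr, hCr, hsr⟩ := sum_range
  obtain ⟨Cs, hCs, hsec⟩ := sec g A C₁ hC₁
  obtain ⟨Cn, hCn, hnum⟩ := numeric (c * Cr)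
  refine ⟨(2 ^ (g + 1)) ^ (A + 1) * (1 + (Real.exp 1 + Cn * Cs)), by positivity, ?_⟩
  intro P hP r B hB z H hH
  have hv := V1_vol_nonneg H
  set PA := (Nat.primesBelow z).filter (fun p => A < p) with hPA
  set x : ℕ → (Fin g → ℕ) → ℝ := fun p h => af r B P univ p h - 1 with hx
  set T : ℕ → Finset ℕ := fun s => PA.filter (fun p => Nat.log 2 (Nat.log 2 p) = s) with hT
  set t : ℕ → (Fin g → ℕ) → ℝ := fun s h => ∑ p ∈ T s, x p h with ht
  have hTmem : ∀ s, ∀ p ∈ T s, p.Prime ∧ A < p ∧ 2 ^ (2 ^ s) ≤ p ∧ p < z ∧ p < (2 ^ (2 ^ s)) ^ 2 := by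
    intro s p hp
    simp only [hT, hPA, mem_filter, Nat.mem_primesBelow] at hp
    have h1 := V3_loglog hp.1.1.2.two_le hp.2
    exact ⟨hp.1.1.2, hp.1.2, h1.1, hp.1.1.1, h1.2⟩
  -- pointwise bound
  have hpt : ∀ h, ssz (r + g) (QQ B P h) z ≤ (2 ^ (g + 1)) ^ (A + 1) *
      (1 + ∑ s ∈ range z, (1 / (((s : ℝ) + 1) * (s + 2))) *
        Real.exp (((s : ℝ) + 1) * (s + 2) * t s h)) := by
    intro h
    rw [ssz_eq A r B hB P z h, ← prod_filter_mul_prod_filter_not (Nat.primesBelow z) (fun p => A < p),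
      mul_comm]
    apply mul_le_mul
    · calc ∏ p ∈ (Nat.primesBelow z).filter (fun p => ¬ A < p), af r B P univ p h
          ≤ ∏ p ∈ (Nat.primesBelow z).filter (fun p => ¬ A < p), (2 : ℝ) ^ (g + 1) := by
            apply prod_le_prod
            · intro p _; exact af_nonneg r B P univ p h
            · intro p hp
              rw [mem_filter] at hp
              exact af_le r B P p (Nat.prime_of_mem_primesBelow hp.1) univ h
        _ = ((2 : ℝ) ^ (g + 1)) ^ ((Nat.primesBelow z).filter (fun p => ¬ A < p)).card := by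
            rw [prod_const]
        _ ≤ _ := by
            apply pow_le_pow_right₀ (one_le_pow₀ (by norm_num))
            have : (Nat.primesBelow z).filter (fun p => ¬ A < p) ⊆ Finset.range (A + 1) := by
              intro p hp
              rw [mem_filter] at hp
              rw [mem_range]; omega
            have := card_le_card this
            rwa [card_range] at this
    · have h1 : ∏ p ∈ PA, af r B P univ p h ≤ Real.exp (∑ p ∈ PA, x p h) := by
        rw [Real.exp_sum]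
        apply prod_le_prod
        · intro p _; exact af_nonneg r B P univ p h
        · intro p _
          have := Real.add_one_le_exp (x p h)
          simp only [hx] at this ⊢
          linarith
      have h2 : ∑ p ∈ PA, x p h = ∑ s ∈ range z, t s h := by
        simp only [ht, hT]
        rw [sum_fiberwise_of_maps_to]
        intro p hp
        rw [hPA, mem_filter, Nat.mem_primesBelow] at hp
        rw [mem_range]
        have h3 : Nat.log 2 (Nat.log 2 p) ≤ Nat.log 2 p := Nat.log_le_self _ _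
        have h4 : Nat.log 2 p ≤ p := Nat.log_le_self _ _
        omega
      rw [h2] at h1
      exact h1.trans (jensen z fun s => t s h)
    · exact prod_nonneg fun p _ => af_nonneg r B P univ p h
    · positivity
  -- the exponential moments
  have hmom : ∀ s : ℕ, ∑ h ∈ Box H, Real.exp (((s : ℝ) + 1) * (s + 2) * t s h) ≤
      (Real.exp 1 + Cn * Cs) * vol H := by
    intro s
    have hL : (0 : ℝ) < ((s : ℝ) + 1) * (s + 2) := by positivity
    have hb : ∀ h, t s h ≤ c * Cr := by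
      intro h
      refine (le_abs_self _).trans ?_
      simp only [ht]
      refine (abs_sum_le_sum_abs _ _).trans ?_
      have h1 : ∀ p ∈ T s, |x p h| ≤ c * (1 / p) := by
        intro p hp
        obtain ⟨h1, h2, -, -, -⟩ := hTmem s p hp
        have := hcl P hP r B hB p h1 h2 h
        rw [mul_one_div]
        exact this
      refine (sum_le_sum h1).trans ?_
      rw [← mul_sum]
      apply mul_le_mul_of_nonneg_left _ hc.le
      apply hsr (2 ^ (2 ^ s))
      · calc 2 = 2 ^ 1 := by norm_num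
          _ ≤ 2 ^ (2 ^ s) := Nat.pow_le_pow_right (by norm_num) Nat.one_le_two_pow
      · intro p hp
        obtain ⟨h1, -, h3, -, h5⟩ := hTmem s p hp
        exact ⟨h1, h3, h5⟩
    have h1 : ∀ h ∈ Box H, Real.exp (((s : ℝ) + 1) * (s + 2) * t s h) ≤ Real.exp 1 +
        Real.exp (c * Cr * (((s : ℝ) + 1) * (s + 2))) * (((s : ℝ) + 1) * (s + 2)) ^ 2 * t s h ^ 2 := by
      intro h _
      refine (V3_exp hL (hb h)).trans (le_of_eq ?_)
      ring
    refine (sum_le_sum h1).trans ?_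
    rw [sum_add_distrib, sum_const, nsmul_eq_mul, V1_card, ← mul_sum, add_mul (Real.exp 1) (Cn * Cs)]
    apply add_le_add (le_of_eq (mul_comm _ _))
    have h2 : ∑ h ∈ Box H, t s h ^ 2 ≤ Cs / (2 : ℝ) ^ (2 ^ s) * vol H := by
      by_cases hemp : T s = ∅
      · have h3 : ∀ h ∈ Box H, t s h ^ 2 = 0 := by
          intro h _
          simp only [ht, hemp, sum_empty]
          norm_num
        rw [sum_congr rfl h3, sum_const_zero]
        positivity
      · obtain ⟨p, hp⟩ := nonempty_iff_ne_empty.mpr hemp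
        obtain ⟨-, -, h3, h4, -⟩ := hTmem s p hp
        have h5 := hsec P hP r B hB z (2 ^ (2 ^ s)) H Nat.one_le_two_pow (by omega) hH (T s)
          (fun p hp => by
            obtain ⟨h1, h2, h3, h4, -⟩ := hTmem s p hp
            exact ⟨h1, h2, h3, h4⟩)
        push_cast at h5
        exact h5
    calc Real.exp (c * Cr * (((s : ℝ) + 1) * (s + 2))) * (((s : ℝ) + 1) * (s + 2)) ^ 2 *
          ∑ h ∈ Box H, t s h ^ 2
        ≤ Real.exp (c * Cr * (((s : ℝ) + 1) * (s + 2))) * (((s : ℝ) + 1) * (s + 2)) ^ 2 *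
          (Cs / (2 : ℝ) ^ (2 ^ s) * vol H) := mul_le_mul_of_nonneg_left h2 (by positivity)
      _ = (Real.exp (c * Cr * ((s : ℝ) + 1) * (s + 2)) * (((s : ℝ) + 1) * (s + 2)) ^ 2 /
            (2 : ℝ) ^ (2 ^ s)) * Cs * vol H := by
          rw [mul_assoc (c * Cr)]
          ring
      _ ≤ _ := by
          apply mul_le_mul_of_nonneg_right _ hv
          exact mul_le_mul_of_nonneg_right (hnum s) hCs.le
  -- conclusion
  refine (sum_le_sum fun h _ => hpt h).trans ?_
  rw [← mul_sum, mul_assoc]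
  apply mul_le_mul_of_nonneg_left _ (by positivity)
  rw [sum_add_distrib, sum_const, nsmul_eq_mul, V1_card, mul_one, sum_comm,
    add_mul 1 (Real.exp 1 + Cn * Cs), one_mul]
  apply add_le_add le_rfl
  calc ∑ s ∈ range z, ∑ h ∈ Box H, (1 / (((s : ℝ) + 1) * (s + 2))) *
        Real.exp (((s : ℝ) + 1) * (s + 2) * t s h)
      ≤ ∑ s ∈ range z, (1 / (((s : ℝ) + 1) * (s + 2))) * ((Real.exp 1 + Cn * Cs) * vol H) := by
        apply sum_le_sum
        intro s _
        rw [← mul_sum]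
        exact mul_le_mul_of_nonneg_left (hmom s) (by positivity)
    _ = (∑ s ∈ range z, (1 : ℝ) / (((s : ℝ) + 1) * (s + 2))) * ((Real.exp 1 + Cn * Cs) * vol H) := by
        rw [sum_mul]
    _ ≤ 1 * ((Real.exp 1 + Cn * Cs) * vol H) :=
        mul_le_mul_of_nonneg_right (V3_lam z) (by positivity)
    _ = _ := one_mul _

end Pool.Agent.Lib.H59X
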