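import Pool.Agent.Lib.H59X.EP5
import Pool.Agent.Lib.H59X.C2
import Pool.Agent.Lib.H59X.S2
import Pool.Agent.Lib.H59X.V3

/-!
# Chunk T1: one replacement
-/

open Finset Polynomial

namespace Pool.Agent.Lib.H59X

open Pool.Agent.Lib.H59 (argSet argCount Admissible primeCount omegaN seriesTrunc rootCount)
open Pool.Agent.Lib.H68T (lp)
open Pool.Agent.Lib.H33B (Lq Lw PW SieveWt)

/-- The mean over the box of the masses of the weights.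

Proof. `series_avg` with `z = zz M X`, `z³ ≤ X^(3/M) ≤ X ≤ X^(deg P_i) ≤ C₁ H_i` (`X ≥ 1`, `M ≥ 3`); `#Box H = vol H`. -/
theorem mass_avg {g : ℕ} (A : ℕ) (C₁ : ℝ) (hC₁ : 1 ≤ C₁) : ∃ C : ℝ, 0 < C ∧
    ∀ P : Fin g → ℤ[X], Pol A P → ∀ M : ℕ, 3 ≤ M → ∀ X : ℕ, 1 ≤ X → ∀ H : Fin g → ℕ,
    Fit C₁ X P H → ∀ (r : ℕ) (B : ℤ[X]), Bas A r B →
    ∑ h ∈ Box H, (1 + ssz (r + g) (QQ B P h) (zz M X)) ≤ C * vol H := by
  obtain ⟨C, hC, h⟩ := series_avg g A C₁ hC₁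
  refine ⟨1 + C, by positivity, ?_⟩
  intro P hP M hM X hX H hF r B hB
  have hX1 : (1 : ℝ) ≤ X := by exact_mod_cast hX
  have hz : (zz M X : ℝ) ^ 3 ≤ X := by
    have h1 : (zz M X : ℝ) ≤ (X : ℝ) ^ ((1 : ℝ) / M) := Nat.floor_le (by positivity)
    calc (zz M X : ℝ) ^ 3 ≤ ((X : ℝ) ^ ((1 : ℝ) / M)) ^ 3 := pow_le_pow_left₀ (Nat.cast_nonneg _) h1 3
      _ = (X : ℝ) ^ (((1 : ℝ) / M) * 3) := by
          rw [← Real.rpow_natCast ((X : ℝ) ^ ((1 : ℝ) / M)) 3, ← Real.rpow_mul (by linarith)]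
          norm_num
      _ ≤ (X : ℝ) ^ (1 : ℝ) := by
          apply Real.rpow_le_rpow_of_exponent_le hX1
          have : (3 : ℝ) ≤ M := by exact_mod_cast hM
          rw [div_mul_eq_mul_div, one_mul, div_le_one (by linarith)]
          exact this
      _ = X := Real.rpow_one _
  have h1 := h P hP r B hB (zz M X) H (fun i => by
    refine hz.trans (le_trans ?_ (hF.lo i))
    have := hP.deg i
    exact le_self_pow₀ hX1 (by omega))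
  rw [sum_add_distrib, sum_const, nsmul_eq_mul, V1_card, mul_one, add_mul, one_mul]
  exact add_le_add le_rfl h1

/-- Replace the first prime by the model, in the mean over the shifts.

Proof. Let `P' i = P i.succ`. `wt P' …` gives `D, M, C, A₀`; `engine_shift (P 0) … D C C₁` gives `K`, then `X₀` from `wt` for this `K`; `mass_avg` for `P'` gives `C₂`. Use
`ε' = ε/(A₀ C₂)` in `engine_shift` (`w₀`). By `box_succ` the sum is `∑_{h'} ∑_{a ≤ H_0}`, `h = Fin.cons a h'` (`Fin.cons_zero`, `Fin.cons_succ`); for fixed `h'` the inner sum is that of `engine_shift`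
(with the weight `f(n) = ψ(n) bw(n) ∏ lp(P'_i(n) + h'_i)`, `S = A₀ X (1 + ssz)`), hence `≤ ε' H_0 S(h')`; summing over `h'`: `≤ ε' H_0 A₀ X C₂ vol H'= ε X vol H`
(`Fin.prod_univ_succ`). -/
theorem step {g : ℕ} (P : Fin (g + 1) → ℤ[X]) (A : ℕ) (hA : 1 ≤ A) (hP : Pol A P)
    (hl : ∀ i, 0 < (P i).leadingCoeff) (C₁ : ℝ) (hC₁ : 1 ≤ C₁) (ε : ℝ) (hε : 0 < ε) :
    ∃ w₀ : ℕ, ∀ w : ℕ, w₀ ≤ w → ∃ X₀ : ℕ, ∀ X : ℕ, X₀ ≤ X → ∀ H : Fin (g + 1) → ℕ, Fit C₁ X P H →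
    ∀ (r : ℕ) (B : ℤ[X]), Bas A r B → |(B.coeff 0 : ℝ)| ≤ (X : ℝ) ^ 2 →
    ∀ ψ : ℕ → ℝ, (∀ n, 0 ≤ ψ n ∧ ψ n ≤ 1) →
    ∑ h ∈ Box H, |∑ n ∈ Icc 1 X, ψ n * bw r B n *
      (lp ((P 0).eval (n : ℤ) + h 0) - Lw w ((P 0).eval (n : ℤ) + h 0)) *
        ∏ i : Fin g, lp ((P i.succ).eval (n : ℤ) + h i.succ)| ≤ ε * X * vol H := by
  set P' : Fin g → ℤ[X] := fun i => P i.succ with hP'
  have hPol' : Pol A P' := ⟨fun i => hP.deg i.succ, fun i => hP.degA i.succ, fun i => hP.lc i.succ⟩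
  obtain ⟨D, M, C, A₀, hM, hC, hA₀, hwt⟩ := wt P' A hA hPol' (fun i => hl i.succ) C₁ hC₁
  obtain ⟨K, hK, heng⟩ := engine_shift (P 0) (hP.deg 0) (hl 0) D C C₁ hC hC₁
  obtain ⟨X₁, hX₁⟩ := hwt K
  obtain ⟨C₂, hC₂, hmass⟩ := mass_avg (g := g) A C₁ hC₁
  obtain ⟨w₀, hw₀⟩ := heng (ε / (A₀ * C₂)) (by positivity)
  refine ⟨w₀, fun w hw => ?_⟩
  obtain ⟨X₂, hX₂⟩ := hw₀ w hw
  refine ⟨max (max X₁ X₂) 1, ?_⟩
  intro X hX H hF r B hB hBc ψ hψ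
  have hX1 : X₁ ≤ X := ((le_max_left _ _).trans (le_max_left _ _)).trans hX
  have hX2 : X₂ ≤ X := ((le_max_right _ _).trans (le_max_left _ _)).trans hX
  have hX3 : 1 ≤ X := (le_max_right _ _).trans hX
  set H' : Fin g → ℕ := fun i => H i.succ with hH'
  have hF' : Fit C₁ X P' H' := ⟨fun i => hF.lo i.succ, fun i => hF.hi i.succ⟩
  rw [box_succ, sum_comm]
  simp only [Fin.cons_zero, Fin.cons_succ]
  have h1 : ∀ h ∈ Box H', ∑ a ∈ Icc 1 (H 0), |∑ n ∈ Icc 1 X, ψ n * bw r B n *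
      (lp ((P 0).eval (n : ℤ) + a) - Lw w ((P 0).eval (n : ℤ) + a)) *
        ∏ i : Fin g, lp ((P i.succ).eval (n : ℤ) + h i)| ≤
      ε / (A₀ * C₂) * H 0 * (A₀ * X * (1 + ssz (r + g) (QQ B P' h) (zz M X))) := by
    intro h hh
    have h2 := hX₂ X hX2 (H 0) (hF.lo 0) (hF.hi 0) _ _ (hX₁ X hX1 H' hF' h hh r B hB hBc ψ hψ)
    refine le_trans (le_of_eq ?_) h2
    refine sum_congr rfl fun a _ => ?_
    congr 1
    refine sum_congr rfl fun n _ => ?_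
    simp only [hP']
    ring
  refine (sum_le_sum h1).trans ?_
  rw [← mul_sum, ← mul_sum]
  have h2 := hmass P' hPol' M hM X hX3 H' hF' r B hB
  have h3 : vol H = H 0 * vol H' := by
    unfold vol
    rw [Fin.prod_univ_succ]
  have hX0 : (0 : ℝ) ≤ X := Nat.cast_nonneg _
  have hH0 : (0 : ℝ) ≤ H 0 := Nat.cast_nonneg _
  calc ε / (A₀ * C₂) * H 0 * (A₀ * X * ∑ h ∈ Box H', (1 + ssz (r + g) (QQ B P' h) (zz M X)))
      ≤ ε / (A₀ * C₂) * H 0 * (A₀ * X * (C₂ * vol H')) := by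
        apply mul_le_mul_of_nonneg_left _ (by positivity)
        exact mul_le_mul_of_nonneg_left h2 (by positivity)
    _ = ε * X * vol H := by
        rw [h3]; field_simp

end Pool.Agent.Lib.H59X
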