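import Pool.Agent.Lib.H59X.T1

/-!
# Chunk T2: all replacements
-/

open Finset Polynomial

namespace Pool.Agent.Lib.H59X

open Pool.Agent.Lib.H59 (argSet argCount Admissible primeCount omegaN seriesTrunc rootCount)
open Pool.Agent.Lib.H68T (lp)
open Pool.Agent.Lib.H33B (Lq Lw PW SieveWt)

/-- Replace all primes `P_i(n) + h_i` by models of the levels `u_i ≥ W`, one after the other, in the mean over the shifts.

Proof. Induction on `g`. `g = 0`: the difference is `0` (`u` arbitrary). `g + 1`: `step` with `ε/2` gives `w₀`; take `u 0 = max w₀ W`. `Lw (u 0) m` is between `0` and `M₀ = PW (u 0) ≥ 1`. The induction hypothesis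
for `P' i = P i.succ` and `ε/(2 M₀)` gives `u'`; `u = Fin.cons (u 0) u'`. With `l_i = lp(P_i(n) + h_i)`, `L_i = Lw (u i)(P_i(n) + h_i)`:
`∏ l - ∏ L = (l_0 - L_0) ∏_{i ≥ 1} l_i + L_0 (∏_{i ≥ 1} l_i - ∏_{i ≥ 1} L_i)` (`Fin.prod_univ_succ`). The first part is `step`. For the second part (`box_succ`) fix `h_0 = a` and apply
the induction hypothesis with `ψ'(n) = ψ(n) L_0/M₀ ∈ [0, 1]`: at most `H_0 M₀ (ε/(2 M₀)) X vol H' = (ε/2) X vol H`. -/
theorem replace {g : ℕ} (P : Fin g → ℤ[X]) (A : ℕ) (hA : 1 ≤ A) (hP : Pol A P)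
    (hl : ∀ i, 0 < (P i).leadingCoeff) (C₁ : ℝ) (hC₁ : 1 ≤ C₁) (ε : ℝ) (hε : 0 < ε) (W : ℕ) :
    ∃ u : Fin g → ℕ, (∀ i, W ≤ u i) ∧ ∃ X₀ : ℕ, ∀ X : ℕ, X₀ ≤ X → ∀ H : Fin g → ℕ, Fit C₁ X P H →
    ∀ (r : ℕ) (B : ℤ[X]), Bas A r B → |(B.coeff 0 : ℝ)| ≤ (X : ℝ) ^ 2 →
    ∀ ψ : ℕ → ℝ, (∀ n, 0 ≤ ψ n ∧ ψ n ≤ 1) →
    ∑ h ∈ Box H, |∑ n ∈ Icc 1 X, ψ n * bw r B n *
      (∏ i, lp ((P i).eval (n : ℤ) + h i) - ∏ i, Lw (u i) ((P i).eval (n : ℤ) + h i))| ≤
      ε * X * vol H := by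
  induction g generalizing ε with
  | zero =>
    refine ⟨fun i => i.elim0, fun i => i.elim0, 0, ?_⟩
    intro X _ H _ r B _ _ ψ _
    have h1 : ∀ h ∈ Box H, |∑ n ∈ Icc 1 X, ψ n * bw r B n *
        (∏ i, lp ((P i).eval (n : ℤ) + h i) -
          ∏ i, Lw ((fun i : Fin 0 => (i.elim0 : ℕ)) i) ((P i).eval (n : ℤ) + h i))| = 0 := by
      intro h _
      rw [abs_eq_zero]
      apply sum_eq_zero
      intro n _
      simp
    rw [sum_congr rfl h1, sum_const_zero]
    have := V1_vol_nonneg H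
    positivity
  | succ g ih =>
    obtain ⟨w₀, hw₀⟩ := step P A hA hP hl C₁ hC₁ (ε / 2) (by positivity)
    set u0 : ℕ := max w₀ W with hu0
    obtain ⟨X₁, hX₁⟩ := hw₀ u0 (le_max_left _ _)
    set P' : Fin g → ℤ[X] := fun i => P i.succ with hP'
    have hPol' : Pol A P' := ⟨fun i => hP.deg i.succ, fun i => hP.degA i.succ, fun i => hP.lc i.succ⟩
    have hM0 : (0 : ℝ) < PW u0 := by exact_mod_cast L3_PW_pos u0
    obtain ⟨u', hu', X₂, hX₂⟩ := ih P' hPol' (fun i => hl i.succ) (ε / (2 * PW u0)) (by positivity)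
    refine ⟨Fin.cons u0 u', ?_, max X₁ X₂, ?_⟩
    · intro i
      refine Fin.cases ?_ (fun j => ?_) i
      · rw [Fin.cons_zero]; exact le_max_right _ _
      · rw [Fin.cons_succ]; exact hu' j
    intro X hX H hF r B hB hBc ψ hψ
    have hXa : X₁ ≤ X := (le_max_left _ _).trans hX
    have hXb : X₂ ≤ X := (le_max_right _ _).trans hX
    set H' : Fin g → ℕ := fun i => H i.succ with hH'
    have hF' : Fit C₁ X P' H' := ⟨fun i => hF.lo i.succ, fun i => hF.hi i.succ⟩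
    have h1 : ∀ h ∈ Box H, |∑ n ∈ Icc 1 X, ψ n * bw r B n *
        (∏ i, lp ((P i).eval (n : ℤ) + h i) -
          ∏ i, Lw ((Fin.cons u0 u' : Fin (g + 1) → ℕ) i) ((P i).eval (n : ℤ) + h i))| ≤
        |∑ n ∈ Icc 1 X, ψ n * bw r B n *
          (lp ((P 0).eval (n : ℤ) + h 0) - Lw u0 ((P 0).eval (n : ℤ) + h 0)) *
            ∏ i : Fin g, lp ((P i.succ).eval (n : ℤ) + h i.succ)| +
        |∑ n ∈ Icc 1 X, ψ n * bw r B n * Lw u0 ((P 0).eval (n : ℤ) + h 0) *
          (∏ i : Fin g, lp ((P i.succ).eval (n : ℤ) + h i.succ) -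
            ∏ i : Fin g, Lw (u' i) ((P i.succ).eval (n : ℤ) + h i.succ))| := by
      intro h _
      refine le_trans (le_of_eq ?_) (abs_add_le _ _)
      rw [← sum_add_distrib]
      congr 1
      refine sum_congr rfl fun n _ => ?_
      rw [Fin.prod_univ_succ, Fin.prod_univ_succ]
      simp only [Fin.cons_zero, Fin.cons_succ]
      ring
    refine (sum_le_sum h1).trans ?_
    rw [sum_add_distrib]
    have h2 := hX₁ X hXa H hF r B hB hBc ψ hψ
    have h3 : ∑ h ∈ Box H, |∑ n ∈ Icc 1 X, ψ n * bw r B n * Lw u0 ((P 0).eval (n : ℤ) + h 0) *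
          (∏ i : Fin g, lp ((P i.succ).eval (n : ℤ) + h i.succ) -
            ∏ i : Fin g, Lw (u' i) ((P i.succ).eval (n : ℤ) + h i.succ))| ≤ ε / 2 * X * vol H := by
      rw [box_succ]
      simp only [Fin.cons_zero, Fin.cons_succ]
      have h4 : ∀ a ∈ Icc 1 (H 0), ∑ h ∈ Box H', |∑ n ∈ Icc 1 X, ψ n * bw r B n *
          Lw u0 ((P 0).eval (n : ℤ) + a) *
          (∏ i : Fin g, lp ((P i.succ).eval (n : ℤ) + h i) -
            ∏ i : Fin g, Lw (u' i) ((P i.succ).eval (n : ℤ) + h i))| ≤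
          PW u0 * (ε / (2 * PW u0) * X * vol H') := by
        intro a _
        have h5 := hX₂ X hXb H' hF' r B hB hBc
          (fun n => ψ n * (Lw u0 ((P 0).eval (n : ℤ) + a) / PW u0)) (fun n => by
            have h6 := H33B.ENG_Lw_nonneg u0 ((P 0).eval (n : ℤ) + a)
            have h7 := EP5_Lw_le u0 ((P 0).eval (n : ℤ) + a)
            have h8 : Lw u0 ((P 0).eval (n : ℤ) + a) / PW u0 ≤ 1 := by
              rw [div_le_one hM0]; exact h7
            have h9 : 0 ≤ Lw u0 ((P 0).eval (n : ℤ) + a) / PW u0 := by positivity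
            exact ⟨mul_nonneg (hψ n).1 h9, mul_le_one₀ (hψ n).2 h9 h8⟩)
        have h10 := mul_le_mul_of_nonneg_left h5 hM0.le
        refine le_trans (le_of_eq ?_) h10
        rw [mul_sum]
        refine sum_congr rfl fun h _ => ?_
        rw [← abs_of_pos hM0, ← abs_mul, abs_of_pos hM0, mul_sum]
        congr 1
        refine sum_congr rfl fun n _ => ?_
        simp only [hP']
        field_simp
      refine (sum_le_sum h4).trans ?_
      rw [sum_const, Nat.card_Icc, Nat.add_sub_cancel, nsmul_eq_mul]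
      have h5 : vol H = H 0 * vol H' := by
        unfold vol
        rw [Fin.prod_univ_succ]
      rw [h5]
      apply le_of_eq
      field_simp
    calc _ ≤ ε / 2 * X * vol H + ε / 2 * X * vol H := add_le_add h2 h3
      _ = _ := by ring

end Pool.Agent.Lib.H59X
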