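import Pool.Agent.Lib.H59X.L2
import Pool.Agent.Lib.H59X.L4

/-!
# Chunk V1: second moments over boxes
-/

open Finset Polynomial

namespace Pool.Agent.Lib.H59X

open Pool.Agent.Lib.H59 (argSet argCount Admissible primeCount omegaN seriesTrunc rootCount)
open Pool.Agent.Lib.H68T (lp)
open Pool.Agent.Lib.H33B (Lq Lw PW SieveWt)

theorem V1_card {g : ℕ} (H : Fin g → ℕ) : ((Box H).card : ℝ) = vol H := by
  unfold Box vol
  rw [Fintype.card_piFinset]
  simp

theorem V1_vol_nonneg {g : ℕ} (H : Fin g → ℕ) : 0 ≤ vol H := prod_nonneg fun _ _ => Nat.cast_nonneg _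

/-- Proof. `x_p = af r B P univ p - 1`, `|x_p| ≤ C/p`, `mean p x_p = 0` (`af_close`, `af_mean`). Expand the square: `∑_{p, p'} ∑_h x_p x_{p'}`.
`p ≠ p'`: `x_p x_{p'}` is periodic modulo `q = p p'`, of mean `0` (`mean_mul`) and at most `M = C²/q` in absolute value; `box_signed` and `box_diff` with `t = q C₁/z³`
(`q ≤ z² `, `q ≤ t H_i` by `z³ ≤ C₁ H_i`; `t ≤ C₁/z ≤ 1` if `z ≥ C₁`) give `≤ 2 M 2^g t vol H = 2^(g+1) C² C₁ vol H/z³`; at most `z²` pairs: total
`≤ C' vol H/z ≤ C' vol H/y`. `p = p'`: `box_le` with `q = p ≤ z² ≤ H_i` (`z ≥ C₁`): `≤ 2^g vol H C²/p²`, and `∑_{p ≥ y} 1/p² ≤ 2/y`.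
If `z < C₁` then `T` has less than `C₁` elements, `|∑ x_p| ≤ C C₁`, and `y ≤ z < C₁`: the sum is at most `C² C₁² vol H ≤ C² C₁³ vol H/y`. (If `T = ∅` the sum is `0`.) -/
theorem sec (g A : ℕ) (C₁ : ℝ) (hC₁ : 1 ≤ C₁) : ∃ C : ℝ, 0 < C ∧ ∀ P : Fin g → ℤ[X], Pol A P →
    ∀ (r : ℕ) (B : ℤ[X]), Bas A r B → ∀ (z y : ℕ) (H : Fin g → ℕ), 1 ≤ y → y ≤ z →
    (∀ i, (z : ℝ) ^ 3 ≤ C₁ * H i) → ∀ T : Finset ℕ, (∀ p ∈ T, p.Prime ∧ A < p ∧ y ≤ p ∧ p < z) →
    ∑ h ∈ Box H, (∑ p ∈ T, (af r B P univ p h - 1)) ^ 2 ≤ C / y * vol H := by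
  obtain ⟨c, hc, hcl⟩ := af_close g A
  refine ⟨c ^ 2 * (2 ^ (g + 1) + 2 ^ (g + 1) * C₁ + C₁ ^ 3), by positivity, ?_⟩
  intro P hP r B hB z y H hy hyz hH T hT
  have hv := V1_vol_nonneg H
  have hy0 : (0 : ℝ) < y := by exact_mod_cast hy
  have hz0 : (0 : ℝ) < z := by
    have : 0 < z := by omega
    exact_mod_cast this
  have hz1 : (1 : ℝ) ≤ z := by
    have : 1 ≤ z := by omega
    exact_mod_cast this
  have hyzr : (y : ℝ) ≤ z := by exact_mod_cast hyz
  have hTcard : (T.card : ℝ) ≤ z := by
    have h1 : T ⊆ range z := fun p hp => mem_range.mpr (hT p hp).2.2.2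
    have := card_le_card h1
    rw [card_range] at this
    exact_mod_cast this
  have hx : ∀ p ∈ T, ∀ h, |af r B P univ p h - 1| ≤ c / p := fun p hp h =>
    hcl P hP r B hB p (hT p hp).1 (hT p hp).2.1 h
  have hper : ∀ p, Per p (fun h => af r B P univ p h - 1) := by
    intro p h h' hh
    simp only [af_per r B P univ p h h' hh]
  have hmean : ∀ p ∈ T, mean p (fun h => af r B P univ p h - 1) = 0 := by
    intro p hp
    have h1 : (fun h => af r B P univ p h - 1) = fun h => af r B P univ p h + (-1) := by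
      funext h; ring
    rw [h1, L3_mean_add, af_mean A r B hB P p (hT p hp).1 (hT p hp).2.1 univ,
      mean_const g p (hT p hp).1.pos]
    norm_num
  rcases lt_or_ge (z : ℝ) C₁ with hzC | hzC
  · -- small `z`
    have h1 : ∀ h ∈ Box H, (∑ p ∈ T, (af r B P univ p h - 1)) ^ 2 ≤ (c * C₁) ^ 2 := by
      intro h _
      rw [← sq_abs]
      apply pow_le_pow_left₀ (abs_nonneg _)
      refine (abs_sum_le_sum_abs _ _).trans ?_
      calc ∑ p ∈ T, |af r B P univ p h - 1| ≤ ∑ p ∈ T, c := by
            apply sum_le_sum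
            intro p hp
            refine (hx p hp h).trans ?_
            apply div_le_self hc.le
            exact_mod_cast (hT p hp).1.one_le
        _ = T.card * c := by rw [sum_const, nsmul_eq_mul]
        _ ≤ C₁ * c := mul_le_mul_of_nonneg_right (hTcard.trans hzC.le) hc.le
        _ = c * C₁ := mul_comm _ _
    refine (sum_le_sum h1).trans ?_
    rw [sum_const, nsmul_eq_mul, V1_card, mul_comm]
    apply mul_le_mul_of_nonneg_right _ hv
    rw [le_div_iff₀ hy0]
    have h2 : (y : ℝ) ≤ C₁ := hyzr.trans hzC.le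
    calc (c * C₁) ^ 2 * y ≤ (c * C₁) ^ 2 * C₁ := mul_le_mul_of_nonneg_left h2 (by positivity)
      _ = c ^ 2 * C₁ ^ 3 := by ring
      _ ≤ _ := by
        apply mul_le_mul_of_nonneg_left _ (by positivity)
        have : 0 ≤ (2 : ℝ) ^ (g + 1) + 2 ^ (g + 1) * C₁ := by positivity
        linarith
  · -- large `z`
    have hHz : ∀ i, (z : ℝ) ^ 2 ≤ H i := by
      intro i
      have h1 := hH i
      have h2 : (z : ℝ) ^ 2 * C₁ ≤ H i * C₁ := by
        calc (z : ℝ) ^ 2 * C₁ ≤ (z : ℝ) ^ 2 * z := mul_le_mul_of_nonneg_left hzC (by positivity)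
          _ = (z : ℝ) ^ 3 := by ring
          _ ≤ _ := by rw [mul_comm]; exact h1
      exact le_of_mul_le_mul_right h2 (by linarith)
    set K₂ : ℝ := 2 ^ (g + 1) * c ^ 2 * C₁ * vol H / (z : ℝ) ^ 3 with hK₂
    have hK₂0 : 0 ≤ K₂ := by positivity
    have hpair : ∀ p ∈ T, ∀ p' ∈ T,
        ∑ h ∈ Box H, (af r B P univ p h - 1) * (af r B P univ p' h - 1) ≤
        (if p = p' then 2 ^ g * vol H * (c ^ 2 * (1 / (p : ℝ) ^ 2)) else 0) + K₂ := by
      intro p hp p' hp'
      have hp0 : (0 : ℝ) < p := by exact_mod_cast (hT p hp).1.pos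
      have hp'0 : (0 : ℝ) < p' := by exact_mod_cast (hT p' hp').1.pos
      have hpz : (p : ℝ) ≤ z := by exact_mod_cast (hT p hp).2.2.2.le
      have hp'z : (p' : ℝ) ≤ z := by exact_mod_cast (hT p' hp').2.2.2.le
      split_ifs with heq
      · subst heq
        have h1 := L4_box p (hT p hp).1.pos H (fun i => by
            have h2 : (p : ℝ) ≤ H i := by
              calc (p : ℝ) ≤ z := hpz
                _ ≤ (z : ℝ) ^ 2 := by nlinarith
                _ ≤ _ := hHz i
            exact_mod_cast h2)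
          (fun h => (af r B P univ p h - 1) * (af r B P univ p h - 1))
          (fun h h' hh => by simp only [af_per r B P univ p h h' hh])
          (fun h => mul_self_nonneg _)
        have h3 : mean p (fun h => (af r B P univ p h - 1) * (af r B P univ p h - 1)) ≤
            c ^ 2 * (1 / (p : ℝ) ^ 2) := by
          rw [← mean_const g p (hT p hp).1.pos (c ^ 2 * (1 / (p : ℝ) ^ 2))]
          apply L3_mean_mono
          intro h
          have h4 := hx p hp h
          calc (af r B P univ p h - 1) * (af r B P univ p h - 1) = |af r B P univ p h - 1| ^ 2 := by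
                rw [sq_abs]; ring
            _ ≤ (c / p) ^ 2 := pow_le_pow_left₀ (abs_nonneg _) h4 2
            _ = _ := by rw [div_pow]; ring
        refine h1.trans ?_
        have h5 : 2 ^ g * vol H * mean p (fun h => (af r B P univ p h - 1) *
            (af r B P univ p h - 1)) ≤ 2 ^ g * vol H * (c ^ 2 * (1 / (p : ℝ) ^ 2)) :=
          mul_le_mul_of_nonneg_left h3 (by positivity)
        linarith
      · rw [zero_add]
        set q := p * p' with hq
        have hq0 : 0 < q := Nat.mul_pos (hT p hp).1.pos (hT p' hp').1.pos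
        have hqr : (q : ℝ) = p * p' := by rw [hq]; push_cast; ring
        have hqr0 : (0 : ℝ) < q := by exact_mod_cast hq0
        have hcop : Nat.Coprime p p' :=
          (Nat.coprime_primes (hT p hp).1 (hT p' hp').1).mpr heq
        have hFper : Per q (fun h => (af r B P univ p h - 1) * (af r B P univ p' h - 1)) := by
          intro h h' hh
          have h1 := hper p h h' fun i => (hh i).of_dvd (Dvd.intro _ rfl)
          have h2 := hper p' h h' fun i => (hh i).of_dvd (Dvd.intro_left _ rfl)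
          simp only at h1 h2
          simp only [h1, h2]
        have hm : mean q (fun h => (af r B P univ p h - 1) * (af r B P univ p' h - 1)) = 0 := by
          rw [hq, mean_mul p p' hcop (hT p hp).1.pos (hT p' hp').1.pos
            (fun h => af r B P univ p h - 1) (fun h => af r B P univ p' h - 1) (hper p) (hper p'),
            hmean p hp, zero_mul]
        have hM : ∀ h, |(af r B P univ p h - 1) * (af r B P univ p' h - 1)| ≤ c ^ 2 / q := by
          intro h
          rw [abs_mul]
          calc _ ≤ c / p * (c / p') := mul_le_mul (hx p hp h) (hx p' hp' h) (abs_nonneg _)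
                (by positivity)
            _ = _ := by rw [hqr]; field_simp
        have h1 := box_signed q hq0 H _ hFper (c ^ 2 / q) hM
        rw [hm, mul_zero, zero_add] at h1
        have hz3 : (0 : ℝ) < (z : ℝ) ^ 3 := by positivity
        have h2 := box_diff H q (q * C₁ / (z : ℝ) ^ 3) hqr0.le (by positivity) (by
          rw [div_le_one hz3, hqr]
          calc (p : ℝ) * p' * C₁ ≤ z * z * z := by
                apply mul_le_mul _ hzC (by linarith) (by positivity)
                exact mul_le_mul hpz hp'z hp'0.le hz0.le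
            _ = _ := by ring) (fun i => by
          rw [div_mul_eq_mul_div, le_div_iff₀ hz3, mul_assoc]
          exact mul_le_mul_of_nonneg_left (hH i) hqr0.le)
        refine h1.trans ?_
        calc 2 * (c ^ 2 / q) * ((∏ i, ((H i : ℝ) + q)) - vol H)
            ≤ 2 * (c ^ 2 / q) * ((1 + 2 ^ g * (q * C₁ / (z : ℝ) ^ 3)) * vol H - vol H) := by
              apply mul_le_mul_of_nonneg_left _ (by positivity)
              linarith
          _ = K₂ := by
              rw [hK₂, pow_succ (2 : ℝ) g]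
              field_simp
              ring
    have hexp : ∑ h ∈ Box H, (∑ p ∈ T, (af r B P univ p h - 1)) ^ 2 =
        ∑ p ∈ T, ∑ p' ∈ T, ∑ h ∈ Box H, (af r B P univ p h - 1) * (af r B P univ p' h - 1) := by
      simp_rw [sq, sum_mul_sum]
      rw [sum_comm]
      refine sum_congr rfl fun p _ => ?_
      rw [sum_comm]
    rw [hexp]
    refine (sum_le_sum fun p hp => sum_le_sum fun p' hp' => hpair p hp p' hp').trans ?_
    have h1 : ∀ p ∈ T, ∑ p' ∈ T, ((if p = p' then 2 ^ g * vol H * (c ^ 2 * (1 / (p : ℝ) ^ 2)) else 0)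
        + K₂) = 2 ^ g * vol H * (c ^ 2 * (1 / (p : ℝ) ^ 2)) + T.card * K₂ := by
      intro p hp
      rw [sum_add_distrib, sum_ite_eq, if_pos hp, sum_const, nsmul_eq_mul]
    rw [sum_congr rfl h1, sum_add_distrib, sum_const, nsmul_eq_mul, ← mul_sum, ← mul_sum]
    have h2 := L3_sum_sq T y hy fun p hp => (hT p hp).2.2.1
    have h3 : (T.card : ℝ) * (T.card * K₂) ≤ 2 ^ (g + 1) * c ^ 2 * C₁ * vol H / y := by
      calc (T.card : ℝ) * (T.card * K₂) ≤ z * (z * K₂) := by
            apply mul_le_mul hTcard _ (by positivity) hz0.le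
            exact mul_le_mul_of_nonneg_right hTcard hK₂0
        _ = 2 ^ (g + 1) * c ^ 2 * C₁ * vol H / z := by rw [hK₂]; field_simp
        _ ≤ _ := by
            apply div_le_div_of_nonneg_left (by positivity) hy0 hyzr
    have h4 : 2 ^ g * vol H * (c ^ 2 * ∑ p ∈ T, 1 / (p : ℝ) ^ 2) ≤
        2 ^ g * vol H * (c ^ 2 * (2 / y)) := by
      apply mul_le_mul_of_nonneg_left _ (by positivity)
      exact mul_le_mul_of_nonneg_left h2 (by positivity)
    refine (add_le_add h4 h3).trans ?_
    have h5 : 2 ^ g * vol H * (c ^ 2 * (2 / y)) + 2 ^ (g + 1) * c ^ 2 * C₁ * vol H / y =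
        c ^ 2 * (2 ^ (g + 1) + 2 ^ (g + 1) * C₁) / y * vol H := by
      rw [pow_succ]; ring
    rw [h5]
    apply mul_le_mul_of_nonneg_right _ hv
    apply div_le_div_of_nonneg_right _ hy0.le
    apply mul_le_mul_of_nonneg_left _ (by positivity)
    have : 0 ≤ C₁ ^ 3 := by positivity
    linarith

end Pool.Agent.Lib.H59X
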