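import Pool.Agent.Lib.H59X.Defs

/-!
# Chunk V2A: a Mertens type bound
-/

open Finset

namespace Pool.Agent.Lib.H59X

/-- Proof. Mertens, or Chebyshev: the primes in `[2^j, 2^(j+1))` are at most `4 · 2^j/j` (`j ≥ 1`; `∏_{2^j ≤ p < 2^(j+1)} p` divides the central binomial coefficient and is
`≤ 4^(2^j)`, or a bound of `Lib/H59/ChebLite.lean`), so they contribute at most `4/j`; the interval `[y, y²)`, `2^a ≤ y < 2^(a+1)`, is covered by
`a ≤ j ≤ 2 a + 1`, and `∑_{a ≤ j ≤ 2a+1} 4/j ≤ 4 (a + 2)/a ≤ 12`. (A Mertens bound `∑_{p < z} 1/p = log log z + O(1)` of the library, e.g. `Lib/H33B`, `Lib/H59`,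
`Lib/H57S`, may be used.) -/
theorem sum_range : ∃ C : ℝ, 0 < C ∧ ∀ y : ℕ, 2 ≤ y → ∀ T : Finset ℕ,
    (∀ p ∈ T, p.Prime ∧ y ≤ p ∧ p < y ^ 2) → ∑ p ∈ T, (1 : ℝ) / p ≤ C := by
  refine ⟨12, by norm_num, ?_⟩
  intro y hy T hT
  set a := Nat.log 2 y with ha
  have ha1 : 1 ≤ a := by
    rw [ha]
    exact Nat.log_pos (by norm_num) hy
  have hya : 2 ^ a ≤ y := Nat.pow_log_le_self 2 (by omega)
  have hya' : y < 2 ^ (a + 1) := Nat.lt_pow_succ_log_self (by norm_num) y
  have hmaps : ∀ p ∈ T, Nat.log 2 p ∈ Icc a (2 * a + 1) := by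
    intro p hp
    obtain ⟨hpp, h1, h2⟩ := hT p hp
    rw [mem_Icc]
    constructor
    · exact Nat.log_mono_right h1
    · have h3 : p < 2 ^ (2 * a + 2) := by
        calc p < y ^ 2 := h2
          _ ≤ (2 ^ (a + 1)) ^ 2 := Nat.pow_le_pow_left hya'.le 2
          _ = 2 ^ (2 * a + 2) := by rw [← pow_mul]; ring_nf
      have h4 := Nat.log_lt_of_lt_pow (by omega : p ≠ 0) h3
      omega
  rw [← sum_fiberwise_of_maps_to hmaps]
  have hlog2 : 0 < Real.log 2 := Real.log_pos (by norm_num)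
  have hlog4 : Real.log 4 = 2 * Real.log 2 := by
    rw [show (4 : ℝ) = 2 ^ 2 by norm_num, Real.log_pow]; norm_num
  have hin : ∀ j ∈ Icc a (2 * a + 1),
      ∑ p ∈ T.filter (fun p => Nat.log 2 p = j), (1 : ℝ) / p ≤ 4 / a := by
    intro j hj
    have hj1 : 1 ≤ j := ha1.trans (mem_Icc.1 hj).1
    have hj0 : (0 : ℝ) < j := by exact_mod_cast hj1
    have ha0 : (0 : ℝ) < a := by exact_mod_cast ha1
    have haj : (a : ℝ) ≤ j := by exact_mod_cast (mem_Icc.1 hj).1
    have h2j : (0 : ℝ) < 2 ^ j := by positivity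
    have e1 : ∀ p ∈ T.filter (fun p => Nat.log 2 p = j),
        (1 : ℝ) / p ≤ Real.log p * (1 / (2 ^ j * (j * Real.log 2))) := by
      intro p hp
      obtain ⟨hpT, hpj⟩ := mem_filter.1 hp
      have hp0 : p ≠ 0 := (hT p hpT).1.ne_zero
      have h5 : 2 ^ j ≤ p := by rw [← hpj]; exact Nat.pow_log_le_self 2 hp0
      have h6 : (2 : ℝ) ^ j ≤ p := by exact_mod_cast h5
      have h7 : j * Real.log 2 ≤ Real.log p := by
        rw [← Real.log_pow]
        exact Real.log_le_log h2j h6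
      have hp1 : (0 : ℝ) < p := lt_of_lt_of_le h2j h6
      rw [mul_one_div, div_le_div_iff₀ hp1 (by positivity), one_mul]
      calc (2 : ℝ) ^ j * (j * Real.log 2) ≤ p * Real.log p :=
            mul_le_mul h6 h7 (by positivity) hp1.le
        _ = Real.log p * p := mul_comm _ _
    have e2 : ∑ p ∈ T.filter (fun p => Nat.log 2 p = j), Real.log p ≤
        Chebyshev.theta ((2 : ℝ) ^ (j + 1)) := by
      rw [Chebyshev.theta]
      refine sum_le_sum_of_subset_of_nonneg ?_ fun p _ _ => Real.log_natCast_nonneg p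
      intro p hp
      obtain ⟨hpT, hpj⟩ := mem_filter.1 hp
      rw [mem_filter, mem_Ioc]
      refine ⟨⟨(hT p hpT).1.pos, ?_⟩, (hT p hpT).1⟩
      have h8 : p < 2 ^ (j + 1) := by
        rw [← hpj]; exact Nat.lt_pow_succ_log_self (by norm_num) p
      have h9 : ((2 : ℝ) ^ (j + 1)) = ((2 ^ (j + 1) : ℕ) : ℝ) := by push_cast; rfl
      rw [h9, Nat.floor_natCast]
      exact h8.le
    have e3 : Chebyshev.theta ((2 : ℝ) ^ (j + 1)) ≤ Real.log 4 * 2 ^ (j + 1) :=
      Chebyshev.theta_le_log4_mul_x (by positivity)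
    calc ∑ p ∈ T.filter (fun p => Nat.log 2 p = j), (1 : ℝ) / p
        ≤ ∑ p ∈ T.filter (fun p => Nat.log 2 p = j),
            Real.log p * (1 / (2 ^ j * (j * Real.log 2))) := sum_le_sum e1
      _ = (∑ p ∈ T.filter (fun p => Nat.log 2 p = j), Real.log p) *
            (1 / (2 ^ j * (j * Real.log 2))) := by rw [sum_mul]
      _ ≤ (Real.log 4 * 2 ^ (j + 1)) * (1 / (2 ^ j * (j * Real.log 2))) :=
          mul_le_mul_of_nonneg_right (e2.trans e3) (by positivity)
      _ = 4 / j := by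
          rw [hlog4, pow_succ]
          field_simp
          norm_num
      _ ≤ 4 / a := div_le_div_of_nonneg_left (by norm_num) ha0 haj
  refine (sum_le_sum hin).trans ?_
  rw [sum_const, Nat.card_Icc, nsmul_eq_mul]
  have ha0 : (1 : ℝ) ≤ a := by exact_mod_cast ha1
  have h10 : ((2 * a + 1 + 1 - a : ℕ) : ℝ) = a + 2 := by
    have : 2 * a + 1 + 1 - a = a + 2 := by omega
    rw [this]; push_cast; ring
  rw [h10, mul_div_assoc', div_le_iff₀ (by linarith)]
  linarith

end Pool.Agent.Lib.H59X
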