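import Pool.Agent.Lib.H59X.T2
import Pool.Agent.Lib.H59X.M1
import Pool.Agent.Lib.H59X.B2
import Pool.Agent.Lib.H59X.F2
import Pool.Agent.Lib.H59X.L4

/-!
# Chunk Z1: the formula in the mean over the shifts, for every `N` (`G` linear)
-/

open Finset Polynomial

namespace Pool.Agent.Lib.H59X

open Pool.Agent.Lib.H59 (argSet argCount Admissible primeCount omegaN seriesTrunc rootCount)
open Pool.Agent.Lib.H68T (lp)
open Pool.Agent.Lib.H33B (Lq Lw PW SieveWt)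

theorem z1_card {g : ℕ} (H : Fin g → ℕ) : ((Box H).card : ℝ) = vol H := by
  unfold Box vol
  rw [Fintype.card_piFinset]
  push_cast
  refine Finset.prod_congr rfl fun i _ => ?_
  rw [Nat.card_Icc, Nat.add_sub_cancel]

theorem z1_bas (A : ℕ) (G : ℤ[X]) (hG : G.natDegree = 1) (hA : G.leadingCoeff.natAbs ≤ A) (N : ℕ) :
    Bas A 1 (C (N : ℤ) - G) := by
  have h1 : (C (N : ℤ)).natDegree < G.natDegree := by
    rw [natDegree_C, hG]
    exact one_pos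
  have h2 : (C (N : ℤ) - G).natDegree = 1 := by
    rw [natDegree_sub_eq_right_of_natDegree_lt h1, hG]
  refine Or.inr ⟨rfl, h2, ?_⟩
  have h3 : (C (N : ℤ) - G).leadingCoeff = -G.leadingCoeff := by
    unfold leadingCoeff
    rw [h2, hG, coeff_sub, coeff_C_ne_zero one_ne_zero, zero_sub]
  rw [h3, Int.natAbs_neg]
  exact hA

theorem z1_pol {g : ℕ} (P : Fin g → ℤ[X]) (hP : ∀ i, 1 ≤ (P i).natDegree) (c : ℕ) :
    ∃ A : ℕ, 1 ≤ A ∧ c ≤ A ∧ Pol A P := by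
  refine ⟨1 + c + ∑ i, ((P i).natDegree + (P i).leadingCoeff.natAbs), by omega, by omega, ?_⟩
  have h : ∀ i, (P i).natDegree + (P i).leadingCoeff.natAbs ≤
      ∑ i, ((P i).natDegree + (P i).leadingCoeff.natAbs) := fun i =>
    Finset.single_le_sum (f := fun i => (P i).natDegree + (P i).leadingCoeff.natAbs)
      (fun _ _ => Nat.zero_le _) (Finset.mem_univ i)
  exact ⟨hP, fun i => by have := h i; omega, fun i => by have := h i; omega⟩

/-- Proof. `X = argCount G N`, `B = C N - G` (`Bas A 1 B` for `A ≥ lc G, deg P_i, lc P_i`; `|B.coeff 0| ≤ N + |b| ≤ X²` for large `N`). Choose `W ≥ W₀ + lc G + 1` with `C/√W ≤ ε/4` (`mix_box`), then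
`u` from `replace P … (ε/4) W`, `U = max W (sup u)`, `z₀ = W`. For `z ≥ z₀` and large `N` (so that all `H_i ≥ X^(deg P_i)/C₁ ≥ H₀`, and all for large `X` hold; `argCount G N → ∞`,
`H59.argCount_tendsto`), in the mean over `h ∈ Box H` (each step costs `(ε/4) X vol H`):
`(∏ d_i) L^(g+1) cntF` → `∑_{n ≤ X} bw ∏ lp` (`count_fix` with the `C₂` of `bch_two`, `bch_two` with the `η` of `count_fix`) → `∑_{n ≤ X} bw ∏ Lw (u i)` (`replace`, `ψ = 1`) → `X · mixv`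
(`per_sum`, `beq_two` with `η = ε/(4 (PW U)^(g+1))`) → `X · ssz` (`mix_box`). -/
theorem l1_fix {g : ℕ} (G : ℤ[X]) (hG : G.natDegree = 1) (hlc : 0 < G.leadingCoeff)
    (P : Fin g → ℤ[X]) (hP : ∀ i, 1 ≤ (P i).natDegree) (hl : ∀ i, 0 < (P i).leadingCoeff)
    (C₁ : ℝ) (hC₁ : 1 ≤ C₁) (ε : ℝ) (hε : 0 < ε) :
    ∃ z₀ : ℕ, ∀ z : ℕ, z₀ ≤ z → ∃ N₀ : ℕ, ∀ N : ℕ, N₀ ≤ N → ∀ H : Fin g → ℕ,
    Fit C₁ (argCount G N) P H →
    ∑ h ∈ Box H, |(∏ i, ((P i).natDegree : ℝ)) * Real.log (argCount G N) ^ (g + 1) *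
        cntF 1 (C (N : ℤ) - G) P h (argCount G N) -
      argCount G N * ssz (1 + g) (QQ (C (N : ℤ) - G) P h) z| ≤ ε * argCount G N * vol H := by
  obtain ⟨A, hA, hcA, hPol⟩ := z1_pol P hP G.leadingCoeff.natAbs
  obtain ⟨K, W₀, hK, hmix⟩ := mix_box g A
  have hε4 : 0 < ε / 4 := by positivity
  obtain ⟨W, hWdef⟩ : ∃ W : ℕ, W = max (W₀ + G.leadingCoeff.natAbs + 1) ⌈(4 * K / ε) ^ 2⌉₊ :=
    ⟨_, rfl⟩
  have hW1 : W₀ + G.leadingCoeff.natAbs + 1 ≤ W := by rw [hWdef]; exact le_max_left _ _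
  have hW2 : (4 * K / ε) ^ 2 ≤ W := by
    refine (Nat.le_ceil _).trans ?_
    rw [hWdef]
    exact_mod_cast le_max_right _ _
  have hWpos : (0 : ℝ) < W := by
    have : 0 < W := by omega
    exact_mod_cast this
  have hKW : K / Real.sqrt W ≤ ε / 4 := by
    have h1 : 4 * K / ε ≤ Real.sqrt W := Real.le_sqrt_of_sq_le hW2
    have h2 : 0 < Real.sqrt W := Real.sqrt_pos.2 hWpos
    rw [div_le_iff₀ h2]
    rw [div_le_iff₀ hε] at h1
    linarith
  obtain ⟨u, hWu, X₂, hrep⟩ := replace P A hA hPol hl C₁ hC₁ (ε / 4) hε4 W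
  obtain ⟨U, hUdef⟩ : ∃ U : ℕ, U = max W (Finset.univ.sup u) := ⟨_, rfl⟩
  have hWU : W ≤ U := by rw [hUdef]; exact le_max_left _ _
  have huU : ∀ i, u i ≤ U := fun i => by
    rw [hUdef]
    exact (Finset.le_sup (f := u) (Finset.mem_univ i)).trans (le_max_right _ _)
  have hGU : G.leadingCoeff < U := by
    have : G.leadingCoeff.natAbs < U := by omega
    omega
  refine ⟨W, fun z hz => ?_⟩
  obtain ⟨H₀, hH₀⟩ := hmix W U z u (by omega) (fun i => ⟨hWu i, huU i⟩) hWU hz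
  obtain ⟨C₂, hC₂, hbch⟩ := bch_two G hG hlc
  obtain ⟨η₁, hη₁, X₁, hcount⟩ := count_fix P hP hl C₁ hC₁ C₂ (ε / 4) hε4
  obtain ⟨N₁, hN₁⟩ := hbch η₁ hη₁
  have hPW : (0 : ℝ) < (PW U : ℝ) ^ (g + 1) := by
    have h1 : 0 < PW U := by
      unfold PW
      exact Finset.prod_pos fun p hp => (Nat.prime_of_mem_primesBelow hp).pos
    positivity
  obtain ⟨η₂, hη₂def⟩ : ∃ η₂ : ℝ, η₂ = ε / 4 / (PW U : ℝ) ^ (g + 1) := ⟨_, rfl⟩
  have hη₂ : 0 < η₂ := by rw [hη₂def]; positivity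
  obtain ⟨N₂, hN₂⟩ := beq_two G hG hlc U hGU η₂ hη₂
  obtain ⟨m, hm⟩ : ∃ m : ℕ, m = max (max X₁ X₂) (max ⌈C₁ * H₀⌉₊
      ⌈4 * Pool.Agent.Lib.H59.coeffSum G⌉₊) := ⟨_, rfl⟩
  obtain ⟨N₃, hN₃⟩ := Pool.Agent.Lib.H57M.Q1_two G hG.ge hlc m
  refine ⟨max (max N₁ N₂) (max N₃ (G.coeff 0).natAbs), fun N hN H hfit => ?_⟩
  have hNa : N₁ ≤ N := ((le_max_left _ _).trans (le_max_left _ _)).trans hN
  have hNb : N₂ ≤ N := ((le_max_right _ _).trans (le_max_left _ _)).trans hN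
  have hNc : N₃ ≤ N := ((le_max_left _ _).trans (le_max_right _ _)).trans hN
  have hNd : (G.coeff 0).natAbs ≤ N := ((le_max_right _ _).trans (le_max_right _ _)).trans hN
  obtain ⟨g1, g2, -, g4⟩ := hN₃ N hNc
  rw [hG, pow_one, pow_one] at g4
  obtain ⟨X, hX⟩ : ∃ X : ℕ, X = argCount G N := ⟨_, rfl⟩
  have hb1 := hN₁ N hNa
  have hb2 := hN₂ N hNb
  rw [← hX] at hfit g1 g2 g4 hb1 hb2
  rw [← hX]
  obtain ⟨B, hBdef⟩ : ∃ B : ℤ[X], B = C (N : ℤ) - G := ⟨_, rfl⟩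
  have hbas : Bas A 1 B := by rw [hBdef]; exact z1_bas A G hG hcA N
  rw [← hBdef] at hb1 hb2
  rw [← hBdef]
  have hX1 : X₁ ≤ X := by
    refine le_trans ?_ g2
    rw [hm]
    exact (le_max_left _ _).trans (le_max_left _ _)
  have hX2 : X₂ ≤ X := by
    refine le_trans ?_ g2
    rw [hm]
    exact (le_max_right _ _).trans (le_max_left _ _)
  have hX3 : C₁ * H₀ ≤ X := by
    refine (Nat.le_ceil _).trans ?_
    have : ⌈C₁ * (H₀ : ℝ)⌉₊ ≤ X := by
      refine le_trans ?_ g2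
      rw [hm]
      exact (le_max_left _ _).trans (le_max_right _ _)
    exact_mod_cast this
  have hX4 : 4 * Pool.Agent.Lib.H59.coeffSum G ≤ X := by
    refine (Nat.le_ceil _).trans ?_
    have : ⌈4 * Pool.Agent.Lib.H59.coeffSum G⌉₊ ≤ X := by
      refine le_trans ?_ g2
      rw [hm]
      exact (le_max_right _ _).trans (le_max_right _ _)
    exact_mod_cast this
  have hXR : (1 : ℝ) ≤ X := by exact_mod_cast g1
  have hHi : ∀ i, H₀ ≤ H i := by
    intro i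
    have h1 := hfit.lo i
    have h2 : (X : ℝ) ≤ (X : ℝ) ^ (P i).natDegree := le_self_pow₀ hXR (by have := hP i; omega)
    have h3 : C₁ * (H₀ : ℝ) ≤ C₁ * H i := hX3.trans (h2.trans h1)
    have h4 : (H₀ : ℝ) ≤ H i := le_of_mul_le_mul_left h3 (by linarith)
    exact_mod_cast h4
  have hB0 : |(B.coeff 0 : ℝ)| ≤ (X : ℝ) ^ 2 := by
    have h1 : B.coeff 0 = N - G.coeff 0 := by
      rw [hBdef, coeff_sub, coeff_C_zero]
    have h2 : |B.coeff 0| ≤ 2 * N := by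
      rw [h1]
      have h3 : |G.coeff 0| ≤ N := by
        rw [Int.abs_eq_natAbs]
        exact_mod_cast hNd
      have h4 := abs_sub (N : ℤ) (G.coeff 0)
      have h5 : |(N : ℤ)| = N := abs_of_nonneg (Nat.cast_nonneg _)
      rw [h5] at h4
      linarith
    have h3 : |(B.coeff 0 : ℝ)| ≤ 2 * N := by exact_mod_cast h2
    refine h3.trans ?_
    have h4 := mul_le_mul_of_nonneg_right hX4 (by linarith : (0 : ℝ) ≤ X)
    nlinarith
  have s1 := hcount X hX1 H hfit 1 B hb1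
  have s2 := hrep X hX2 H hfit 1 B hbas hB0 (fun _ => 1) (fun _ => ⟨zero_le_one, le_rfl⟩)
  have s3 : ∀ h : Fin g → ℕ, |∑ n ∈ Icc 1 X, bw 1 B n * ∏ i, Lw (u i) ((P i).eval (n : ℤ) + h i) -
      X * mixv 1 B P u U h| ≤ ε / 4 * X := by
    intro h
    refine (per_sum 1 B P u U X η₂ huU hb2 X le_rfl h).trans (le_of_eq ?_)
    rw [hη₂def]
    field_simp
  have s4 := hH₀ H hHi P hPol 1 B hbas
  have s3' : ∑ h ∈ Box H, |∑ n ∈ Icc 1 X, bw 1 B n *
      ∏ i, Lw (u i) ((P i).eval (n : ℤ) + h i) - X * mixv 1 B P u U h| ≤ ε / 4 * X * vol H := by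
    refine (Finset.sum_le_sum fun h _ => s3 h).trans (le_of_eq ?_)
    rw [Finset.sum_const, nsmul_eq_mul, z1_card]
    ring
  have hvol : 0 ≤ vol H := by
    unfold vol
    exact Finset.prod_nonneg fun i _ => Nat.cast_nonneg _
  have s4' : ∑ h ∈ Box H, |X * mixv 1 B P u U h - X * ssz (1 + g) (QQ B P h) z| ≤
      ε / 4 * X * vol H := by
    have e : ∑ h ∈ Box H, |X * mixv 1 B P u U h - X * ssz (1 + g) (QQ B P h) z| =
        X * ∑ h ∈ Box H, |mixv 1 B P u U h - ssz (1 + g) (QQ B P h) z| := by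
      rw [Finset.mul_sum]
      refine Finset.sum_congr rfl fun h _ => ?_
      rw [← mul_sub, abs_mul, abs_of_nonneg (by linarith : (0 : ℝ) ≤ X)]
    rw [e]
    have h1 : K / Real.sqrt W * vol H ≤ ε / 4 * vol H := mul_le_mul_of_nonneg_right hKW hvol
    have h2 := mul_le_mul_of_nonneg_left (s4.trans h1) (by linarith : (0 : ℝ) ≤ X)
    refine h2.trans (le_of_eq ?_)
    ring
  have s2' : ∑ h ∈ Box H, |∑ n ∈ Icc 1 X, bw 1 B n * ∏ i, lp ((P i).eval (n : ℤ) + h i) -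
      ∑ n ∈ Icc 1 X, bw 1 B n * ∏ i, Lw (u i) ((P i).eval (n : ℤ) + h i)| ≤
      ε / 4 * X * vol H := by
    refine le_trans (le_of_eq ?_) s2
    refine Finset.sum_congr rfl fun h _ => ?_
    rw [← Finset.sum_sub_distrib]
    congr 1
    refine Finset.sum_congr rfl fun n _ => ?_
    ring
  calc _ ≤ ∑ h ∈ Box H, (|(∏ i, ((P i).natDegree : ℝ)) * Real.log X ^ (g + 1) * cntF 1 B P h X -
      ∑ n ∈ Icc 1 X, bw 1 B n * ∏ i, lp ((P i).eval (n : ℤ) + h i)| +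
      |∑ n ∈ Icc 1 X, bw 1 B n * ∏ i, lp ((P i).eval (n : ℤ) + h i) -
      ∑ n ∈ Icc 1 X, bw 1 B n * ∏ i, Lw (u i) ((P i).eval (n : ℤ) + h i)| +
      |∑ n ∈ Icc 1 X, bw 1 B n * ∏ i, Lw (u i) ((P i).eval (n : ℤ) + h i) -
        X * mixv 1 B P u U h| + |X * mixv 1 B P u U h - X * ssz (1 + g) (QQ B P h) z|) := by
        apply Finset.sum_le_sum
        intro h _
        have h1 := abs_sub_le ((∏ i, ((P i).natDegree : ℝ)) * Real.log X ^ (g + 1) *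
          cntF 1 B P h X) (X * mixv 1 B P u U h) (X * ssz (1 + g) (QQ B P h) z)
        have h2 := abs_sub_le ((∏ i, ((P i).natDegree : ℝ)) * Real.log X ^ (g + 1) *
          cntF 1 B P h X) (∑ n ∈ Icc 1 X, bw 1 B n * ∏ i, Lw (u i) ((P i).eval (n : ℤ) + h i))
          (X * mixv 1 B P u U h)
        have h3 := abs_sub_le ((∏ i, ((P i).natDegree : ℝ)) * Real.log X ^ (g + 1) *
          cntF 1 B P h X) (∑ n ∈ Icc 1 X, bw 1 B n * ∏ i, lp ((P i).eval (n : ℤ) + h i))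
          (∑ n ∈ Icc 1 X, bw 1 B n * ∏ i, Lw (u i) ((P i).eval (n : ℤ) + h i))
        linarith
    _ ≤ ε / 4 * X * vol H + ε / 4 * X * vol H + ε / 4 * X * vol H + ε / 4 * X * vol H := by
        rw [Finset.sum_add_distrib, Finset.sum_add_distrib, Finset.sum_add_distrib]
        exact add_le_add (add_le_add (add_le_add s1 s2') s3') s4'
    _ = ε * X * vol H := by ring

end Pool.Agent.Lib.H59X
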