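import Pool.Agent.Lib.H59X.Z2A
import Pool.Agent.Lib.H59X.T2
import Pool.Agent.Lib.H59X.T0
import Pool.Agent.Lib.H59X.B1
import Pool.Agent.Lib.H59X.F2

/-!
# Chunk Z2B: the formula in the mean over the shifts and over `N`
-/

open Finset Polynomial

namespace Pool.Agent.Lib.H59X

open Pool.Agent.Lib.H59 (argSet argCount Admissible primeCount omegaN seriesTrunc rootCount)
open Pool.Agent.Lib.H68T (lp)
open Pool.Agent.Lib.H33B (Lq Lw PW SieveWt)

/-- The deterministic polynomial of the final theorems: none, or a fixed linear one. -/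
def Bas' (r : ℕ) (B : ℤ[X]) : Prop :=
  (r = 0 ∧ B = 1) ∨ (r = 1 ∧ B.natDegree = 1 ∧ 0 < B.leadingCoeff)

theorem z2b_bdd (G : ℤ[X]) (hG : 1 ≤ G.natDegree) (hlc : 0 < G.leadingCoeff) (N : ℕ) :
    ∃ n₀ : ℕ, ∀ n : ℕ, G.eval (n : ℤ) < N → n < n₀ := by
  obtain ⟨n₁, hn₁⟩ := Pool.Agent.Lib.H59.exists_strictMono hG hlc
  have hgrow : ∀ k : ℕ, G.eval (n₁ : ℤ) + k ≤ G.eval ((n₁ + k : ℕ) : ℤ) := by
    intro k
    induction k with
    | zero => simp
    | succ k ih =>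
      have := hn₁ (n₁ + k) (n₁ + (k + 1)) (by omega) (by omega)
      push_cast at *
      omega
  refine ⟨n₁ + (N + (G.eval (n₁ : ℤ)).natAbs) + 1, fun n hn => ?_⟩
  by_contra hcon
  push Not at hcon
  obtain ⟨k, hk⟩ : ∃ k, n = n₁ + k := ⟨n - n₁, by omega⟩
  have h3 := hgrow k
  rw [← hk] at h3
  omega

theorem z2b_mono (G : ℤ[X]) (hG : 1 ≤ G.natDegree) (hlc : 0 < G.leadingCoeff) {N Y : ℕ}
    (h : N ≤ Y) : argCount G N ≤ argCount G Y := by
  obtain ⟨n₀, hn₀⟩ := z2b_bdd G hG hlc Y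
  refine Set.ncard_le_ncard (fun n hn => ⟨hn.1, ?_⟩) ((Set.finite_Iio n₀).subset fun n hn => ?_)
  · have := hn.2
    have h' : (N : ℤ) ≤ Y := by exact_mod_cast h
    linarith
  · exact hn₀ n (by have := hn.2; linarith)

theorem z2b_card {g : ℕ} (H : Fin g → ℕ) : ((Box H).card : ℝ) = vol H := by
  unfold Box vol
  rw [Fintype.card_piFinset]
  push_cast
  simp

theorem z2b_vol_nonneg {g : ℕ} (H : Fin g → ℕ) : 0 ≤ vol H :=
  Finset.prod_nonneg fun i _ => Nat.cast_nonneg _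

theorem z2b_PW_one (w : ℕ) : (1 : ℝ) ≤ PW w := by
  have := Pool.Agent.Lib.H33B.PW_pos w
  exact_mod_cast this

theorem z2b_bw_nonneg (r : ℕ) (B : ℤ[X]) (n : ℕ) : 0 ≤ bw r B n := by
  unfold bw; split_ifs
  · norm_num
  · exact Pool.Agent.Lib.H33B.ENG_lp_nonneg _

theorem z2b_Lq_nonneg (q : ℕ) (m : ℤ) : 0 ≤ Lq q m := by
  unfold Lq; split_ifs
  · positivity
  · exact le_rfl

theorem z2b_Lq_le (q : ℕ) (hq : 0 < q) (m : ℤ) : Lq q m ≤ q := by
  unfold Lq; split_ifs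
  · have h1 : (1 : ℝ) ≤ Nat.totient q := by exact_mod_cast Nat.totient_pos.mpr hq
    exact div_le_self (Nat.cast_nonneg _) h1
  · positivity

theorem z2b_Lw_le (w : ℕ) (m : ℤ) : Lw w m ≤ PW w :=
  z2b_Lq_le _ (Pool.Agent.Lib.H33B.PW_pos w) m

theorem z2b_mixv_le {g : ℕ} (r : ℕ) (B : ℤ[X]) (P : Fin g → ℤ[X]) (u : Fin g → ℕ) (U : ℕ)
    (h : Fin g → ℕ) : |mixv r B P u U h| ≤ PW U * ∏ i, (PW (u i) : ℝ) := by
  have hU := z2b_PW_one U
  have hbL0 : ∀ v, 0 ≤ bL r B (PW U) v := by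
    intro v; unfold bL; split_ifs
    · norm_num
    · exact z2b_Lq_nonneg _ _
  have hbL : ∀ v, bL r B (PW U) v ≤ PW U := by
    intro v; unfold bL; split_ifs
    · exact hU
    · exact z2b_Lq_le _ (Pool.Agent.Lib.H33B.PW_pos U) _
  have hL0 : ∀ (i : Fin g) (m : ℤ), 0 ≤ Lw (u i) m := fun i m =>
    Pool.Agent.Lib.H33B.ENG_Lw_nonneg _ _
  have hL : ∀ (i : Fin g) (m : ℤ), Lw (u i) m ≤ PW (u i) := fun i m =>
    z2b_Lw_le _ _
  unfold mixv
  rw [abs_div, abs_of_pos (by linarith : (0 : ℝ) < PW U), div_le_iff₀ (by linarith)]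
  rw [abs_of_nonneg (Finset.sum_nonneg fun v _ => mul_nonneg (hbL0 v)
    (Finset.prod_nonneg fun i _ => hL0 i _))]
  calc ∑ v ∈ range (PW U), bL r B (PW U) v * ∏ i, Lw (u i) ((P i).eval (v : ℤ) + h i)
      ≤ ∑ _v ∈ range (PW U), (PW U : ℝ) * ∏ i, (PW (u i) : ℝ) := by
        apply Finset.sum_le_sum
        intro v _
        exact mul_le_mul (hbL v) (Finset.prod_le_prod (fun i _ => hL0 i _) (fun i _ => hL i _))
          (Finset.prod_nonneg fun i _ => hL0 i _) (by linarith)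
    _ = PW U * (∏ i, (PW (u i) : ℝ)) * PW U := by
        rw [Finset.sum_const, Finset.card_range, nsmul_eq_mul]; ring

/-- replacement of the shifted primes for one `N` -/
theorem z2b_step {g : ℕ} (G : ℤ[X]) (P : Fin g → ℤ[X]) (A : ℕ) (hA : 1 ≤ A) (hP : Pol A P)
    (hl : ∀ i, 0 < (P i).leadingCoeff) (C₁ : ℝ) (hC₁ : 1 ≤ C₁) (ε : ℝ) (hε : 0 < ε) (W w : ℕ) :
    ∃ u : Fin g → ℕ, (∀ i, W ≤ u i) ∧ ∃ X₀ : ℕ, ∀ X : ℕ, X₀ ≤ X → ∀ H : Fin g → ℕ, Fit C₁ X P H →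
    ∀ (r : ℕ) (B : ℤ[X]), Bas A r B → |(B.coeff 0 : ℝ)| ≤ (X : ℝ) ^ 2 → ∀ N : ℕ,
    ∑ h ∈ Box H, |∑ n ∈ (Icc 1 X).filter (fun n : ℕ => G.eval (n : ℤ) < N),
        bw r B n * (∏ i, lp ((P i).eval (n : ℤ) + h i)) * Lw w ((N : ℤ) - G.eval (n : ℤ)) -
      ∑ n ∈ (Icc 1 X).filter (fun n : ℕ => G.eval (n : ℤ) < N),
        bw r B n * (∏ i, Lw (u i) ((P i).eval (n : ℤ) + h i)) * Lw w ((N : ℤ) - G.eval (n : ℤ))| ≤
      ε * X * vol H := by
  have hw : (0 : ℝ) < PW w := lt_of_lt_of_le one_pos (z2b_PW_one w)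
  obtain ⟨u, hu, X₀, hX₀⟩ := replace P A hA hP hl C₁ hC₁ (ε / PW w) (by positivity) W
  refine ⟨u, hu, X₀, ?_⟩
  intro X hX H hF r B hB hB0 N
  have key := hX₀ X hX H hF r B hB hB0
    (fun n => if G.eval (n : ℤ) < N then Lw w ((N : ℤ) - G.eval (n : ℤ)) / PW w else 0)
    (fun n => by
      split_ifs
      · exact ⟨div_nonneg (Pool.Agent.Lib.H33B.ENG_Lw_nonneg _ _) hw.le,
          (div_le_one hw).mpr (z2b_Lw_le _ _)⟩
      · exact ⟨le_rfl, zero_le_one⟩)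
  have e : ∀ h : Fin g → ℕ, |∑ n ∈ (Icc 1 X).filter (fun n : ℕ => G.eval (n : ℤ) < N),
        bw r B n * (∏ i, lp ((P i).eval (n : ℤ) + h i)) * Lw w ((N : ℤ) - G.eval (n : ℤ)) -
      ∑ n ∈ (Icc 1 X).filter (fun n : ℕ => G.eval (n : ℤ) < N),
        bw r B n * (∏ i, Lw (u i) ((P i).eval (n : ℤ) + h i)) *
          Lw w ((N : ℤ) - G.eval (n : ℤ))| =
      PW w * |∑ n ∈ Icc 1 X,
        (if G.eval (n : ℤ) < N then Lw w ((N : ℤ) - G.eval (n : ℤ)) / PW w else 0) * bw r B n *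
      (∏ i, lp ((P i).eval (n : ℤ) + h i) - ∏ i, Lw (u i) ((P i).eval (n : ℤ) + h i))| := by
    intro h
    have habs : ∀ x : ℝ, (PW w : ℝ) * |x| = |(PW w : ℝ) * x| := fun x => by
      rw [abs_mul, abs_of_pos hw]
    rw [← Finset.sum_sub_distrib, Finset.sum_filter, habs, Finset.mul_sum]
    congr 1
    apply Finset.sum_congr rfl
    intro n _
    split_ifs
    · field_simp
    · ring
  calc _ = PW w * ∑ h ∈ Box H, |∑ n ∈ Icc 1 X,
        (if G.eval (n : ℤ) < N then Lw w ((N : ℤ) - G.eval (n : ℤ)) / PW w else 0) * bw r B n *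
      (∏ i, lp ((P i).eval (n : ℤ) + h i) - ∏ i, Lw (u i) ((P i).eval (n : ℤ) + h i))| := by
        rw [Finset.mul_sum]
        exact Finset.sum_congr rfl fun h _ => e h
    _ ≤ PW w * (ε / PW w * X * vol H) := mul_le_mul_of_nonneg_left key hw.le
    _ = ε * X * vol H := by field_simp

/-- the small `N` -/
theorem z2b_small {g : ℕ} (G : ℤ[X]) (hG : 1 ≤ G.natDegree) (hlc : 0 < G.leadingCoeff)
    (P : Fin g → ℤ[X]) (r : ℕ) (B : ℤ[X]) (u : Fin g → ℕ) (w U N₀ : ℕ) :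
    ∃ D : ℝ, 0 ≤ D ∧ ∀ N : ℕ, N < N₀ → ∀ (X : ℕ) (h : Fin g → ℕ),
    |∑ n ∈ (Icc 1 X).filter (fun n : ℕ => G.eval (n : ℤ) < N),
      bw r B n * (∏ i, Lw (u i) ((P i).eval (n : ℤ) + h i)) * Lw w ((N : ℤ) - G.eval (n : ℤ)) -
      argCount G N * mixv r B (Fin.cons (-G) P : Fin (g + 1) → ℤ[X])
        (Fin.cons w u : Fin (g + 1) → ℕ) U (Fin.cons N h)| ≤ D := by
  obtain ⟨n₀, hn₀⟩ := z2b_bdd G hG hlc N₀
  refine ⟨(∑ n ∈ range n₀, bw r B n) * (∏ i, (PW (u i) : ℝ)) * PW w +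
    argCount G N₀ * (PW U * ∏ i, (PW ((Fin.cons w u : Fin (g + 1) → ℕ) i) : ℝ)), ?_, ?_⟩
  · have : 0 ≤ ∑ n ∈ range n₀, bw r B n := Finset.sum_nonneg fun n _ => z2b_bw_nonneg r B n
    positivity
  intro N hN X h
  refine (abs_sub _ _).trans (add_le_add ?_ ?_)
  · rw [abs_of_nonneg (Finset.sum_nonneg fun n _ => mul_nonneg (mul_nonneg (z2b_bw_nonneg r B n)
      (Finset.prod_nonneg fun i _ => Pool.Agent.Lib.H33B.ENG_Lw_nonneg _ _))
      (Pool.Agent.Lib.H33B.ENG_Lw_nonneg _ _))]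
    calc ∑ n ∈ (Icc 1 X).filter (fun n : ℕ => G.eval (n : ℤ) < N),
          bw r B n * (∏ i, Lw (u i) ((P i).eval (n : ℤ) + h i)) * Lw w ((N : ℤ) - G.eval (n : ℤ))
        ≤ ∑ n ∈ (Icc 1 X).filter (fun n : ℕ => G.eval (n : ℤ) < N),
          bw r B n * (∏ i, (PW (u i) : ℝ)) * PW w := by
          apply Finset.sum_le_sum
          intro n _
          have a0 := z2b_bw_nonneg r B n
          have a1 : ∏ i, Lw (u i) ((P i).eval (n : ℤ) + h i) ≤ ∏ i, (PW (u i) : ℝ) :=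
            Finset.prod_le_prod (fun i _ => Pool.Agent.Lib.H33B.ENG_Lw_nonneg _ _)
              (fun i _ => z2b_Lw_le _ _)
          have a2 := z2b_Lw_le w ((N : ℤ) - G.eval (n : ℤ))
          exact mul_le_mul (mul_le_mul_of_nonneg_left a1 a0) a2
            (Pool.Agent.Lib.H33B.ENG_Lw_nonneg _ _) (by positivity)
      _ ≤ ∑ n ∈ range n₀, bw r B n * (∏ i, (PW (u i) : ℝ)) * PW w := by
          apply Finset.sum_le_sum_of_subset_of_nonneg
          · intro n hn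
            rw [Finset.mem_filter] at hn
            rw [Finset.mem_range]
            apply hn₀
            have h' : (N : ℤ) < N₀ := by exact_mod_cast hN
            exact hn.2.trans h'
          · intro n _ _
            have a0 := z2b_bw_nonneg r B n
            positivity
      _ = (∑ n ∈ range n₀, bw r B n) * (∏ i, (PW (u i) : ℝ)) * PW w := by
          rw [Finset.sum_mul, Finset.sum_mul]
  · rw [abs_mul, abs_of_nonneg (Nat.cast_nonneg _ : (0 : ℝ) ≤ argCount G N)]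
    have a1 : (argCount G N : ℝ) ≤ argCount G N₀ := by
      exact_mod_cast z2b_mono G hG hlc hN.le
    exact mul_le_mul a1 (z2b_mixv_le _ _ _ _ _ _) (abs_nonneg _) (Nat.cast_nonneg _)

theorem z2b_bas {r : ℕ} {B : ℤ[X]} (hB : Bas' r B) : ∃ A₀ : ℕ, (∀ A, A₀ ≤ A → Bas A r B) ∧
    (∀ U, A₀ < U → ∀ η : ℝ, 0 < η → ∃ X₀ : ℕ, ∀ X : ℕ, X₀ ≤ X → BEq r B U X η) ∧
    ∃ C₂ : ℝ, ∀ η : ℝ, 0 < η → ∃ X₀ : ℕ, ∀ X : ℕ, X₀ ≤ X → BCh r B X η C₂ := by
  rcases hB with ⟨rfl, rfl⟩ | ⟨rfl, h1, h2⟩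
  · refine ⟨0, fun A _ => Or.inl ⟨rfl, rfl⟩, fun U _ η hη => beq_zero U η hη, 2, fun η hη =>
      ⟨0, fun X _ => bch_zero X η hη.le⟩⟩
  · refine ⟨B.leadingCoeff.natAbs, fun A hA => Or.inr ⟨rfl, h1, hA⟩, fun U hU η hη =>
      beq_one B h1 h2 U (by omega) η hη, ?_⟩
    obtain ⟨C₂, -, hC⟩ := bch_one B h1 h2
    exact ⟨C₂, hC⟩

/-- Proof. `X = argCount G Y`, `L = log X`; `A` a bound for all degrees and leading coefficients, `Bas A r B`; `|B.coeff 0| ≤ X²` for large `Y`. Choose `W ≥ W₀ + lc B + 1` with `C/√W ≤ ε/8` (`mix_box_N`),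
`w ≥ W` from `stepN … (ε/8)`, `u` from `replace P … (ε/(8 PW w)) W`, `U = max w (sup u)`, `z₀ = W`. For `z ≥ z₀`, large `Y`, in the mean over `N ≤ Y` and `h ∈ Box H` (each step costs
`(ε/8) X Y vol H`): `k ∏ d_i L^(g+r+1) cntN` → `∑ bw ∏ lp · lp(N - G(n))` (`count_avg`, with `bch_zero`, `bch_one`) → `∑ bw ∏ lp · Lw w (N - G(n))` (`stepN`) → `∑ bw ∏ Lw (u i) · Lw w (N - G(n))` (for each `N`: `replace` with
`ψ(n) = 1[G(n) < N] Lw w (N - G(n))/PW w`) → `argCount G N · mixv` (`per_sum_N` with `beq_zero`, `beq_one`, for `N ≥ N₀`) → `argCount G N · ssz` (`mix_box_N`, `argCount G N ≤ X` for large `Y`). For the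
`N < N₀` (finitely many) bound everything trivially: `argCount G N` is bounded; `mixv`, `ssz`, `Lw` are bounded in terms of `U, z` (not of `Y`), and the sum over the `n` with
`G(n) < N < N₀` has a bounded number of terms, with `bw ≤ C log X`: total `O(log X) vol H ≤ (ε/8) X Y vol H`. -/
theorem l1_avg {g : ℕ} (G : ℤ[X]) (hG : 1 ≤ G.natDegree) (hlc : 0 < G.leadingCoeff)
    (P : Fin g → ℤ[X]) (hP : ∀ i, 1 ≤ (P i).natDegree) (hl : ∀ i, 0 < (P i).leadingCoeff)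
    (r : ℕ) (B : ℤ[X]) (hB : Bas' r B) (C₁ : ℝ) (hC₁ : 1 ≤ C₁) (ε : ℝ) (hε : 0 < ε) :
    ∃ z₀ : ℕ, ∀ z : ℕ, z₀ ≤ z → ∃ Y₀ : ℕ, ∀ Y : ℕ, Y₀ ≤ Y → ∀ H : Fin g → ℕ,
    Fit C₁ (argCount G Y) P H →
    ∑ h ∈ Box H, ∑ N ∈ Icc 1 Y, |((G.natDegree : ℝ) * ∏ i, ((P i).natDegree : ℝ)) *
        Real.log (argCount G Y) ^ (g + r + 1) * cntN r B P G h N (argCount G Y) -
      argCount G N * ssz (r + g + 1) (QQ B P h * (C (N : ℤ) - G)) z| ≤
        ε * Y * argCount G Y * vol H := by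
  obtain ⟨A₀, hBas, hBEq, C₂, hBCh⟩ := z2b_bas hB
  -- the bound for degrees and leading coefficients
  set A : ℕ := 1 + A₀ + G.natDegree + G.leadingCoeff.natAbs +
    ∑ i, ((P i).natDegree + (P i).leadingCoeff.natAbs) with hA
  have hPi : ∀ i, (P i).natDegree + (P i).leadingCoeff.natAbs ≤
      ∑ i, ((P i).natDegree + (P i).leadingCoeff.natAbs) := fun i =>
    Finset.single_le_sum (f := fun i => (P i).natDegree + (P i).leadingCoeff.natAbs)
      (fun j _ => Nat.zero_le _) (Finset.mem_univ i)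
  have hPol : Pol A P := ⟨hP, fun i => by have := hPi i; omega, fun i => by have := hPi i; omega⟩
  have hBA : Bas A r B := hBas A (by omega)
  have hA1 : 1 ≤ A := by omega
  obtain ⟨K, W₀, hK, hmix⟩ := mix_box_N A G hG (by omega) (by omega) P hPol
  have hε8 : 0 < ε / 8 := by positivity
  -- the level `W`
  obtain ⟨W₁, hW₁⟩ : ∃ W₁ : ℕ, ∀ W : ℕ, W₁ ≤ W → K / Real.sqrt W ≤ ε / 8 := by
    have h1 : Filter.Tendsto (fun W : ℕ => K / Real.sqrt W) Filter.atTop (nhds 0) := by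
      apply Filter.Tendsto.const_div_atTop
      exact Real.tendsto_sqrt_atTop.comp tendsto_natCast_atTop_atTop
    exact Filter.eventually_atTop.mp (h1.eventually_le_const hε8)
  set W : ℕ := W₀ + W₁ + A₀ + 1 with hW
  obtain ⟨w₀, hw₀⟩ := stepN G hG hlc P A hA1 hPol hl C₁ hC₁ (ε / 8) hε8
  set w : ℕ := max w₀ W with hw
  obtain ⟨Y₁, hY₁⟩ := hw₀ w (le_max_left _ _)
  obtain ⟨u, hu, X₂, hX₂⟩ := z2b_step G P A hA1 hPol hl C₁ hC₁ (ε / 8) hε8 W w
  set U : ℕ := w + ∑ i, u i with hU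
  have hwU : w ≤ U := by omega
  have huU : ∀ i, u i ≤ U := fun i => by
    have := Finset.single_le_sum (f := u) (fun j _ => Nat.zero_le _) (Finset.mem_univ i)
    omega
  have hWw : W ≤ w := le_max_right _ _
  refine ⟨W, fun z hz => ?_⟩
  obtain ⟨H₀, hH₀⟩ := hmix W U z w u (by omega) hWw hwU (fun i => ⟨hu i, huU i⟩) hz
  obtain ⟨η₁, hη₁, Y₂, hY₂⟩ := count_avg G hG hlc P hP hl C₁ hC₁ C₂ (ε / 8) hε8
  obtain ⟨X₃, hX₃⟩ := hBCh η₁ hη₁
  have hPU : (0 : ℝ) < PW U := lt_of_lt_of_le one_pos (z2b_PW_one U)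
  obtain ⟨X₄, hX₄⟩ := hBEq U (by omega) (ε / (8 * (PW U : ℝ) ^ (g + 2))) (by positivity)
  obtain ⟨N₀, hN₀⟩ := per_sum_N G hG hlc P
  obtain ⟨D, hD0, hD⟩ := z2b_small G hG hlc P r B u w U N₀
  -- `X` is large
  obtain ⟨Y₃, hY₃⟩ : ∃ Y₃ : ℕ, ∀ Y : ℕ, Y₃ ≤ Y →
      1 + X₂ + X₃ + X₄ + ⌈C₁⌉₊ * H₀ + (B.coeff 0).natAbs ≤ argCount G Y :=
    Filter.eventually_atTop.mp ((Pool.Agent.Lib.H59.argCount_tendsto hG hlc).eventually_ge_atTop _)
  refine ⟨Y₁ + Y₂ + Y₃ + H₀ + N₀ + ⌈8 * N₀ * D / ε⌉₊ + 1, fun Y hY H hF => ?_⟩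
  have hXl := hY₃ Y (by omega)
  set X := argCount G Y with hXdef
  have hX1 : (1 : ℝ) ≤ X := by
    have : 1 ≤ X := by omega
    exact_mod_cast this
  have hv := z2b_vol_nonneg H
  have hcoef : |(B.coeff 0 : ℝ)| ≤ (X : ℝ) ^ 2 := by
    have h1 : ((B.coeff 0).natAbs : ℝ) ≤ X := by
      have : (B.coeff 0).natAbs ≤ X := by omega
      exact_mod_cast this
    have h2 : |(B.coeff 0 : ℝ)| = ((B.coeff 0).natAbs : ℝ) := by
      rw [Nat.cast_natAbs]; push_cast; rfl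
    rw [h2]
    nlinarith
  have hHi : ∀ i, H₀ ≤ H i := by
    intro i
    have h1 := hF.lo i
    have h2 : (X : ℝ) ≤ (X : ℝ) ^ (P i).natDegree := le_self_pow₀ hX1 (by have := hP i; omega)
    have h3 : ((⌈C₁⌉₊ * H₀ : ℕ) : ℝ) ≤ X := by
      have : ⌈C₁⌉₊ * H₀ ≤ X := by omega
      exact_mod_cast this
    have h4 : C₁ * (H₀ : ℝ) ≤ ((⌈C₁⌉₊ * H₀ : ℕ) : ℝ) := by
      push_cast
      exact mul_le_mul_of_nonneg_right (Nat.le_ceil C₁) (Nat.cast_nonneg _)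
    have h5 : C₁ * (H₀ : ℝ) ≤ C₁ * (H i : ℝ) := by linarith
    have h6 : (H₀ : ℝ) ≤ H i := le_of_mul_le_mul_left h5 (by linarith)
    exact_mod_cast h6
  -- the terms
  set T0 : (Fin g → ℕ) → ℕ → ℝ := fun h N => ((G.natDegree : ℝ) * ∏ i, ((P i).natDegree : ℝ)) *
        Real.log X ^ (g + r + 1) * cntN r B P G h N X with hT0
  set T1 : (Fin g → ℕ) → ℕ → ℝ := fun h N =>
    ∑ n ∈ (Icc 1 X).filter (fun n : ℕ => G.eval (n : ℤ) < N),
        bw r B n * (∏ i, lp ((P i).eval (n : ℤ) + h i)) * lp ((N : ℤ) - G.eval (n : ℤ)) with hT1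
  set T2 : (Fin g → ℕ) → ℕ → ℝ := fun h N =>
    ∑ n ∈ (Icc 1 X).filter (fun n : ℕ => G.eval (n : ℤ) < N),
        bw r B n * (∏ i, lp ((P i).eval (n : ℤ) + h i)) * Lw w ((N : ℤ) - G.eval (n : ℤ)) with hT2
  set T3 : (Fin g → ℕ) → ℕ → ℝ := fun h N =>
    ∑ n ∈ (Icc 1 X).filter (fun n : ℕ => G.eval (n : ℤ) < N),
        bw r B n * (∏ i, Lw (u i) ((P i).eval (n : ℤ) + h i)) *
          Lw w ((N : ℤ) - G.eval (n : ℤ)) with hT3
  set T4 : (Fin g → ℕ) → ℕ → ℝ := fun h N =>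
    argCount G N * mixv r B (Fin.cons (-G) P : Fin (g + 1) → ℤ[X])
        (Fin.cons w u : Fin (g + 1) → ℕ) U (Fin.cons N h) with hT4
  set T5 : (Fin g → ℕ) → ℕ → ℝ := fun h N =>
    argCount G N * ssz (r + g + 1) (QQ B P h * (C (N : ℤ) - G)) z with hT5
  have s01 : ∑ h ∈ Box H, ∑ N ∈ Icc 1 Y, |T0 h N - T1 h N| ≤ ε / 8 * Y * X * vol H :=
    hY₂ Y (by omega) H hF r B (hX₃ X (by omega))
  have s12 : ∑ h ∈ Box H, ∑ N ∈ Icc 1 Y, |T1 h N - T2 h N| ≤ ε / 8 * Y * X * vol H := by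
    have h1 := hY₁ Y (by omega) H hF r B hBA hcoef
    refine le_trans (le_of_eq ?_) h1
    refine Finset.sum_congr rfl fun h _ => Finset.sum_congr rfl fun N _ => ?_
    congr 1
    simp only [hT1, hT2]
    rw [← Finset.sum_sub_distrib]
    exact Finset.sum_congr rfl fun n _ => by ring
  have s23 : ∑ h ∈ Box H, ∑ N ∈ Icc 1 Y, |T2 h N - T3 h N| ≤ ε / 8 * Y * X * vol H := by
    rw [Finset.sum_comm]
    calc ∑ N ∈ Icc 1 Y, ∑ h ∈ Box H, |T2 h N - T3 h N|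
        ≤ ∑ _N ∈ Icc 1 Y, ε / 8 * X * vol H :=
          Finset.sum_le_sum fun N _ => hX₂ X (by omega) H hF r B hBA hcoef N
      _ = ε / 8 * Y * X * vol H := by
          rw [Finset.sum_const, Nat.card_Icc, nsmul_eq_mul]
          push_cast
          ring
  have s34 : ∑ h ∈ Box H, ∑ N ∈ Icc 1 Y, |T3 h N - T4 h N| ≤ ε / 4 * Y * X * vol H := by
    have hbe := hX₄ X (by omega)
    have hpt : ∀ h : Fin g → ℕ, ∀ N ∈ Icc 1 Y, |T3 h N - T4 h N| ≤
        ε / 8 * X + if N < N₀ then D else 0 := by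
      intro h N hN
      rw [Finset.mem_Icc] at hN
      have hεX : 0 ≤ ε / 8 * X := by positivity
      split_ifs with hlt
      · have := hD N hlt X h
        linarith
      · have h1 := hN₀ r B u w U Y _ huU hwU hbe N (by omega) hN.2 h
        have h2 : (PW U : ℝ) ^ (g + 2) * (ε / (8 * (PW U : ℝ) ^ (g + 2)) * X) = ε / 8 * X := by
          field_simp
        have h3 : |T3 h N - T4 h N| ≤ (PW U : ℝ) ^ (g + 2) *
          (ε / (8 * (PW U : ℝ) ^ (g + 2)) * X) := h1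
        linarith
    have hsmall : ∑ N ∈ Icc 1 Y, (if N < N₀ then D else 0) ≤ ε / 8 * X * Y := by
      have h1 : ∑ N ∈ Icc 1 Y, (if N < N₀ then D else 0) ≤ N₀ * D := by
        rw [← Finset.sum_filter, Finset.sum_const, nsmul_eq_mul]
        apply mul_le_mul_of_nonneg_right _ hD0
        have : ((Icc 1 Y).filter (fun N => N < N₀)).card ≤ (range N₀).card := by
          apply Finset.card_le_card
          intro N hN
          rw [Finset.mem_filter] at hN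
          exact Finset.mem_range.mpr hN.2
        rw [Finset.card_range] at this
        exact_mod_cast this
      have h2 : 8 * N₀ * D / ε ≤ Y := by
        refine (Nat.le_ceil _).trans ?_
        have : ⌈8 * N₀ * D / ε⌉₊ ≤ Y := by omega
        exact_mod_cast this
      rw [div_le_iff₀ hε] at h2
      have h3 : (Y : ℝ) * ε ≤ X * (Y * ε) := by
        have : (0 : ℝ) ≤ Y * ε := by positivity
        nlinarith
      nlinarith
    calc ∑ h ∈ Box H, ∑ N ∈ Icc 1 Y, |T3 h N - T4 h N|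
        ≤ ∑ _h ∈ Box H, ∑ N ∈ Icc 1 Y, (ε / 8 * X + if N < N₀ then D else 0) :=
          Finset.sum_le_sum fun h _ => Finset.sum_le_sum fun N hN => hpt h N hN
      _ = vol H * (Y * (ε / 8 * X) + ∑ N ∈ Icc 1 Y, (if N < N₀ then D else 0)) := by
          rw [Finset.sum_const, nsmul_eq_mul, z2b_card, Finset.sum_add_distrib, Finset.sum_const,
            Nat.card_Icc, nsmul_eq_mul]
          push_cast
          ring
      _ ≤ vol H * (Y * (ε / 8 * X) + ε / 8 * X * Y) := by gcongr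
      _ = ε / 4 * Y * X * vol H := by ring
  have s45 : ∑ h ∈ Box H, ∑ N ∈ Icc 1 Y, |T4 h N - T5 h N| ≤ ε / 8 * Y * X * vol H := by
    have h1 := hH₀ Y H (by omega) hHi r B hBA
    have h2 := hW₁ W (by omega)
    rw [Finset.sum_comm]
    calc ∑ N ∈ Icc 1 Y, ∑ h ∈ Box H, |T4 h N - T5 h N|
        ≤ ∑ N ∈ Icc 1 Y, ∑ h ∈ Box H, X *
          |mixv r B (Fin.cons (-G) P : Fin (g + 1) → ℤ[X]) (Fin.cons w u : Fin (g + 1) → ℕ) U
          (Fin.cons N h) - ssz (r + g + 1) (QQ B P h * (C (N : ℤ) - G)) z| := by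
          apply Finset.sum_le_sum
          intro N hN
          apply Finset.sum_le_sum
          intro h _
          simp only [hT4, hT5]
          rw [← mul_sub, abs_mul, abs_of_nonneg (Nat.cast_nonneg _ : (0 : ℝ) ≤ argCount G N)]
          apply mul_le_mul_of_nonneg_right _ (abs_nonneg _)
          rw [Finset.mem_Icc] at hN
          exact_mod_cast z2b_mono G hG hlc hN.2
      _ = X * ∑ N ∈ Icc 1 Y, ∑ h ∈ Box H,
          |mixv r B (Fin.cons (-G) P : Fin (g + 1) → ℤ[X]) (Fin.cons w u : Fin (g + 1) → ℕ) U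
          (Fin.cons N h) - ssz (r + g + 1) (QQ B P h * (C (N : ℤ) - G)) z| := by
          simp only [Finset.mul_sum]
      _ ≤ X * (K / Real.sqrt W * Y * vol H) := mul_le_mul_of_nonneg_left h1 (Nat.cast_nonneg _)
      _ ≤ X * (ε / 8 * Y * vol H) := by gcongr
      _ = ε / 8 * Y * X * vol H := by ring
  calc ∑ h ∈ Box H, ∑ N ∈ Icc 1 Y, |T0 h N - T5 h N|
      ≤ ∑ h ∈ Box H, ∑ N ∈ Icc 1 Y, (|T0 h N - T1 h N| + |T1 h N - T2 h N| + |T2 h N - T3 h N| +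
          |T3 h N - T4 h N| + |T4 h N - T5 h N|) := by
        refine Finset.sum_le_sum fun h _ => Finset.sum_le_sum fun N _ => ?_
        have a1 := abs_sub_le (T0 h N) (T1 h N) (T5 h N)
        have a2 := abs_sub_le (T1 h N) (T2 h N) (T5 h N)
        have a3 := abs_sub_le (T2 h N) (T3 h N) (T5 h N)
        have a4 := abs_sub_le (T3 h N) (T4 h N) (T5 h N)
        linarith
    _ = (∑ h ∈ Box H, ∑ N ∈ Icc 1 Y, |T0 h N - T1 h N|) +
        (∑ h ∈ Box H, ∑ N ∈ Icc 1 Y, |T1 h N - T2 h N|) +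
        (∑ h ∈ Box H, ∑ N ∈ Icc 1 Y, |T2 h N - T3 h N|) +
        (∑ h ∈ Box H, ∑ N ∈ Icc 1 Y, |T3 h N - T4 h N|) +
        (∑ h ∈ Box H, ∑ N ∈ Icc 1 Y, |T4 h N - T5 h N|) := by
        simp only [Finset.sum_add_distrib]
    _ ≤ ε / 8 * Y * X * vol H + ε / 8 * Y * X * vol H + ε / 8 * Y * X * vol H +
        ε / 4 * Y * X * vol H + ε / 8 * Y * X * vol H :=
        add_le_add (add_le_add (add_le_add (add_le_add s01 s12) s23) s34) s45
    _ ≤ ε * Y * X * vol H := by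
        have : 0 ≤ ε * Y * X * vol H := by positivity
        linarith

end Pool.Agent.Lib.H59X
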