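import Pool.Agent.Lib.H59X.Z2
import Pool.Agent.Lib.H59X.Z3

/-!
# Chunk Z4: the exceptional pairs `(N, h)`
-/

open Finset Polynomial

namespace Pool.Agent.Lib.H59X

open Pool.Agent.Lib.H59 (argSet argCount Admissible primeCount omegaN seriesTrunc rootCount)
open Pool.Agent.Lib.H68T (lp)
open Pool.Agent.Lib.H33B (Lq Lw PW SieveWt)

/-- The main term for `g + r + 1` polynomials. -/
noncomputable def mT {g : ℕ} (P : Fin g → ℤ[X]) (r : ℕ) (G : ℤ[X]) (N : ℕ) : ℝ :=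
  (argCount G N : ℝ) / Real.log (argCount G N) ^ (g + r + 1) *
    ((G.natDegree : ℝ) * ∏ i, ((P i).natDegree : ℝ))⁻¹

theorem z4_QQ {g : ℕ} (B : ℤ[X]) (P : Fin g → ℤ[X]) (G : ℤ[X]) (h : Fin g → ℕ) (N : ℕ) :
    QQ B (Fin.cons (-G) P : Fin (g + 1) → ℤ[X]) (Fin.cons N h) = QQ B P h * (C (N : ℤ) - G) := by
  unfold QQ
  rw [Fin.prod_univ_succ]
  have h1 : fam (Fin.cons (-G) P : Fin (g + 1) → ℤ[X]) (Fin.cons N h) 0 = C (N : ℤ) - G := by
    unfold fam
    rw [Fin.cons_zero, Fin.cons_zero]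
    ring
  have h2 : ∀ i : Fin g, fam (Fin.cons (-G) P : Fin (g + 1) → ℤ[X]) (Fin.cons N h) i.succ = fam P h i := by
    intro i
    unfold fam
    rw [Fin.cons_succ, Fin.cons_succ]
  rw [h1, prod_congr rfl fun i _ => h2 i]
  ring

theorem z4_cardBox {g : ℕ} (H : Fin g → ℕ) : ((Box H).card : ℝ) = vol H := by
  unfold Box vol
  rw [Fintype.card_piFinset]
  push_cast
  refine prod_congr rfl fun i _ => ?_
  rw [Nat.card_Icc, Nat.add_sub_cancel]

theorem z4_vol {g : ℕ} (H : Fin g → ℕ) (Y : ℕ) : vol (Fin.cons Y H : Fin (g + 1) → ℕ) = Y * vol H := by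
  unfold vol
  rw [Fin.prod_univ_succ, Fin.cons_zero]
  simp only [Fin.cons_succ]

/-- The sizes of `argCount G N` for `δ Y ≤ N ≤ Y`, and their logarithms. -/
theorem z4_size (G : ℤ[X]) (hG : 1 ≤ G.natDegree) (hlc : 0 < G.leadingCoeff) (m : ℕ) (δ ε : ℝ)
    (hδ0 : 0 < δ) (hδ1 : δ ≤ 1) (hε : 0 < ε) (M : ℕ) :
    ∃ Y₀ : ℕ, ∀ Y : ℕ, Y₀ ≤ Y → M ≤ argCount G Y ∧ ∀ N : ℕ, N ≤ Y → δ * Y ≤ N →
      M ≤ argCount G N ∧ δ / 4 * argCount G Y ≤ argCount G N ∧ argCount G N ≤ argCount G Y ∧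
      1 ≤ (Real.log (argCount G Y) / Real.log (argCount G N)) ^ m ∧
      (Real.log (argCount G Y) / Real.log (argCount G N)) ^ m ≤ 1 + ε := by
  have hlc1 : (1 : ℝ) ≤ G.leadingCoeff := by exact_mod_cast hlc
  obtain ⟨Y₁, hmono⟩ := H33B.AC_mono G hG hlc
  have hpow := H33B.argCount_pow G hG hlc
  obtain ⟨a, ha⟩ : ∃ a : ℝ, a = ((G.leadingCoeff : ℝ))⁻¹ := ⟨_, rfl⟩
  rw [← ha] at hpow
  have ha0 : 0 < a := by rw [ha]; positivity
  obtain ⟨Y₂, hY₂⟩ := Filter.eventually_atTop.1 ((hpow.eventually_const_lt (show a / 2 < a by linarith)).and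
    (hpow.eventually_lt_const (show a < 2 * a by linarith)))
  have htend := Pool.Agent.Lib.H59.argCount_tendsto hG hlc
  obtain ⟨Y₃, hY₃⟩ := Filter.eventually_atTop.1 (htend.eventually_ge_atTop (max 3 M))
  -- the logarithms
  have hlog : Filter.Tendsto (fun t : ℝ => (t / (t + Real.log (δ / 4))) ^ m) Filter.atTop (nhds 1) := by
    have h1 : Filter.Tendsto (fun t : ℝ => t / (t + Real.log (δ / 4))) Filter.atTop (nhds 1) := by
      have h2 : Filter.Tendsto (fun t : ℝ => 1 - Real.log (δ / 4) / (t + Real.log (δ / 4))) Filter.atTop (nhds (1 - 0)) := by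
        refine tendsto_const_nhds.sub ?_
        exact (Filter.tendsto_atTop_add_const_right _ _ Filter.tendsto_id).const_div_atTop _
      rw [sub_zero] at h2
      refine h2.congr' ?_
      filter_upwards [Filter.eventually_gt_atTop (-Real.log (δ / 4))] with t ht
      have h3 : t + Real.log (δ / 4) ≠ 0 := by linarith
      field_simp
      ring
    have h2 := h1.pow m
    rwa [one_pow] at h2
  have hlogX : Filter.Tendsto (fun Y : ℕ => Real.log (argCount G Y)) Filter.atTop Filter.atTop :=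
    Real.tendsto_log_atTop.comp (tendsto_natCast_atTop_atTop.comp htend)
  obtain ⟨Y₄, hY₄⟩ := Filter.eventually_atTop.1 (((hlog.comp hlogX).eventually_lt_const
    (show (1 : ℝ) < 1 + ε by linarith)).and (hlogX.eventually_gt_atTop (-Real.log (δ / 4))))
  refine ⟨max (max Y₁ Y₄) ⌈((max Y₂ Y₃ : ℕ) : ℝ) / δ⌉₊, fun Y hY => ?_⟩
  have hYa : Y₁ ≤ Y := (le_max_left _ _).trans ((le_max_left _ _).trans hY)
  have hYb : Y₄ ≤ Y := (le_max_right _ _).trans ((le_max_left _ _).trans hY)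
  have hYc : ((max Y₂ Y₃ : ℕ) : ℝ) / δ ≤ Y := (Nat.le_ceil _).trans (by exact_mod_cast (le_max_right _ _).trans hY)
  have hNall : ∀ N : ℕ, δ * Y ≤ N → Y₂ ≤ N ∧ Y₃ ≤ N := by
    intro N hN
    rw [div_le_iff₀ hδ0] at hYc
    have h1 : ((max Y₂ Y₃ : ℕ) : ℝ) ≤ N := by linarith
    have h2 : max Y₂ Y₃ ≤ N := by exact_mod_cast h1
    exact ⟨(le_max_left _ _).trans h2, (le_max_right _ _).trans h2⟩
  have hYY : δ * Y ≤ Y := by
    have : (0 : ℝ) ≤ Y := Nat.cast_nonneg _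
    nlinarith
  obtain ⟨hY2, hY3⟩ := hNall Y hYY
  refine ⟨(le_max_right _ _).trans (hY₃ Y hY3), fun N hNY hN => ?_⟩
  obtain ⟨hN2, hN3⟩ := hNall N hN
  have hle : argCount G N ≤ argCount G Y := hmono N Y hYa hNY
  have hx3 : 3 ≤ argCount G N := (le_max_left _ _).trans (hY₃ N hN3)
  obtain ⟨hp1, -⟩ := hY₂ N hN2
  obtain ⟨-, hp2⟩ := hY₂ Y hY2
  obtain ⟨x, hx⟩ : ∃ x : ℕ, x = argCount G N := ⟨_, rfl⟩
  obtain ⟨X, hX⟩ : ∃ X : ℕ, X = argCount G Y := ⟨_, rfl⟩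
  obtain ⟨hl1, hl2⟩ := hY₄ Y hYb
  simp only [Function.comp_apply] at hl1
  rw [← hx] at hle hx3 hp1 ⊢
  rw [← hX] at hle hp2 hl1 hl2 ⊢
  have hxpos : (0 : ℝ) < x := by exact_mod_cast (by omega : 0 < x)
  have hXx : (x : ℝ) ≤ X := by exact_mod_cast hle
  have hYpos : (0 : ℝ) < Y := by
    rcases Nat.eq_zero_or_pos Y with h0 | h0
    · rw [h0, Nat.cast_zero, div_zero] at hp2
      rw [h0] at hNY
      have h4 : N = 0 := by omega
      rw [h4, Nat.cast_zero, div_zero] at hp1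
      linarith
    · exact_mod_cast h0
  have hNpos : (0 : ℝ) < N := lt_of_lt_of_le (by positivity) hN
  have hbd : δ / 4 * X ≤ x := by
    by_contra hcon
    push Not at hcon
    have hX0 : (0 : ℝ) ≤ X := Nat.cast_nonneg _
    rw [lt_div_iff₀ hNpos] at hp1
    rw [div_lt_iff₀ hYpos] at hp2
    have h1 : (x : ℝ) ^ G.natDegree ≤ (δ / 4 * X) ^ G.natDegree := pow_le_pow_left₀ hxpos.le hcon.le _
    rw [mul_pow] at h1
    have h2 : (δ / 4) ^ G.natDegree ≤ δ / 4 := pow_le_of_le_one (by positivity) (by linarith) (by omega)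
    have h3 : (δ / 4) ^ G.natDegree * (X : ℝ) ^ G.natDegree ≤ δ / 4 * (X : ℝ) ^ G.natDegree :=
      mul_le_mul_of_nonneg_right h2 (by positivity)
    have h4 : δ / 4 * (X : ℝ) ^ G.natDegree < δ / 4 * (2 * a * Y) := mul_lt_mul_of_pos_left hp2 (by positivity)
    have h5 : a / 2 * (δ * Y) ≤ a / 2 * N := mul_le_mul_of_nonneg_left hN (by positivity)
    nlinarith
  have hlx : 0 < Real.log x := Real.log_pos (by exact_mod_cast (by omega : 1 < x))
  have hlxX : Real.log x ≤ Real.log X := Real.log_le_log hxpos hXx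
  have hXpos : (0 : ℝ) < X := hxpos.trans_le hXx
  have hlow : Real.log X + Real.log (δ / 4) ≤ Real.log x := by
    rw [add_comm, ← Real.log_mul (by positivity) (by positivity)]
    exact Real.log_le_log (by positivity) hbd
  refine ⟨(le_max_right _ _).trans (by rw [hx]; exact hY₃ N hN3), hbd, hle, ?_, ?_⟩
  · exact one_le_pow₀ ((one_le_div hlx).2 hlxX)
  · refine le_trans ?_ hl1.le
    refine pow_le_pow_left₀ (by positivity) ?_ m
    exact div_le_div_of_nonneg_left (hlx.le.trans hlxX) (by linarith) hlow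

open Classical in
/-- Proof. `X = argCount G Y`, `L = log X`, `X_N = argCount G N`, `m = g + r + 1`, `s = ssz …`. Let `δ = ε/4`; the `N < δ Y` give at most `(ε/4) Y vol H` pairs (for large `Y`, `#{N < δ Y} ≤ δ Y`; `#Box H = vol H`).
For `N ≥ δ Y` and large `Y`: `c X ≤ X_N ≤ X` with `c = c(δ) > 0` (`H33B.argCount_pow`), and `ρ = (L/log X_N)^m ∈ [1, 1 + ε/4]` (`log X_N ≥ L + log c`; if `ε > 1` replace `ε` by `1` first: the statement is weaker for larger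
`ε`). Multiplying by `k ∏ d_i L^m`, a pair of the filter satisfies `|T - ρ X_N s| > ε ρ X_N s` with `T = k ∏ d_i L^m cntN`, hence `|T - X_N s| > (ε ρ - (ρ - 1)) X_N s ≥ (ε/2) X_N s`.
By `inv_box` for the family `Fin.cons (-G) P` and the box `Fin.cons Y H` (as in `mix_box_N`) at most `(ε/4) Y vol H` pairs have `0 < s < σ` (`C σ ≤ ε/4`); for the others the left hand side is `> (ε/2) c X σ`, and `l1_avg` with
`ε' = (ε/4)(ε/2) c σ` bounds their number by `(ε/4) Y vol H`. (`Bas' r B` gives `Bas A r B` for large `A`.) -/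
theorem exc_avg {g : ℕ} (G : ℤ[X]) (hG : 1 ≤ G.natDegree) (hlc : 0 < G.leadingCoeff)
    (P : Fin g → ℤ[X]) (hP : ∀ i, 1 ≤ (P i).natDegree) (hl : ∀ i, 0 < (P i).leadingCoeff)
    (r : ℕ) (B : ℤ[X]) (hB : Bas' r B) (C₁ : ℝ) (hC₁ : 1 ≤ C₁) (ε : ℝ) (hε : 0 < ε) :
    ∃ z₀ : ℕ, ∀ z : ℕ, z₀ ≤ z → ∃ Y₀ : ℕ, ∀ Y : ℕ, Y₀ ≤ Y → ∀ H : Fin g → ℕ,
    Fit C₁ (argCount G Y) P H →
    (((Icc 1 Y ×ˢ Box H).filter (fun x : ℕ × (Fin g → ℕ) =>
      0 < ssz (r + g + 1) (QQ B P x.2 * (C (x.1 : ℤ) - G)) z ∧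
      ε * (mT P r G x.1 * ssz (r + g + 1) (QQ B P x.2 * (C (x.1 : ℤ) - G)) z) <
        |cntN r B P G x.2 x.1 (argCount G Y) -
          mT P r G x.1 * ssz (r + g + 1) (QQ B P x.2 * (C (x.1 : ℤ) - G)) z|)).card : ℝ) ≤
      ε * Y * vol H := by
  -- we may assume `ε ≤ 1`
  suffices hmain : ∀ ε : ℝ, 0 < ε → ε ≤ 1 → ∃ z₀ : ℕ, ∀ z : ℕ, z₀ ≤ z → ∃ Y₀ : ℕ, ∀ Y : ℕ, Y₀ ≤ Y → ∀ H : Fin g → ℕ,
      Fit C₁ (argCount G Y) P H →
      (((Icc 1 Y ×ˢ Box H).filter (fun x : ℕ × (Fin g → ℕ) =>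
        0 < ssz (r + g + 1) (QQ B P x.2 * (C (x.1 : ℤ) - G)) z ∧
        ε * (mT P r G x.1 * ssz (r + g + 1) (QQ B P x.2 * (C (x.1 : ℤ) - G)) z) <
          |cntN r B P G x.2 x.1 (argCount G Y) -
            mT P r G x.1 * ssz (r + g + 1) (QQ B P x.2 * (C (x.1 : ℤ) - G)) z|)).card : ℝ) ≤
        ε * Y * vol H by
    obtain ⟨z₀, hz₀⟩ := hmain (min ε 1) (lt_min hε one_pos) (min_le_right _ _)
    refine ⟨z₀, fun z hz => ?_⟩
    obtain ⟨Y₀, hY₀⟩ := hz₀ z hz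
    refine ⟨Y₀, fun Y hY H hH => ?_⟩
    have hv : 0 ≤ (Y : ℝ) * vol H := by unfold vol; positivity
    have h1 : min ε 1 * Y * vol H ≤ ε * Y * vol H := by
      rw [mul_assoc, mul_assoc]
      exact mul_le_mul_of_nonneg_right (min_le_left _ _) hv
    refine le_trans (Nat.cast_le.2 (card_le_card fun x hx => ?_)) ((hY₀ Y hY H hH).trans h1)
    rw [mem_filter] at hx ⊢
    refine ⟨hx.1, hx.2.1, lt_of_le_of_lt ?_ hx.2.2⟩
    refine mul_le_mul_of_nonneg_right (min_le_left _ _) ?_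
    refine mul_nonneg ?_ hx.2.1.le
    unfold mT
    have := Real.log_natCast_nonneg (argCount G x.1)
    positivity
  intro ε hε hε1
  obtain ⟨A, hA⟩ : ∃ A : ℕ, A = (∑ i, ((P i).natDegree + (P i).leadingCoeff.natAbs)) + G.leadingCoeff.natAbs +
      G.natDegree + B.leadingCoeff.natAbs := ⟨_, rfl⟩
  have hAi : ∀ i, (P i).natDegree + (P i).leadingCoeff.natAbs ≤ A := by
    intro i
    have h1 := single_le_sum (f := fun i => (P i).natDegree + (P i).leadingCoeff.natAbs) (fun _ _ => Nat.zero_le _) (mem_univ i)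
    omega
  have hPol : Pol A (Fin.cons (-G) P : Fin (g + 1) → ℤ[X]) := by
    refine ⟨fun i => ?_, fun i => ?_, fun i => ?_⟩
    · refine Fin.cases ?_ (fun j => ?_) i
      · rw [Fin.cons_zero, natDegree_neg]
        exact hG
      · rw [Fin.cons_succ]
        exact hP j
    · refine Fin.cases ?_ (fun j => ?_) i
      · rw [Fin.cons_zero, natDegree_neg]
        omega
      · rw [Fin.cons_succ]
        have := hAi j
        omega
    · refine Fin.cases ?_ (fun j => ?_) i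
      · rw [Fin.cons_zero, leadingCoeff_neg, Int.natAbs_neg]
        omega
      · rw [Fin.cons_succ]
        have := hAi j
        omega
  have hBas : Bas A r B := by
    rcases hB with ⟨h1, h2⟩ | ⟨h1, h2, h3⟩
    · exact Or.inl ⟨h1, h2⟩
    · exact Or.inr ⟨h1, h2, by omega⟩
  obtain ⟨K, hK, hinv⟩ := inv_box (g + 1) A
  obtain ⟨δ, hδ⟩ : ∃ δ : ℝ, δ = ε / 4 := ⟨_, rfl⟩
  have hδ0 : 0 < δ := by rw [hδ]; positivity
  have hδ1 : δ ≤ 1 := by rw [hδ]; linarith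
  obtain ⟨σ, hσ⟩ : ∃ σ : ℝ, σ = ε / (4 * K) := ⟨_, rfl⟩
  have hσ0 : 0 < σ := by rw [hσ]; positivity
  obtain ⟨z₀, hz₀⟩ := l1_avg G hG hlc P hP hl r B hB C₁ hC₁ (ε / 4 * (ε / 2 * (δ / 4) * σ)) (by positivity)
  refine ⟨z₀, fun z hz => ?_⟩
  obtain ⟨Y₀, hY₀⟩ := hz₀ z hz
  obtain ⟨H₀, hH₀⟩ := hinv z
  obtain ⟨Y₁, hY₁⟩ := z4_size G hG hlc (g + r + 1) δ (ε / 4) hδ0 hδ1 (by positivity) (max 3 ⌈C₁ * H₀⌉₊)
  refine ⟨max (max Y₀ Y₁) H₀, fun Y hY H hH => ?_⟩
  have hYa : Y₀ ≤ Y := (le_max_left _ _).trans ((le_max_left _ _).trans hY)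
  have hYb : Y₁ ≤ Y := (le_max_right _ _).trans ((le_max_left _ _).trans hY)
  have hYc : H₀ ≤ Y := (le_max_right _ _).trans hY
  obtain ⟨hXM, hsize⟩ := hY₁ Y hYb
  have hsum := hY₀ Y hYa H hH
  obtain ⟨X, hX⟩ : ∃ X : ℕ, X = argCount G Y := ⟨_, rfl⟩
  rw [← hX] at hXM hH hsize hsum ⊢
  have hX3 : 3 ≤ X := (le_max_left _ _).trans hXM
  have hXH : C₁ * H₀ ≤ X := (Nat.le_ceil _).trans (by exact_mod_cast (le_max_right _ _).trans hXM)
  have hX0 : (0 : ℝ) < X := by exact_mod_cast (by omega : 0 < X)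
  have hX1 : (1 : ℝ) ≤ X := by exact_mod_cast (by omega : 1 ≤ X)
  have hL0 : 0 < Real.log X := Real.log_pos (by exact_mod_cast (by omega : 1 < X))
  have hHi : ∀ i, H₀ ≤ H i := by
    intro i
    have h1 := hH.lo i
    have h2 : (X : ℝ) ≤ (X : ℝ) ^ (P i).natDegree := le_self_pow₀ hX1 (by have := hP i; omega)
    have h3 : C₁ * (H₀ : ℝ) ≤ C₁ * H i := hXH.trans (h2.trans h1)
    have h4 : (H₀ : ℝ) ≤ H i := le_of_mul_le_mul_left h3 (by linarith)
    exact_mod_cast h4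
  have hk0 : (0 : ℝ) < G.natDegree := by exact_mod_cast hG
  have hD0' : (0 : ℝ) < ∏ i, ((P i).natDegree : ℝ) := prod_pos fun i _ => by exact_mod_cast hP i
  obtain ⟨D, hD⟩ : ∃ D : ℝ, D = (G.natDegree : ℝ) * ∏ i, ((P i).natDegree : ℝ) := ⟨_, rfl⟩
  have hD0 : 0 < D := by rw [hD]; positivity
  have hmT : ∀ N, mT P r G N = (argCount G N : ℝ) / Real.log (argCount G N) ^ (g + r + 1) * D⁻¹ := by
    intro N
    unfold mT
    rw [hD]
  have hvol0 : 0 ≤ vol H := by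
    unfold vol
    positivity
  rw [← hD] at hsum
  have hbox := hH₀ (Fin.cons Y H : Fin (g + 1) → ℕ) (fun i => by
    refine Fin.cases ?_ (fun j => ?_) i
    · rw [Fin.cons_zero]
      exact hYc
    · rw [Fin.cons_succ]
      exact hHi j) _ hPol r B hBas σ hσ0
  rw [z4_vol] at hbox
  obtain ⟨S, hS⟩ : ∃ S : ℕ × (Fin g → ℕ) → ℝ, S = fun x => ssz (r + g + 1) (QQ B P x.2 * (C (x.1 : ℤ) - G)) z := ⟨_, rfl⟩
  obtain ⟨T, hT⟩ : ∃ T : ℕ × (Fin g → ℕ) → ℝ, T = fun x => D * Real.log X ^ (g + r + 1) * cntN r B P G x.2 x.1 X := ⟨_, rfl⟩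
  obtain ⟨E, hE⟩ : ∃ E : Finset (ℕ × (Fin g → ℕ)), E = (Icc 1 Y ×ˢ Box H).filter (fun x : ℕ × (Fin g → ℕ) =>
        0 < ssz (r + g + 1) (QQ B P x.2 * (C (x.1 : ℤ) - G)) z ∧
        ε * (mT P r G x.1 * ssz (r + g + 1) (QQ B P x.2 * (C (x.1 : ℤ) - G)) z) <
          |cntN r B P G x.2 x.1 X -
            mT P r G x.1 * ssz (r + g + 1) (QQ B P x.2 * (C (x.1 : ℤ) - G)) z|) := ⟨_, rfl⟩
  rw [← hE]
  have hEsub : E ⊆ Icc 1 Y ×ˢ Box H := by
    rw [hE]
    exact filter_subset _ _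
  have hkey : ∀ x ∈ E, δ * Y ≤ x.1 → 0 < S x ∧ ε / 2 * (δ / 4 * X) * S x < |T x - argCount G x.1 * S x| := by
    intro x hx hxδ
    have hxY : x.1 ≤ Y := (mem_Icc.1 (mem_product.1 (hEsub hx)).1).2
    rw [hE, mem_filter] at hx
    obtain ⟨-, h1, hlt⟩ := hx
    obtain ⟨hM1, hcX, -, hρ1, hρ2⟩ := hsize x.1 hxY hxδ
    have hxn3 : 3 ≤ argCount G x.1 := (le_max_left _ _).trans hM1
    have hlx : 0 < Real.log (argCount G x.1) := Real.log_pos (by exact_mod_cast (by omega : 1 < argCount G x.1))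
    have hSx : ssz (r + g + 1) (QQ B P x.2 * (C (x.1 : ℤ) - G)) z = S x := by rw [hS]
    rw [hSx] at h1 hlt
    rw [hmT] at hlt
    refine ⟨h1, ?_⟩
    obtain ⟨ρ, hρ⟩ : ∃ ρ : ℝ, ρ = (Real.log X / Real.log (argCount G x.1)) ^ (g + r + 1) := ⟨_, rfl⟩
    rw [← hρ] at hρ1 hρ2
    obtain ⟨n, hn⟩ : ∃ n : ℝ, n = (argCount G x.1 : ℝ) := ⟨_, rfl⟩
    have hMpos : (0 : ℝ) < D * Real.log X ^ (g + r + 1) := by positivity
    have h2 := mul_lt_mul_of_pos_left hlt hMpos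
    have h5 : D * Real.log X ^ (g + r + 1) *
        ((argCount G x.1 : ℝ) / Real.log (argCount G x.1) ^ (g + r + 1) * D⁻¹ * S x) = ρ * n * S x := by
      rw [hρ, hn, div_pow]
      field_simp
    have h3 : D * Real.log X ^ (g + r + 1) *
        (ε * ((argCount G x.1 : ℝ) / Real.log (argCount G x.1) ^ (g + r + 1) * D⁻¹ * S x)) = ε * (ρ * n * S x) := by
      rw [← h5]
      ring
    have h4 : D * Real.log X ^ (g + r + 1) * |cntN r B P G x.2 x.1 X -
        (argCount G x.1 : ℝ) / Real.log (argCount G x.1) ^ (g + r + 1) * D⁻¹ * S x| =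
        |T x - ρ * n * S x| := by
      have h6 : T x = D * Real.log X ^ (g + r + 1) * cntN r B P G x.2 x.1 X := by rw [hT]
      rw [h6, ← h5, ← mul_sub, abs_mul, abs_of_pos hMpos]
    rw [h3, h4] at h2
    rw [← hn] at hcX ⊢
    have hn0 : 0 < n := by
      rw [hn]
      exact_mod_cast (by omega : 0 < argCount G x.1)
    have h7 : |T x - ρ * n * S x| ≤ |T x - n * S x| + (ρ - 1) * n * S x := by
      have h8 : T x - ρ * n * S x = (T x - n * S x) - (ρ - 1) * n * S x := by ring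
      rw [h8]
      refine (abs_sub _ _).trans (le_of_eq ?_)
      rw [abs_of_nonneg (a := (ρ - 1) * n * S x) (mul_nonneg (mul_nonneg (by linarith) hn0.le) h1.le)]
    have h9 : 0 < n * S x := mul_pos hn0 h1
    have h10 : ε / 2 * (δ / 4 * X) * S x ≤ ε / 2 * (n * S x) := by
      rw [mul_assoc]
      exact mul_le_mul_of_nonneg_left (mul_le_mul_of_nonneg_right hcX h1.le) (by positivity)
    have h11 : ε * (n * S x) ≤ ε * (ρ * n * S x) := by
      have h12 : n * S x ≤ ρ * n * S x := by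
        rw [mul_assoc]
        exact le_mul_of_one_le_left h9.le hρ1
      exact mul_le_mul_of_nonneg_left h12 hε.le
    have h13 : (ρ - 1) * n * S x ≤ ε / 4 * (n * S x) := by
      rw [mul_assoc]
      exact mul_le_mul_of_nonneg_right (by linarith) h9.le
    have h14 : 0 < ε * (n * S x) := mul_pos hε h9
    linarith
  -- the three parts
  obtain ⟨E1, hE1⟩ : ∃ E1 : Finset (ℕ × (Fin g → ℕ)), E1 = E.filter (fun x => (x.1 : ℝ) < δ * Y) := ⟨_, rfl⟩
  obtain ⟨E2, hE2⟩ : ∃ E2 : Finset (ℕ × (Fin g → ℕ)), E2 = E.filter (fun x => δ * Y ≤ x.1 ∧ S x < σ) := ⟨_, rfl⟩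
  obtain ⟨E3, hE3⟩ : ∃ E3 : Finset (ℕ × (Fin g → ℕ)), E3 = E.filter (fun x => δ * Y ≤ x.1 ∧ σ ≤ S x) := ⟨_, rfl⟩
  have hsplit : E ⊆ E1 ∪ (E2 ∪ E3) := by
    intro x hx
    rw [mem_union, mem_union, hE1, hE2, hE3, mem_filter, mem_filter, mem_filter]
    rcases lt_or_ge (x.1 : ℝ) (δ * Y) with h1 | h1
    · exact Or.inl ⟨hx, h1⟩
    · rcases lt_or_ge (S x) σ with h2 | h2
      · exact Or.inr (Or.inl ⟨hx, h1, h2⟩)
      · exact Or.inr (Or.inr ⟨hx, h1, h2⟩)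
  have hcard : (E.card : ℝ) ≤ E1.card + (E2.card + E3.card) := by
    have h1 := (card_le_card hsplit).trans ((card_union_le _ _).trans (Nat.add_le_add_left (card_union_le _ _) _))
    exact_mod_cast h1
  have hc1 : (E1.card : ℝ) ≤ δ * Y * vol H := by
    have h1 : E1 ⊆ Icc 1 ⌊δ * Y⌋₊ ×ˢ Box H := by
      intro x hx
      rw [hE1, mem_filter] at hx
      have h2 := mem_product.1 (hEsub hx.1)
      rw [mem_product, mem_Icc]
      exact ⟨⟨(mem_Icc.1 h2.1).1, Nat.le_floor hx.2.le⟩, h2.2⟩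
    have h2 : (E1.card : ℝ) ≤ ((⌊δ * Y⌋₊ : ℕ) : ℝ) * vol H := by
      rw [← z4_cardBox]
      have h3 := card_le_card h1
      rw [card_product, Nat.card_Icc, Nat.add_sub_cancel] at h3
      exact_mod_cast h3
    refine h2.trans (mul_le_mul_of_nonneg_right (Nat.floor_le (by positivity)) hvol0)
  have hc2 : (E2.card : ℝ) ≤ K * σ * (Y * vol H) := by
    refine le_trans (Nat.cast_le.2 ?_) hbox
    refine card_le_card_of_injOn (fun x => (Fin.cons x.1 x.2 : Fin (g + 1) → ℕ)) ?_ ?_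
    · intro x hx
      rw [Finset.mem_coe, hE2, mem_filter] at hx
      have h2 := mem_product.1 (hEsub hx.1)
      have h3 := (hkey x hx.1 hx.2.1).1
      have h4 := hx.2.2
      rw [hS] at h3 h4
      simp only at h3 h4
      show (Fin.cons x.1 x.2 : Fin (g + 1) → ℕ) ∈ _
      rw [Finset.mem_coe, mem_filter]
      refine ⟨?_, ?_, ?_⟩
      · unfold Box
        rw [Fintype.mem_piFinset]
        intro i
        refine Fin.cases ?_ (fun j => ?_) i
        · rw [Fin.cons_zero, Fin.cons_zero]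
          exact h2.1
        · rw [Fin.cons_succ, Fin.cons_succ]
          exact (Fintype.mem_piFinset.1 h2.2) j
      · rw [z4_QQ, ← add_assoc]
        exact h3
      · rw [z4_QQ, ← add_assoc]
        exact h4
    · intro x _ y _ hxy
      have h1 := congrFun hxy 0
      simp only [Fin.cons_zero] at h1
      refine Prod.ext h1 (funext fun j => ?_)
      have h2 := congrFun hxy j.succ
      simp only [Fin.cons_succ] at h2
      exact h2
  have hc3 : (E3.card : ℝ) ≤ ε / 4 * (Y * vol H) := by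
    have h1 : (E3.card : ℝ) * (ε / 2 * (δ / 4 * X) * σ) ≤ ∑ x ∈ E3, |T x - argCount G x.1 * S x| := by
      rw [← nsmul_eq_mul]
      refine card_nsmul_le_sum _ _ _ fun x hx => ?_
      rw [hE3, mem_filter] at hx
      refine le_trans ?_ (hkey x hx.1 hx.2.1).2.le
      exact mul_le_mul_of_nonneg_left hx.2.2 (by positivity)
    have h2 : E3 ⊆ Icc 1 Y ×ˢ Box H := by
      rw [hE3]
      exact (filter_subset _ _).trans hEsub
    have h3 := sum_le_sum_of_subset_of_nonneg (f := fun x : ℕ × (Fin g → ℕ) => |T x - argCount G x.1 * S x|) h2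
      (fun _ _ _ => abs_nonneg _)
    rw [sum_product_right] at h3
    have h4 : ∑ h ∈ Box H, ∑ N ∈ Icc 1 Y, |T (N, h) - argCount G N * S (N, h)| ≤
        ε / 4 * (ε / 2 * (δ / 4) * σ) * Y * X * vol H := by
      refine le_trans (le_of_eq ?_) hsum
      rw [hT, hS]
    have h5 := h1.trans (h3.trans h4)
    have h6 : (0 : ℝ) < ε / 2 * (δ / 4 * X) * σ := by positivity
    have h7 : ε / 4 * (ε / 2 * (δ / 4) * σ) * Y * X * vol H =
        (ε / 4 * (Y * vol H)) * (ε / 2 * (δ / 4 * X) * σ) := by ring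
    rw [h7] at h5
    exact le_of_mul_le_mul_right h5 h6
  have hKσ : K * σ = ε / 4 := by
    rw [hσ]
    field_simp
  rw [hKσ] at hc2
  have hYv : 0 ≤ (Y : ℝ) * vol H := by positivity
  have h1 : δ * Y * vol H = ε / 4 * (Y * vol H) := by
    rw [hδ]
    ring
  rw [h1] at hc1
  have h2 : ε * Y * vol H = ε * (Y * vol H) := by ring
  rw [h2]
  nlinarith

end Pool.Agent.Lib.H59X
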