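import Pool.Agent.Lib.H59X.Z4

/-!
# Chunk Z5: `Q_1(N)` and the singular series of the final theorems
-/

open Finset Polynomial

namespace Pool.Agent.Lib.H59X

open Pool.Agent.Lib.H59 (argSet argCount Admissible primeCount omegaN seriesTrunc rootCount)
open Pool.Agent.Lib.H68T (lp)
open Pool.Agent.Lib.H33B (Lq Lw PW SieveWt)

theorem Z5_pr (m : ℤ) : (∃ q : ℕ, q.Prime ∧ m = q) ↔ m.toNat.Prime := by
  constructor
  · rintro ⟨q, hq, rfl⟩
    rwa [Int.toNat_natCast]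
  · intro h
    exact ⟨m.toNat, h, by have := h.pos; omega⟩

theorem Z5_prod {m : ℕ} (F : Fin m → ℤ[X]) (n : ℕ) :
    ∏ i, pr ((F i).eval (n : ℤ)) =
      if ∀ i, ((F i).eval (n : ℤ)).toNat.Prime then 1 else 0 := by
  classical
  unfold pr
  rw [Finset.prod_ite_zero]
  simp only [prod_const_one, mem_univ, true_implies]

theorem Z5_count {m : ℕ} (G : ℤ[X]) (hG : 1 ≤ G.natDegree) (hlc : 0 < G.leadingCoeff) :
    ∃ Y₀ : ℕ, ∀ Y N : ℕ, Y₀ ≤ Y → N ≤ Y → ∀ F : Fin m → ℤ[X],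
    (primeCount F G N : ℝ) = ∑ n ∈ (Icc 1 (argCount G Y)).filter (fun n : ℕ => G.eval (n : ℤ) < N),
      (∏ i, pr ((F i).eval (n : ℤ))) * pr ((N : ℤ) - G.eval (n : ℤ)) := by
  classical
  obtain ⟨Y₀, hY₀⟩ := H57M.argSet_eq G hG hlc
  refine ⟨Y₀, fun Y N hY hN F => ?_⟩
  have hset : {n : ℕ | n ∈ argSet G N ∧ (∀ i, ∃ q : ℕ, q.Prime ∧ (F i).eval (n : ℤ) = q) ∧
      ∃ q : ℕ, q.Prime ∧ (N : ℤ) - G.eval (n : ℤ) = q} =
      (((Icc 1 (argCount G Y)).filter (fun n : ℕ => G.eval (n : ℤ) < N)).filter (fun n : ℕ =>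
        (∀ i, ((F i).eval (n : ℤ)).toNat.Prime) ∧
        ((N : ℤ) - G.eval (n : ℤ)).toNat.Prime) : Finset ℕ) := by
    ext n
    simp only [Set.mem_setOf_eq, coe_filter, mem_filter, mem_Icc, Z5_pr]
    constructor
    · rintro ⟨h1, h2⟩
      have h3 : n ∈ argSet G Y := by
        obtain ⟨a, b⟩ := h1
        exact ⟨a, by omega⟩
      have h4 := (hY₀ Y hY n).1 h3
      refine ⟨⟨h4, ?_⟩, h2⟩
      have := h1.2
      omega
    · rintro ⟨⟨h1, h2⟩, h3⟩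
      refine ⟨⟨by omega, by omega⟩, h3⟩
  unfold Pool.Agent.Lib.H59.primeCount
  rw [hset, Set.ncard_coe_finset, card_filter]
  push_cast
  refine sum_congr rfl fun n _ => ?_
  rw [Z5_prod]
  unfold pr
  by_cases h1 : ∀ i, ((F i).eval (n : ℤ)).toNat.Prime
  · by_cases h2 : ((N : ℤ) - G.eval (n : ℤ)).toNat.Prime
    · rw [if_pos ⟨h1, h2⟩, if_pos h1, if_pos h2, one_mul]
    · rw [if_neg (fun h => h2 h.2), if_pos h1, if_neg h2, one_mul]
  · rw [if_neg (fun h => h1 h.1), if_neg h1, zero_mul]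

theorem Z5_fam {g : ℕ} (P : Fin g → ℤ[X]) (h : Fin g → ℕ) (i : Fin g) (n : ℕ) :
    (fam P h i).eval (n : ℤ) = (P i).eval (n : ℤ) + h i := by
  unfold fam
  rw [eval_add, eval_C]

/-- Proof. For large `Y` and `N ≤ Y`: `argSet G N ⊆ argSet G Y = [1, argCount G Y]` (`H57M.argSet_eq`), so `argSet G N = {n ≤ argCount G Y : G(n) < N}`; indicators as in `primeCount_fix`. -/
theorem primeCount_zero {g : ℕ} (G : ℤ[X]) (hG : 1 ≤ G.natDegree) (hlc : 0 < G.leadingCoeff) :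
    ∃ Y₀ : ℕ, ∀ Y N : ℕ, Y₀ ≤ Y → N ≤ Y → ∀ (P : Fin g → ℤ[X]) (h : Fin g → ℕ),
    (primeCount (fam P h) G N : ℝ) = cntN 0 1 P G h N (argCount G Y) := by
  obtain ⟨Y₀, hY₀⟩ := Z5_count (m := g) G hG hlc
  refine ⟨Y₀, fun Y N hY hN P h => ?_⟩
  rw [hY₀ Y N hY hN]
  unfold cntN pb
  refine sum_congr rfl fun n _ => ?_
  simp only [Z5_fam, if_true, one_mul]

/-- Proof. As `primeCount_zero`; `Fin.forall_fin_succ`. -/
theorem primeCount_one {g : ℕ} (G : ℤ[X]) (hG : 1 ≤ G.natDegree) (hlc : 0 < G.leadingCoeff) :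
    ∃ Y₀ : ℕ, ∀ Y N : ℕ, Y₀ ≤ Y → N ≤ Y → ∀ (B : ℤ[X]) (P : Fin g → ℤ[X]) (h : Fin g → ℕ),
    (primeCount (Fin.cons B (fam P h) : Fin (g + 1) → ℤ[X]) G N : ℝ) =
      cntN 1 B P G h N (argCount G Y) := by
  obtain ⟨Y₀, hY₀⟩ := Z5_count (m := g + 1) G hG hlc
  refine ⟨Y₀, fun Y N hY hN B P h => ?_⟩
  rw [hY₀ Y N hY hN]
  unfold cntN pb
  refine sum_congr rfl fun n _ => ?_
  rw [Fin.prod_univ_succ]
  simp only [Fin.cons_zero, Fin.cons_succ, Z5_fam, one_ne_zero, if_false]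

/-- Proof. `omegaN F G N p = rootCount ((∏ F)(C N - G)) p`. -/
theorem series_zero {g : ℕ} (P : Fin g → ℤ[X]) (G : ℤ[X]) (h : Fin g → ℕ) (N z : ℕ) :
    seriesTrunc (fam P h) G N z = ssz (0 + g + 1) (QQ 1 P h * (C (N : ℤ) - G)) z := by
  unfold Pool.Agent.Lib.H59.seriesTrunc ssz
  refine prod_congr rfl fun p _ => ?_
  have h1 : omegaN (fam P h) G N p = rootCount (QQ 1 P h * (C (N : ℤ) - G)) p := by
    unfold Pool.Agent.Lib.H59.omegaN Pool.Agent.Lib.H59.rootCount QQ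
    rw [one_mul]
  rw [h1, zero_add]

/-- Proof. As `series_zero`, `Fin.prod_univ_succ`. -/
theorem series_one {g : ℕ} (B : ℤ[X]) (P : Fin g → ℤ[X]) (G : ℤ[X]) (h : Fin g → ℕ) (N z : ℕ) :
    seriesTrunc (Fin.cons B (fam P h) : Fin (g + 1) → ℤ[X]) G N z =
      ssz (1 + g + 1) (QQ B P h * (C (N : ℤ) - G)) z := by
  unfold Pool.Agent.Lib.H59.seriesTrunc ssz
  refine prod_congr rfl fun p _ => ?_
  have h1 : omegaN (Fin.cons B (fam P h) : Fin (g + 1) → ℤ[X]) G N p =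
      rootCount (QQ B P h * (C (N : ℤ) - G)) p := by
    unfold Pool.Agent.Lib.H59.omegaN Pool.Agent.Lib.H59.rootCount QQ
    rw [Fin.prod_univ_succ]
    simp only [Fin.cons_zero, Fin.cons_succ]
  rw [h1, add_comm 1 g]

/-- Proof. `deg (P_i + h_i) = deg P_i` (`natDegree_add_C`). -/
theorem mainT_zero {g : ℕ} (P : Fin g → ℤ[X]) (G : ℤ[X]) (h : Fin g → ℕ) (N : ℕ) :
    H33B.mainT (fam P h) G N = mT P 0 G N := by
  unfold Pool.Agent.Lib.H33B.mainT mT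
  have h1 : ∀ i, (fam P h i).natDegree = (P i).natDegree := fun i => by
    unfold fam
    exact natDegree_add_C
  simp only [h1, add_zero]

/-- Proof. As `mainT_zero`, with the factor `deg B = 1`. -/
theorem mainT_one {g : ℕ} (B : ℤ[X]) (hB : B.natDegree = 1) (P : Fin g → ℤ[X]) (G : ℤ[X])
    (h : Fin g → ℕ) (N : ℕ) :
    H33B.mainT (Fin.cons B (fam P h) : Fin (g + 1) → ℤ[X]) G N = mT P 1 G N := by
  unfold Pool.Agent.Lib.H33B.mainT mT
  have h1 : ∀ i, (fam P h i).natDegree = (P i).natDegree := fun i => by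
    unfold fam
    exact natDegree_add_C
  rw [Fin.prod_univ_succ]
  simp only [Fin.cons_zero, Fin.cons_succ, h1, hB, Nat.cast_one, one_mul]

end Pool.Agent.Lib.H59X
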